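import Pool.Agent.MP_5d9b3c_ag.H48.Spec

/-!
Elementary lemmas shared by all steps.
-/

namespace Pool.Agent.MP_5d9b3c_ag.H48

open Finset Pool.Agent.MP_5d9b3c_ag.H22

section Vec

@[simp] lemma qq_none (l : ℚ) (x : V3) : qq l x none = l := rfl

@[simp] lemma qq_some (l : ℚ) (x : V3) (i : Fin 3) : qq l x (some i) = x i := rfl

lemma qq_dot (l : ℚ) (x : V3) (y : Vq) :
    qq l x ⬝ᵥ y = l * y none + x ⬝ᵥ (fun i => y (some i)) := by
  simp [dotProduct, Fintype.sum_option]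

lemma hw_dot (w : V3) (y : Vq) : hw w ⬝ᵥ y = w ⬝ᵥ (fun i => y (some i)) - y none := by
  rw [hw, qq_dot]
  ring

lemma lin_dot (g : V3) (y : Vq) : lin g ⬝ᵥ y = g ⬝ᵥ (fun i => y (some i)) := by
  rw [lin, qq_dot]
  ring

@[simp] lemma ei_dot (i : O) (y : Vq) : ei i ⬝ᵥ y = y i := by
  simp [ei]

@[simp] lemma dot_ei (i : O) (y : Vq) : y ⬝ᵥ ei i = y i := by
  simp [ei]

lemma hw_add_smul (w g : V3) (θ : ℚ) : hw (w + θ • g) = hw w + θ • lin g := by
  ext (_ | i) <;> simp [hw, lin]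

lemma dot_one3 (w : V3) : w ⬝ᵥ one3 = ∑ k, w k := by
  simp [dotProduct, one3]

lemma hw_dot_qq (w x : V3) (l : ℚ) : hw w ⬝ᵥ qq l x = w ⬝ᵥ x - l := hw_dot _ _

lemma lin_dot_qq (g x : V3) (l : ℚ) : lin g ⬝ᵥ qq l x = g ⬝ᵥ x := lin_dot _ _

lemma eq_lin (n : Vq) (w : V3) :
    n = lin (fun i => n (some i) + n none * w i) - n none • hw w := by
  ext (_ | i) <;> simp [hw, lin]

@[simp] lemma hat_zero (q : Vq) : hat q 0 = q := by
  ext i
  simp [hat]

lemma hat_none (q : Vq) (u : Pt) : hat q u none = u none + q none := rfl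

lemma hat_some (q : Vq) (u : Pt) (i : Fin 3) : hat q u (some i) = u (some i) + q (some i) := rfl

lemma three {i j k : Fin 3} (h1 : i ≠ j) (h2 : i ≠ k) (h3 : j ≠ k) (m : Fin 3) :
    m = i ∨ m = j ∨ m = k := by
  omega

lemma exists_third {i j : Fin 3} (h : i ≠ j) : ∃ k, i ≠ k ∧ j ≠ k := by
  revert i j
  decide

lemma exists_others (i : Fin 3) : ∃ j k, i ≠ j ∧ i ≠ k ∧ j ≠ k := by
  revert i
  decide

lemma sum_three {M : Type} [AddCommMonoid M] {i j k : Fin 3} (h1 : i ≠ j) (h2 : i ≠ k) (h3 : j ≠ k)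
    (f : Fin 3 → M) : ∑ m, f m = f i + f j + f k := by
  have : (univ : Finset (Fin 3)) = {i, j, k} := by
    ext m
    simpa using three h1 h2 h3 m
  rw [this, sum_insert (by simp [h1, h2]), sum_pair h3, add_assoc]

lemma dot_three {i j k : Fin 3} (h1 : i ≠ j) (h2 : i ≠ k) (h3 : j ≠ k) (x y : V3) :
    x ⬝ᵥ y = x i * y i + x j * y j + x k * y k :=
  sum_three h1 h2 h3 _

/-- The vectors orthogonal to two independent vectors form a line. -/
lemma perp_line {x y g g' : V3} (hxy : ∀ r s : ℚ, r • x + s • y = 0 → r = 0 ∧ s = 0)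
    (h1 : g ⬝ᵥ x = 0) (h2 : g ⬝ᵥ y = 0) (h3 : g' ⬝ᵥ x = 0) (h4 : g' ⬝ᵥ y = 0) (hg : g ≠ 0) :
    ∃ r : ℚ, g' = r • g := by
  have key : ∀ i j : Fin 3, g i * g' j = g j * g' i := by
    by_contra hne
    push Not at hne
    obtain ⟨i, j, hij⟩ := hne
    have hne : i ≠ j := by
      rintro rfl
      exact hij rfl
    obtain ⟨k, hik, hjk⟩ := exists_third hne
    rw [dot_three hne hik hjk] at h1 h2 h3 h4
    have hD : g i * g' j - g j * g' i ≠ 0 := sub_ne_zero.2 hij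
    have := hxy (y k) (-x k) (by
      ext m
      simp only [Pi.add_apply, Pi.smul_apply, smul_eq_mul, Pi.zero_apply]
      rcases three hne hik hjk m with rfl | rfl | rfl
      · apply mul_left_cancel₀ hD
        linear_combination (y k * g' j) * h1 - (y k * g j) * h3 - (x k * g' j) * h2 +
          (x k * g j) * h4
      · apply mul_left_cancel₀ hD
        linear_combination -(y k * g' i) * h1 + (y k * g i) * h3 + (x k * g' i) * h2 -
          (x k * g i) * h4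
      · ring)
    have hx : x k = 0 := by simpa using this.2
    have hxi : x i = 0 := by
      apply mul_left_cancel₀ hD
      rw [hx] at h1 h3
      linear_combination g' j * h1 - g j * h3
    have hxj : x j = 0 := by
      apply mul_left_cancel₀ hD
      rw [hx] at h1 h3
      linear_combination -g' i * h1 + g i * h3
    have := hxy 1 0 (by
      ext m
      rcases three hne hik hjk m with rfl | rfl | rfl <;> simp [*])
    simp at this
  obtain ⟨i, hi⟩ := Function.ne_iff.1 hg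
  have hi' : g i ≠ 0 := hi
  refine ⟨g' i / g i, ?_⟩
  ext j
  simp only [Pi.smul_apply, smul_eq_mul]
  field_simp
  linear_combination key i j

lemma indep_of_plane {x y w : V3} (hx : w ⬝ᵥ x = 1) (hy : w ⬝ᵥ y = 1) (hxy : x ≠ y) (r s : ℚ)
    (h : r • x + s • y = 0) : r = 0 ∧ s = 0 := by
  have h1 := congrArg (fun z => w ⬝ᵥ z) h
  simp only [dotProduct_add, dotProduct_smul, hx, hy, smul_eq_mul, mul_one, dotProduct_zero] at h1
  have h2 : s = -r := by linarith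
  have h3 : r = 0 := by
    by_contra h0
    apply hxy
    rw [h2, neg_smul, ← sub_eq_add_neg, ← smul_sub, smul_eq_zero] at h
    exact sub_eq_zero.1 (h.resolve_left h0)
  exact ⟨h3, by rw [h2, h3, neg_zero]⟩

/-- Two distinct points of the plane of weight one determine a wall up to a factor. -/
lemma perp {x y w g g' : V3} (hx : w ⬝ᵥ x = 1) (hy : w ⬝ᵥ y = 1) (hxy : x ≠ y)
    (h1 : g ⬝ᵥ x = 0) (h2 : g ⬝ᵥ y = 0) (h3 : g' ⬝ᵥ x = 0) (h4 : g' ⬝ᵥ y = 0) (hg : g ≠ 0) :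
    ∃ r : ℚ, g' = r • g :=
  perp_line (indep_of_plane hx hy hxy) h1 h2 h3 h4 hg

/-- Moving until a new constraint becomes active. -/
lemma push {α : Type} (S : Finset α) (x d : α → ℚ) (hx : ∀ j ∈ S, 0 ≤ x j)
    (hd : ∃ j ∈ S, d j < 0) : ∃ θ : ℚ, 0 ≤ θ ∧ (∀ j ∈ S, 0 ≤ x j + θ * d j) ∧
      ∃ j ∈ S, d j < 0 ∧ x j + θ * d j = 0 := by
  obtain ⟨j, hj, hmin⟩ := exists_min_image (S.filter (fun j => d j < 0)) (fun j => x j / (-d j))
    (by obtain ⟨j, h1, h2⟩ := hd; exact ⟨j, mem_filter.2 ⟨h1, h2⟩⟩)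
  obtain ⟨hj1, hj2⟩ := mem_filter.1 hj
  have h0 : 0 ≤ x j / (-d j) := div_nonneg (hx j hj1) (by linarith)
  refine ⟨x j / (-d j), h0, fun k hk => ?_, j, hj1, hj2, ?_⟩
  · by_cases h : d k < 0
    · have h1 := hmin k (mem_filter.2 ⟨hk, h⟩)
      rw [le_div_iff₀ (by linarith)] at h1
      linarith
    · have := mul_nonneg h0 (not_lt.1 h)
      have := hx k hk
      linarith
  · have : d j ≠ 0 := hj2.ne
    field_simp
    ring

/-- A small step keeps strict inequalities. -/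
lemma small {α : Type} (S : Finset α) (x d : α → ℚ) (hx : ∀ j ∈ S, 0 < x j) :
    ∃ ε : ℚ, 0 < ε ∧ ∀ j ∈ S, 0 < x j + ε * d j := by
  by_cases hd : ∃ j ∈ S, d j < 0
  · obtain ⟨θ, h0, h1, j, hj, h2, h3⟩ := push S x d (fun j hj => (hx j hj).le) hd
    have h4 : 0 < θ := by
      rcases h0.lt_or_eq with h | h
      · exact h
      · have := hx j hj
        rw [← h] at h3
        linarith
    refine ⟨θ / 2, by linarith, fun k hk => ?_⟩
    have := h1 k hk
    have := hx k hk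
    linarith
  · push Not at hd
    refine ⟨1, one_pos, fun k hk => ?_⟩
    have := hd k hk
    have := hx k hk
    linarith

end Vec

variable {κ : Type} [Fintype κ] [DecidableEq κ] {a : κ → Fin 3 →₀ ℕ} {c : κ → ℂ} {q : Vq}
  {T : Finset κ}

section Pts

omit [Fintype κ] [DecidableEq κ]

@[simp] lemma Ah_none (j : κ) : Ah a j none = 1 := rfl

@[simp] lemma Ah_some (j : κ) (i : Fin 3) : Ah a j (some i) = a j i := rfl

@[simp] lemma Ahq_none (j : κ) : Ahq a j none = 1 := rfl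

@[simp] lemma Ahq_some (j : κ) (i : Fin 3) : Ahq a j (some i) = a j i := rfl

lemma Ahq_eq (j : κ) : Ahq a j = qq 1 (Aq a j) := by
  ext (_ | i) <;> rfl

lemma Ah_cast (j : κ) (i : O) : ((Ah a j i : ℤ) : ℚ) = Ahq a j i := by
  simp [Ah, Ahq]

lemma hat_add (u : Pt) (j : κ) : hat q (u + Ah a j) = hat q u + Ahq a j := by
  ext i
  simp only [hat, Pi.add_apply, Int.cast_add, Ah_cast]
  ring

lemma dot_hat_add (n : Vq) (u : Pt) (j : κ) :
    n ⬝ᵥ hat q (u + Ah a j) = n ⬝ᵥ hat q u + n ⬝ᵥ Ahq a j := by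
  rw [hat_add, dotProduct_add]

lemma hw_Ahq (w : V3) (j : κ) : hw w ⬝ᵥ Ahq a j = w ⬝ᵥ Aq a j - 1 := hw_dot _ _

lemma lin_Ahq (g : V3) (j : κ) : lin g ⬝ᵥ Ahq a j = g ⬝ᵥ Aq a j := lin_dot _ _

lemma Aq_inj (ha : Function.Injective a) : Function.Injective (Aq a) := fun j j' h => ha (by
  ext i
  have := congrFun h i
  simpa [Aq] using this)

lemma Ahq_inj (ha : Function.Injective a) : Function.Injective (Ahq a) := fun j j' h => ha (by
  ext i
  have := congrFun h (some i)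
  simpa using this)

lemma Ah_inj (ha : Function.Injective a) : Function.Injective (Ah a) := fun j j' h => ha (by
  ext i
  have := congrFun h (some i)
  simpa using this)

lemma Supp.hw_nonneg {w : V3} (h : Supp a w) (j : κ) : 0 ≤ hw w ⬝ᵥ Ahq a j := by
  rw [hw_Ahq]
  linarith [h.2 j]

lemma mem_Zr {n : Vq} {j : κ} : j ∈ Zr a T n ↔ j ∈ T ∧ n ⬝ᵥ Ahq a j = 0 := mem_filter

lemma InCone.dot_nonneg {x n : Vq} (h : InCone a T x) (hn : ∀ j ∈ T, 0 ≤ n ⬝ᵥ Ahq a j) :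
    0 ≤ n ⬝ᵥ x := by
  obtain ⟨s, hs, rfl⟩ := h
  rw [dotProduct_sum]
  refine sum_nonneg (fun j hj => ?_)
  rw [dotProduct_smul]
  exact mul_nonneg (hs j) (hn j hj)

lemma InCone.dot_zero {x n : Vq} (h : InCone a T x) (hn : ∀ j ∈ T, n ⬝ᵥ Ahq a j = 0) :
    n ⬝ᵥ x = 0 := by
  obtain ⟨s, hs, rfl⟩ := h
  rw [dotProduct_sum]
  refine sum_eq_zero (fun j hj => ?_)
  rw [dotProduct_smul, hn j hj, smul_zero]

lemma InCone.nonneg {x : Vq} (h : InCone a T x) (i : O) : 0 ≤ x i := by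
  have := h.dot_nonneg (n := ei i) (fun j _ => by simp [Ahq])
  simpa using this

lemma InCone.zero : InCone a T 0 := ⟨0, fun _ => le_rfl, by simp⟩

lemma InCone.add {x y : Vq} (h : InCone a T x) (h' : InCone a T y) : InCone a T (x + y) := by
  obtain ⟨s, hs, rfl⟩ := h
  obtain ⟨s', hs', rfl⟩ := h'
  exact ⟨s + s', fun j => add_nonneg (hs j) (hs' j), by simp [add_smul, sum_add_distrib]⟩

lemma InCone.smul {x : Vq} (h : InCone a T x) {r : ℚ} (hr : 0 ≤ r) : InCone a T (r • x) := by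
  obtain ⟨s, hs, rfl⟩ := h
  exact ⟨r • s, fun j => mul_nonneg hr (hs j), by simp [smul_sum, mul_smul]⟩

lemma InCone.eq_zero {x : Vq} (h : InCone a T x) (h0 : x none ≤ 0) : x = 0 := by
  obtain ⟨s, hs, rfl⟩ := h
  simp only [Finset.sum_apply, Pi.smul_apply, Ahq_none, smul_eq_mul, mul_one] at h0
  have := (sum_eq_zero_iff_of_nonneg (fun j _ => hs j)).1
    (le_antisymm h0 (sum_nonneg (fun j _ => hs j)))
  exact sum_eq_zero (fun j hj => by rw [this j hj, zero_smul])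

end Pts

omit [Fintype κ] in
lemma InCone.single {j : κ} (hj : j ∈ T) : InCone a T (Ahq a j) :=
  ⟨Pi.single j 1, fun k => by by_cases h : k = j <;> simp [h], by
    rw [sum_eq_single j (fun k _ hk => by simp [hk]) (fun h => absurd hj h)]
    simp⟩

omit [Fintype κ] in
lemma InCone.mono {T' : Finset κ} {x : Vq} (h : InCone a T x) (hT : T ⊆ T') : InCone a T' x := by
  obtain ⟨s, hs, rfl⟩ := h
  refine ⟨fun j => if j ∈ T then s j else 0, fun j => by
    by_cases h : j ∈ T <;> simp [h, hs j], ?_⟩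
  rw [← sum_subset hT (fun j _ hj => by simp [hj])]
  exact sum_congr rfl (fun j hj => by simp [hj])

omit [Fintype κ] [DecidableEq κ] in
/-- A point of the cone on which a supporting functional vanishes lies in the cone of the face. -/
lemma InCone.face {x n : Vq} (h : InCone a T x) (hn : ∀ j ∈ T, 0 ≤ n ⬝ᵥ Ahq a j)
    (h0 : n ⬝ᵥ x = 0) : InCone a (Zr a T n) x := by
  obtain ⟨s, hs, rfl⟩ := h
  rw [dotProduct_sum, sum_eq_zero_iff_of_nonneg (fun j hj => by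
    rw [dotProduct_smul]
    exact mul_nonneg (hs j) (hn j hj))] at h0
  refine ⟨s, hs, (sum_subset (filter_subset _ _) (fun j hj hj' => ?_)).symm⟩
  have h1 := h0 j hj
  rw [dotProduct_smul, smul_eq_mul, mul_eq_zero] at h1
  rw [h1.resolve_right (fun h => hj' (mem_filter.2 ⟨hj, h⟩)), zero_smul]

omit [Fintype κ] in
lemma stab_CY (y : Vq) : Stab a T (CY a q T y) := by
  intro u hu j hj
  have : hat q (u + Ah a j) - y = (hat q u - y) + Ahq a j := by
    rw [hat_add]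
    abel
  change InCone a T _
  rw [this]
  exact InCone.add hu (InCone.single hj)

omit [DecidableEq κ] in
lemma mem_Tw {w : V3} {j : κ} : j ∈ Tw a w ↔ w ⬝ᵥ Aq a j = 1 := by
  simp [Tw]

omit [DecidableEq κ] in
lemma mem_Tw' {w : V3} {j : κ} : j ∈ Tw a w ↔ hw w ⬝ᵥ Ahq a j = 0 := by
  rw [mem_Tw, hw_Ahq, sub_eq_zero]

omit [DecidableEq κ] in
lemma onPl_Tw (w : V3) : OnPl a (Tw a w) w := fun _ hj => mem_Tw.1 hj

section Op

omit [Fintype κ] [DecidableEq κ]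

lemma Dn_congr {n : Vq} {φ ψ : Pt → ℂ} {u : Pt} (h0 : φ u = ψ u)
    (h1 : ∀ j ∈ T, φ (u + Ah a j) = ψ (u + Ah a j)) : Dn a c q T n φ u = Dn a c q T n ψ u := by
  rw [Dn, Dn, h0, sum_congr rfl (fun j hj => by rw [h1 j hj])]

@[simp] lemma Dn_zero (n : Vq) : Dn a c q T n 0 = 0 := by
  ext u
  simp [Dn]

lemma Dn_eq_zero {n : Vq} {φ : Pt → ℂ} {u : Pt} (h0 : φ u = 0)
    (h1 : ∀ j ∈ T, φ (u + Ah a j) = 0) : Dn a c q T n φ u = 0 := by
  rw [Dn_congr (ψ := 0) h0 h1, Dn_zero]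
  rfl

lemma Dn_add (n : Vq) (φ ψ : Pt → ℂ) (u : Pt) :
    Dn a c q T n (fun u => φ u + ψ u) u = Dn a c q T n φ u + Dn a c q T n ψ u := by
  simp only [Dn, mul_add, sum_add_distrib]
  ring

lemma Dn_sub (n : Vq) (φ ψ : Pt → ℂ) (u : Pt) :
    Dn a c q T n (fun u => φ u - ψ u) u = Dn a c q T n φ u - Dn a c q T n ψ u := by
  simp only [Dn, mul_sub, sum_sub_distrib]
  ring

lemma Dn_mul (n : Vq) (r : ℂ) (φ : Pt → ℂ) (u : Pt) :
    Dn a c q T n (fun u => r * φ u) u = r * Dn a c q T n φ u := by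
  simp only [Dn, mul_add, mul_sum]
  congr 1
  · ring
  · exact sum_congr rfl (fun j _ => by ring)

lemma Dn_sum {ι : Type} (S : Finset ι) (n : Vq) (φ : ι → Pt → ℂ) (u : Pt) :
    Dn a c q T n (fun u => ∑ i ∈ S, φ i u) u = ∑ i ∈ S, Dn a c q T n (φ i) u := by
  simp only [Dn, mul_sum, sum_add_distrib]
  rw [sum_comm]

lemma Dn_dir_add (n m : Vq) (φ : Pt → ℂ) (u : Pt) :
    Dn a c q T (n + m) φ u = Dn a c q T n φ u + Dn a c q T m φ u := by
  simp only [Dn, add_dotProduct, Rat.cast_add, mul_add, add_mul, sum_add_distrib]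
  ring

lemma Dn_dir_smul (r : ℚ) (n : Vq) (φ : Pt → ℂ) (u : Pt) :
    Dn a c q T (r • n) φ u = (r : ℂ) * Dn a c q T n φ u := by
  simp only [Dn, smul_dotProduct, smul_eq_mul, Rat.cast_mul, mul_add, mul_sum]
  congr 1
  · ring
  · exact sum_congr rfl (fun j _ => by ring)

lemma isLin_Dn (φ : Pt → ℂ) : IsLin (fun n => Dn a c q T n φ) :=
  ⟨fun n m u => Dn_dir_add n m φ u, fun r n u => Dn_dir_smul r n φ u⟩

lemma Dn_dir_zero {n : Vq} {u : Pt} (h0 : n ⬝ᵥ hat q u = 0) (h1 : ∀ j ∈ T, n ⬝ᵥ Ahq a j = 0)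
    (φ : Pt → ℂ) : Dn a c q T n φ u = 0 := by
  rw [Dn, h0, sum_eq_zero (fun j hj => by rw [h1 j hj]; simp)]
  simp

lemma Dn_comm (n m : Vq) (φ : Pt → ℂ) (u : Pt) :
    Dn a c q T n (Dn a c q T m φ) u = Dn a c q T m (Dn a c q T n φ) u := by
  have key : ∀ n m : Vq, Dn a c q T n (Dn a c q T m φ) u =
      ((n ⬝ᵥ hat q u : ℚ) : ℂ) * ((m ⬝ᵥ hat q u : ℚ) : ℂ) * φ u +
      ∑ j ∈ T, c j * (((n ⬝ᵥ hat q u : ℚ) : ℂ) * ((m ⬝ᵥ Ahq a j : ℚ) : ℂ) +
        ((m ⬝ᵥ hat q u : ℚ) : ℂ) * ((n ⬝ᵥ Ahq a j : ℚ) : ℂ) +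
        ((n ⬝ᵥ Ahq a j : ℚ) : ℂ) * ((m ⬝ᵥ Ahq a j : ℚ) : ℂ)) * φ (u + Ah a j) +
      ∑ j ∈ T, ∑ k ∈ T, c j * c k * (((n ⬝ᵥ Ahq a j : ℚ) : ℂ) * ((m ⬝ᵥ Ahq a k : ℚ) : ℂ)) *
        φ (u + (Ah a j + Ah a k)) := by
    intro n m
    simp only [Dn, dot_hat_add, Rat.cast_add, mul_add, add_mul, mul_sum, sum_add_distrib, add_assoc]
    congr 1
    · ring
    congr 1
    · exact sum_congr rfl (fun j _ => by ring)
    congr 1
    · exact sum_congr rfl (fun j _ => by ring)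
    congr 1
    · exact sum_congr rfl (fun j _ => by ring)
    · exact sum_congr rfl (fun j _ => sum_congr rfl (fun k _ => by ring))
  rw [key, key, sum_comm (s := T) (t := T)]
  congr 1
  · congr 1
    · ring
    · exact sum_congr rfl (fun j _ => by ring)
  · exact sum_congr rfl (fun j _ => sum_congr rfl (fun k _ => by rw [add_comm (Ah a k)]; ring))

/-- Only the monomials of a subset matter when the function vanishes at the other shifts. -/
lemma Dn_subset {T' : Finset κ} (h : T' ⊆ T) {n : Vq} {φ : Pt → ℂ} {u : Pt}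
    (h1 : ∀ j ∈ T, j ∉ T' → φ (u + Ah a j) = 0) : Dn a c q T n φ u = Dn a c q T' n φ u := by
  rw [Dn, Dn, sum_subset h (fun j hj hj' => by rw [h1 j hj hj', mul_zero])]

lemma IsLin.zero_dir {ω : Vq → Pt → ℂ} (h : IsLin ω) (u : Pt) : ω 0 u = 0 := by
  simpa using h.2 0 0 u

lemma IsLin.sum {ω : Vq → Pt → ℂ} (h : IsLin ω) {ι : Type} (S : Finset ι) (n : ι → Vq) (u : Pt) :
    ω (∑ i ∈ S, n i) u = ∑ i ∈ S, ω (n i) u := by
  classical
  induction S using Finset.induction_on with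
  | empty => simpa using h.zero_dir u
  | insert i S hi ih => rw [sum_insert hi, sum_insert hi, h.1, ih]

lemma Edge.symm {E : Finset κ} {v v' : κ} {s s' : Vq} (h : Edge a E v v' s s') :
    Edge a E v' v s' s :=
  ⟨h.mem', h.mem, h.s'v', h.s'v, h.sv', h.sv, fun j hj => by rw [add_comm]; exact h.rep j hj,
    h.pos', h.pos⟩

lemma Edge.ne {E : Finset κ} {v v' : κ} {s s' : Vq} (h : Edge a E v v' s s') : v ≠ v' := by
  rintro rfl
  exact one_ne_zero (h.sv.symm.trans h.sv')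

lemma IsWall.ne_zero {g : V3} (h : IsWall a T g) : g ≠ 0 := by
  rintro rfl
  simpa using h.2.1

/-- Two walls with two common zeros are equal. -/
lemma wall_eq (ha : Function.Injective a) {w g g' : V3} (hw : OnPl a T w) (h : IsWall a T g)
    (h' : IsWall a T g') {j j' : κ} (hj : j ∈ T) (hj' : j' ∈ T) (hne : j ≠ j')
    (h1 : g ⬝ᵥ Aq a j = 0) (h2 : g ⬝ᵥ Aq a j' = 0) (h3 : g' ⬝ᵥ Aq a j = 0)
    (h4 : g' ⬝ᵥ Aq a j' = 0) : g = g' := by
  obtain ⟨r, rfl⟩ := perp (hw j hj) (hw j' hj') (fun h => hne (Aq_inj ha h)) h1 h2 h3 h4 h.ne_zero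
  have h5 := h'.2.1
  simp only [smul_dotProduct, smul_eq_mul, ← mul_sum, h.2.1, mul_one] at h5
  rw [h5, one_smul]

/-- Faces of faces. -/
lemma FaceND.face (h : FaceND a c T) {n : Vq} (hn : ∀ j ∈ T, 0 ≤ n ⬝ᵥ Ahq a j) :
    FaceND a c (Zr a T n) := by
  intro m hm hne
  obtain ⟨ε, h0, h1⟩ := small (T.filter (fun j => n ⬝ᵥ Ahq a j ≠ 0)) (fun j => n ⬝ᵥ Ahq a j)
    (fun j => m ⬝ᵥ Ahq a j) (fun j hj => lt_of_le_of_ne (hn j (mem_filter.1 hj).1)
      (mem_filter.1 hj).2.symm)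
  have e : Zr a (Zr a T n) m = Zr a T (n + ε • m) := by
    ext j
    simp only [mem_Zr, add_dotProduct, smul_dotProduct, smul_eq_mul, and_assoc]
    refine and_congr_right (fun hj => ⟨fun h => by simp [h.1, h.2], fun h => ?_⟩)
    by_cases h2 : n ⬝ᵥ Ahq a j = 0
    · rw [h2, zero_add, mul_eq_zero] at h
      exact ⟨h2, h.resolve_left h0.ne'⟩
    · exact absurd h (h1 j (mem_filter.2 ⟨hj, h2⟩)).ne'
  rw [e] at hne ⊢
  refine h _ (fun j hj => ?_) hne
  rw [add_dotProduct, smul_dotProduct, smul_eq_mul]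
  by_cases h2 : n ⬝ᵥ Ahq a j = 0
  · rw [h2, zero_add]
    exact mul_nonneg h0.le (hm j (mem_Zr.2 ⟨hj, h2⟩))
  · exact (h1 j (mem_filter.2 ⟨hj, h2⟩)).le

end Op

omit [DecidableEq κ] in
/-- Tilting a supporting weight towards a face. -/
lemma Supp.tilt {w : V3} (hw : Supp a w) (g : V3) (h1 : ∀ j ∈ Tw a w, 0 ≤ g ⬝ᵥ Aq a j)
    (h2 : ∀ i, w i = 0 → 0 ≤ g i) : ∃ ε : ℚ, 0 < ε ∧ Supp a (w + ε • g) ∧
      (∀ i, 0 < w i → 0 < (w + ε • g) i) ∧
      ∀ j, j ∈ Tw a (w + ε • g) ↔ j ∈ Tw a w ∧ g ⬝ᵥ Aq a j = 0 := by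
  classical
  obtain ⟨ε, h0, h3⟩ := small (α := κ ⊕ Fin 3)
    ((univ.filter (fun j => j ∉ Tw a w)).disjSum (univ.filter (fun i => 0 < w i)))
    (Sum.elim (fun j => w ⬝ᵥ Aq a j - 1) w) (Sum.elim (fun j => g ⬝ᵥ Aq a j) g) (by
      rintro (j | i) hx
      · have h4 := (mem_filter.1 (inl_mem_disjSum.1 hx)).2
        rw [mem_Tw] at h4
        exact sub_pos.2 (lt_of_le_of_ne (hw.2 j) (Ne.symm h4))
      · exact (mem_filter.1 (inr_mem_disjSum.1 hx)).2)
  have h4 : ∀ j, j ∉ Tw a w → 1 < (w + ε • g) ⬝ᵥ Aq a j := fun j hj => by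
    have := h3 (Sum.inl j) (inl_mem_disjSum.2 (mem_filter.2 ⟨mem_univ _, hj⟩))
    simp only [Sum.elim_inl] at this
    rw [add_dotProduct, smul_dotProduct, smul_eq_mul]
    linarith
  have h5 : ∀ i, 0 < w i → 0 < (w + ε • g) i := fun i hi => by
    simpa using h3 (Sum.inr i) (inr_mem_disjSum.2 (mem_filter.2 ⟨mem_univ _, hi⟩))
  refine ⟨ε, h0, ⟨fun i => ?_, fun j => ?_⟩, h5, fun j => ?_⟩
  · rcases (hw.1 i).lt_or_eq with h | h
    · exact (h5 i h).le
    · simpa [← h] using mul_nonneg h0.le (h2 i h.symm)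
  · by_cases hj : j ∈ Tw a w
    · rw [add_dotProduct, smul_dotProduct, smul_eq_mul, mem_Tw.1 hj]
      linarith [mul_nonneg h0.le (h1 j hj)]
    · exact (h4 j hj).le
  · by_cases hj : j ∈ Tw a w
    · rw [mem_Tw, add_dotProduct, smul_dotProduct, smul_eq_mul, mem_Tw.1 hj]
      simp [hj, h0.ne']
    · simp only [hj, false_and, iff_false, mem_Tw]
      exact (h4 j hj).ne'

omit [DecidableEq κ] in
/-- All faces of a bounded face are nondegenerate. -/
lemma NDeg.faceND (h : NDeg a c) {w : V3} (hw : Supp a w) (hpos : ∀ i, 0 < w i) :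
    FaceND a c (Tw a w) := by
  intro n hn hne
  have e : ∀ j ∈ Tw a w, (fun i => n (some i) + n none * w i) ⬝ᵥ Aq a j = n ⬝ᵥ Ahq a j := by
    intro j hj
    conv_rhs => rw [eq_lin n w, sub_dotProduct, smul_dotProduct, mem_Tw'.1 hj, lin_Ahq]
    simp
  obtain ⟨ε, _, h1, _, h2⟩ := hw.tilt (fun i => n (some i) + n none * w i)
    (fun j hj => by rw [e j hj]; exact hn j hj) (fun i hi => absurd hi (hpos i).ne')
  have e2 : Zr a (Tw a w) n = Tw a (w + ε • fun i => n (some i) + n none * w i) := by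
    ext j
    rw [h2, mem_Zr]
    exact and_congr_right (fun hj => by rw [e j hj])
  rw [e2] at hne ⊢
  exact h _ h1 hne

end Pool.Agent.MP_5d9b3c_ag.H48
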