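import Pool.Agent.MP_5d9b3c_ag.H48.Sol3

/-!
Capping a solution on a bounded facet along resonant walls.
-/

namespace Pool.Agent.MP_5d9b3c_ag.H48

open Finset Pool.Agent.MP_5d9b3c_ag.H22

variable {κ : Type} [Fintype κ] [DecidableEq κ] {a : κ → Fin 3 →₀ ℕ} {c : κ → ℂ} {q : Vq}
  {w : V3}

lemma isLin_dot (δ : Vq) (μ : Pt → ℂ) : IsLin (fun n u => ((n ⬝ᵥ δ : ℚ) : ℂ) * μ u) :=
  ⟨fun n m u => by simp [add_dotProduct, add_mul], fun r n u => by simp [mul_assoc]⟩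

lemma pos_van {l : ℚ} {w' : V3} (h0 : ∀ k, 0 ≤ w' k) (hl : l ≤ ∑ k, w' k) {u : Pt}
    (hu : u none = -1) (h1 : ∀ k, w' k ≠ 0 → 0 ≤ u (some k)) :
    0 < hw w' ⬝ᵥ hat (qq l one3) u := by
  have h2 : ∑ k, w' k ≤ w' ⬝ᵥ (fun i => hat (qq l one3) u (some i)) := by
    refine sum_le_sum (fun k _ => ?_)
    by_cases h : w' k = 0
    · simp [h]
    · have h3 : (0 : ℚ) ≤ u (some k) := by exact_mod_cast h1 k h
      have := mul_nonneg (h0 k) h3
      simp only [hat_some, qq_some, one3]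
      linarith
  rw [hw_dot, hat_none, hu, qq_none]
  push_cast
  linarith

/-- The residue along one wall and the correction on the cone over the wall. -/
lemma cap_one (hK2 : Kosz2Stmt) (hC : ConeStmt) (hE : EdgeStmt) (hX : Ext2Stmt)
    (ha : Function.Injective a) (hw' : Supp a w) (hf : FaceND a c (Tw a w)) {g : V3}
    (hg : IsWall a (Tw a w) g) {θ : ℚ} (hθ : 0 < θ) (hs : Supp a (w + θ • g)) {φ : Pt → ℂ}
    (hup : ∀ u ∈ CY a q (Zr a (Tw a w) (lin g)) 0, ∀ j ∈ Tw a w, j ∉ Zr a (Tw a w) (lin g) →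
      ∀ n, Dn a c q (Tw a w) n φ (u + Ah a j) = 0)
    {δ : Vq} (hδ0 : hw w ⬝ᵥ δ = 0) (hδ1 : lin g ⬝ᵥ δ = 1) :
    ∃ μ lam : Pt → ℂ, Solves a c q univ Set.univ μ 0 ∧
      (∀ u, 0 < hw w ⬝ᵥ hat q u ∨ 0 < hw (w + θ • g) ⬝ᵥ hat q u → μ u = 0) ∧
      Solves a c q (Zr a (Tw a w) (lin g)) (CY a q (Zr a (Tw a w) (lin g)) 0) lam
        (fun n u => ((n ⬝ᵥ δ : ℚ) : ℂ) * μ u - Dn a c q (Tw a w) n φ u) := by
  obtain ⟨E, hEd⟩ : ∃ E, E = Zr a (Tw a w) (lin g) := ⟨_, rfl⟩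
  have hfE : FaceND a c E := hEd ▸ hf.face (fun j hj => by rw [lin_Ahq]; exact hg.1 j hj)
  have hmem : ∀ j, j ∈ E ↔ j ∈ Tw a w ∧ lin g ⬝ᵥ Ahq a j = 0 := fun j => hEd ▸ mem_Zr
  rw [← hEd] at hup ⊢
  have hsub : E ⊆ Tw a w := fun j hj => ((hmem j).1 hj).1
  have hpl : OnPl a E w := fun j hj => mem_Tw.1 (hsub hj)
  obtain ⟨v, v', s, s', he⟩ := hE κ a E w g ha hpl hg.ne_zero
    (fun j hj => by rw [← lin_Ahq]; exact ((hmem j).1 hj).2) (by
      obtain ⟨j, hj, j', hj', h1, h2, h3⟩ := hg.2.2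
      exact ⟨j, (hmem j).2 ⟨hj, by rwa [lin_Ahq]⟩, j', (hmem j').2 ⟨hj', by rwa [lin_Ahq]⟩, h1⟩)
  have hA : ∀ n k, ∀ u ∈ CY a q E 0, Dn a c q (Tw a w) n (Dn a c q (Tw a w) k φ) u =
      Dn a c q E n (Dn a c q (Tw a w) k φ) u := fun n k u hu =>
    Dn_subset hsub (fun j hj hj' => hup u hu j hj hj' k)
  have hg0 : ∀ u ∈ CY a q E 0, lin g ⬝ᵥ hat q u = 0 := fun u hu => by
    have := InCone.dot_zero hu (n := lin g) (fun j hj => ((hmem j).1 hj).2)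
    rwa [sub_zero] at this
  have hB : Solves a c q E (CY a q E 0) (Dn a c q (Tw a w) (lin g) φ) 0 := fun n u hu => by
    rw [← hA n _ u hu, Dn_comm, hA _ n u hu]
    exact Dn_dir_zero (hg0 u hu) (fun j hj => ((hmem j).1 hj).2) _
  have e0 : (0 : ℚ) • Ahq a v + (0 : ℚ) • Ahq a v' = 0 := by simp
  obtain ⟨μ, h1, h2, h3⟩ := hX κ a c q (hw w) (hw (w + θ • g)) E v v' s s' 0 0 he le_rfl le_rfl
    hw'.hw_nonneg hs.hw_nonneg (fun j => by
      rw [hmem, mem_Tw', hw_add_smul, add_dotProduct, smul_dotProduct, smul_eq_mul]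
      exact and_congr_right (fun h => by simp [h, hθ.ne']))
    (Dn a c q (Tw a w) (lin g) φ) (by rwa [e0])
  rw [e0] at h1
  have hμ : ∀ n, ∀ u ∈ CY a q E 0, Dn a c q E n μ u = 0 := fun n u hu => by
    rw [Dn_congr (h1 u hu) (fun j hj => h1 _ (stab_CY 0 u hu j hj))]
    exact hB n u hu
  have hl : IsLin (fun n u => ((n ⬝ᵥ δ : ℚ) : ℂ) * μ u - Dn a c q (Tw a w) n φ u) :=
    ⟨fun n m u => by simp only; rw [Dn_dir_add, add_dotProduct]; push_cast; ring,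
      fun r n u => by simp only; rw [Dn_dir_smul, smul_dotProduct, smul_eq_mul]; push_cast; ring⟩
  obtain ⟨lam, h4⟩ := cone2 hK2 hC he hfE hl (fun n m u hu => by
      rw [Dn_sub, Dn_sub, Dn_mul, Dn_mul, hμ n u hu, hμ m u hu, ← hA n m u hu, ← hA m n u hu,
        Dn_comm]
      simp) (fun m hm u hu => by
      have e1 : ∀ j ∈ E, (fun i => m (some i) + m none * w i) ⬝ᵥ Aq a j = 0 := fun j hj => by
        have := hm j hj
        rw [eq_lin m w, sub_dotProduct, smul_dotProduct, hpl.hw_zero hj, lin_Ahq] at this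
        simpa using this
      obtain ⟨r, hr⟩ := perp (hpl v he.mem) (hpl v' he.mem') (fun h => he.ne (Aq_inj ha h))
        (by rw [← lin_Ahq]; exact ((hmem v).1 he.mem).2)
        (by rw [← lin_Ahq]; exact ((hmem v').1 he.mem').2) (e1 v he.mem) (e1 v' he.mem')
        hg.ne_zero
      have e2 : m = r • lin g + (-m none) • hw w := by
        conv_lhs => rw [eq_lin m w, hr]
        ext (_ | i) <;> simp [lin, hw, sub_eq_add_neg]
      have e3 := hl.1 (r • lin g) ((-m none) • hw w) u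
      rw [← e2, hl.2, hl.2] at e3
      simp only at e3
      rw [e3, hδ0, hδ1, h1 u hu, Dn_dir_zero (n := hw w) (hpl.CY_zero (dotProduct_zero _) hu)
        (fun j hj => mem_Tw'.1 hj)]
      simp)
  exact ⟨μ, lam, h2, h3, h4⟩

theorem rootCap (hK3 : Kosz3Stmt) (hK2 : Kosz2Stmt) (hC : ConeStmt) (hW : WallStmt)
    (hE : EdgeStmt) (hN : NegStmt) (hS : SpreadStmt) (hX : Ext2Stmt) (hV : SVStmt) :
    RootCapStmt := by
  classical
  intro κ _ _ a c b ha hnd hb w q hpos hw' hs hq C θ hC1 hC2 φ hφ hφ0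
  have hpl := onPl_Tw (a := a) w
  have hz : hw w ⬝ᵥ (0 : Vq) = 0 := dotProduct_zero _
  have hq0 : hw w ⬝ᵥ q = 0 := by rw [hq, hw_dot_qq, dot_one3, sub_self]
  obtain ⟨P, hP⟩ : ∃ P : Set Pt, ∀ u, u ∈ P ↔
      hw w ⬝ᵥ hat q u = 0 ∧ ∀ g ∈ C, 0 < lin g ⬝ᵥ hat q u := ⟨_, fun _ => Iff.rfl⟩
  have hgn : ∀ g ∈ C, ∀ j ∈ Tw a w, 0 ≤ lin g ⬝ᵥ Ahq a j := fun g hg j hj => by
    rw [lin_Ahq]
    exact (hC1 g hg).1.1 j hj
  have hPs : Stab a (Tw a w) P := fun u hu j hj => by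
    rw [hP] at hu ⊢
    refine ⟨stab_layer hpl u hu.1 j hj, fun g hg => ?_⟩
    rw [dot_hat_add]
    linarith [hu.2 g hg, hgn g hg j hj]
  obtain ⟨φt, hφt⟩ : ∃ φt : Pt → ℂ, ∀ u, φt u = if u ∈ P then φ u else 0 := ⟨_, fun _ => rfl⟩
  have hφP : ∀ u ∈ P, φt u = φ u := fun u hu => by rw [hφt, if_pos hu]
  have hω : ∀ n, ∀ u ∈ P, Dn a c q (Tw a w) n φt u = 0 := fun n u hu => by
    rw [Dn_congr (hφP u hu) (fun j hj => hφP _ (hPs u hu j hj))]
    exact hφ n u ((hP u).1 hu)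
  have hYg : ∀ g ∈ C, ∀ u, u ∈ CY a q (Zr a (Tw a w) (lin g)) 0 ↔
      u ∈ CY a q (Tw a w) 0 ∧ lin g ⬝ᵥ hat q u = 0 := fun g hg u => by
    simp only [CY, Set.mem_ofPred_eq, sub_zero]
    exact ⟨fun h => ⟨h.mono (filter_subset _ _), h.dot_zero (fun j hj => (mem_Zr.1 hj).2)⟩,
      fun h => h.1.face (hgn g hg) h.2⟩
  have hY0 : ∀ g ∈ C, ∀ u ∈ CY a q (Tw a w) 0, 0 ≤ lin g ⬝ᵥ hat q u := fun g hg u hu => by
    have := InCone.dot_nonneg hu (hgn g hg)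
    rwa [sub_zero] at this
  have hoth : ∀ g ∈ C, ∀ u ∈ CY a q (Tw a w) 0, lin g ⬝ᵥ hat q u = 0 → ∀ g' ∈ C, g' ≠ g →
      0 < lin g' ⬝ᵥ hat q u := fun g hg u hu h0 g' hg' hne =>
    lt_of_le_of_ne (hY0 g' hg' u hu) (hC2 g hg g' hg' hne.symm u (by simpa [CY] using hu) h0).symm
  have hup : ∀ g ∈ C, ∀ u ∈ CY a q (Zr a (Tw a w) (lin g)) 0, ∀ j ∈ Tw a w,
      j ∉ Zr a (Tw a w) (lin g) → u + Ah a j ∈ P := fun g hg u hu j hj hj' => by
    obtain ⟨h1, h2⟩ := (hYg g hg u).1 hu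
    refine (hP _).2 ⟨hpl.CY_zero hz (stab_CY 0 u h1 j hj), fun g' hg' => ?_⟩
    rw [dot_hat_add]
    by_cases h : g' = g
    · rw [h, h2, zero_add]
      exact lt_of_le_of_ne (hgn g hg j hj) (fun h3 => hj' (mem_Zr.2 ⟨hj, h3.symm⟩))
    · linarith [hoth g hg u h1 h2 g' hg' h, hgn g' hg' j hj]
  have hidx : ∀ g ∈ C, ∃ i, g i ≠ 0 ∧ ((∃ k, (w + θ g • g) k = 0) → (w + θ g • g) i = 0) := by
    intro g hg
    by_cases h : ∃ k, (w + θ g • g) k = 0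
    · obtain ⟨k, hk⟩ := h
      refine ⟨k, fun h0 => ?_, fun _ => hk⟩
      simp only [Pi.add_apply, Pi.smul_apply, h0, smul_zero, add_zero] at hk
      exact (hpos k).ne' hk
    · obtain ⟨i, hi⟩ := Function.ne_iff.1 (hC1 g hg).1.ne_zero
      exact ⟨i, hi, fun h' => absurd h' h⟩
  have hdata : ∀ g ∈ C, ∃ (δ η : Vq) (μ lam χ : Pt → ℂ), hw w ⬝ᵥ δ = 0 ∧
      Solves a c q univ Set.univ μ 0 ∧
      (∀ u, 0 < hw w ⬝ᵥ hat q u ∨ 0 < hw (w + θ g • g) ⬝ᵥ hat q u → μ u = 0) ∧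
      Solves a c q (Zr a (Tw a w) (lin g)) (CY a q (Zr a (Tw a w) (lin g)) 0) lam
        (fun n u => ((n ⬝ᵥ δ : ℚ) : ℂ) * μ u - Dn a c q (Tw a w) n φt u) ∧
      Solves a c q univ Set.univ χ (fun n u => ((n ⬝ᵥ η : ℚ) : ℂ) * μ u) ∧
      (∀ u, 0 < hw (w + θ g • g) ⬝ᵥ hat q u → χ u = 0) ∧
      ∀ m, (δ + η) (some m) ≠ 0 → (w + θ g • g) m = 0 := by
    intro g hg
    obtain ⟨hg1, hg2, hg3, hg4, hg5⟩ := hC1 g hg
    obtain ⟨i, hi1, hi2⟩ := hidx g hg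
    obtain ⟨δ, hδ⟩ : ∃ δ : Vq, δ = (g i)⁻¹ • (ei (some i) + w i • ei none) := ⟨_, rfl⟩
    have hδ0 : hw w ⬝ᵥ δ = 0 := by simp [hδ, hw]
    have hδ1 : lin g ⬝ᵥ δ = 1 := by simp [hδ, lin, hi1]
    obtain ⟨μ, lam, h1, h2, h3⟩ := cap_one hK2 hC hE hX ha hw' (hnd.faceND hw' hpos) hg1 hg3 hg4
      (φ := φt) (fun u hu j hj hj' n => hω n _ (hup g hg u hu j hj hj')) hδ0 hδ1
    by_cases h : ∃ k, (w + θ g • g) k = 0
    · refine ⟨δ, 0, μ, lam, 0, hδ0, h1, h2, h3, fun n u _ => by simp, fun _ _ => rfl,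
        fun m hm => ?_⟩
      by_cases hmi : m = i
      · rw [hmi]
        exact hi2 h
      · exact absurd (by simp [hδ, ei, hmi]) hm
    · obtain ⟨hg6, hg7⟩ := hg5.resolve_left h
      obtain ⟨χ, h4, h5⟩ := sol3 hK3 hC hW hN hS κ a c (w + θ g • g) q ha hnd hg6 hg4 hg7
        (fun n u => ((n ⬝ᵥ ((-θ g) • ei none - δ) : ℚ) : ℂ) * μ u) (isLin_dot _ _)
        (fun n m u _ => by
          rw [Dn_mul, Dn_mul, h1 n u trivial, h1 m u trivial]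
          simp)
        (fun n u hu => by rw [h2 u (Or.inr hu), mul_zero]) (fun u _ => by
          rw [dotProduct_sub, dotProduct_smul, dot_ei, hw_add_smul, add_dotProduct, hδ0,
            smul_dotProduct, hδ1]
          simp [hw, lin])
      exact ⟨δ, _, μ, lam, χ, hδ0, h1, h2, h3, h4, h5, fun m hm => absurd (by simp [ei]) hm⟩
  choose! δ η μ lam χ hδ hμ1 hμ2 hlam hχ1 hχ2 hδη using hdata
  have hμP : ∀ g ∈ C, ∀ u, hw w ⬝ᵥ hat q u = 0 → 0 < lin g ⬝ᵥ hat q u → μ g u = 0 :=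
    fun g hg u h1 h2 => hμ2 g hg u (Or.inr (by
      rw [hw_add_smul, add_dotProduct, h1, zero_add, smul_dotProduct]
      exact mul_pos (hC1 g hg).2.2.1 h2))
  obtain ⟨ρ, hρ⟩ : ∃ ρ : Vq → Pt → ℂ,
    ρ = fun n u => ∑ g ∈ C, ((n ⬝ᵥ δ g : ℚ) : ℂ) * μ g u := ⟨_, rfl⟩
  have hρ0 : ∀ n u, 0 < hw w ⬝ᵥ hat q u → ρ n u = 0 := fun n u hu => by
    rw [hρ]
    exact sum_eq_zero (fun g hg => by rw [hμ2 g hg u (Or.inl hu), mul_zero])
  have hρD : ∀ n m u, Dn a c q univ n (ρ m) u = 0 := fun n m u => by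
    simp only [hρ]
    rw [Dn_sum]
    exact sum_eq_zero (fun g hg => by rw [Dn_mul, hμ1 g hg n u trivial]; simp)
  have hρP : ∀ n, ∀ u ∈ P, ρ n u = 0 := fun n u hu => by
    rw [hρ]
    exact sum_eq_zero (fun g hg => by
      rw [hμP g hg u ((hP u).1 hu).1 (((hP u).1 hu).2 g hg), mul_zero])
  obtain ⟨κg, hκg⟩ : ∃ κg : V3 → Pt → ℂ, ∀ g u, κg g u =
    if u ∈ CY a q (Zr a (Tw a w) (lin g)) 0 then lam g u else 0 := ⟨_, fun _ _ => rfl⟩
  have hκ0 : ∀ g ∈ C, ∀ u, 0 < lin g ⬝ᵥ hat q u → κg g u = 0 := fun g hg u hu => by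
    rw [hκg, if_neg (fun h => hu.ne' ((hYg g hg u).1 h).2)]
  have hκD : ∀ g ∈ C, ∀ n u, 0 < lin g ⬝ᵥ hat q u → Dn a c q (Tw a w) n (κg g) u = 0 :=
    fun g hg n u hu => Dn_eq_zero (hκ0 g hg u hu) (fun j hj => hκ0 g hg _ (by
      rw [dot_hat_add]
      linarith [hgn g hg j hj]))
  have hcore : Solves a c q (Tw a w) (CY a q (Tw a w) 0)
      (fun u => φt u + ∑ g ∈ C, κg g u) ρ := by
    intro n u hu
    rw [Dn_add, Dn_sum]
    by_cases h : u ∈ P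
    · rw [hω n u h, hρP n u h, zero_add]
      exact sum_eq_zero (fun g hg => hκD g hg n u (((hP u).1 h).2 g hg))
    · obtain ⟨g, hg, h0⟩ : ∃ g ∈ C, lin g ⬝ᵥ hat q u = 0 := by
        by_contra h1
        push Not at h1
        exact h ((hP u).2 ⟨hpl.CY_zero hz hu,
          fun g hg => lt_of_le_of_ne (hY0 g hg u hu) (h1 g hg).symm⟩)
      have hug := (hYg g hg u).2 ⟨hu, h0⟩
      have e1 : Dn a c q (Tw a w) n (κg g) u =
          ((n ⬝ᵥ δ g : ℚ) : ℂ) * μ g u - Dn a c q (Tw a w) n φt u := by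
        rw [Dn_subset (T' := Zr a (Tw a w) (lin g)) (filter_subset _ _) (fun j hj hj' =>
          hκ0 g hg _ (((hP _).1 (hup g hg u hug j hj hj')).2 g hg)),
          Dn_congr (ψ := lam g) (by rw [hκg, if_pos hug])
            (fun j hj => by rw [hκg, if_pos (stab_CY 0 u hug j hj)])]
        exact hlam g hg n u hug
      simp only [hρ]
      rw [sum_eq_single g (fun g' hg' hne => hκD g' hg' n u (hoth g hg u hu h0 g' hg' hne))
        (fun h => absurd hg h), sum_eq_single g (fun g' hg' hne => by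
          rw [hμP g' hg' u (hpl.CY_zero hz hu) (hoth g hg u hu h0 g' hg' hne), mul_zero])
        (fun h => absurd hg h), e1]
      ring
  obtain ⟨l1, hl1, hl2⟩ := (neg3 (c := c) hW hN ha hpl hs hz (stab_layer hpl) (fun u hu => hu)
    (fun g _ u _ h => by rw [dotProduct_zero] at h; exact h.ne)).1 ρ _ (fun n m u hu => by
      rw [← Dn_layer hw' (hρ0 m) hu, ← Dn_layer hw' (hρ0 n) hu, hρD, hρD]) hcore
  have h0P : (0 : Pt) ∈ P := (hP 0).2 ⟨by rwa [hat_zero], fun g hg => by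
    rw [hat_zero, hq, lin_dot_qq]
    exact (hC1 g hg).2.1⟩
  have hl3 : l1 0 - φt 0 = 0 :=
    (neg3 (c := c) hW hN ha hpl hs hz hPs (fun u hu => ((hP u).1 hu).1)
      (fun g _ u _ h => by rw [dotProduct_zero] at h; exact h.ne)).2 (fun u => l1 u - φt u)
      (fun n u hu => by
        rw [Dn_sub, hl2 n u ((hP u).1 hu).1, hρP n u hu, hω n u hu]
        simp) (fun u hu h => by
        rw [hl1 u ((hP u).1 hu).1 h,
          sum_eq_zero (fun g hg => hκ0 g hg u (((hP u).1 hu).2 g hg))]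
        ring) 0 h0P
  obtain ⟨l0, hl4, hl5, hl6⟩ := spread1 hS hw' (fun n m u _ => by rw [hρD, hρD]) hρ0 hl2
  have hD : ∀ n u, Dn a c q univ n (fun u => l0 u + ∑ g ∈ C, χ g u) u =
      ∑ g ∈ C, ((n ⬝ᵥ (δ g + η g) : ℚ) : ℂ) * μ g u := fun n u => by
    rw [Dn_add, Dn_sum, hl5 n u trivial, sum_congr rfl (fun g hg => hχ1 g hg n u trivial)]
    simp only [hρ, dotProduct_add, Rat.cast_add, add_mul, sum_add_distrib]
  have hsum : ∀ g ∈ C, ∑ k, w k ≤ ∑ k, (w + θ g • g) k := fun g hg => by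
    rw [← dot_one3, ← dot_one3, add_dotProduct, smul_dotProduct]
    exact le_add_of_nonneg_right (mul_pos (hC1 g hg).2.2.1 (hC1 g hg).2.1).le
  have key := hV κ a c b hb q univ (fun i _ => by rw [hq]; rfl)
    (fun u => l0 u + ∑ g ∈ C, χ g u) (fun n m u => by
      rw [funext (hD m), Dn_sum]
      exact sum_eq_zero (fun g hg => by rw [Dn_mul, hμ1 g hg n u trivial]; simp))
    (fun u hu h => by
      have h1 : 0 < hw w ⬝ᵥ hat q u := hq ▸ pos_van hw'.1 le_rfl hu (fun k _ => h k (mem_univ _))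
      refine ⟨?_, fun n => ?_⟩
      · rw [hl6 u h1, zero_add]
        exact sum_eq_zero (fun g hg => hχ2 g hg u
          (hq ▸ pos_van (hC1 g hg).2.2.2.1.1 (hsum g hg) hu (fun k _ => h k (mem_univ _))))
      · rw [hD]
        exact sum_eq_zero (fun g hg => by rw [hμ2 g hg u (Or.inl h1), mul_zero]))
    (fun u hu i _ _ h => by
      rw [hD]
      refine sum_eq_zero (fun g hg => ?_)
      rw [ei_dot]
      by_cases h1 : (δ g + η g) (some i) = 0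
      · simp [h1]
      · rw [hμ2 g hg u (Or.inr (hq ▸ pos_van (hC1 g hg).2.2.2.1.1 (hsum g hg) hu
          (fun k hk => h k (mem_univ _) (by rintro rfl; exact hk (hδη g hg _ h1))))), mul_zero])
    (by
      rw [hl4 0 (by rwa [hat_zero]), sub_eq_zero.1 hl3, hφP 0 h0P, sum_eq_zero (fun g hg =>
        hχ2 g hg 0 (by
          rw [hw_add_smul, add_dotProduct, hat_zero, hq0, zero_add, smul_dotProduct, hq,
            lin_dot_qq]
          exact mul_pos (hC1 g hg).2.2.1 (hC1 g hg).2.1)), add_zero]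
      exact hφ0)
  rwa [hq] at key

end Pool.Agent.MP_5d9b3c_ag.H48
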