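import Pool.Agent.MP_5d9b3c_ag.H48.Sol3

/-!
Bounded facets, and the case distinction over all facets.
-/

namespace Pool.Agent.MP_5d9b3c_ag.H48

open Finset Pool.Agent.MP_5d9b3c_ag.H22

variable {κ : Type} [Fintype κ] [DecidableEq κ] {a : κ → Fin 3 →₀ ℕ} {c : κ → ℂ} {w : V3}
  {b : Polynomial ℂ}

lemma facet_of (hK3 : Kosz3Stmt) (hC : ConeStmt) (hW : WallStmt) (hN : NegStmt) (hNb : NbrStmt)
    (hCap : RootCapStmt) (ha : Function.Injective a) (hnd : NDeg a c) (hb : BEq a c b)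
    (hpos : ∀ i, 0 < w i) (hw' : Supp a w) (hs : Span a (Tw a w)) {q t : Vq}
    (hq : q = qq (∑ k, w k) one3) (ht : InCone a (Tw a w) t)
    (hni : NotIn (F3 a c (Tw a w)) (CY a q (Tw a w) (q - t)))
    (hneg : ∀ g, IsWall a (Tw a w) g → 0 < lin g ⬝ᵥ (q - t) → ∃ i, g i < 0)
    (htwo : ∀ g g', IsWall a (Tw a w) g → IsWall a (Tw a w) g' → 0 < lin g ⬝ᵥ (q - t) →
      0 < lin g' ⬝ᵥ (q - t) → g ≠ g' → ∀ u : Pt, InCone a (Tw a w) (hat q u) →
      lin g ⬝ᵥ hat q u = 0 → lin g' ⬝ᵥ hat q u ≠ 0) :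
    b.eval (-((∑ k, w k : ℚ) : ℂ)) = 0 := by
  classical
  have hpl := onPl_Tw (a := a) w
  have hq0 : hw w ⬝ᵥ q = 0 := by rw [hq, hw_dot_qq, dot_one3, sub_self]
  have hy : hw w ⬝ᵥ (q - t) = 0 := by rw [dotProduct_sub, hq0, hpl.cone_zero ht, sub_self]
  obtain ⟨C, hCm⟩ : ∃ C : Finset V3, ∀ g, g ∈ C ↔ IsWall a (Tw a w) g ∧ 0 < lin g ⬝ᵥ (q - t) :=
    ⟨(hW κ a _ w ha hpl hs).1.toFinset.filter (fun g => 0 < lin g ⬝ᵥ (q - t)), fun g => by simp⟩
  have hgn : ∀ g, IsWall a (Tw a w) g → ∀ j ∈ Tw a w, 0 ≤ lin g ⬝ᵥ Ahq a j := fun g hg j hj => by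
    rw [lin_Ahq]
    exact hg.1 j hj
  have hθ : ∀ g ∈ C, ∃ θ : ℚ, 0 < θ ∧ Nbr a (w + θ • g) := fun g hg =>
    hNb κ a w g ha hpos hw' ((hCm g).1 hg).1 (hneg g ((hCm g).1 hg).1 ((hCm g).1 hg).2)
  choose! θ hθ1 hθ2 using hθ
  have hq1 : ∀ g ∈ C, 0 < lin g ⬝ᵥ q := fun g hg => by
    have h1 := ((hCm g).1 hg).2
    have h2 := ht.dot_nonneg (hgn g ((hCm g).1 hg).1)
    rw [dotProduct_sub] at h1
    linarith
  obtain ⟨φ, hφ1, hφ2⟩ := (cone3 (q := q) hK3 hC ha hpl hs (hnd.faceND hw' hpos) hy).2 hni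
  obtain ⟨ψ, hψ1, hψ2⟩ := (neg3 (c := c) (q := q) hW hN ha hpl hs hy
    (Y := {u | hw w ⬝ᵥ hat q u = 0 ∧ ∀ g ∈ C, 0 < lin g ⬝ᵥ hat q u}) (fun u hu j hj =>
      ⟨stab_layer hpl u hu.1 j hj, fun g hg => by
        rw [dot_hat_add]
        linarith [hu.2 g hg, hgn g ((hCm g).1 hg).1 j hj]⟩) (fun u hu => hu.1)
    (fun g hg u hu h => by
      by_cases h1 : 0 < lin g ⬝ᵥ (q - t)
      · exact (hu.2 g ((hCm g).2 ⟨hg, h1⟩)).ne'
      · exact (lt_of_lt_of_le h (not_lt.1 h1)).ne)).1 0 φ (fun n m u _ => by simp) hφ1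
  refine hCap κ a c b ha hnd hb w q hpos hw' hs hq C θ (fun g hg => ⟨((hCm g).1 hg).1, ?_,
    hθ1 g hg, hθ2 g hg⟩) (fun g hg g' hg' => htwo g g' ((hCm g).1 hg).1 ((hCm g').1 hg').1
      ((hCm g).1 hg).2 ((hCm g').1 hg').2) ψ hψ2 ?_
  · have := hq1 g hg
    rwa [hq, lin_dot_qq] at this
  · rw [hψ1 0 ⟨by rwa [hat_zero], fun g hg => by rw [hat_zero]; exact hq1 g hg⟩ (by
      simpa [CY] using ht)]
    exact hφ2

omit [Fintype κ] [DecidableEq κ] in
/-- A wall with positive threshold is not a coordinate plane. -/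
lemma not_coord (ha : Function.Injective a) {T : Finset κ} (hpl : OnPl a T w) {l : ℚ} {t : Vq}
    (ht : ∀ i, CoordWall a T i → 1 ≤ t (some i)) {g : V3} (hg : IsWall a T g)
    (h0 : 0 < lin g ⬝ᵥ (qq l one3 - t)) {j j' : κ} (hj : j ∈ T) (hj' : j' ∈ T) (hne : j ≠ j')
    (h1 : g ⬝ᵥ Aq a j = 0) (h2 : g ⬝ᵥ Aq a j' = 0) {i : Fin 3} (h3 : a j i = 0)
    (h4 : a j' i = 0) : False := by
  have h5 := ht i ⟨j, hj, j', hj', hne, h3, h4⟩
  obtain ⟨r, rfl⟩ := perp (g := Pi.single i 1) (hpl j hj) (hpl j' hj')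
    (fun h => hne (Aq_inj ha h)) (by simp [Aq, h3]) (by simp [Aq, h4]) h1 h2 (by simp)
  have h6 := hg.2.1
  simp only [smul_dotProduct, single_dotProduct, one_mul, smul_eq_mul, ← mul_sum] at h6
  have h7 : 0 ≤ ∑ j ∈ T, Aq a j i := sum_nonneg (fun j _ => by simp [Aq])
  have h8 : 0 < r := by
    by_contra h
    nlinarith [mul_nonneg (neg_nonneg.2 (not_lt.1 h)) h7]
  rw [lin_dot] at h0
  simp only [smul_dotProduct, single_dotProduct, one_mul, smul_eq_mul, Pi.sub_apply, qq_some,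
    one3] at h0
  nlinarith

omit [Fintype κ] [DecidableEq κ] in
lemma IsWall.other {T : Finset κ} {g : V3} (hg : IsWall a T g) (v : κ) :
    ∃ j ∈ T, j ≠ v ∧ g ⬝ᵥ Aq a j = 0 := by
  obtain ⟨j, hj, j', hj', h1, h2, h3⟩ := hg.2.2
  by_cases h : j = v
  · exact ⟨j', hj', fun h' => h1 (h.trans h'.symm), h3⟩
  · exact ⟨j, hj, h, h2⟩

omit [Fintype κ] in
/-- A resonant vertex between two walls of positive threshold: another shift has no such wall. -/
lemma rechoose (ha : Function.Injective a) {T : Finset κ} (hpos : ∀ i, 0 < w i)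
    (hpl : OnPl a T w) {q t : Vq} (hq : q = qq (∑ k, w k) one3) (hl : ∀ z : ℤ, ∑ k, w k ≠ z)
    (ht : InCone a T t) (ht' : ∀ i, CoordWall a T i → 1 ≤ t (some i)) {g g' : V3}
    (hg : IsWall a T g) (hg' : IsWall a T g') (h1 : 0 < lin g ⬝ᵥ (q - t))
    (h2 : 0 < lin g' ⬝ᵥ (q - t)) (hne : g ≠ g') {u : Pt} (hu : InCone a T (hat q u))
    (h3 : lin g ⬝ᵥ hat q u = 0) (h4 : lin g' ⬝ᵥ hat q u = 0) :
    ∃ t', GoodT a T t' ∧ ∀ g, IsWall a T g → lin g ⬝ᵥ (q - t') ≤ 0 := by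
  obtain ⟨l, hld⟩ : ∃ l, l = ∑ k, w k := ⟨_, rfl⟩
  rw [← hld] at hq hl
  have hl0 : 0 < l := hld ▸ sum_pos (fun i _ => hpos i) univ_nonempty
  have hgn : ∀ g, IsWall a T g → ∀ j ∈ T, 0 ≤ lin g ⬝ᵥ Ahq a j := fun g hg j hj => by
    rw [lin_Ahq]
    exact hg.1 j hj
  have hone : ∀ g, IsWall a T g → 0 < lin g ⬝ᵥ (q - t) → 0 < g ⬝ᵥ one3 := fun g hg h => by
    have h2 := ht.dot_nonneg (hgn g hg)
    rw [dotProduct_sub, hq, lin_dot_qq] at h
    linarith
  obtain ⟨s, _, hs⟩ := (hu.face (hgn g hg) h3).face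
    (fun j hj => hgn g' hg' j (mem_Zr.1 hj).1) h4
  obtain ⟨v, hv⟩ : (Zr a (Zr a T (lin g)) (lin g')).Nonempty := by
    rw [nonempty_iff_ne_empty]
    intro h
    rw [h, sum_empty] at hs
    have := congrFun hs none
    rw [hat_none, hq, qq_none, Pi.zero_apply] at this
    exact hl (-u none) (by push_cast; linarith)
  have hZ : ∀ j ∈ Zr a (Zr a T (lin g)) (lin g'), j ∈ T ∧ g ⬝ᵥ Aq a j = 0 ∧ g' ⬝ᵥ Aq a j = 0 :=
    fun j hj => by simpa only [mem_Zr, lin_Ahq, and_assoc] using hj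
  obtain ⟨hvT, hv1, hv2⟩ := hZ v hv
  rw [sum_eq_single v (fun j hj hjv => (hne (wall_eq ha hpl hg hg' (hZ j hj).1 hvT hjv
    (hZ j hj).2.1 hv1 (hZ j hj).2.2 hv2)).elim) (fun h => absurd hv h)] at hs
  have hm : ∀ i, l * a v i = ((u (some i) + 1 - u none * a v i : ℤ) : ℚ) := fun i => by
    have e1 := congrFun hs none
    have e2 := congrFun hs (some i)
    simp only [hat_none, hat_some, hq, qq_none, qq_some, one3, Pi.smul_apply, Ahq_none, Ahq_some,
      smul_eq_mul, mul_one] at e1 e2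
    push_cast
    rw [e2, ← e1]
    ring
  obtain ⟨u1, hu1, hu1v, hu1g⟩ := hg.other v
  obtain ⟨u2, hu2, hu2v, hu2g⟩ := hg'.other v
  have p1 : 0 < g' ⬝ᵥ Aq a u1 := lt_of_le_of_ne (hg'.1 u1 hu1)
    (fun h => hne (wall_eq ha hpl hg hg' hu1 hvT hu1v hu1g hv1 h.symm hv2))
  have p2 : 0 < g ⬝ᵥ Aq a u2 := lt_of_le_of_ne (hg.1 u2 hu2)
    (fun h => hne (wall_eq ha hpl hg hg' hu2 hvT hu2v h.symm hv1 hu2g hv2))
  obtain ⟨y1, hy1, hy1'⟩ : ∃ y1 : ℚ, 0 < y1 ∧ y1 * g' ⬝ᵥ Aq a u1 = g' ⬝ᵥ one3 :=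
    ⟨_, div_pos (hone g' hg' h2) p1, div_mul_cancel₀ _ p1.ne'⟩
  obtain ⟨y2, hy2, hy2'⟩ : ∃ y2 : ℚ, 0 < y2 ∧ y2 * g ⬝ᵥ Aq a u2 = g ⬝ᵥ one3 :=
    ⟨_, div_pos (hone g hg h1) p2, div_mul_cancel₀ _ p2.ne'⟩
  have hv0 : Aq a v ≠ 0 := fun h => by simpa [h] using hpl v hvT
  obtain ⟨x, hx⟩ := perp_line (x := g) (y := g') (g := Aq a v)
    (g' := one3 - y1 • Aq a u1 - y2 • Aq a u2) (fun r s h => by
      have e1 := congrArg (fun z => z ⬝ᵥ Aq a u1) h
      have e2 := congrArg (fun z => z ⬝ᵥ Aq a u2) h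
      simp only [add_dotProduct, smul_dotProduct, hu1g, hu2g, smul_eq_mul, mul_zero, zero_add,
        add_zero, zero_dotProduct, mul_eq_zero, p1.ne', p2.ne', or_false] at e1 e2
      exact ⟨e2, e1⟩) (by rwa [dotProduct_comm]) (by rwa [dotProduct_comm]) (by
      rw [dotProduct_comm]
      simp only [dotProduct_sub, dotProduct_smul, hu1g, smul_eq_mul, hy2']
      ring) (by
      rw [dotProduct_comm]
      simp only [dotProduct_sub, dotProduct_smul, hu2g, smul_eq_mul, hy1']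
      ring) hv0
  have hxi : ∀ i, x * a v i + y1 * a u1 i + y2 * a u2 i = 1 := fun i => by
    have := congrFun hx i
    simp only [Pi.sub_apply, Pi.smul_apply, smul_eq_mul, one3, Aq] at this
    linarith
  have hxl : x + y1 + y2 = l := by
    have := congrArg (fun z => w ⬝ᵥ z) hx
    simp only [dotProduct_sub, dotProduct_smul, hpl v hvT, hpl u1 hu1, hpl u2 hu2, dot_one3,
      smul_eq_mul, ← hld] at this
    linarith
  have hqx : q = x • Ahq a v + (y1 • Ahq a u1 + y2 • Ahq a u2) := by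
    rw [hq]
    ext (_ | i)
    · simp [← hxl, add_assoc]
    · simp [one3, ← add_assoc, hxi i]
  have hzero : ∀ i, a v i = 0 → (1 : ℚ) ≤ a u1 i ∧ (1 : ℚ) ≤ a u2 i := fun i hi => by
    constructor
    · exact_mod_cast Nat.one_le_iff_ne_zero.2 (fun h =>
        not_coord ha hpl ht' hg (hq ▸ h1) hu1 hvT hu1v hu1g hv1 h hi)
    · exact_mod_cast Nat.one_le_iff_ne_zero.2 (fun h =>
        not_coord ha hpl ht' hg' (hq ▸ h2) hu2 hvT hu2v hu2g hv2 h hi)
  obtain ⟨i0, hi0⟩ : ∃ i, a v i = 0 := by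
    by_contra h
    push Not at h
    have e1 : ∀ i, 1 ≤ l * a v i := fun i => by
      have h5 : 0 < l * a v i := mul_pos hl0 (by exact_mod_cast Nat.pos_of_ne_zero (h i))
      rw [hm i] at h5 ⊢
      exact_mod_cast h5
    have e2 : ∑ i, w i * (l * a v i - 1) = 0 := by
      have := hpl v hvT
      simp only [dotProduct, Aq] at this
      simp only [mul_sub, sum_sub_distrib, mul_one, ← hld, mul_left_comm _ l, ← mul_sum, this]
      ring
    rw [sum_eq_zero_iff_of_nonneg (fun i _ => mul_nonneg (hpos i).le (sub_nonneg.2 (e1 i)))] at e2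
    have e3 : one3 = l • Aq a v := by
      ext i
      have := (mul_eq_zero.1 (e2 i (mem_univ i))).resolve_left (hpos i).ne'
      simp only [one3, Pi.smul_apply, Aq, smul_eq_mul]
      linarith
    have := hone g hg h1
    rw [e3, dotProduct_smul, hv1, smul_zero] at this
    exact lt_irrefl _ this
  have hy : y1 + y2 ≤ 1 := by
    have e1 := hxi i0
    obtain ⟨e2, e3⟩ := hzero i0 hi0
    rw [hi0, Nat.cast_zero, mul_zero, zero_add] at e1
    linarith [mul_le_mul_of_nonneg_left e2 hy1.le, mul_le_mul_of_nonneg_left e3 hy2.le]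
  have hc12 : InCone a T (y1 • Ahq a u1 + y2 • Ahq a u2) :=
    ((InCone.single hu1).smul hy1.le).add ((InCone.single hu2).smul hy2.le)
  by_cases hx0 : x ≤ 0
  · refine ⟨_, ⟨hc12, by simpa using hy, fun j hj h d hd => ?_⟩, fun g hg => ?_⟩
    · have e1 := congrArg (fun z => lin g ⬝ᵥ z) h
      have e2 := congrArg (fun z => lin g' ⬝ᵥ z) h
      simp only [dotProduct_add, dotProduct_smul, lin_Ahq, hu1g, hu2g, smul_eq_mul, mul_zero,
        zero_add, add_zero] at e1 e2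
      have e3 := mul_pos hy2 p2
      have e4 := mul_pos hy1 p1
      obtain ⟨r, rfl⟩ := perp (hpl v hvT) (hpl u1 hu1) (fun h => hu1v (Aq_inj ha h).symm) hv1 hu1g
        (hd v (mem_erase.2 ⟨by rintro rfl; linarith, hvT⟩))
        (hd u1 (mem_erase.2 ⟨by rintro rfl; linarith, hu1⟩)) hg.ne_zero
      have e5 := hd u2 (mem_erase.2 ⟨by rintro rfl; linarith, hu2⟩)
      rw [smul_dotProduct, smul_eq_mul, mul_eq_zero] at e5
      rw [e5.resolve_right p2.ne', zero_smul]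
    · rw [hqx, add_sub_cancel_right, dotProduct_smul]
      exact mul_nonpos_of_nonpos_of_nonneg hx0 (hgn g hg v hvT)
  have hx1 : 0 < x := not_le.1 hx0
  rcases lt_trichotomy l 1 with h | h | h
  · refine ⟨q, ⟨hqx ▸ ((InCone.single hvT).smul hx1.le).add hc12, by rw [hq]; exact h.le,
      fun j _ h' => ?_⟩, fun g _ => by simp⟩
    have := congrFun h' none
    rw [hq] at this
    exact absurd this h.ne
  · exact absurd h (by simpa using hl 1)
  exfalso
  have hk : ∀ k, a v k ≠ 0 → y1 + y2 = 1 ∧ a u1 k = 0 ∧ a u2 k = 0 := fun k hk => by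
    have e1 : (1 : ℚ) ≤ a v k := by exact_mod_cast Nat.one_le_iff_ne_zero.2 hk
    have e2 : (l - 1) * a v k = ((u (some k) + 1 - u none * a v k - a v k : ℤ) : ℚ) := by
      rw [sub_mul, hm k]
      push_cast
      ring
    have e3 : 1 ≤ (l - 1) * a v k := by
      have h5 : 0 < (l - 1) * a v k := mul_pos (by linarith) (by linarith)
      rw [e2] at h5 ⊢
      exact_mod_cast h5
    have e4 := hxi k
    have e5 : (0 : ℚ) ≤ a u1 k := by positivity
    have e6 : (0 : ℚ) ≤ a u2 k := by positivity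
    have e7 := mul_nonneg hy1.le e5
    have e8 := mul_nonneg hy2.le e6
    have e9 : 0 ≤ (x - (l - 1)) * a v k := mul_nonneg (by linarith) (by linarith)
    have e10 : (x - (l - 1)) * a v k = 0 := by nlinarith
    have e11 : x = l - 1 := by
      rcases mul_eq_zero.1 e10 with h5 | h5 <;> linarith
    refine ⟨by linarith, ?_, ?_⟩
    · have : y1 * a u1 k = 0 := by nlinarith
      exact_mod_cast (mul_eq_zero.1 this).resolve_left hy1.ne'
    · have : y2 * a u2 k = 0 := by nlinarith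
      exact_mod_cast (mul_eq_zero.1 this).resolve_left hy2.ne'
  obtain ⟨k, hk0⟩ := Function.ne_iff.1 hv0
  have hy' := (hk k (by simpa [Aq] using hk0)).1
  have : u1 = u2 := ha (by
    ext i
    by_cases hi : a v i = 0
    · have e1 := hxi i
      obtain ⟨e2, e3⟩ := hzero i hi
      rw [hi] at e1
      have e4 : (a u1 i : ℚ) = 1 := by nlinarith
      have e5 : (a u2 i : ℚ) = 1 := by nlinarith
      exact_mod_cast e4.trans e5.symm
    · rw [(hk i hi).2.1, (hk i hi).2.2])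
  rw [← this, hu1g] at p2
  exact lt_irrefl _ p2

theorem rootFacet (hK3 : Kosz3Stmt) (hC : ConeStmt) (hW : WallStmt) (hN : NegStmt)
    (hNb : NbrStmt) (hT : TExistStmt) (hCr : CritStmt) (hCap : RootCapStmt) : RootFacetStmt := by
  intro κ _ _ a c b ha hc hnd hb w hpos hw' hs hap hl hl2
  have hpl := onPl_Tw (a := a) w
  have hno : ∀ t, InCone a (Tw a w) t →
      NotIn (F3 a c (Tw a w)) (CY a (qq (∑ k, w k) one3) (Tw a w) (qq (∑ k, w k) one3 - t)) →
      (∀ g, IsWall a (Tw a w) g → lin g ⬝ᵥ (qq (∑ k, w k) one3 - t) ≤ 0) →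
      b.eval (-((∑ k, w k : ℚ) : ℂ)) = 0 := fun t h1 h2 h3 =>
    facet_of hK3 hC hW hN hNb hCap ha hnd hb hpos hw' hs rfl h1 h2
      (fun g hg h => absurd h (not_lt.2 (h3 g hg)))
      (fun g _ hg _ h => absurd h (not_lt.2 (h3 g hg)))
  rcases hT κ a _ w ha hpos hpl hs hap with ⟨t, ht, ht'⟩ | ⟨h1, h2⟩
  · by_contra hne
    refine hne (facet_of hK3 hC hW hN hNb hCap ha hnd hb hpos hw' hs rfl ht.1
      ((hCr κ a c _ ha hc).1 _ t ht) (fun g hg h => ?_) (fun g g' hg hg' h h' hgg u hu h3 h4 => ?_))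
    · by_contra h0
      push Not at h0
      obtain ⟨i, hi⟩ := Function.ne_iff.1 hg.ne_zero
      obtain ⟨j, hj, j', hj', h1, h2, h3⟩ := hg.2.2
      have key : ∀ j, g ⬝ᵥ Aq a j = 0 → a j i = 0 := fun j hj => by
        have := (sum_eq_zero_iff_of_nonneg (fun k _ => mul_nonneg (h0 k)
          (by simp [Aq] : 0 ≤ Aq a j k))).1 hj i (mem_univ i)
        simpa [Aq] using (mul_eq_zero.1 this).resolve_left hi
      exact not_coord ha hpl ht' hg h hj hj' h1 h2 h3 (key j h2) (key j' h3)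
    · obtain ⟨t', h5, h6⟩ := rechoose ha hpos hpl rfl hl ht.1 ht' hg hg' h h' hgg hu h3 h4
      exact hne (hno t' h5.1 ((hCr κ a c _ ha hc).1 _ t' h5) h6)
  · refine hno _ h2 ?_ (fun g _ => by simp)
    rw [sub_self]
    refine (hCr κ a c _ ha hc).2 w _ hpl (hnd.faceND hw' hpos) h1 (fun j hj i h => ?_) hl2
    refine hap i ⟨j, hj, by simp [h], fun B hB hBj => ?_⟩
    by_contra h0
    have e1 : w i = 1 := by simpa [dotProduct, Aq, h, Finsupp.single_apply] using hpl j hj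
    have e2 := hpl B hB
    obtain ⟨k, m, h3, h4, h5⟩ := exists_others i
    rw [dot_three h3 h4 h5, e1] at e2
    simp only [Aq] at e2
    have e3 : (1 : ℚ) ≤ a B i := by exact_mod_cast Nat.one_le_iff_ne_zero.2 h0
    have e4 := mul_nonneg (hpos k).le (by positivity : (0 : ℚ) ≤ a B k)
    have e5 := mul_nonneg (hpos m).le (by positivity : (0 : ℚ) ≤ a B m)
    have e6 : (a B i : ℚ) = 1 := by linarith
    have e7 : w k * a B k = 0 := by linarith
    have e8 : w m * a B m = 0 := by linarith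
    refine hBj (ha ?_)
    rw [h]
    ext n
    rcases three h3 h4 h5 n with rfl | rfl | rfl
    · simpa using e6
    · simpa [h3] using (mul_eq_zero.1 e7).resolve_left (hpos _).ne'
    · simpa [h4] using (mul_eq_zero.1 e8).resolve_left (hpos _).ne'

theorem root (hF : RootFacetStmt) (hE : RootEdgeStmt) (hT : RootTransStmt) (hL : RootLineStmt) :
    RootStmt := by
  intro κ _ _ _ a c b ha hc hnd hb hb1 w hw' hr hB hl2
  by_cases h1 : ∑ k, w k = 1
  · simpa [h1] using hb1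
  have hl : ∀ z : ℤ, ∑ k, w k ≠ z := fun z hz => by
    have h0 : 0 ≤ ∑ k, w k := sum_nonneg (fun k _ => hw'.1 k)
    have h2 : ∑ k, w k ≠ 0 := fun h => by
      have h3 := (sum_eq_zero_iff_of_nonneg (fun k _ => hw'.1 k)).1 h
      have h4 := hw'.2 (Classical.arbitrary κ)
      rw [dotProduct, sum_eq_zero (fun k hk => by rw [h3 k hk, zero_mul])] at h4
      linarith
    rw [hz] at h0 h1 h2 hl2
    have e1 : 0 ≤ z := by exact_mod_cast h0
    have e2 : z ≠ 1 := by exact_mod_cast h1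
    have e3 : z ≠ 0 := by exact_mod_cast h2
    have e4 : z < 2 := by exact_mod_cast hl2
    omega
  have hpos : ∀ i, w i ≠ 0 → 0 < w i := fun i h => lt_of_le_of_ne (hw'.1 i) h.symm
  have hex : ∀ i, w i ≠ 0 → ∃ A ∈ Tw a w, a A i ≠ 0 := fun i hi => by
    by_contra h
    push Not at h
    have := hr (Pi.single i 1) (fun k hk => by
      rw [Pi.single_apply, if_neg]
      rintro rfl
      exact hi hk) (fun j hj => by simp [Aq, h j hj])
    simpa using congrFun this i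
  by_cases hall : ∀ i, w i ≠ 0
  · exact hF κ a c b ha hc hnd hb w (fun i => hpos i (hall i)) hw'
      (fun d hd => hr d (fun i hi => absurd hi (hall i)) hd)
      (fun i h => hB i ⟨hpos i (hall i), h⟩) hl hl2
  push Not at hall
  obtain ⟨k, hk⟩ := hall
  obtain ⟨i, j, hki, hkj, hij⟩ := exists_others k
  have line : ∀ i j, k ≠ i → k ≠ j → i ≠ j → w j = 0 → b.eval (-((∑ k, w k : ℚ) : ℂ)) = 0 := by
    intro i j hki hkj hij hj
    have h2 : ∀ m, m ≠ i → w m = 0 := fun m hm => by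
      rcases three hki hkj hij m with rfl | rfl | rfl
      · exact hk
      · exact absurd rfl hm
      · exact hj
    refine hL κ a c b ha hc hb w i hw' h2 ?_ hl
    obtain ⟨A, hA, _⟩ := hex i (fun h => hl 0 (by
      rw [sum_three hki hkj hij, hk, h, hj]
      simp))
    exact ⟨A, hA⟩
  by_cases hi : w i = 0
  · exact line j i hkj hki hij.symm hi
  by_cases hj : w j = 0
  · exact line i j hki hkj hij hj
  have two : ∀ i j, k ≠ i → k ≠ j → i ≠ j → w i ≠ 0 → w j ≠ 0 →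
      ∃ A ∈ Tw a w, ∃ B ∈ Tw a w, a A j ≠ a B j := by
    intro i j hki hkj hij hi hj
    by_contra h
    push Not at h
    obtain ⟨A, hA, hA'⟩ := hex i hi
    have e1 : ∀ B ∈ Tw a w, (a B i : ℚ) = a A i := fun B hB => by
      have e2 := mem_Tw.1 hA
      have e3 := mem_Tw.1 hB
      rw [dot_three hki hkj hij, hk] at e2 e3
      simp only [Aq] at e2 e3
      rw [h B hB A hA] at e3
      exact mul_left_cancel₀ hi (by linarith)
    have e2 := hr ((a A j : ℚ) • Pi.single i 1 - (a A i : ℚ) • Pi.single j 1) (fun m hm => by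
      have e3 : m ≠ i := by rintro rfl; exact hi hm
      have e4 : m ≠ j := by rintro rfl; exact hj hm
      simp [e3, e4]) (fun B hB => by
      simp only [sub_dotProduct, smul_dotProduct, single_dotProduct, one_mul, smul_eq_mul, Aq,
        e1 B hB, h B hB A hA]
      ring)
    have e3 := congrFun e2 j
    simp [hij.symm] at e3
    exact hA' e3
  have trans : ∀ i j, k ≠ i → k ≠ j → i ≠ j → w i ≠ 0 → w j ≠ 0 → (∀ A ∈ Tw a w, a A j ≤ 1) →
      b.eval (-((∑ k, w k : ℚ) : ℂ)) = 0 := by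
    intro i j hki hkj hij hi hj h
    refine hT κ a c b ha hc hnd hb w i j k hij hki.symm hkj.symm hw' (hpos i hi) (hpos j hj) hk h
      ?_ ?_ hl
    · obtain ⟨A, hA, hA'⟩ := hex j hj
      have e1 := h A hA
      by_contra h0
      push Not at h0
      refine hB j ⟨hpos j hj, A, hA, by omega, fun B hB hBA => ?_⟩
      have := h B hB
      have := h0 A hA B hB hBA.symm (by omega)
      omega
    · obtain ⟨A, hA, B, hB, h0⟩ := two i j hki hkj hij hi hj
      have := h A hA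
      have := h B hB
      by_cases h2 : a A j = 0
      · exact ⟨A, hA, h2⟩
      · exact ⟨B, hB, by omega⟩
  by_cases h2 : ∀ A ∈ Tw a w, a A j ≤ 1
  · exact trans i j hki hkj hij hi hj h2
  by_cases h3 : ∀ A ∈ Tw a w, a A i ≤ 1
  · exact trans j i hkj hki hij.symm hj hi h3
  push Not at h2 h3
  exact hE κ a c b ha hnd hb w i j k hij hki.symm hkj.symm hw' (hpos i hi) (hpos j hj) hk h3 h2
    (two j i hkj hki hij.symm hj hi) h1

end Pool.Agent.MP_5d9b3c_ag.H48
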