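import Pool.Agent.MP_5d9b3c_ag.H48.Basic

/-!
From the local statements at the points of the torus to the recurrence for the point counts.
-/

namespace Pool.Agent.MP_5d9b3c_ag.H48

open Finset Pool.Agent.MP_5d9b3c_ag.H22

namespace GlobAux

variable {V ι : Type} [Fintype V] [DecidableEq V] [Fintype ι]

theorem globalA {p : ℝ} (hp : (p : ℂ) ≠ 0) (B : V → ι → ℕ) (good : ℂ → Prop) (E : Fn V)
    (h : ∀ ev : RR V →ₐ[ℂ] ℂ,
      (¬ good (ev (U (z0 V))) ∨
        ∃ c : Lat V, 0 < c ⬝ᵥ z0 V ∧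
          ∀ x ∈ (II B p ev).disjSum (JJ univ 1 ev), c ⬝ᵥ vec B x = 0) →
      ∃ D, ev D ≠ 0 ∧ act D E ∈ Ray (z0 V)) :
    ∃ R : Polynomial ℂ, act (Polynomial.aeval (U (z0 V)) R) E ∈ Ray (z0 V) ∧
      ∀ T : ℂ, R.eval T = 0 → good T ∧ ∃ (N : ℕ) (ν : ℤ), 0 < N ∧ T ^ N = (p : ℂ) ^ ν := by
  classical
  have cand : ∀ Y : Finset (ι ⊕ V), ∃ Q : Polynomial ℂ, Q ≠ 0 ∧
      (∀ T : ℂ, Q.eval T = 0 → ∃ (N : ℕ) (ν : ℤ), 0 < N ∧ T ^ N = (p : ℂ) ^ ν) ∧
      ((∃ c : Lat V, 0 < c ⬝ᵥ z0 V ∧ ∀ x ∈ Y, c ⬝ᵥ vec B x = 0) ∨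
        ∀ ev : RR V →ₐ[ℂ] ℂ,
          (∀ x ∈ Y, ev (U (vec B x)) = Sum.elim (fun _ => (p : ℂ)) (fun _ => 1) x) →
          Q.eval (ev (U (z0 V))) = 0) := by
    intro Y
    rcases lin_alt Y (vec B) (z0 V) with h | ⟨N, hN, n, hn⟩
    · exact ⟨1, one_ne_zero, fun T hT => by simp at hT, Or.inl h⟩
    · refine ⟨Polynomial.X ^ N -
        Polynomial.C (∏ x ∈ Y, (Sum.elim (fun _ => (p : ℂ)) (fun _ => 1) x) ^ n x),
        (Polynomial.monic_X_pow_sub_C _ hN.ne').ne_zero, fun T hT => ?_, Or.inr (fun ev hev => ?_)⟩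
      · rw [Polynomial.eval_sub, Polynomial.eval_pow, Polynomial.eval_X, Polynomial.eval_C,
          sub_eq_zero] at hT
        have hν : ∃ ν : ℤ, ∏ x ∈ Y, (Sum.elim (fun _ => (p : ℂ)) (fun _ => 1) x) ^ n x =
            (p : ℂ) ^ ν := by
          refine prod_induction _ (fun t : ℂ => ∃ ν : ℤ, t = (p : ℂ) ^ ν) ?_ ⟨0, by simp⟩ ?_
          · rintro _ _ ⟨s, rfl⟩ ⟨t, rfl⟩
            exact ⟨s + t, (zpow_add₀ hp s t).symm⟩
          · rintro (i | j) _
            · exact ⟨n (Sum.inl i), rfl⟩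
            · exact ⟨0, by simp⟩
        obtain ⟨ν, hν⟩ := hν
        exact ⟨N, ν, hN, hT.trans hν⟩
      · rw [Polynomial.eval_sub, Polynomial.eval_pow, Polynomial.eval_X, Polynomial.eval_C,
          ← map_pow, ← U_nsmul, hn, U_sum, map_prod, sub_eq_zero]
        refine prod_congr rfl (fun x hx => ?_)
        rw [ev_U_zsmul, hev x hx]
  choose Q hQ0 hQ1 hQ using cand
  obtain ⟨R0, hR0⟩ : ∃ R0 : Polynomial ℂ, R0 =
    ∏ T ∈ (∏ Y, Q Y).roots.toFinset.filter good, (Polynomial.X - Polynomial.C T) := ⟨_, rfl⟩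
  have hrad : Polynomial.aeval (U (z0 V)) R0 ∈ (annRay E).radical := by
    have : IsJacobsonRing (RR V) := isJacobsonRing_of_finiteType (A := ℂ)
    rw [Ideal.radical_eq_jacobson, Ideal.jacobson, Ideal.mem_sInf]
    rintro m ⟨hle, hm⟩
    obtain ⟨ev, hev⟩ := exists_ev m hm
    have hno := fun h' => (h ev h').elim (fun D hD => hD.1 ((hev D).2 (hle hD.2)))
    have hg : good (ev (U (z0 V))) := by
      by_contra hng
      exact hno (Or.inl hng)
    have hq : (∏ Y, Q Y).eval (ev (U (z0 V))) = 0 := by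
      rcases hQ ((II B p ev).disjSum (JJ univ 1 ev)) with h1 | h1
      · exact (hno (Or.inr h1)).elim
      · rw [Polynomial.eval_prod]
        refine prod_eq_zero (mem_univ _) (h1 ev ?_)
        rintro (i | j) hx
        · exact mem_II.1 (inl_mem_disjSum.1 hx)
        · simp only [vec, Sum.elim_inr]
          rw [ev_U_neg, (mem_JJ.1 (inr_mem_disjSum.1 hx)).2, inv_one]
    rw [← hev, ← Polynomial.aeval_algHom_apply, Polynomial.coe_aeval_eq_eval, hR0,
      Polynomial.eval_prod]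
    refine prod_eq_zero (i := ev (U (z0 V))) (mem_filter.2 ⟨?_, hg⟩) (by simp)
    rw [Multiset.mem_toFinset, Polynomial.mem_roots (prod_ne_zero_iff.2 (fun Y _ => hQ0 Y))]
    exact hq
  obtain ⟨n, hn⟩ := hrad
  refine ⟨R0 ^ n, by rw [map_pow]; exact hn, fun T hT => ?_⟩
  rw [Polynomial.eval_pow] at hT
  have h1 := pow_eq_zero_iff (M₀ := ℂ) (a := R0.eval T) (n := n) (by
    rintro rfl
    simp at hT) |>.1 hT
  rw [hR0, Polynomial.eval_prod, prod_eq_zero_iff] at h1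
  obtain ⟨T', hT', h2⟩ := h1
  have : T = T' := by simpa [sub_eq_zero] using h2
  rw [this]
  refine ⟨(mem_filter.1 hT').2, ?_⟩
  have h3 := (mem_filter.1 hT').1
  rw [Multiset.mem_toFinset, Polynomial.mem_roots (prod_ne_zero_iff.2 (fun Y _ => hQ0 Y)),
    Polynomial.IsRoot, Polynomial.eval_prod, prod_eq_zero_iff] at h3
  obtain ⟨Y, _, hY⟩ := h3
  exact hQ1 Y T' hY

theorem globalB (hs : StarStmt) {κ : Type} [Fintype κ] [DecidableEq κ] [Nonempty κ] {p : ℝ}
    (hp : 1 < p) {a : κ → Fin 3 →₀ ℕ} {c : κ → ℂ} {b : Polynomial ℂ}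
    (ha : Function.Injective a) (hc : ∀ j, c j ≠ 0) (hnd : NDeg a c) (hbe : BEq a c b)
    (hb1 : b.eval (-1) = 0) {E0 : Fn κ} (hE : Dec p (Aof a) E0) :
    ∃ R : Polynomial ℂ, act (Polynomial.aeval (U (z0 κ)) R) E0 ∈ Ray (z0 κ) ∧
      ∀ T : ℂ, R.eval T = 0 →
        (b.eval ((-(Real.log ‖T‖ / Real.log p) : ℝ) : ℂ) = 0 ∨
          -(Real.log ‖T‖ / Real.log p) ≤ -2) ∧
        ∃ (N : ℕ) (ν : ℤ), 0 < N ∧ T ^ N = (p : ℂ) ^ ν := by
  classical
  have hp0 : (p : ℂ) ≠ 0 := by exact_mod_cast (by linarith : p ≠ 0)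
  refine globalA hp0 (Aof a) (fun T => b.eval ((-(Real.log ‖T‖ / Real.log p) : ℝ) : ℂ) = 0 ∨
    -(Real.log ‖T‖ / Real.log p) ≤ -2) E0 (fun ev hev => ?_)
  obtain ⟨E, hE0, hE⟩ := hE (JJ univ 1 ev)
  rw [hE0]
  have hp1 : (p : ℂ) ≠ 1 := by exact_mod_cast hp.ne'
  have hyv : ∀ i, ev (U (yv (Aof a) i)) = ∏ v, ev (U (ee v)) ^ Aof a v i := fun i => by
    have : yv (Aof a) i = fun j => ((Aof a j i : ℕ) : ℤ) := rfl
    rw [this, U_nat, map_prod]
    simp only [map_pow]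
  have key : ∀ J ⊆ JJ univ 1 ev, ∃ D, ev D ≠ 0 ∧ act D (E J) ∈ Ray (z0 κ) := by
    intro J hJ
    have hJ1 : ∀ v ∈ J, ev (U (ee v)) = 1 := fun v hv => (mem_JJ.1 (hJ hv)).2
    have hT : ∀ v ∈ TT (Aof a) (II (Aof a) p ev) J, ev (U (ee v)) = p := by
      intro v hv
      obtain ⟨_, i, hi, h1, h2⟩ := mem_TT.1 hv
      rw [← mem_II.1 hi, hyv, prod_eq_single v, h1, pow_one]
      · intro w _ hw
        by_cases hwJ : w ∈ J
        · rw [hJ1 w hwJ, one_pow]
        · rw [h2 w hwJ hw, pow_zero]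
      · simp
    obtain ⟨H, M, hH, hEH⟩ := (hE J hJ).2 (TT (Aof a) (II (Aof a) p ev) J) (fun v hv => by
      obtain ⟨_, i, _, h1, h2⟩ := mem_TT.1 hv
      exact ⟨fun h => hp1 (by rw [← hT v hv, (mem_JJ.1 h).2]), i, h1, h2⟩)
    have hS2 : ∀ i ∈ II (Aof a) p ev, ∃ v ∉ J ∪ ∅, Aof a v i ≠ 0 := by
      intro i hi
      by_contra h
      push Not at h
      refine hp1 ?_
      rw [← mem_II.1 hi, hyv]
      refine prod_eq_one (fun v _ => ?_)
      by_cases hv : v ∈ J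
      · rw [hJ1 v hv, one_pow]
      · rw [h v (by simpa using hv), pow_zero]
    obtain ⟨D, hD1, hD2⟩ : ∃ D : RR κ, ev D ≠ 0 ∧
        D * ∏ v ∈ TT (Aof a) (II (Aof a) p ev) J ∪ ∅, uu (ev (U (ee v))) (-ee v) ∈
          supIdeal ((II (Aof a) p ev).disjSum (J ∪ ∅)) (xi O p ev) (vec (Aof a)) (z0 κ) := by
      rcases hev with hb | ⟨c', hc1, hc'⟩
      · rw [not_or, not_le] at hb
        have hz : yv (Aof a) none = z0 κ := by
          ext v
          simp [yv, z0, Aof]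
        have hI : none ∉ II (Aof a) p ev := fun h => hb.1 (by
          rw [← hz, mem_II.1 h, neg_log_self hp]
          simpa using hb1)
        have hsum := pt_sum p ev (fun _ => 1)
        simp only [Nat.cast_one, one_mul] at hsum
        have e : (fun _ : κ => (1 : ℤ)) = z0 κ := rfl
        rw [e] at hsum
        rw [← hsum] at hb
        rw [union_empty, union_empty]
        exact transfer2 ev _ _ (fun W _ _ l _ _ hl => hs κ a c b ha hc hnd hbe hb1
          (II (Aof a) p ev) J (pt p ev) hI (fun i hi => pt_of_yv hp (Aof a) ev (mem_II.1 hi))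
          (fun v hv => pt_of_eq_one p ev (hJ1 v hv)) hb.1 hb.2 W l hl)
      · refine ⟨1, by simp, ?_⟩
        have h1 : (1 : RR κ) ∈ supIdeal ((II (Aof a) p ev).disjSum (J ∪ ∅)) (xi O p ev)
            (vec (Aof a)) (z0 κ) := by
          refine Ideal.subset_span ⟨c', hc1, ?_⟩
          rw [filter_false_of_mem, prod_empty]
          intro x hx
          rw [hc' x (disjSum_mono subset_rfl (by simpa using hJ) hx)]
          exact lt_irrefl _
        simpa using Ideal.mul_mem_left _ _ h1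
    obtain ⟨D0, hD3, hD4⟩ := core2 hp ev hJ1 hT (disjoint_empty_right _) (disjoint_empty_right _)
      hS2 (fun v hv => by simp [hv]) (fun v hv hv' h => by
        simp only [mem_compl, mem_sdiff, mem_JJ, mem_univ, true_and] at hv
        exact hv ⟨h, hv'⟩) (hE J hJ).1 hH hEH hD2
    exact ⟨D * D0, by rw [map_mul]; exact mul_ne_zero hD1 hD3, hD4⟩
  choose! D hD1 hD2 using key
  refine ⟨∏ J ∈ (JJ univ 1 ev).powerset, D J, ?_, ?_⟩
  · rw [map_prod]
    exact prod_ne_zero_iff.2 (fun J hJ => hD1 J (mem_powerset.1 hJ))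
  · rw [map_sum]
    refine Submodule.sum_mem _ (fun J hJ => ?_)
    rw [← prod_erase_mul _ _ hJ, act_mul]
    exact act_mem_Ray _ _ (hD2 J (mem_powerset.1 hJ))

lemma ndeg {κ : Type} [Fintype κ] [DecidableEq κ] {a : κ → Fin 3 →₀ ℕ} {c : κ → ℂ}
    (ha : Function.Injective a) (hc : ∀ j, c j ≠ 0)
    (H1 : ∀ w : Fin 3 → ℕ, Nond (fac (fun i => w i) (∑ j, MvPolynomial.monomial (a j) (c j)))) :
    NDeg a c := by
  intro w hw hne
  obtain ⟨N, hN, n, hn⟩ := clear_den w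
  have hN' : (0 : ℚ) < N := by exact_mod_cast hN
  have hn0 : ∀ i, (((n i).toNat : ℕ) : ℤ) = n i := fun i => by
    have h1 : (0 : ℚ) ≤ n i := by
      rw [hn]
      exact mul_nonneg hN'.le (hw.1 i)
    exact Int.toNat_of_nonneg (by exact_mod_cast h1)
  have hwt : ∀ j, ((wgt (fun i => (((n i).toNat : ℕ) : ℤ)) (a j) : ℤ) : ℚ) =
      N * (w ⬝ᵥ Aq a j) := fun j => by
    simp only [wgt, hn0, dotProduct, Aq, mul_sum]
    push_cast
    exact sum_congr rfl (fun i _ => by rw [hn, mul_assoc])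
  have := H1 (fun i => (n i).toNat)
  rw [fac_poly ha hc _ (J' := Tw a w) (N := N) (fun j _ => by
    have h1 : ((N : ℤ) : ℚ) ≤ ((wgt (fun i => (((n i).toNat : ℕ) : ℤ)) (a j) : ℤ) : ℚ) := by
      rw [hwt, Int.cast_natCast]
      exact le_mul_of_one_le_right hN'.le (hw.2 j)
    exact_mod_cast h1) (fun j => by
    rw [mem_Tw, ← Int.cast_inj (α := ℚ), hwt, Int.cast_natCast]
    simp [hN'.ne']) hne] at this
  exact this.nd

end GlobAux

open GlobAux in
theorem glob (h : StarStmt) : GlobStmt := by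
  intro κ _ _ a c b p hp ha hc H1 hdeg hbe
  have : Fact p.Prime := ⟨hp⟩
  have hne : Nonempty κ := by
    by_contra hκ
    rw [not_nonempty_iff] at hκ
    exact hdeg (by simp)
  have hb1 : b.eval (-1) = 0 := by
    obtain ⟨d, P, hP, heq⟩ := hbe
    exact root_neg_one hdeg hP heq
  have hc' : ∀ j, (c j : ℂ) ≠ 0 := fun j => by exact_mod_cast hc j
  have hA : Function.Injective (Aof a) := fun j j' h => ha (by
    ext i
    exact congrFun h (some i))
  have hcast : ∀ (w : Option (Fin 3) → ℕ) j, ((∑ i, w i * Aof a j i : ℕ) : ℤ) =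
      w none + wgt (fun i => w (some i)) (a j) := fun w j => by
    rw [← sum_Aof (fun i => w i)]
    push_cast
    rfl
  have hnd : ∀ w J, J.Nonempty → IsFace (Aof a) w J → ND (Aof a) (fun j => (c j : ℂ)) J := by
    rintro w J hJ ⟨N, h1, h2⟩
    have := H1 (fun i => w (some i))
    rw [fac_poly ha hc' _ (J' := J) (N := N - w none) (fun j _ => by
      have := hcast w j
      have := h1 j
      omega) (fun j => by
      have := hcast w j
      rw [h2]
      simp only [mem_univ, true_and]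
      omega) hJ] at this
    exact this.nd
  have hu : Unf (Aof a) (Aof a) (fun j v => if v = j then 1 else 0) 1 id :=
    ⟨one_pos, fun j i => by simp, fun j => by simp, fun _ => rfl, fun _ _ => rfl, hA⟩
  obtain ⟨E0, hE1, hE2⟩ := model (p := p) hu hc (phase hnd)
  obtain ⟨R, hR1, hR2⟩ := globalB h (p := (p : ℝ)) (by exact_mod_cast hp.one_lt) ha hc'
    (ndeg ha hc' H1) hbe hb1 hE1
  obtain ⟨C, hC⟩ := poly_of_ray _ R hR1
  refine ⟨R, C, ?_, fun T hT => ?_⟩
  · simp only [hE2, EE_ray, mean_DD, Fintype.card_fin] at hC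
    exact hC
  · simpa only [Complex.ofReal_natCast] using hR2 T hT

end Pool.Agent.MP_5d9b3c_ag.H48
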