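import Pool.Agent.MP_5d9b3c_ag.H48.Basic

/-!
Syzygies on the cones over an edge and over a facet.
-/

namespace Pool.Agent.MP_5d9b3c_ag.H48

open Finset Pool.Agent.MP_5d9b3c_ag.H22

namespace KoszAux

/-- A half-space. -/
def Hs (q y n : Vq) : Set Pt := {u | 0 ≤ n ⬝ᵥ (hat q u - y)}

section Sup

variable {Y : Set Pt} {e e' : RR O} {q y n : Vq}

lemma mem_Hs {u : Pt} : u ∈ Hs q y n ↔ 0 ≤ n ⬝ᵥ (hat q u - y) := Iff.rfl

lemma sup_zero : SuppIn Y 0 := fun _ h => absurd rfl h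

lemma sup_add (h : SuppIn Y e) (h' : SuppIn Y e') : SuppIn Y (e + e') := by
  intro u hu
  by_contra hn
  apply hu
  have h1 : e.coeff u = 0 := by_contra (fun h1 => hn (h u h1))
  have h2 : e'.coeff u = 0 := by_contra (fun h2 => hn (h' u h2))
  rw [AddMonoidAlgebra.coeff_add, Finsupp.add_apply, h1, h2, add_zero]

lemma sup_neg (h : SuppIn Y e) : SuppIn Y (-e) := by
  intro u hu
  refine h u (fun h1 => hu ?_)
  rw [AddMonoidAlgebra.coeff_neg, Finsupp.neg_apply, h1, neg_zero]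

lemma sup_sub (h : SuppIn Y e) (h' : SuppIn Y e') : SuppIn Y (e - e') := by
  rw [sub_eq_add_neg]
  exact sup_add h (sup_neg h')

lemma sup_smul (r : ℂ) (h : SuppIn Y e) : SuppIn Y (r • e) := by
  intro u hu
  refine h u (fun h1 => hu ?_)
  rw [AddMonoidAlgebra.coeff_smul_apply, h1, smul_zero]

lemma sup_sum {ι : Type} (S : Finset ι) (f : ι → RR O) (h : ∀ i ∈ S, SuppIn Y (f i)) :
    SuppIn Y (∑ i ∈ S, f i) :=
  Finset.sum_induction f (SuppIn Y) (fun _ _ => sup_add) sup_zero h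

lemma sup_U {v : Pt} (h : v ∈ Y) : SuppIn Y (U v) := by
  classical
  intro u hu
  rw [U, AddMonoidAlgebra.coeff_single, Finsupp.single_apply] at hu
  by_cases h1 : v = u
  · exact h1 ▸ h
  · simp [h1] at hu

lemma hat_add' (u u' : Pt) : hat q (u + u') - y = (hat 0 u - 0) + (hat q u' - y) := by
  ext i
  simp only [hat, Pi.add_apply, Pi.sub_apply, Int.cast_add, Pi.zero_apply]
  ring

lemma sup_mul (h : SuppIn (Hs 0 0 n) e) (h' : SuppIn (Hs q y n) e') :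
    SuppIn (Hs q y n) (e * e') := by
  classical
  intro u hu
  have h1 := AddMonoidAlgebra.support_coeff_mul_subset e e' (Finsupp.mem_support_iff.2 hu)
  obtain ⟨v, hv, v', hv', rfl⟩ := Finset.mem_add.1 h1
  have h2 := h v (Finsupp.mem_support_iff.1 hv)
  have h3 := h' v' (Finsupp.mem_support_iff.1 hv')
  change 0 ≤ n ⬝ᵥ _
  rw [hat_add', dotProduct_add]
  exact add_nonneg h2 h3

lemma sup_mul' (h' : SuppIn (Hs q y n) e') (h : SuppIn (Hs 0 0 n) e) :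
    SuppIn (Hs q y n) (e' * e) := by
  rw [mul_comm]
  exact sup_mul h h'

end Sup

variable {κ : Type} {a : κ → Fin 3 →₀ ℕ} {c : κ → ℂ} {T : Finset κ} {q y n : Vq}

lemma hat_Ah (j : κ) : hat 0 (Ah a j) - 0 = Ahq a j := by
  ext i
  simp [hat, Ah_cast]

lemma sup_CY (hn : ∀ j ∈ T, 0 ≤ n ⬝ᵥ Ahq a j) {e : RR O} (h : SuppIn (CY a q T y) e) :
    SuppIn (Hs q y n) e := fun u hu => InCone.dot_nonneg (h u hu) hn

lemma sup_Mon (hn : ∀ j ∈ T, 0 ≤ n ⬝ᵥ Ahq a j) {e : RR O} (h : SuppIn (Mon a T) e) :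
    SuppIn (Hs 0 0 n) e := by
  intro u hu
  obtain ⟨k, rfl⟩ := h u hu
  refine InCone.dot_nonneg (T := T) ⟨fun j => (k j : ℚ), fun j => Nat.cast_nonneg _, ?_⟩ hn
  ext i
  simp [hat, Ah_cast]

lemma sup_Fop (hn : ∀ j ∈ T, 0 ≤ n ⬝ᵥ Ahq a j) (m : Vq) : SuppIn (Hs 0 0 n) (Fop a c T m) :=
  sup_sum _ _ (fun j hj => sup_smul _ (sup_U (by
    change 0 ≤ n ⬝ᵥ _
    rw [hat_Ah]
    exact hn j hj)))

lemma sup_inv {j : κ} (hn : n ⬝ᵥ Ahq a j = 0) (K : ℕ) :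
    SuppIn (Hs 0 0 n) (U (-(K • Ah a j))) := by
  refine sup_U ?_
  change 0 ≤ n ⬝ᵥ _
  have : hat 0 (-(K • Ah a j)) - 0 = (-(K : ℚ)) • Ahq a j := by
    ext i
    simp [hat, Ah_cast]
  rw [this, dotProduct_smul, hn, smul_zero]

lemma Fop_comb {ι : Type} (S : Finset ι) (r : ι → ℚ) (m : ι → Vq) {n : Vq}
    (h : ∀ j ∈ T, n ⬝ᵥ Ahq a j = ∑ i ∈ S, r i * (m i ⬝ᵥ Ahq a j)) :
    Fop a c T n = ∑ i ∈ S, ((r i : ℚ) : ℂ) • Fop a c T (m i) := by
  simp only [Fop, smul_sum, smul_smul]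
  rw [sum_comm]
  refine sum_congr rfl (fun j hj => ?_)
  rw [h j hj, ← sum_smul, Rat.cast_sum, mul_sum]
  congr 1
  exact sum_congr rfl (fun i _ => by push_cast; ring)

/-- A combination of the operators that equals one, with control of the supports. -/
lemma unit_comb [Fintype κ] [DecidableEq κ] (hns : NSStmt) (hT : FaceND a c T) {ι : Type}
    [Fintype ι] (m : ι → Vq) (r : O → ι → ℚ)
    (h : ∀ o, ∀ j ∈ T, Ahq a j o = ∑ i, r o i * (m i ⬝ᵥ Ahq a j)) {v : κ} (hv : v ∈ T) :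
    ∃ G : ι → RR O, ∑ i, Fop a c T (m i) * G i = 1 ∧
      ∀ n : Vq, (∀ j ∈ T, 0 ≤ n ⬝ᵥ Ahq a j) → n ⬝ᵥ Ahq a v = 0 →
        ∀ i, SuppIn (Hs 0 0 n) (G i) := by
  obtain ⟨K, G, h1, h2⟩ := hns κ a c T hT v hv
  refine ⟨fun i => U (-(K • Ah a v)) * ∑ o, ((r o i : ℚ) : ℂ) • G o, ?_, fun n hn h0 i => ?_⟩
  · rw [← U_mul_neg (K • Ah a v), h2, sum_mul]
    have e : ∀ o, Fop a c T (ei o) = ∑ i, ((r o i : ℚ) : ℂ) • Fop a c T (m i) :=
      fun o => Fop_comb _ _ _ (fun j hj => by rw [ei_dot, h o j hj])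
    simp only [e, mul_sum, sum_mul]
    rw [sum_comm]
    refine sum_congr rfl (fun o _ => sum_congr rfl (fun i _ => ?_))
    rw [smul_mul_assoc, smul_mul_assoc, mul_smul_comm, mul_smul_comm]
    congr 1
    ring
  · exact sup_mul (sup_inv h0 K) (sup_sum _ _ (fun o _ => sup_smul _ (sup_Mon hn (h1 o))))

end KoszAux

open KoszAux

theorem kosz2 (hns : NSStmt) : Kosz2Stmt := by
  intro κ _ _ a c E v v' s s' hE hT q y e he h0
  have hrep : ∀ o, ∀ j ∈ E, Ahq a j o =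
      ∑ i : Fin 2, (![Ahq a v o, Ahq a v' o] i) * (![s, s'] i ⬝ᵥ Ahq a j) := by
    intro o j hj
    have := congrFun (hE.rep j hj) o
    simp only [Pi.add_apply, Pi.smul_apply, smul_eq_mul] at this
    rw [Fin.sum_univ_two]
    simp only [Matrix.cons_val_zero, Matrix.cons_val_one]
    linarith
  have key : ∀ j ∈ E, ∃ h : RR O, e 0 = Fop a c E s' * h ∧ e 1 = -(Fop a c E s * h) ∧
      (∀ h' : RR O, e 0 = Fop a c E s' * h' → e 1 = -(Fop a c E s * h') → h' = h) ∧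
      ∀ n : Vq, (∀ j ∈ E, 0 ≤ n ⬝ᵥ Ahq a j) → n ⬝ᵥ Ahq a j = 0 → SuppIn (Hs q y n) h := by
    intro j hj
    obtain ⟨G, h1, h2⟩ := unit_comb hns hT ![s, s'] (fun o => ![Ahq a v o, Ahq a v' o]) hrep hj
    rw [Fin.sum_univ_two] at h0 h1
    simp only [Matrix.cons_val_zero, Matrix.cons_val_one] at h0 h1
    refine ⟨G 1 * e 0 - G 0 * e 1, ?_, ?_, fun h' h3 h4 => ?_, fun n hn h3 => ?_⟩
    · linear_combination (G 0) * h0 - (e 0) * h1
    · linear_combination (G 1) * h0 - (e 1) * h1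
    · rw [h3, h4]
      linear_combination -h' * h1
    · exact sup_sub (sup_mul (h2 n hn h3 1) (sup_CY hn (he 0)))
        (sup_mul (h2 n hn h3 0) (sup_CY hn (he 1)))
  obtain ⟨h, h1, h2, h3, h4⟩ := key v hE.mem
  obtain ⟨h', h1', h2', -, h4'⟩ := key v' hE.mem'
  obtain rfl := h3 h' h1' h2'
  have hs : SuppIn (CY a q E y) h' := by
    intro u hu
    have e1 : hat q u - y = (s ⬝ᵥ (hat q u - y)) • Ahq a v + (s' ⬝ᵥ (hat q u - y)) • Ahq a v' := by
      ext o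
      have hz : ∀ j ∈ E, (ei o - Ahq a v o • s - Ahq a v' o • s') ⬝ᵥ Ahq a j = 0 := by
        intro j hj
        have := congrFun (hE.rep j hj) o
        simp only [Pi.add_apply, Pi.smul_apply, smul_eq_mul] at this
        simp only [sub_dotProduct, smul_dotProduct, ei_dot, smul_eq_mul]
        linarith
      have h5 := mem_Hs.1 (h4 _ (fun j hj => (hz j hj).ge) (hz v hE.mem) u hu)
      have h6 := mem_Hs.1 (h4 (-(ei o - Ahq a v o • s - Ahq a v' o • s'))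
        (fun j hj => by rw [neg_dotProduct, hz j hj, neg_zero])
        (by rw [neg_dotProduct, hz v hE.mem, neg_zero]) u hu)
      rw [neg_dotProduct] at h6
      simp only [sub_dotProduct, smul_dotProduct, ei_dot, smul_eq_mul] at h5 h6
      simp only [Pi.add_apply, Pi.smul_apply, smul_eq_mul]
      linarith
    change InCone a E _
    rw [e1]
    exact ((InCone.single hE.mem).smul (h4' s hE.pos hE.sv' u hu)).add
      ((InCone.single hE.mem').smul (h4 s' hE.pos' hE.s'v u hu))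
  refine ⟨![![0, h'], ![-h', 0]], ?_, ?_, ?_⟩
  · intro i k
    fin_cases i <;> fin_cases k
    exacts [sup_zero, hs, sup_neg hs, sup_zero]
  · intro i k
    fin_cases i <;> fin_cases k <;> simp
  · intro i
    fin_cases i
    · simp [Fin.sum_univ_two, h1]
    · simp [Fin.sum_univ_two, h2]

theorem kosz3 (hns : NSStmt) (hwall : WallStmt) (hcon : ConStmt) : Kosz3Stmt := by
  classical
  intro κ _ _ a c T w ha hw' hsp hT q y e he h0
  have hrep : ∀ o, ∀ j ∈ T, Ahq a j o =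
      ∑ i : Fin 3, (o.elim w (fun k => Pi.single k 1) : V3) i * (ei (some i) ⬝ᵥ Ahq a j) := by
    rintro (_ | k) j hj
    · simp only [ei_dot]
      simpa [dotProduct, Aq] using (hw' j hj).symm
    · simp [Pi.single_apply]
  obtain ⟨j0, hj0⟩ : T.Nonempty := by
    by_contra hne
    rw [not_nonempty_iff_eq_empty] at hne
    have := congrFun (hsp one3 (fun j hj => by simp [hne] at hj)) 0
    simp [one3] at this
  have hG := fun (v : κ) (hv : v ∈ T) => unit_comb hns hT (fun i : Fin 3 => ei (some i))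
    (fun o => (o.elim w (fun k => Pi.single k 1) : V3)) hrep hv
  choose! G h1 h2 using hG
  set F : Fin 3 → RR O := F3 a c T with hF
  have hFs : ∀ n : Vq, (∀ j ∈ T, 0 ≤ n ⬝ᵥ Ahq a j) → ∀ i, SuppIn (Hs 0 0 n) (F i) :=
    fun n hn i => sup_Fop hn _
  replace h1 : ∀ v ∈ T, F 0 * G v 0 + F 1 * G v 1 + F 2 * G v 2 = 1 := fun v hv => by
    have := h1 v hv
    rw [Fin.sum_univ_three] at this
    exact this
  rw [Fin.sum_univ_three] at h0
  -- the local solutions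
  let H : κ → Fin 3 → RR O := fun v =>
    ![e 1 * G v 2 - e 2 * G v 1, e 2 * G v 0 - e 0 * G v 2, e 0 * G v 1 - e 1 * G v 0]
  have hH : ∀ v ∈ T, ∀ n : Vq, (∀ j ∈ T, 0 ≤ n ⬝ᵥ Ahq a j) → n ⬝ᵥ Ahq a v = 0 →
      ∀ i, SuppIn (Hs q y n) (H v i) := by
    intro v hv n hn h3 i
    have h4 : ∀ i k, SuppIn (Hs q y n) (e i * G v k) :=
      fun i k => sup_mul' (sup_CY hn (he i)) (h2 v hv n hn h3 k)
    fin_cases i <;> exact sup_sub (h4 _ _) (h4 _ _)
  -- the differences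
  let γ : κ → κ → RR O := fun v v' => -(G v 0 * H v' 0 + G v 1 * H v' 1 + G v 2 * H v' 2)
  have hγ : ∀ v ∈ T, ∀ v' ∈ T, ∀ i, H v i - H v' i = γ v v' * F i := by
    intro v hv v' hv' i
    have h3 := h1 v hv
    have h4 := h1 v' hv'
    fin_cases i
    · change (e 1 * G v 2 - e 2 * G v 1) - (e 1 * G v' 2 - e 2 * G v' 1) =
        -(G v 0 * (e 1 * G v' 2 - e 2 * G v' 1) + G v 1 * (e 2 * G v' 0 - e 0 * G v' 2) +
          G v 2 * (e 0 * G v' 1 - e 1 * G v' 0)) * F 0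
      linear_combination (e 1 * G v' 2 - e 2 * G v' 1) * h3 - (e 1 * G v 2 - e 2 * G v 1) * h4 +
        (G v' 1 * G v 2 - G v' 2 * G v 1) * h0
    · change (e 2 * G v 0 - e 0 * G v 2) - (e 2 * G v' 0 - e 0 * G v' 2) =
        -(G v 0 * (e 1 * G v' 2 - e 2 * G v' 1) + G v 1 * (e 2 * G v' 0 - e 0 * G v' 2) +
          G v 2 * (e 0 * G v' 1 - e 1 * G v' 0)) * F 1
      linear_combination (e 2 * G v' 0 - e 0 * G v' 2) * h3 - (e 2 * G v 0 - e 0 * G v 2) * h4 +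
        (G v' 2 * G v 0 - G v' 0 * G v 2) * h0
    · change (e 0 * G v 1 - e 1 * G v 0) - (e 0 * G v' 1 - e 1 * G v' 0) =
        -(G v 0 * (e 1 * G v' 2 - e 2 * G v' 1) + G v 1 * (e 2 * G v' 0 - e 0 * G v' 2) +
          G v 2 * (e 0 * G v' 1 - e 1 * G v' 0)) * F 2
      linear_combination (e 0 * G v' 1 - e 1 * G v' 0) * h3 - (e 0 * G v 1 - e 1 * G v 0) * h4 +
        (G v' 0 * G v 1 - G v' 1 * G v 0) * h0
  have hγs : ∀ v ∈ T, ∀ v' ∈ T, ∀ n : Vq, (∀ j ∈ T, 0 ≤ n ⬝ᵥ Ahq a j) → n ⬝ᵥ Ahq a v = 0 →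
      n ⬝ᵥ Ahq a v' = 0 → SuppIn (Hs q y n) (γ v v') := by
    intro v hv v' hv' n hn h3 h4
    have h5 : ∀ i, SuppIn (Hs q y n) (G v i * H v' i) :=
      fun i => sup_mul (h2 v hv n hn h3 i) (hH v' hv' n hn h4 i)
    exact sup_neg (sup_add (sup_add (h5 0) (h5 1)) (h5 2))
  have hco : ∀ v ∈ T, ∀ v' ∈ T, γ v j0 = γ v' j0 + γ v v' := by
    intro v hv v' hv'
    have h3 : ∀ i, (γ v j0 - γ v' j0 - γ v v') * F i = 0 := fun i => by
      linear_combination hγ v' hv' j0 hj0 i + hγ v hv v' hv' i - hγ v hv j0 hj0 i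
    linear_combination G v 0 * h3 0 + G v 1 * h3 1 + G v 2 * h3 2 -
      (γ v j0 - γ v' j0 - γ v v') * h1 v hv
  have hwl : ∀ g, IsWall a T g → ∀ j ∈ T, 0 ≤ lin g ⬝ᵥ Ahq a j := fun g hg j hj => by
    rw [lin_Ahq]
    exact hg.1 j hj
  have same : ∀ g, IsWall a T g → ∀ u, u ∉ Hs q y (lin g) → ∀ v ∈ T, ∀ v' ∈ T,
      g ⬝ᵥ Aq a v = 0 → g ⬝ᵥ Aq a v' = 0 → (γ v j0).coeff u = (γ v' j0).coeff u := by
    intro g hg u hu v hv v' hv' h3 h4
    have h5 : (γ v v').coeff u = 0 := by_contra (fun h5 => hu (hγs v hv v' hv' (lin g) (hwl g hg)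
      (by rw [lin_Ahq, h3]) (by rw [lin_Ahq, h4]) u h5))
    rw [hco v hv v' hv', AddMonoidAlgebra.coeff_add, Finsupp.add_apply, h5, add_zero]
  have viol : ∀ g u, u ∉ Hs q y (lin g) ↔ g ⬝ᵥ (fun i => (hat q u - y) (some i)) < 0 := by
    intro g u
    rw [← lin_dot, mem_Hs]
    exact not_le
  have conn : ∀ u g g', IsWall a T g → IsWall a T g' → u ∉ Hs q y (lin g) →
      u ∉ Hs q y (lin g') → ∀ v ∈ T, g ⬝ᵥ Aq a v = 0 → ∀ v' ∈ T, g' ⬝ᵥ Aq a v' = 0 →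
      (γ v j0).coeff u = (γ v' j0).coeff u := by
    intro u g g' hg hg' hu hu' v hv h3
    have h4 := hcon κ a T w ha hw' hsp _ g g' hg hg' ((viol g u).1 hu) ((viol g' u).1 hu')
    clear hg' hu'
    induction h4 with
    | refl => exact fun v' hv' h5 => same g hg u hu v hv v' hv' h3 h5
    | tail _ h6 ih =>
      obtain ⟨-, h7, -, h8, j, hj, h9, h10⟩ := h6
      exact fun v' hv' h5 => (ih j hj h9).trans (same _ h7 u ((viol _ u).2 h8) j hj v' hv' h10 h5)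
  -- gluing
  have hex : ∀ u : Pt, ∃ z : ℂ, (z ≠ 0 → ∃ v ∈ T, (γ v j0).coeff u ≠ 0) ∧
      ∀ g, IsWall a T g → u ∉ Hs q y (lin g) → ∀ v ∈ T, g ⬝ᵥ Aq a v = 0 →
        (γ v j0).coeff u = z := by
    intro u
    by_cases hu : ∃ g, IsWall a T g ∧ u ∉ Hs q y (lin g)
    · obtain ⟨g, hg, hu⟩ := hu
      obtain ⟨j, hj, -, -, -, h3, -⟩ := hg.2.2
      exact ⟨_, fun h => ⟨j, hj, h⟩, fun g' hg' hu' v hv h4 =>
        conn u g' g hg' hg hu' hu v hv h4 j hj h3⟩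
    · exact ⟨0, fun h => absurd rfl h, fun g hg h => absurd ⟨g, hg, h⟩ hu⟩
  choose z hz1 hz2 using hex
  let Γ : RR O := AddMonoidAlgebra.ofCoeff (Finsupp.onFinset
    (T.biUnion (fun v => (γ v j0).coeff.support)) z (fun u hu => by
      obtain ⟨v, hv, h3⟩ := hz1 u hu
      exact mem_biUnion.2 ⟨v, hv, Finsupp.mem_support_iff.2 h3⟩))
  have hΓ : ∀ u, Γ.coeff u = z u := fun u => rfl
  have hs : ∀ i, SuppIn (CY a q T y) (H j0 i + Γ * F i) := by
    intro i u hu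
    have hz : ∀ n : Vq, (∀ j ∈ T, n ⬝ᵥ Ahq a j = 0) → 0 ≤ n ⬝ᵥ (hat q u - y) := by
      intro n hn
      have hn' : ∀ j ∈ T, 0 ≤ n ⬝ᵥ Ahq a j := fun j hj => (hn j hj).ge
      refine sup_add (hH j0 hj0 n hn' (hn j0 hj0) i) (sup_mul' (fun u hu => ?_) (hFs n hn' i)) u hu
      obtain ⟨v, hv, h3⟩ := hz1 u hu
      exact hγs v hv j0 hj0 n hn' (hn v hv) (hn j0 hj0) u h3
    have hw0 : ∀ j ∈ T, hw w ⬝ᵥ Ahq a j = 0 := fun j hj => by rw [hw_Ahq, hw' j hj, sub_self]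
    refine (hwall κ a T w ha hw' hsp).2 _ (le_antisymm ?_ (hz _ hw0)) (fun g hg => ?_)
    · have := hz (-hw w) (fun j hj => by rw [neg_dotProduct, hw0 j hj, neg_zero])
      rw [neg_dotProduct] at this
      linarith
    · obtain ⟨j, hj, -, -, -, h3, -⟩ := hg.2.2
      have e1 : H j0 i + Γ * F i = H j i - (γ j j0 - Γ) * F i := by
        linear_combination -hγ j hj j0 hj0 i
      rw [e1] at hu
      refine sup_sub (hH j hj _ (hwl g hg) (by rw [lin_Ahq, h3]) i)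
        (sup_mul' (fun u hu => ?_) (hFs _ (hwl g hg) i)) u hu
      by_contra h4
      apply hu
      rw [AddMonoidAlgebra.coeff_sub, Finsupp.sub_apply, hΓ, hz2 u g hg h4 j hj h3, sub_self]
  have h3 := h1 j0 hj0
  refine ⟨![![0, H j0 2 + Γ * F 2, -(H j0 1 + Γ * F 1)],
    ![-(H j0 2 + Γ * F 2), 0, H j0 0 + Γ * F 0],
    ![H j0 1 + Γ * F 1, -(H j0 0 + Γ * F 0), 0]], ?_, ?_, ?_⟩
  · intro i k
    fin_cases i <;> fin_cases k
    exacts [sup_zero, hs 2, sup_neg (hs 1), sup_neg (hs 2), sup_zero, hs 0, hs 1, sup_neg (hs 0),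
      sup_zero]
  · intro i k
    fin_cases i <;> fin_cases k <;> simp
  · intro i
    rw [Fin.sum_univ_three]
    fin_cases i
    · change e 0 = F 0 * 0 + F 1 * ((e 0 * G j0 1 - e 1 * G j0 0) + Γ * F 2) +
        F 2 * -((e 2 * G j0 0 - e 0 * G j0 2) + Γ * F 1)
      linear_combination G j0 0 * h0 - e 0 * h3
    · change e 1 = F 0 * -((e 0 * G j0 1 - e 1 * G j0 0) + Γ * F 2) + F 1 * 0 +
        F 2 * ((e 1 * G j0 2 - e 2 * G j0 1) + Γ * F 0)
      linear_combination G j0 1 * h0 - e 1 * h3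
    · change e 2 = F 0 * ((e 2 * G j0 0 - e 0 * G j0 2) + Γ * F 1) +
        F 1 * -((e 1 * G j0 2 - e 2 * G j0 1) + Γ * F 0) + F 2 * 0
      linear_combination G j0 2 * h0 - e 2 * h3

end Pool.Agent.MP_5d9b3c_ag.H48
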