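import Pool.Agent.MP_5d9b3c_ag.H48.Basic

/-!
The Nullstellensatz in the monoid algebra.
-/

namespace Pool.Agent.MP_5d9b3c_ag.H48

open Finset Pool.Agent.MP_5d9b3c_ag.H22

namespace NullAux

open MvPolynomial

/-- A character of a finitely generated subgroup extends to the lattice. -/
lemma extend {κ ι : Type} [Fintype ι] [DecidableEq ι] (S : Finset κ) (A : κ → ι → ℕ) (y : κ → ℂ)
    (hy : ∀ j ∈ S, y j ≠ 0)
    (h : ∀ k k' : κ → ℕ, ∑ j ∈ S, k j • (fun i => (A j i : ℤ)) =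
      ∑ j ∈ S, k' j • (fun i => (A j i : ℤ)) → ∏ j ∈ S, y j ^ k j = ∏ j ∈ S, y j ^ k' j) :
    ∃ x : ι → ℂ, (∀ i, x i ≠ 0) ∧ ∀ j ∈ S, ∏ i, x i ^ A j i = y j := by
  classical
  let : DivisibleBy (Additive ℂˣ) ℕ := divisibleByOfSMulRightSurj _ _ (fun {n} hn z => by
    obtain ⟨w, hw⟩ := IsAlgClosed.exists_pow_nat_eq ((Additive.toMul z : ℂˣ) : ℂ)
      (Nat.pos_of_ne_zero hn)
    have w0 : w ≠ 0 := by
      rintro rfl
      exact (Additive.toMul z).ne_zero (by rw [← hw, zero_pow hn])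
    exact ⟨Additive.ofMul (Units.mk0 w w0), Additive.toMul.injective (Units.ext (by simpa using hw))⟩)
  let : DivisibleBy (Additive ℂˣ) ℤ := AddGroup.divisibleByIntOfDivisibleByNat _
  obtain ⟨η, hη⟩ : ∃ η : κ → ℂˣ, ∀ j ∈ S, (η j : ℂ) = y j :=
    ⟨fun j => if hj : j ∈ S then Units.mk0 (y j) (hy j hj) else 1, fun j hj => by simp [hj]⟩
  let φ : (κ → ℤ) →ₗ[ℤ] (ι → ℤ) :=
    ∑ j ∈ S, (LinearMap.proj j).smulRight (fun i => (A j i : ℤ))
  let ψ : (κ → ℤ) →ₗ[ℤ] Additive ℂˣ :=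
    ∑ j ∈ S, (LinearMap.proj j).smulRight (Additive.ofMul (η j))
  have hφ : ∀ r, φ r = ∑ j ∈ S, r j • (fun i => (A j i : ℤ)) := fun r => by
    simp [φ, LinearMap.sum_apply]
  have hψ : ∀ r, ψ r = ∑ j ∈ S, r j • Additive.ofMul (η j) := fun r => by
    simp [ψ, LinearMap.sum_apply]
  have hn : ∀ k : κ → ℕ, ((Additive.toMul (ψ fun j => k j) : ℂˣ) : ℂ) = ∏ j ∈ S, y j ^ k j := by
    intro k
    rw [hψ, toMul_sum, Units.coe_prod]
    exact prod_congr rfl (fun j hj => by simp [hη j hj])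
  have hk : LinearMap.ker φ ≤ LinearMap.ker ψ := by
    intro r hr
    have e : r = (fun j => ((r j).toNat : ℤ)) - fun j => ((-r j).toNat : ℤ) := by
      ext j
      simp
    rw [LinearMap.mem_ker, e, map_sub, sub_eq_zero] at hr ⊢
    refine Additive.toMul.injective (Units.ext ?_)
    rw [hn, hn]
    refine h _ _ ?_
    rw [hφ, hφ] at hr
    simpa only [natCast_zsmul] using hr
  obtain ⟨g, hg⟩ := (Module.Baer.of_divisible (Additive ℂˣ)).extension_property
    ((LinearMap.ker φ).liftQ φ le_rfl)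
    (LinearMap.ker_eq_bot.1 (Submodule.ker_liftQ_eq_bot _ _ _ le_rfl))
    ((LinearMap.ker φ).liftQ ψ hk)
  have hg' : ∀ r, g (φ r) = ψ r := fun r => LinearMap.congr_fun hg (Submodule.Quotient.mk r)
  refine ⟨fun i => ((Additive.toMul (g (Pi.single i 1)) : ℂˣ) : ℂ), fun i => Units.ne_zero _,
    fun j hj => ?_⟩
  have e1 : φ (fun l => ((Pi.single j 1 : κ → ℕ) l : ℤ)) = ∑ i, A j i • Pi.single i 1 := by
    rw [hφ, sum_eq_single j (fun l _ hl => by simp [hl]) (fun h => absurd hj h)]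
    ext i
    simp [Finset.sum_apply, Pi.single_apply]
  have e2 := hn (Pi.single j 1)
  rw [← hg', e1, map_sum, toMul_sum, Units.coe_prod,
    prod_eq_single j (fun l _ hl => by simp [hl]) (fun h => absurd hj h)] at e2
  simp only [map_nsmul, toMul_nsmul, Units.val_pow_eq_pow_val] at e2
  simpa using e2

variable {κ : Type} [Fintype κ] [DecidableEq κ] (a : κ → Fin 3 →₀ ℕ) (T : Finset κ)

/-- The map from polynomials to the monoid algebra. -/
noncomputable def pr : MvPolynomial κ ℂ →ₐ[ℂ] RR O :=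
  aeval (fun j => if j ∈ T then U (Ah a j) else 0)

omit [Fintype κ] in
lemma pr_X {j : κ} (hj : j ∈ T) : pr a T (X j) = U (Ah a j) := by
  simp [pr, hj]

omit [Fintype κ] in
lemma pr_prod (k : κ → ℕ) : pr a T (∏ j ∈ T, X j ^ k j) = U (∑ j ∈ T, k j • Ah a j) := by
  rw [map_prod, U_sum]
  exact prod_congr rfl (fun j hj => by rw [map_pow, pr_X a T hj, U_nsmul])

lemma supp_pr (p : MvPolynomial κ ℂ) : SuppIn (Mon a T) (pr a T p) := by
  induction p using MvPolynomial.induction_on' with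
  | add p q hp hq =>
    intro u hu
    rw [map_add, AddMonoidAlgebra.coeff_add, Finsupp.add_apply] at hu
    by_cases h : (pr a T p).coeff u = 0
    · exact hq u (by rwa [h, zero_add] at hu)
    · exact hp u h
  | monomial k r =>
    intro u hu
    rw [monomial_eq, Finsupp.prod_fintype _ _ (fun _ => pow_zero _), map_mul] at hu
    by_cases h : ∀ j ∉ T, k j = 0
    · rw [← prod_subset (subset_univ T) (fun j _ hj => by rw [h j hj, pow_zero]), pr_prod,
        ← algebraMap_eq, AlgHom.commutes, ← Algebra.smul_def, U,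
        AddMonoidAlgebra.coeff_smul_apply, AddMonoidAlgebra.coeff_single] at hu
      exact ⟨k, by
        by_contra h0
        exact hu (by rw [Finsupp.single_eq_of_ne h0, smul_zero])⟩
    · push Not at h
      obtain ⟨j, hj, h0⟩ := h
      rw [map_prod, prod_eq_zero (mem_univ j) (by simp [pr, hj, h0]), mul_zero] at hu
      exact absurd rfl hu

/-- The support of a point of the toric variety is a face. -/
lemma face (y : κ → ℂ) (h : ∀ k k' : κ → ℕ, ∑ j ∈ T, k j • Ah a j = ∑ j ∈ T, k' j • Ah a j →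
      ∏ j ∈ T, y j ^ k j = ∏ j ∈ T, y j ^ k' j) :
    ∃ n : Vq, (∀ j ∈ T, 0 ≤ n ⬝ᵥ Ahq a j) ∧ Zr a T n = T.filter (fun j => y j ≠ 0) := by
  classical
  set S := T.filter (fun j => y j ≠ 0) with hS
  have key : ∀ k ∈ T \ S, ∃ n : Vq, (∀ j ∈ T, 0 ≤ n ⬝ᵥ Ahq a j) ∧ (∀ j ∈ S, n ⬝ᵥ Ahq a j = 0) ∧
      0 < n ⬝ᵥ Ahq a k := by
    intro k hk
    obtain ⟨hk1, hk2⟩ := mem_sdiff.1 hk
    have y0 : y k = 0 := by
      by_contra h0
      exact hk2 (mem_filter.2 ⟨hk1, h0⟩)
    rcases farkas (T.disjSum S) (Sum.elim (fun j => -Ah a j) (Ah a)) (Ah a k) with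
      ⟨n, h1, h2⟩ | ⟨N, hN, n, hn⟩
    · have e : ∀ j, (fun i => (n i : ℚ)) ⬝ᵥ Ahq a j = ((n ⬝ᵥ Ah a j : ℤ) : ℚ) := fun j => by
        simp [dotProduct]
      have h3 : ∀ j ∈ T, 0 ≤ n ⬝ᵥ Ah a j := fun j hj => by
        simpa using h2 (Sum.inl j) (inl_mem_disjSum.2 hj)
      refine ⟨fun i => (n i : ℚ), fun j hj => ?_, fun j hj => ?_, ?_⟩
      · rw [e]
        exact_mod_cast h3 j hj
      · rw [e]
        exact_mod_cast le_antisymm (h2 (Sum.inr j) (inr_mem_disjSum.2 hj))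
          (h3 j (mem_filter.1 hj).1)
      · rw [e]
        exact_mod_cast h1
    · exfalso
      rw [sum_disjSum] at hn
      simp only [Sum.elim_inl, Sum.elim_inr, smul_neg, sum_neg_distrib] at hn
      have e := h (fun j => n (Sum.inl j) + if j = k then N else 0)
        (fun j => if y j ≠ 0 then n (Sum.inr j) else 0) (by
          simp only [add_smul, sum_add_distrib, ite_smul, zero_smul, sum_ite_eq', if_pos hk1]
          rw [hn, ← sum_filter]
          abel)
      rw [prod_eq_zero hk1 (by simp [y0, hN.ne'])] at e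
      refine prod_ne_zero_iff.2 (fun j _ => ?_) e.symm
      by_cases hj : y j = 0 <;> simp [hj]
  choose! n h1 h2 h3 using key
  have h4 : ∀ j ∈ T, 0 ≤ (∑ k ∈ T \ S, n k) ⬝ᵥ Ahq a j := fun j hj => by
    rw [sum_dotProduct]
    exact sum_nonneg (fun k hk => h1 k hk j hj)
  refine ⟨∑ k ∈ T \ S, n k, h4, ?_⟩
  ext j
  rw [mem_Zr, sum_dotProduct]
  refine ⟨fun ⟨hj, h0⟩ => ?_, fun hj =>
    ⟨(mem_filter.1 hj).1, sum_eq_zero (fun k hk => h2 k hk j hj)⟩⟩
  by_contra hj'
  have hm := mem_sdiff.2 ⟨hj, hj'⟩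
  exact (h3 j hm).ne' ((sum_eq_zero_iff_of_nonneg (fun k hk => h1 k hk j hj)).1 h0 j hm)

end NullAux

open NullAux MvPolynomial in
theorem ns : NSStmt := by
  intro κ _ _ a c T hT v hv
  classical
  let F : O → MvPolynomial κ ℂ := fun i => ∑ j ∈ T, (c j * Aof a j i) • X j
  have hF : ∀ i, pr a T (F i) = Fop a c T (ei i) := fun i => by
    rw [map_sum, Fop]
    exact sum_congr rfl (fun j hj => by rw [map_smul, pr_X a T hj]; simp [Ahq])
  have hrad : (X v : MvPolynomial κ ℂ) ∈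
      (Ideal.span (Set.range F) ⊔ RingHom.ker (pr a T)).radical := by
    rw [← vanishingIdeal_zeroLocus_eq_radical (K := ℂ), mem_vanishingIdeal_iff]
    intro y hy
    rw [mem_zeroLocus_iff] at hy
    rw [aeval_X]
    by_contra h0
    have hb : ∀ k k' : κ → ℕ, ∑ j ∈ T, k j • Ah a j = ∑ j ∈ T, k' j • Ah a j →
        ∏ j ∈ T, y j ^ k j = ∏ j ∈ T, y j ^ k' j := by
      intro k k' e
      have := hy (∏ j ∈ T, X j ^ k j - ∏ j ∈ T, X j ^ k' j) (Ideal.mem_sup_right (by
        rw [RingHom.mem_ker, map_sub, pr_prod, pr_prod, e, sub_self]))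
      simpa [sub_eq_zero] using this
    obtain ⟨n, h1, h2⟩ := face a T y hb
    obtain ⟨x, x0, hx⟩ := extend (T.filter (fun j => y j ≠ 0)) (Aof a) y
      (fun j hj => (mem_filter.1 hj).2) (fun k k' e => by
        have := hb (fun j => if y j ≠ 0 then k j else 0) (fun j => if y j ≠ 0 then k' j else 0) (by
          simp only [ite_smul, zero_smul]
          rw [← sum_filter, ← sum_filter]
          exact e)
        simp only [pow_ite, pow_zero] at this
        rwa [← prod_filter, ← prod_filter] at this)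
    obtain ⟨i, hi⟩ := hT n h1 (h2 ▸ ⟨v, mem_filter.2 ⟨hv, h0⟩⟩) x x0
    refine hi ?_
    have := hy (F i) (Ideal.mem_sup_left (Ideal.subset_span ⟨i, rfl⟩))
    rw [h2, sum_congr rfl (fun j hj => by rw [hx j hj]), sum_filter_of_ne
      (fun j _ hj => right_ne_zero_of_mul hj)]
    simpa [F] using this
  obtain ⟨K, hK⟩ := hrad
  obtain ⟨p, hp, q, hq, e⟩ := Submodule.mem_sup.1 hK
  obtain ⟨G, rfl⟩ := Ideal.mem_span_range_iff_exists_fun.1 hp
  refine ⟨K, fun i => pr a T (G i), fun i => supp_pr a T _, ?_⟩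
  have e1 := congrArg (pr a T) e
  rw [map_add, RingHom.mem_ker.1 hq, add_zero, map_pow, pr_X a T hv, map_sum] at e1
  rw [U_nsmul, ← e1]
  exact sum_congr rfl (fun i _ => by rw [map_mul, hF, mul_comm])

end Pool.Agent.MP_5d9b3c_ag.H48
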