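import Pool.Agent.MP_5d9b3c_ag.H48.Basic

/-!
An unbounded facet that is not of height one: the root comes from an edge of the lower hull.
-/

namespace Pool.Agent.MP_5d9b3c_ag.H48

open Finset Pool.Agent.MP_5d9b3c_ag.H22

namespace EdgeAux

/-- The edge of the lower convex hull above a given abscissa. -/
lemma hull {α : Type} (S : Finset α) (x z : α → ℚ) (τ : ℚ) (hne : ∀ R ∈ S, x R ≠ τ)
    (hP : ∃ P ∈ S, x P < τ) (hQ : ∃ Q ∈ S, τ < x Q) :
    ∃ P ∈ S, ∃ Q ∈ S, x P < τ ∧ τ < x Q ∧ ∃ lam mu : ℚ, z P = lam + mu * x P ∧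
      z Q = lam + mu * x Q ∧ ∀ R ∈ S, lam + mu * x R ≤ z R := by
  have sl : ∀ P Q, x P < x Q → ∃ m : ℚ, m = (z Q - z P) / (x Q - x P) ∧
      z Q = z P + m * (x Q - x P) := fun P Q h => ⟨_, rfl, by
    rw [div_mul_cancel₀ _ (sub_pos.2 h).ne']
    ring⟩
  obtain ⟨⟨P, Q⟩, hm, hmin⟩ := exists_min_image
    ((S.filter (fun P => x P < τ)) ×ˢ (S.filter (fun Q => τ < x Q)))
    (fun p => z p.1 + (z p.2 - z p.1) / (x p.2 - x p.1) * (τ - x p.1)) (by
      obtain ⟨P, h1, h2⟩ := hP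
      obtain ⟨Q, h3, h4⟩ := hQ
      exact ⟨(P, Q), mem_product.2 ⟨mem_filter.2 ⟨h1, h2⟩, mem_filter.2 ⟨h3, h4⟩⟩⟩)
  obtain ⟨h1, h3⟩ := mem_product.1 hm
  obtain ⟨h1, h2⟩ := mem_filter.1 h1
  obtain ⟨h3, h4⟩ := mem_filter.1 h3
  dsimp only at h1 h2 h3 h4 hmin
  obtain ⟨m, hm1, hm2⟩ := sl P Q (h2.trans h4)
  rw [← hm1] at hmin
  refine ⟨P, h1, Q, h3, h2, h4, z P - m * x P, m, by ring, by linarith, fun R hR => ?_⟩
  rcases lt_or_gt_of_ne (hne R hR) with h | h
  · have h5 := hmin (R, Q) (mem_product.2 ⟨mem_filter.2 ⟨hR, h⟩, mem_filter.2 ⟨h3, h4⟩⟩)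
    obtain ⟨m', hm3, hm4⟩ := sl R Q (h.trans h4)
    dsimp only at h5
    rw [← hm3] at h5
    have h6 : m' ≤ m := by
      by_contra h6
      have := mul_pos (sub_pos.2 (not_le.1 h6)) (sub_pos.2 h4)
      nlinarith
    have := mul_nonneg (sub_nonneg.2 h6) (sub_pos.2 (h.trans h4)).le
    nlinarith
  · have h5 := hmin (P, R) (mem_product.2 ⟨mem_filter.2 ⟨h1, h2⟩, mem_filter.2 ⟨hR, h⟩⟩)
    obtain ⟨m', hm3, hm4⟩ := sl P R (h2.trans h)
    dsimp only at h5
    rw [← hm3] at h5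
    have h6 : m ≤ m' := by
      by_contra h6
      have := mul_pos (sub_pos.2 (not_le.1 h6)) (sub_pos.2 h2)
      nlinarith
    have := mul_nonneg (sub_nonneg.2 h6) (sub_pos.2 (h2.trans h)).le
    nlinarith

/-- The coefficient of the upper end point is smaller than one. -/
lemma lt_one {a a' b b' : ℕ} {α α' : ℚ} (h1 : a < a') (h2 : b' < b) (h3 : 2 ≤ b)
    (e1 : α * a + α' * a' = 1) (e2 : α * b + α' * b' = 1) : α < 1 := by
  have k1 : (a : ℚ) + 1 ≤ a' := by exact_mod_cast h1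
  have k2 : (b' : ℚ) + 1 ≤ b := by exact_mod_cast h2
  have k3 : (2 : ℚ) ≤ b := by exact_mod_cast h3
  have k4 : (0 : ℚ) ≤ a := Nat.cast_nonneg _
  have k5 : (0 : ℚ) ≤ b' := Nat.cast_nonneg _
  have e3 : α * (b * a' - a * b') = a' - b' := by linear_combination a' * e2 - b' * e1
  have k6 : (a' : ℚ) - b' < b * a' - a * b' := by
    rcases Nat.eq_zero_or_pos b' with h | h
    · subst h
      simp only [Nat.cast_zero, sub_zero, mul_zero]
      nlinarith
    · have k7 : (1 : ℚ) ≤ b' := by exact_mod_cast h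
      nlinarith
  have k8 : (0 : ℚ) < b * a' - a * b' := by nlinarith
  by_contra h
  have := mul_le_mul_of_nonneg_right (not_lt.1 h) k8.le
  linarith

variable {κ : Type} [Fintype κ] [DecidableEq κ] {a : κ → Fin 3 →₀ ℕ} {w : V3} {i j k : Fin 3}

omit [DecidableEq κ] in
lemma plane (hij : i ≠ j) (hik : i ≠ k) (hjk : j ≠ k) (hk : w k = 0) {A : κ} (hA : A ∈ Tw a w) :
    w i * a A i + w j * a A j = 1 := by
  have := mem_Tw.1 hA
  rw [dot_three hij hik hjk, hk] at this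
  simpa [Aq] using this

omit [DecidableEq κ] in
/-- The threshold between the points high in `x_j` and the points high in `x_i`. -/
lemma thr (hij : i ≠ j) (hik : i ≠ k) (hjk : j ≠ k) (hi : 0 < w i) (hj : 0 < w j) (hk : w k = 0)
    (hl : w i + w j < 1) (hA : ∃ A ∈ Tw a w, 2 ≤ a A i) (hB : ∃ A ∈ Tw a w, 2 ≤ a A j)
    (hC : ∃ A ∈ Tw a w, ∃ B ∈ Tw a w, a A i ≠ a B i) :
    ∃ t : ℕ, 1 ≤ t ∧ (∃ P ∈ Tw a w, a P i ≤ t) ∧ (∃ Q ∈ Tw a w, t < a Q i) ∧
      ∀ P ∈ Tw a w, a P i ≤ t → 2 ≤ a P j := by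
  obtain ⟨A, hA, hA2⟩ := hA
  obtain ⟨B, hB, hB2⟩ := hB
  obtain ⟨C, hC, D, hD, hCD⟩ := hC
  obtain ⟨M, hM, hmin⟩ := exists_min_image (Tw a w) (fun P => a P i) ⟨A, hA⟩
  refine ⟨max (a M i) 1, le_max_right _ _, ⟨M, hM, le_max_left _ _⟩, ?_, fun P hP h => ?_⟩
  · have h1 := hmin C hC
    have h2 := hmin D hD
    by_cases h3 : a M i ≤ 1
    · exact ⟨A, hA, by omega⟩
    by_cases h4 : a M i < a C i
    · exact ⟨C, hC, by omega⟩
    · exact ⟨D, hD, by omega⟩
  · have e1 := plane hij hik hjk hk hP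
    by_contra h5
    have h6 : (a P j : ℚ) ≤ 1 := by exact_mod_cast (by omega : a P j ≤ 1)
    by_cases h7 : a P i ≤ 1
    · have h8 : (a P i : ℚ) ≤ 1 := by exact_mod_cast h7
      nlinarith
    · have e2 := plane hij hik hjk hk hB
      have h9 : (a P i : ℚ) ≤ a B i := by
        have := hmin B hB
        exact_mod_cast (by omega : a P i ≤ a B i)
      have h10 : (2 : ℚ) ≤ a B j := by exact_mod_cast hB2
      nlinarith

omit [Fintype κ] [DecidableEq κ] in
lemma between {E : Finset κ} {v v' : κ} {s s' : Vq} (h : Edge a E v v' s s')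
    (hv : a v i ≤ a v' i) {P : κ} (hP : P ∈ E) : a v i ≤ a P i ∧ a P i ≤ a v' i := by
  have e0 := congrFun (h.rep P hP) none
  have e1 := congrFun (h.rep P hP) (some i)
  simp only [Pi.add_apply, Pi.smul_apply, Ahq_none, Ahq_some, smul_eq_mul, mul_one] at e0 e1
  have p1 := h.pos P hP
  have p2 := h.pos' P hP
  have k : (a v i : ℚ) ≤ a v' i := by exact_mod_cast hv
  have q1 : (a v i : ℚ) ≤ a P i := by nlinarith [mul_nonneg p2 (sub_nonneg.2 k)]
  have q2 : (a P i : ℚ) ≤ a v' i := by nlinarith [mul_nonneg p1 (sub_nonneg.2 k)]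
  exact ⟨by exact_mod_cast q1, by exact_mod_cast q2⟩

/-- The edge and its supporting weight. -/
lemma exists_edge (h1 : EdgeStmt) (ha : Function.Injective a) (hij : i ≠ j) (hik : i ≠ k)
    (hjk : j ≠ k) (hw : Supp a w) (hi : 0 < w i) (hj : 0 < w j) (hk : w k = 0)
    (hl : w i + w j < 1) (hA : ∃ A ∈ Tw a w, 2 ≤ a A i) (hB : ∃ A ∈ Tw a w, 2 ≤ a A j)
    (hC : ∃ A ∈ Tw a w, ∃ B ∈ Tw a w, a A i ≠ a B i) :
    ∃ (w' : V3) (v v' : κ) (s s' : Vq), Supp a w' ∧ (∀ m, 0 < w' m) ∧ Tw a w' ⊆ Tw a w ∧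
      Edge a (Tw a w') v v' s s' ∧ a v i < a v' i ∧ 2 ≤ a v j ∧ 2 ≤ a v' i := by
  obtain ⟨t, t1, ⟨P0, hP0, hP1⟩, ⟨Q0, hQ0, hQ1⟩, ht⟩ := thr hij hik hjk hi hj hk hl hA hB hC
  have c1 : ∀ n : ℕ, (n : ℚ) < t + 1 / 2 ↔ n ≤ t := fun n => ⟨fun h => by
    by_contra h'
    have : (t : ℚ) + 1 ≤ n := by exact_mod_cast not_le.1 h'
    linarith, fun h => by
    have : (n : ℚ) ≤ t := by exact_mod_cast h
    linarith⟩
  have c2 : ∀ n : ℕ, (t : ℚ) + 1 / 2 < n ↔ t < n := fun n => ⟨fun h => by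
    by_contra h'
    have : (n : ℚ) ≤ t := by exact_mod_cast not_lt.1 h'
    linarith, fun h => by
    have : (t : ℚ) + 1 ≤ n := by exact_mod_cast h
    linarith⟩
  obtain ⟨P, hP, Q, hQ, p1, p2, lam, mu, e1, e2, e3⟩ := hull (Tw a w) (fun R => (a R i : ℚ))
    (fun R => (a R k : ℚ)) (t + 1 / 2) (fun R _ => by
      rcases le_or_gt (a R i) t with h | h
      · exact ((c1 _).2 h).ne
      · exact ((c2 _).2 h).ne') ⟨P0, hP0, (c1 _).2 hP1⟩ ⟨Q0, hQ0, (c2 _).2 hQ1⟩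
  rw [c1] at p1
  rw [c2] at p2
  obtain ⟨g, gk, hg⟩ : ∃ g : V3, g k = 1 ∧
      ∀ R ∈ Tw a w, g ⬝ᵥ Aq a R = a R k - (lam + mu * a R i) := by
    refine ⟨Pi.single k 1 - mu • Pi.single i 1 - lam • w, by simp [hk, hik.symm], fun R hR => ?_⟩
    rw [sub_dotProduct, sub_dotProduct, smul_dotProduct, smul_dotProduct, mem_Tw.1 hR,
      single_dotProduct, single_dotProduct]
    simp only [Aq, smul_eq_mul]
    ring
  obtain ⟨ε, h0, hs, hpos, hT⟩ := hw.tilt g
    (fun R hR => by rw [hg R hR]; exact sub_nonneg.2 (e3 R hR)) (fun m hm => by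
      rcases three hij hik hjk m with rfl | rfl | rfl
      · exact absurd hm hi.ne'
      · exact absurd hm hj.ne'
      · rw [gk]; exact zero_le_one)
  have hsub : Tw a (w + ε • g) ⊆ Tw a w := fun R hR => ((hT R).1 hR).1
  have mP : P ∈ Tw a (w + ε • g) := (hT P).2 ⟨hP, by rw [hg P hP, e1, sub_self]⟩
  have mQ : Q ∈ Tw a (w + ε • g) := (hT Q).2 ⟨hQ, by rw [hg Q hQ, e2, sub_self]⟩
  have hall : ∀ m, 0 < (w + ε • g) m := fun m => by
    rcases three hij hik hjk m with rfl | rfl | rfl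
    · exact hpos _ hi
    · exact hpos _ hj
    · simpa [hk, gk] using h0
  obtain ⟨v, v', s, s', hE, hv⟩ : ∃ v v' s s', Edge a (Tw a (w + ε • g)) v v' s s' ∧
      a v i ≤ a v' i := by
    obtain ⟨v, v', s, s', hE⟩ := h1 κ a (Tw a (w + ε • g)) w g ha
      (fun R hR => mem_Tw.1 (hsub hR)) (fun h => by simp [h] at gk)
      (fun R hR => ((hT R).1 hR).2) ⟨P, mP, Q, mQ, fun h => by subst h; omega⟩
    rcases le_total (a v i) (a v' i) with h | h
    · exact ⟨v, v', s, s', hE, h⟩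
    · exact ⟨v', v, s', s, hE.symm, h⟩
  have b1 := (between hE hv mP).1
  have b2 := (between hE hv mQ).2
  exact ⟨_, v, v', s, s', hs, hall, hsub, hE, by omega, ht v (hsub hE.mem) (by omega), by omega⟩

end EdgeAux

open EdgeAux in
theorem rootEdge (h1 : EdgeStmt) (h2 : Kosz2Stmt) (h3 : ConeStmt) (h4 : Ext2Stmt) (h5 : SVStmt) :
    RootEdgeStmt := by
  intro κ _ _ a c b ha hnd hb w i j k hij hik hjk hw hi hj hk hA hB hC hl1
  have hsum : ∑ m, w m = w i + w j := by rw [sum_three hij hik hjk, hk, add_zero]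
  have hl : w i + w j < 1 := by
    obtain ⟨A, hA, hA2⟩ := hA
    obtain ⟨B, hB, hB2⟩ := hB
    have e1 := plane hij hik hjk hk hA
    have e2 := plane hij hik hjk hk hB
    have k1 : (2 : ℚ) ≤ a A i := by exact_mod_cast hA2
    have k2 : (2 : ℚ) ≤ a B j := by exact_mod_cast hB2
    have k3 : (0 : ℚ) ≤ a A j := Nat.cast_nonneg _
    have k4 : (0 : ℚ) ≤ a B i := Nat.cast_nonneg _
    rw [hsum] at hl1
    refine lt_of_le_of_ne ?_ hl1
    nlinarith
  obtain ⟨w', v, v', s, s', hs, hpos, hsub, hE, a1, a2, a3⟩ :=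
    exists_edge h1 ha hij hik hjk hw hi hj hk hl hA hB hC
  have e1 := plane hij hik hjk hk (hsub hE.mem)
  have e2 := plane hij hik hjk hk (hsub hE.mem')
  have k1 : (a v i : ℚ) < a v' i := by exact_mod_cast a1
  have a4 : a v' j < a v j := by
    have : (a v' j : ℚ) < a v j := by
      by_contra h
      have := mul_le_mul_of_nonneg_left (not_lt.1 h) hj.le
      have := mul_lt_mul_of_pos_left k1 hi
      linarith
    exact_mod_cast this
  obtain ⟨α, α', f0, f1⟩ : ∃ α α' : ℚ, α + α' = w i + w j ∧ α * a v i + α' * a v' i = 1 := by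
    refine ⟨w i + w j - (1 - (w i + w j) * a v i) / (a v' i - a v i),
      (1 - (w i + w j) * a v i) / (a v' i - a v i), by ring, ?_⟩
    have := div_mul_cancel₀ (1 - (w i + w j) * a v i) (sub_pos.2 k1).ne'
    linear_combination this
  have f2 : α * a v j + α' * a v' j = 1 := by
    apply mul_left_cancel₀ hj.ne'
    linear_combination α * e1 + α' * e2 + f0 - w i * f1
  have l1 : α < 1 := lt_one a1 a4 a2 f1 f2
  have l2 : α' < 1 := lt_one a4 a1 a3 (by linarith) (by linarith : α' * a v' i + α * a v i = 1)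
  obtain ⟨τ, τ', t0, t1, t2, t3, t4⟩ : ∃ τ τ' : ℚ, 0 ≤ τ ∧ 0 ≤ τ' ∧ α - τ ≤ 0 ∧ α' - τ' ≤ 0 ∧
      τ + τ' < 1 := by
    refine ⟨max α 0, max α' 0, le_max_right _ _, le_max_right _ _, sub_nonpos.2 (le_max_left _ _),
      sub_nonpos.2 (le_max_left _ _), ?_⟩
    rcases le_total α 0 with u | u <;> rcases le_total α' 0 with u' | u' <;>
      simp only [max_eq_left, max_eq_right, u, u'] <;> linarith
  obtain ⟨q, hq⟩ : ∃ q : Vq, q = α • Ahq a v + α' • Ahq a v' := ⟨_, rfl⟩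
  have q0 : q none = w i + w j := by simp [hq, f0]
  have qi : q (some i) = 1 := by simp [hq, f1]
  have qj : q (some j) = 1 := by simp [hq, f2]
  obtain ⟨φ, hφ, hφ0⟩ := (h3 κ a c q ((α - τ) • Ahq a v + (α' - τ') • Ahq a v') (Tw a w') (Fin 2)
    ![s, s'] ![Ahq a v, Ahq a v'] (fun R hR => by simpa using hE.rep R hR)
    (by simp [dotProduct_add, dotProduct_smul, hE.sv, hE.sv', hE.s'v, hE.s'v'])
    (h2 κ a c _ v v' s s' hE (hnd.faceND hs hpos) q _)).2 (by
      rintro ⟨e, he, hsum1⟩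
      have hz : ∀ m, e m = 0 := fun m => by
        ext u
        by_contra hu
        obtain ⟨u1, u2⟩ := he m u hu
        have := InCone.nonneg u1 none
        simp only [Pi.sub_apply, hat_none, u2, q0, Pi.add_apply, Pi.smul_apply, Ahq_none,
          smul_eq_mul, mul_one] at this
        push_cast at this
        linarith
      simp [hz] at hsum1)
  obtain ⟨ψ, p1, p2, p3⟩ := h4 κ a c q (H48.hw w) (H48.hw w') (Tw a w') v v' s s' (α - τ)
    (α' - τ') hE t2 t3 hw.hw_nonneg hs.hw_nonneg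
    (fun R => ⟨fun h => ⟨mem_Tw'.1 (hsub h), mem_Tw'.1 h⟩, fun h => mem_Tw'.2 h.2⟩) φ hφ
  have hD : ∀ n, Dn a c q univ n ψ = 0 := fun n => funext fun u => p2 n u (Set.mem_univ u)
  have := h5 κ a c b hb q {i, j} (fun m hm => by
      rcases mem_insert.1 hm with rfl | hm
      · exact qi
      · rw [mem_singleton.1 hm]; exact qj) ψ (fun n m u => by rw [hD m, Dn_zero]; rfl)
    (fun u hu hI => ⟨p3 u (Or.inl ?_), fun n => congrFun (hD n) u⟩)
    (fun u _ m _ _ _ => congrFun (hD _) u) (by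
      rw [p1 0 ?_]
      · exact hφ0
      · have e : hat q 0 - ((α - τ) • Ahq a v + (α' - τ') • Ahq a v') =
            τ • Ahq a v + τ' • Ahq a v' := by
          rw [hat_zero, hq]
          module
        change InCone a _ _
        rw [e]
        exact ((InCone.single hE.mem).smul t0).add ((InCone.single hE.mem').smul t1))
  · rwa [q0, ← hsum] at this
  · have u1 : (0 : ℚ) ≤ u (some i) := by exact_mod_cast hI i (mem_insert_self _ _)
    have u2 : (0 : ℚ) ≤ u (some j) := by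
      exact_mod_cast hI j (mem_insert_of_mem (mem_singleton_self _))
    rw [hw_dot, dot_three hij hik hjk, hat_some, hat_some, hat_none, hk, hu, qi, qj, q0]
    push_cast
    nlinarith [mul_nonneg hi.le u1, mul_nonneg hj.le u2]

end Pool.Agent.MP_5d9b3c_ag.H48
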