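import Pool.Agent.MP_5d9b3c_ag.H48.Basic

/-!
Solutions on a shifted cone: a filtered Koszul argument in the group algebra.
-/

namespace Pool.Agent.MP_5d9b3c_ag.H48

open Finset Pool.Agent.MP_5d9b3c_ag.H22

namespace RecAux

/-- The pairing with a function. -/
noncomputable def pr (φ : Pt → ℂ) : RR O →ₗ[ℂ] ℂ := (AddMonoidAlgebra.basis Pt ℂ).constr ℂ φ

lemma pr_U (φ : Pt → ℂ) (u : Pt) : pr φ (U u) = φ u :=
  (AddMonoidAlgebra.basis Pt ℂ).constr_basis ℂ φ u

lemma ext_U {M : Type} [AddCommGroup M] [Module ℂ M] {f g : RR O →ₗ[ℂ] M}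
    (h : ∀ u, f (U u) = g (U u)) : f = g := (AddMonoidAlgebra.basis Pt ℂ).ext h

/-- A coefficient. -/
noncomputable def cf (u : Pt) : RR O →ₗ[ℂ] ℂ :=
  Finsupp.lapply u ∘ₗ (AddMonoidAlgebra.coeffLinearEquiv ℂ).toLinearMap

lemma cf_apply (u : Pt) (e : RR O) : cf u e = e.coeff u := rfl

lemma cf_U (u v : Pt) : cf u (U v) = if v = u then 1 else 0 := by
  rw [cf_apply, U, AddMonoidAlgebra.coeff_single, Finsupp.single_apply]

lemma ext_cf {e e' : RR O} (h : ∀ u, cf u e = cf u e') : e = e' :=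
  AddMonoidAlgebra.coeff_injective (Finsupp.ext h)

/-- A diagonal operator. -/
noncomputable def Dg (f : Pt → ℂ) : RR O →ₗ[ℂ] RR O :=
  (AddMonoidAlgebra.basis Pt ℂ).constr ℂ fun u => f u • U u

lemma Dg_U (f : Pt → ℂ) (u : Pt) : Dg f (U u) = f u • U u :=
  (AddMonoidAlgebra.basis Pt ℂ).constr_basis ℂ _ u

lemma cf_Dg (f : Pt → ℂ) (u : Pt) (e : RR O) : cf u (Dg f e) = f u * cf u e :=
  LinearMap.congr_fun (ext_U (f := cf u ∘ₗ Dg f) (g := f u • cf u) fun v => by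
    simp only [LinearMap.comp_apply, Dg_U, map_smul, LinearMap.smul_apply, cf_U, smul_eq_mul]
    split_ifs with h
    · rw [h]
    · simp) e

/-- The elements supported in `Z`. -/
noncomputable abbrev S (Z : Set Pt) : Submodule ℂ (RR O) := AddMonoidAlgebra.supported ℂ ℂ Z

lemma mem_S {Z : Set Pt} {e : RR O} : e ∈ S Z ↔ ∀ u, u ∉ Z → cf u e = 0 :=
  AddMonoidAlgebra.mem_supported'

lemma supp_iff {Z : Set Pt} {e : RR O} : SuppIn Z e ↔ e ∈ S Z :=
  (forall_congr' fun _ => not_imp_comm).trans mem_S.symm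

lemma U_mem {Z : Set Pt} {u : Pt} (h : u ∈ Z) : U u ∈ S Z := mem_S.2 fun v hv => by
  rw [cf_U, if_neg]
  rintro rfl
  exact hv h

lemma Dg_mem {Z : Set Pt} {e : RR O} (f : Pt → ℂ) (h : e ∈ S Z) : Dg f e ∈ S Z :=
  mem_S.2 fun u hu => by rw [cf_Dg, mem_S.1 h u hu, mul_zero]

lemma pr_congr {Z : Set Pt} {e : RR O} {φ ψ : Pt → ℂ} (h : e ∈ S Z) (h1 : ∀ u ∈ Z, φ u = ψ u) :
    pr φ e = pr ψ e := by
  rw [S, AddMonoidAlgebra.supported_eq_span_single] at h
  refine LinearMap.eqOn_span' ?_ h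
  rintro _ ⟨u, hu, rfl⟩
  exact (pr_U φ u).trans ((h1 u hu).trans (pr_U ψ u).symm)

/-- The projection on a level. -/
noncomputable def π (k : ℤ) : RR O →ₗ[ℂ] RR O := Dg fun u => if u none = k then 1 else 0

/-- The points up to a level. -/
def L (Y : Set Pt) (k : ℤ) : Set Pt := {u | u ∈ Y ∧ u none ≤ k}

lemma π_mem {Y : Set Pt} {e : RR O} (k : ℤ) (h : e ∈ S Y) :
    π k e ∈ S {u | u ∈ Y ∧ u none = k} := mem_S.2 fun u hu => by
  rw [π, cf_Dg]
  split_ifs with h1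
  · rw [mem_S.1 h u fun h2 => hu ⟨h2, h1⟩, mul_zero]
  · rw [zero_mul]

lemma π_zero {Y : Set Pt} {e : RR O} {k : ℤ} (h : e ∈ S (L Y k)) : π (k + 1) e = 0 :=
  ext_cf fun u => by
    rw [π, cf_Dg, map_zero]
    split_ifs with h1
    · rw [mem_S.1 h u fun h2 => by have := h2.2; omega, mul_zero]
    · rw [zero_mul]

lemma π_π (k : ℤ) (e : RR O) : π k (π k e) = π k e := ext_cf fun u => by
  simp only [π, cf_Dg]
  split_ifs <;> simp

lemma sub_π {Y : Set Pt} {e : RR O} {k : ℤ} (h : e ∈ S (L Y (k + 1))) :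
    e - π (k + 1) e ∈ S (L Y k) := mem_S.2 fun u hu => by
  rw [map_sub, π, cf_Dg]
  split_ifs with h1
  · rw [one_mul, sub_self]
  · rw [mem_S.1 h u fun h2 => hu ⟨h2.1, by have := h2.2; omega⟩]
    simp

lemma π_one (k : ℤ) : π k 1 = if k = 0 then 1 else 0 := by
  rw [← U_zero, π, Dg_U]
  by_cases h : k = 0
  · simp [h]
  · simp [h, Ne.symm h]

lemma anti {ι M : Type} [Fintype ι] [AddCommGroup M] [Module ℂ M] (G : ι → ι → M)
    (h : ∀ i l, G i l = -G l i) : ∑ i, ∑ l, G i l = 0 := by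
  have h1 : ∑ i, ∑ l, G i l = -∑ i, ∑ l, G i l := by
    conv_lhs => rw [sum_comm]
    simp only [← sum_neg_distrib]
    exact sum_congr rfl fun i _ => sum_congr rfl fun l _ => h l i
  have h2 : (2 : ℂ) • ∑ i, ∑ l, G i l = 0 := by
    rw [two_smul]
    exact add_eq_zero_iff_eq_neg.2 h1
  exact (smul_eq_zero.1 h2).resolve_left two_ne_zero

variable {κ : Type} (a : κ → Fin 3 →₀ ℕ) (c : κ → ℂ) (q : Vq) (T : Finset κ)

lemma π_U (k : ℤ) (v : Pt) (hv : v none = 1) (e : RR O) : π (k + 1) (U v * e) = U v * π k e := by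
  have : π (k + 1) ∘ₗ LinearMap.mulLeft ℂ (U v) = LinearMap.mulLeft ℂ (U v) ∘ₗ π k :=
    ext_U fun u => by
      rw [LinearMap.comp_apply, LinearMap.comp_apply, LinearMap.mulLeft_apply,
        LinearMap.mulLeft_apply, ← U_add, π, π, Dg_U, Dg_U, mul_smul_comm, ← U_add, Pi.add_apply, hv]
      rw [add_comm (1 : ℤ)]
      simp only [add_left_inj]
  exact LinearMap.congr_fun this e

lemma π_F (n : Vq) (k : ℤ) (e : RR O) : π (k + 1) (Fop a c T n * e) = Fop a c T n * π k e := by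
  rw [Fop, sum_mul, sum_mul, map_sum]
  refine sum_congr rfl fun j _ => ?_
  rw [smul_mul_assoc, smul_mul_assoc, map_smul, π_U k _ (Ah_none j)]

/-- The adjoint of the difference operator. -/
noncomputable def Ds (n : Vq) : RR O →ₗ[ℂ] RR O :=
  Dg (fun u => ((n ⬝ᵥ hat q u : ℚ) : ℂ)) + LinearMap.mulLeft ℂ (Fop a c T n)

lemma Ds_apply (n : Vq) (e : RR O) :
    Ds a c q T n e = Dg (fun u => ((n ⬝ᵥ hat q u : ℚ) : ℂ)) e + Fop a c T n * e := rfl

lemma pr_Ds (n : Vq) (φ : Pt → ℂ) (e : RR O) : pr φ (Ds a c q T n e) = pr (Dn a c q T n φ) e :=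
  LinearMap.congr_fun (ext_U (f := pr φ ∘ₗ Ds a c q T n) fun u => by
    simp only [LinearMap.comp_apply, Ds_apply, Dg_U, Fop, sum_mul, smul_mul_assoc, ← U_add,
      map_add, map_sum, map_smul, pr_U, smul_eq_mul, Dn, add_comm u]) e

lemma Ds_comm (n m : Vq) (e : RR O) :
    Ds a c q T n (Ds a c q T m e) = Ds a c q T m (Ds a c q T n e) := ext_cf fun u => by
  have h : cf u = pr fun v => if v = u then 1 else 0 := ext_U fun v => by rw [cf_U, pr_U]
  rw [h, pr_Ds, pr_Ds, pr_Ds, pr_Ds]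
  exact congrArg (pr · e) (funext (Dn_comm m n _))

lemma π_Ds {Y : Set Pt} {k : ℤ} {e : RR O} (n : Vq) (h : e ∈ S (L Y k)) :
    π (k + 1) (Ds a c q T n e) = Fop a c T n * π k e := by
  rw [Ds_apply, map_add, π_zero (Dg_mem _ h), zero_add, π_F]

variable {a c q T} {ι : Type} [Fintype ι] {n : ι → Vq} {Y : Set Pt}

/-- One level down. -/
lemma reduce (hK : KoszOn (fun i => Fop a c T (n i)) Y) {k : ℤ} {e : ι → RR O}
    (he : ∀ i, e i ∈ S (L Y (k + 1))) (h0 : π (k + 1 + 1) (∑ i, Ds a c q T (n i) (e i)) = 0) :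
    ∃ h : ι → ι → RR O, (∀ i l, h i l ∈ S Y) ∧ (∀ i l, h i l = -h l i) ∧
      ∀ i, e i - ∑ l, Ds a c q T (n l) (h i l) ∈ S (L Y k) := by
  rw [map_sum, sum_congr rfl fun i _ => π_Ds a c q T (n i) (he i)] at h0
  obtain ⟨h, h1, h2, h3⟩ := hK (fun i => π (k + 1) (e i)) (fun i => supp_iff.2 (Dg_mem _
    (AddMonoidAlgebra.supported_mono (fun u hu => hu.1) (he i)))) h0
  refine ⟨fun i l => π k (h i l), fun i l => Dg_mem _ (supp_iff.1 (h1 i l)),
    fun i l => (congrArg (π k) (h2 i l)).trans (map_neg ..), fun i => ?_⟩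
  have h4 : π (k + 1) (e i) = ∑ l, Fop a c T (n l) * π k (h i l) := by
    rw [← π_π, h3 i, map_sum]
    exact sum_congr rfl fun l _ => π_F ..
  simp only [Ds_apply]
  rw [sum_add_distrib, ← h4, add_comm, ← sub_sub]
  exact sub_mem (sub_π (he i)) (Submodule.sum_mem _ fun l _ => Dg_mem _
    (AddMonoidAlgebra.supported_mono (fun u hu => And.intro hu.1 hu.2.le)
      (π_mem k (supp_iff.1 (h1 i l)))))

lemma sum_sub {M : Type} [AddCommGroup M] [Module ℂ M] (Ω : ι → RR O →ₗ[ℂ] M)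
    (hΩ : ∀ i l, ∀ h ∈ S Y, Ω i (Ds a c q T (n l) h) = Ω l (Ds a c q T (n i) h)) (e : ι → RR O)
    {h : ι → ι → RR O} (h1 : ∀ i l, h i l ∈ S Y) (h2 : ∀ i l, h i l = -h l i) :
    ∑ i, Ω i (e i - ∑ l, Ds a c q T (n l) (h i l)) = ∑ i, Ω i (e i) := by
  simp only [map_sub, map_sum, sum_sub_distrib]
  rw [anti (fun i l => Ω i (Ds a c q T (n l) (h i l))) fun i l => by
    rw [hΩ i l _ (h1 i l), h2 i l, map_neg, map_neg], sub_zero]

/-- Down to the level `k`. -/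
lemma descend (hK : KoszOn (fun i => Fop a c T (n i)) Y) (Ω : ι → RR O →ₗ[ℂ] ℂ)
    (hΩ : ∀ i l, ∀ h ∈ S Y, Ω i (Ds a c q T (n l) h) = Ω l (Ds a c q T (n i) h)) (k : ℤ)
    {e : ι → RR O} (he : ∀ i, e i ∈ S Y)
    (h0 : ∀ k', k < k' → π (k' + 1) (∑ i, Ds a c q T (n i) (e i)) = 0) :
    ∃ e' : ι → RR O, (∀ i, e' i ∈ S (L Y k)) ∧
      ∑ i, Ds a c q T (n i) (e' i) = ∑ i, Ds a c q T (n i) (e i) ∧
      ∑ i, Ω i (e' i) = ∑ i, Ω i (e i) := by
  classical
  obtain ⟨m, hm⟩ : ∃ m : ℕ, ∀ i, e i ∈ S (L Y (k + m)) := by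
    obtain ⟨m, hm⟩ := ((univ.biUnion fun i => (e i).coeff.support).image
      fun u => (u none - k).toNat).bddAbove
    refine ⟨m, fun i u hu => ⟨he i hu, ?_⟩⟩
    have := hm (mem_coe.2 (mem_image_of_mem _ (mem_biUnion.2 ⟨i, mem_univ _, hu⟩)))
    omega
  clear he
  induction m generalizing e with
  | zero => exact ⟨e, by simpa using hm, rfl, rfl⟩
  | succ m ih =>
    rw [Nat.cast_succ, ← add_assoc] at hm
    obtain ⟨h, h1, h2, h3⟩ := reduce hK hm (h0 _ (by omega))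
    have h4 := sum_sub (fun i => Ds a c q T (n i)) (fun i l h _ => Ds_comm ..) e h1 h2
    obtain ⟨e', h5, h6, h7⟩ := ih (fun k' hk => by rw [h4]; exact h0 k' hk) h3
    exact ⟨e', h5, h6.trans h4, h7.trans (sum_sub Ω hΩ e h1 h2)⟩

/-- From the given directions to all directions. -/
lemma all_dir {d : ι → Vq} {y : Vq} (h1 : ∀ j ∈ T, Ahq a j = ∑ i, (n i ⬝ᵥ Ahq a j) • d i)
    (h2 : y = ∑ i, (n i ⬝ᵥ y) • d i) {ω : Vq → Pt → ℂ} (hl : IsLin ω)
    (h0 : ∀ m : Vq, (∀ j ∈ T, m ⬝ᵥ Ahq a j = 0) → m ⬝ᵥ y = 0 → ∀ u ∈ CY a q T y, ω m u = 0)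
    {φ : Pt → ℂ} (h : ∀ i, ∀ u ∈ CY a q T y, Dn a c q T (n i) φ u = ω (n i) u) :
    Solves a c q T (CY a q T y) φ ω := by
  intro m u hu
  have key : ∀ x : Vq, x = ∑ i, (n i ⬝ᵥ x) • d i → (m - ∑ i, (m ⬝ᵥ d i) • n i) ⬝ᵥ x = 0 :=
    fun x hx => by
      rw [sub_dotProduct, sum_dotProduct, sub_eq_zero]
      conv_lhs => rw [hx, dotProduct_sum]
      exact sum_congr rfl fun i _ => by
        rw [dotProduct_smul, smul_dotProduct, smul_eq_mul, smul_eq_mul, mul_comm]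
  have k1 := fun j hj => key _ (h1 j hj)
  have k2 := InCone.dot_zero hu k1
  rw [dotProduct_sub, key _ h2, sub_zero] at k2
  have hD := isLin_Dn (a := a) (c := c) (q := q) (T := T) φ
  rw [← sub_add_cancel m (∑ i, (m ⬝ᵥ d i) • n i), hl.1, h0 _ k1 (key _ h2) u hu, Dn_dir_add,
    Dn_dir_zero k2 k1, hl.sum, hD.sum]
  congr 1
  exact sum_congr rfl fun i _ => by rw [hl.2, Dn_dir_smul, h i u hu]

/-- The sum of the values of a family of linear maps. -/
noncomputable def tot {M : Type} [AddCommGroup M] [Module ℂ M] (Ω : ι → RR O →ₗ[ℂ] M) :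
    (ι → RR O) →ₗ[ℂ] M := ∑ i, Ω i ∘ₗ LinearMap.proj i

lemma tot_apply {M : Type} [AddCommGroup M] [Module ℂ M] (Ω : ι → RR O →ₗ[ℂ] M) (e : ι → RR O) :
    tot Ω e = ∑ i, Ω i (e i) := by
  simp [tot]

lemma tot_single [DecidableEq ι] {M : Type} [AddCommGroup M] [Module ℂ M] (Ω : ι → RR O →ₗ[ℂ] M)
    (i : ι) (x : RR O) : tot Ω (Pi.single i x) = Ω i x := by
  rw [tot_apply, sum_eq_single i (fun l _ h => by simp [h]) (by simp), Pi.single_eq_same]

omit [Fintype ι] in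
lemma single_mem [DecidableEq ι] (i : ι) {u : Pt} (hu : u ∈ Y) :
    Pi.single i (U u) ∈ Submodule.pi Set.univ fun _ : ι => S Y := fun l _ => by
  by_cases h : l = i
  · rw [h, Pi.single_eq_same]
    exact U_mem hu
  · rw [Pi.single_eq_of_ne h]
    exact zero_mem _

lemma eq_pr (Φ : RR O →ₗ[ℂ] ℂ) : Φ = pr fun u => Φ (U u) := ext_U fun u => by rw [pr_U]

end RecAux

open RecAux

theorem cone : ConeStmt := by
  intro κ _ _ a c q y T ι _ _ n d h1 h2 hK
  refine ⟨fun ω hl hc h0 => ?_, fun hN => ?_⟩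
  · obtain ⟨Φ, hΦ⟩ := exists_factor (tot fun i => Ds a c q T (n i)) (tot fun i => pr (ω (n i)))
      (Submodule.pi Set.univ fun _ => S (CY a q T y)) fun e he h => by
        rw [tot_apply] at h ⊢
        obtain ⟨e', h3, -, h4⟩ := descend (q := q) hK (fun i => pr (ω (n i))) (fun i l x hx => by
          rw [pr_Ds, pr_Ds]
          exact pr_congr hx (hc _ _)) (⌈y none - q none⌉ - 1) (fun i => he i trivial)
          fun k _ => by rw [h, map_zero]
        rw [← h4]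
        refine sum_eq_zero fun i _ => ?_
        rw [ext_cf (e' := 0) fun u => mem_S.1 (h3 i) u fun hu => ?_, map_zero]
        have h5 := InCone.nonneg hu.1 none
        have h6 : ⌈y none - q none⌉ ≤ u none := Int.ceil_le.2 (by
          rw [Pi.sub_apply, hat_none] at h5
          linarith)
        have := hu.2
        omega
    refine ⟨fun u => Φ (U u), all_dir h1 h2 hl h0 fun i u hu => ?_⟩
    have := hΦ _ (single_mem i hu)
    rwa [tot_single, tot_single, eq_pr Φ, pr_Ds, pr_U, pr_U] at this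
  · obtain ⟨Φ, hΦ⟩ := exists_factor ((tot fun i => Ds a c q T (n i)).coprod
      (LinearMap.toSpanSingleton ℂ _ (1 : RR O))) (LinearMap.snd ℂ _ ℂ)
      ((Submodule.pi Set.univ fun _ => S (CY a q T y)).prod ⊤) fun e he h => by
        by_contra ht
        have h3 : ∑ i, Ds a c q T (n i) (((-e.2⁻¹) • e.1) i) = 1 := by
          rw [← tot_apply fun i => Ds a c q T (n i), map_smul,
            show tot (fun i => Ds a c q T (n i)) e.1 = -(e.2 • 1) from eq_neg_of_add_eq_zero_left h,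
            neg_smul_neg, smul_smul, inv_mul_cancel₀ (a := e.2) ht, one_smul]
        obtain ⟨e', h4, h5, -⟩ := descend (q := q) hK (fun _ => 0) (fun _ _ _ _ => rfl) (-1)
          (e := (-e.2⁻¹) • e.1)
          (fun i => Submodule.smul_mem _ _ (he.1 i trivial))
          fun k hk => by rw [h3, π_one, if_neg (by omega)]
        refine hN ⟨fun i => π (-1) (e' i), fun i => supp_iff.2 (π_mem _
          (AddMonoidAlgebra.supported_mono (fun u hu => hu.1) (h4 i))), ?_⟩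
        rw [← sum_congr rfl fun i _ => π_Ds a c q T (n i) (h4 i), ← map_sum, h5, h3, π_one,
          if_pos (by omega)]
    refine ⟨fun u => Φ (U u), all_dir h1 h2 (ω := 0) ⟨by simp, by simp⟩ (fun _ _ _ _ _ => rfl)
      fun i u hu => ?_, ?_⟩
    · have := hΦ (Pi.single i (U u), 0) ⟨single_mem i hu, trivial⟩
      rwa [LinearMap.coprod_apply, map_zero, add_zero, tot_single, eq_pr Φ, pr_Ds, pr_U] at this
    · have := hΦ (0, 1) ⟨zero_mem _, trivial⟩
      rw [LinearMap.coprod_apply, map_zero, zero_add, LinearMap.toSpanSingleton_apply,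
        one_smul] at this
      exact fun h => one_ne_zero (this.symm.trans h)

end Pool.Agent.MP_5d9b3c_ag.H48
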