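import Pool.Agent.MP_5d9b3c_ag.H48.Basic

/-!
Second order solutions give roots; the two explicit cases (a line, two monomials).
-/

namespace Pool.Agent.MP_5d9b3c_ag.H48

open Finset Pool.Agent.MP_5d9b3c_ag.H22

namespace SVAux

/-- An algebra of dual numbers in four variables. -/
lemma exW : ∃ (W : Type) (_ : CommRing W) (_ : Algebra ℂ W) (x τ : O → W) (σ : W),
    (∀ i, x i * σ = 0) ∧ (∀ i, x i * τ i = σ) ∧ (∀ i k, i ≠ k → x i * τ k = 0) ∧
      (∀ i, x i ^ 2 = 0) ∧ σ ≠ 0 := by
  classical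
  let J : Ideal (MvPolynomial O ℂ) :=
    Ideal.span (Set.range (fun i : O => (MvPolynomial.monomial (Finsupp.single i 2) (1 : ℂ))))
  let d : O →₀ ℕ := Finsupp.equivFunOnFinite.symm (fun _ => 1)
  have hd : ∀ i, d i = 1 := fun i => rfl
  have hz : ∀ (s : O →₀ ℕ) (i : O), 2 ≤ s i →
      Ideal.Quotient.mk J (MvPolynomial.monomial s 1) = 0 := by
    intro s i hs
    rw [Ideal.Quotient.eq_zero_iff_mem]
    have e : (MvPolynomial.monomial s (1 : ℂ) : MvPolynomial O ℂ) =
        MvPolynomial.monomial (s - Finsupp.single i 2) 1 *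
          MvPolynomial.monomial (Finsupp.single i 2) 1 := by
      rw [MvPolynomial.monomial_mul, one_mul, tsub_add_cancel_of_le]
      exact Finsupp.single_le_iff.2 hs
    rw [e]
    exact J.mul_mem_left _ (Ideal.subset_span ⟨i, rfl⟩)
  refine ⟨MvPolynomial O ℂ ⧸ J, inferInstance, inferInstance,
    fun i => Ideal.Quotient.mk J (MvPolynomial.monomial (Finsupp.single i 1) 1),
    fun i => Ideal.Quotient.mk J (MvPolynomial.monomial (d.erase i) 1),
    Ideal.Quotient.mk J (MvPolynomial.monomial d 1), fun i => ?_, fun i => ?_, fun i k hik => ?_,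
    fun i => ?_, ?_⟩
  · rw [← map_mul, MvPolynomial.monomial_mul, one_mul]
    exact hz _ i (by simp [hd])
  · rw [← map_mul, MvPolynomial.monomial_mul, one_mul]
    have e : Finsupp.single i 1 + d.erase i = d := by
      rw [← hd i]
      exact Finsupp.single_add_erase i d
    rw [e]
  · rw [← map_mul, MvPolynomial.monomial_mul, one_mul]
    exact hz _ i (by simp [hd, Finsupp.erase_ne hik])
  · rw [← map_pow, MvPolynomial.monomial_pow, one_pow]
    exact hz _ i (by simp)
  · rw [Ne, Ideal.Quotient.eq_zero_iff_mem, Ideal.mem_span_range_iff_exists_fun]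
    rintro ⟨p, hp⟩
    have h1 := congrArg (MvPolynomial.coeff d) hp
    rw [MvPolynomial.coeff_sum, MvPolynomial.coeff_monomial, if_pos rfl, sum_eq_zero] at h1
    · exact zero_ne_one h1
    · intro i _
      rw [MvPolynomial.coeff_mul_monomial', if_neg]
      rw [Finsupp.single_le_iff, hd]
      omega

/-- A first order recursion in both directions. -/
lemma rec_ex (α g : ℤ → ℂ) (c v : ℂ) (hc : c ≠ 0) (hα : ∀ r < 0, α r ≠ 0) :
    ∃ γ : ℤ → ℂ, γ 0 = v ∧ ∀ r, α r * γ r + c * γ (r + 1) = g r := by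
  refine ⟨fun z => Int.inductionOn' (motive := fun _ => ℂ) z 0 v
    (fun k _ y => (g k - α k * y) / c) (fun k _ y => (g (k - 1) - c * y) / α (k - 1)),
    Int.inductionOn'_self, fun r => ?_⟩
  by_cases hr : 0 ≤ r
  · simp only [Int.inductionOn'_add_one hr]
    field_simp
    ring
  · obtain ⟨s, rfl⟩ : ∃ s, r = s - 1 := ⟨r + 1, by ring⟩
    have hs : s ≤ 0 := by omega
    have h1 := hα (s - 1) (by omega)
    simp only [Int.inductionOn'_sub_one hs, sub_add_cancel]
    field_simp
    ring

end SVAux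

open SVAux

theorem sv : SVStmt := by
  intro κ _ _ a c b hb q I hq ψ hDD h0 h1 hψ
  obtain ⟨W, _, _, x, τ, σ, hxσ, hxτ, hxτ', hx2, hσ⟩ := exW
  obtain ⟨d, P, hP, heq⟩ := hb
  by_contra hne
  let μ : O → Pt → ℂ := fun i => Dn a c q univ (ei i) ψ
  let Ψ : Pt → W := fun u => ψ u • σ + ∑ k, μ k u • τ k
  have hxΨ : ∀ i u, x i * Ψ u = μ i u • σ := by
    intro i u
    simp only [Ψ, mul_add, mul_sum, mul_smul_comm, hxσ, smul_zero, zero_add]
    rw [sum_eq_single i (fun k _ hk => by rw [hxτ' i k hk.symm, smul_zero]) (by simp), hxτ]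
  have hD : ∀ (i : O) (φ : Pt → ℂ) (u : Pt) (y : W), Dn a c q univ (ei i) φ u • y =
      ((u i : ℂ) + (q i : ℂ)) • φ u • y + ∑ j, (c j * Aof a j i) • φ (u + Ah a j) • y := by
    intro i φ u y
    simp only [Dn, ei_dot, add_smul, sum_smul, smul_smul, hat, Ahq, Rat.cast_add,
      Rat.cast_intCast, Rat.cast_natCast, add_mul]
  have key := sol_vanish a c (fun i => algebraMap ℂ W (-(q i : ℂ)) + x i) Ψ (fun u i => by
      have e1 : μ i u • σ = ((u i : ℂ) + (q i : ℂ)) • Ψ u +
          ∑ j, (c j * Aof a j i) • Ψ (u + Ah a j) := by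
        have e2 : ∑ k, Dn a c q univ (ei i) (μ k) u • τ k = 0 :=
          sum_eq_zero (fun k _ => by rw [hDD, zero_smul])
        simp only [hD, sum_add_distrib] at e2
        rw [sum_comm] at e2
        simp only [Ψ, smul_add, smul_sum, sum_add_distrib]
        rw [show μ i u • σ = _ from hD i ψ u σ]
        linear_combination (exp := 1) -e2
      rw [add_mul, hxΨ, e1, ← Algebra.smul_def, neg_smul, add_smul]
      change _ = _ + ∑ j, (c j * Aof a j i) • Ψ (u + Ah a j)
      abel) I (fun u hu => by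
      have e : ∀ i ∈ I.filter (fun i => u (some i) < 0),
          algebraMap ℂ W (-(q (some i) : ℂ)) + x (some i) + 1 = x (some i) := by
        intro i hi
        rw [hq i (mem_filter.1 hi).1]
        simp
      rw [prod_congr rfl e]
      rcases (I.filter (fun i => u (some i) < 0)).eq_empty_or_nonempty with hJ | ⟨i, hi⟩
      · obtain ⟨h2, h3⟩ := h0 u hu (fun i hi => not_lt.1 (fun h => by
          have : i ∈ I.filter (fun i => u (some i) < 0) := mem_filter.2 ⟨hi, h⟩
          rw [hJ] at this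
          simp at this))
        have : Ψ u = 0 := by simp [Ψ, μ, h2, h3]
        rw [this, mul_zero]
      · rw [← prod_erase_mul _ _ hi, mul_assoc, hxΨ]
        rcases ((I.filter (fun i => u (some i) < 0)).erase i).eq_empty_or_nonempty with
          hJ | ⟨k, hk⟩
        · have h2 := h1 u hu i (mem_filter.1 hi).1 (mem_filter.1 hi).2 (fun k hk hki =>
            not_lt.1 (fun h => by
              have : k ∈ (I.filter (fun i => u (some i) < 0)).erase i :=
                mem_erase.2 ⟨hki, mem_filter.2 ⟨hk, h⟩⟩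
              rw [hJ] at this
              simp at this))
          have : μ (some i) u = 0 := h2
          rw [this, zero_smul, mul_zero]
        · rw [← prod_erase_mul _ _ hk, mul_assoc, mul_smul_comm, hxσ, smul_zero, mul_zero])
    hP heq
  rw [(isUnit_aeval b hne ⟨2, hx2 none⟩).mul_right_eq_zero] at key
  have h2 : ∀ k, μ k 0 = 0 := by
    intro k
    have := hxΨ k 0
    rw [key, mul_zero, eq_comm, smul_eq_zero] at this
    exact this.resolve_right hσ
  have h3 : ψ 0 • σ = 0 := by simpa [Ψ, h2] using key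
  rw [smul_eq_zero] at h3
  exact h3.elim hψ hσ

theorem rootLine (hsp : SpreadStmt) (hsv : SVStmt) : RootLineStmt := by
  intro κ _ _ a c b ha hc hb w i hw hwk hT hl
  obtain ⟨A, hA, hmax⟩ := exists_max_image (Tw a w) (fun j => Aq a j ⬝ᵥ Aq a j) hT
  have hsum : ∑ k, w k = w i := sum_eq_single i (fun k _ hk => hwk k hk) (by simp)
  have hdot : ∀ y : V3, w ⬝ᵥ y = w i * y i := fun y =>
    sum_eq_single i (fun k _ hk => by rw [hwk k hk, zero_mul]) (by simp)
  let n : Vq := qq (Aq a A ⬝ᵥ Aq a A) (-Aq a A)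
  have hn : ∀ j, n ⬝ᵥ Ahq a j = Aq a A ⬝ᵥ Aq a A - Aq a A ⬝ᵥ Aq a j := by
    intro j
    rw [qq_dot, neg_dotProduct, Ahq_none, mul_one, sub_eq_add_neg]
    rfl
  have hnA : n ⬝ᵥ Ahq a A = 0 := by rw [hn, sub_self]
  have hn' : ∀ j ∈ Tw a w, j ≠ A → 0 < n ⬝ᵥ Ahq a j := by
    intro j hj hjA
    have h1 : Aq a j - Aq a A ≠ 0 := sub_ne_zero.2 (fun h => hjA (Aq_inj ha h))
    have h2 : 0 < (Aq a j - Aq a A) ⬝ᵥ (Aq a j - Aq a A) :=
      lt_of_le_of_ne (sum_nonneg (fun k _ => mul_self_nonneg _))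
        (fun h => h1 (dotProduct_self_eq_zero.1 h.symm))
    have h3 := hmax j hj
    rw [sub_dotProduct, dotProduct_sub, dotProduct_sub, dotProduct_comm (Aq a j) (Aq a A)] at h2
    rw [hn]
    linarith
  obtain ⟨ε, hε, h4⟩ := small (univ.filter (fun j => j ∉ Tw a w)) (fun j => H48.hw w ⬝ᵥ Ahq a j)
    (fun j => n ⬝ᵥ Ahq a j) (fun j hj => lt_of_le_of_ne (hw.hw_nonneg j)
      (fun h => (mem_filter.1 hj).2 (mem_Tw'.2 h.symm)))
  have hh' : ∀ y, (H48.hw w + ε • n) ⬝ᵥ y = H48.hw w ⬝ᵥ y + ε * (n ⬝ᵥ y) := fun y => by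
    rw [add_dotProduct, smul_dotProduct, smul_eq_mul]
  obtain ⟨γ, hγ0, hγ⟩ := rec_ex (fun r => (r : ℂ) + ((w i : ℚ) : ℂ)) 0 (c A) 1 (hc A)
    (fun r _ h => hl (-r) (by
      rw [hsum]
      have : ((w i : ℚ) : ℂ) = ((-r : ℤ) : ℚ) := by
        push_cast
        linear_combination h
      exact_mod_cast this))
  obtain ⟨q, hqe⟩ : ∃ q : Vq, q = w i • Ahq a A := ⟨_, rfl⟩
  have hq1 : q (some i) = 1 := by
    have := mem_Tw.1 hA
    rw [hdot] at this
    rw [hqe]
    exact this
  have hq0 : q none = w i := by simp [hqe]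
  obtain ⟨ψ, h5, h6, h7⟩ := hsp κ a c q (H48.hw w) (H48.hw w + ε • n) {A} hw.hw_nonneg
    (fun j => by
      by_cases hj : j ∈ Tw a w
      · rw [hh', mem_Tw'.1 hj, zero_add]
        by_cases hjA : j = A
        · rw [hjA, hnA, mul_zero]
        · exact (mul_pos hε (hn' j hj hjA)).le
      · rw [hh']
        exact (h4 j (mem_filter.2 ⟨mem_univ _, hj⟩)).le)
    (fun j => by
      rw [mem_singleton, hh']
      constructor
      · rintro rfl
        rw [mem_Tw'.1 hA, hnA]
        simp
      · rintro ⟨h1, h2⟩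
        by_contra hjA
        have := mul_pos hε (hn' j (mem_Tw'.2 h1) hjA)
        linarith)
    0 (fun u => if u = u none • Ah a A then γ (u none) else 0)
    (fun n m u _ => by simp) (fun n u _ => rfl) (fun m u _ => by
      have e : (u + Ah a A = (u + Ah a A) none • Ah a A) ↔ u = u none • Ah a A := by
        rw [Pi.add_apply, Ah_none, add_smul, one_smul, add_left_inj]
      simp only [Dn, sum_singleton, e, Pi.zero_apply]
      split_ifs with hu
      · have e2 : hat q u = ((u none : ℚ) + w i) • Ahq a A := by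
          ext k
          have := congrFun hu k
          simp only [hat, hqe, Pi.smul_apply, smul_eq_mul, ← Ah_cast] at this ⊢
          rw [this]
          push_cast
          ring
        have h8 := hγ (u none)
        rw [e2, dotProduct_smul, Pi.add_apply, Ah_none, smul_eq_mul]
        push_cast
        simp only [Pi.zero_apply] at h8
        linear_combination ((m ⬝ᵥ Ahq a A : ℚ) : ℂ) * h8
      · simp)
  have h8 : ∀ m, Dn a c q univ m ψ = 0 := fun m => funext (fun u => h6 m u (Set.mem_univ _))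
  have key := hsv κ a c b hb q {i} (fun k hk => by rw [mem_singleton.1 hk, hq1]) ψ
    (fun n m u => by rw [h8, Dn_zero]; rfl)
    (fun u hu hi => ⟨h7 u (Or.inl (by
      have h9 : (0 : ℚ) ≤ u (some i) := by exact_mod_cast hi i (mem_singleton_self i)
      rw [hw_dot, hdot, hat_none, hat_some, hq1, hq0, hu]
      have := mul_nonneg (hw.1 i) h9
      push_cast
      linarith)), fun n => by rw [h8]; rfl⟩)
    (fun u _ k _ _ _ => by rw [h8]; rfl) (by
      have e1 : H48.hw w ⬝ᵥ hat q 0 = 0 := by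
        rw [hat_zero, hqe, dotProduct_smul, mem_Tw'.1 hA, smul_zero]
      rw [h5 0 e1 (by rw [hh', e1, hat_zero, hqe, dotProduct_smul, hnA]; simp)]
      simp [hγ0])
  rwa [hq0, ← hsum] at key

theorem rootTwo (hneg : NegStmt) (hsp : SpreadStmt) (hsv : SVStmt) : RootTwoStmt := by
  intro κ _ _ a c b hb w i j A B hij hw hT hcA hcB hAi hAj hBi hBj hl
  obtain ⟨k, hik, hjk⟩ := exists_third hij
  have hAB : A ≠ B := by
    rintro rfl
    omega
  have hA : A ∈ Tw a w := by simp [hT]
  have hB : B ∈ Tw a w := by simp [hT]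
  obtain ⟨l, hle⟩ : ∃ l, l = ∑ k, w k := ⟨_, rfl⟩
  rw [← hle] at hl ⊢
  obtain ⟨q, hqe⟩ : ∃ q : Vq, q = qq l one3 := ⟨_, rfl⟩
  have hq1 : ∀ m, q (some m) = 1 := fun m => by rw [hqe]; rfl
  have hq0 : q none = l := by rw [hqe]; rfl
  have hq : q = Ahq a A + (l - 1) • Ahq a B := by
    have h1 := mem_Tw.1 hA
    have h2 := mem_Tw.1 hB
    rw [dot_three hij hik hjk] at h1 h2
    rw [sum_three hij hik hjk] at hle
    simp only [Aq, hAi, hAj, hBi, hBj, Nat.cast_one, Nat.cast_zero, mul_one, mul_zero,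
      zero_add] at h1 h2
    ext (_ | m)
    · simp [hq0]
    · rw [hq1]
      simp only [Pi.add_apply, Pi.smul_apply, Ahq_some, smul_eq_mul]
      rcases three hij hik hjk m with rfl | rfl | rfl
      · simp [hAi, hBi]
      · simp [hAj, hBj]
      · rw [hle]
        linear_combination -(a B m : ℚ) * h1 - (1 - (a A m : ℚ)) * h2
  obtain ⟨γ, hγ0, hγ⟩ := rec_ex (fun r => (r : ℂ) + ((l : ℂ) - 1)) 0 (c B) 1 hcB
    (fun r _ h => hl (1 - r) (by
      have : (l : ℂ) = ((1 - r : ℤ) : ℚ) := by
        push_cast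
        linear_combination h
      exact_mod_cast this))
  obtain ⟨μ1, hμ0, hμ⟩ := rec_ex (fun r => (r : ℂ)) 0 (c A) 1 hcA
    (fun r hr => by exact_mod_cast hr.ne)
  obtain ⟨l1, _, hl1⟩ := rec_ex (fun r => (r : ℂ)) μ1 (c A) 0 hcA
    (fun r hr => by exact_mod_cast hr.ne)
  have hμpos : ∀ r : ℤ, 0 ≤ r → μ1 (r + 1) = 0 := by
    intro r hr
    induction r, hr using Int.leInduction with
    | base =>
      have := hμ 0
      simpa [hcA] using this
    | succ r _ ih =>
      have := hμ (r + 1)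
      rw [ih] at this
      simpa [hcA] using this
  let P : Pt → Prop := fun u => u = u (some i) • Ah a A + (u none - u (some i)) • Ah a B
  let F : (ℤ → ℂ) → Pt → ℂ := fun f u =>
    if P u then f (u (some i) + 1) * γ (u none - u (some i)) else 0
  have hF : ∀ f g : ℤ → ℂ, (∀ r : ℤ, (r : ℂ) * f r + c A * f (r + 1) = g r) → ∀ m u,
      Dn a c q {A, B} m (F f) u = ((m ⬝ᵥ Ahq a A : ℚ) : ℂ) * F g u := by
    intro f g hfg m u
    have eA1 : (u + Ah a A) (some i) = u (some i) + 1 := by simp [hAi]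
    have eA0 : (u + Ah a A) none - (u + Ah a A) (some i) = u none - u (some i) := by
      simp [hAi]
    have eB1 : (u + Ah a B) (some i) = u (some i) := by simp [hBi]
    have eB0 : (u + Ah a B) none - (u + Ah a B) (some i) = u none - u (some i) + 1 := by
      simp only [Pi.add_apply, Ah_none, Ah_some, hBi]
      push_cast
      ring
    have eA : P (u + Ah a A) ↔ P u := by
      simp only [P]
      rw [eA0, eA1, add_smul, one_smul, add_right_comm, add_left_inj]
    have eB : P (u + Ah a B) ↔ P u := by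
      simp only [P]
      rw [eB0, eB1, add_smul, one_smul, ← add_assoc, add_left_inj]
    simp only [Dn, sum_pair hAB, F, eA, eB]
    split_ifs with hu
    · have e2 : hat q u = ((u (some i) : ℚ) + 1) • Ahq a A +
          (((u none : ℚ) - u (some i)) + (l - 1)) • Ahq a B := by
        ext k
        have := congrFun hu k
        simp only [hat, hq, Pi.smul_apply, Pi.add_apply, smul_eq_mul, ← Ah_cast] at this ⊢
        rw [this]
        push_cast
        ring
      have h1 := hγ (u none - u (some i))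
      have h2 := hfg (u (some i) + 1)
      rw [e2, eA0, eA1, eB0, eB1, dotProduct_add, dotProduct_smul, dotProduct_smul, smul_eq_mul,
        smul_eq_mul]
      simp only [Pi.zero_apply] at h1
      push_cast at h1 h2 ⊢
      linear_combination ((m ⬝ᵥ Ahq a A : ℚ) : ℂ) * γ (u none - u (some i)) * h2 +
        ((m ⬝ᵥ Ahq a B : ℚ) : ℂ) * f (u (some i) + 1) * h1
    · simp
  have hT' : ∀ v, v ∈ ({A, B} : Finset κ) ↔
      H48.hw w ⬝ᵥ Ahq a v = 0 ∧ H48.hw w ⬝ᵥ Ahq a v = 0 := fun v => by
    rw [← hT, mem_Tw', and_self]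
  obtain ⟨μ, h1, h2, h3⟩ := hsp κ a c q (H48.hw w) (H48.hw w) {A, B} hw.hw_nonneg hw.hw_nonneg hT'
    0 (F μ1) (fun n m u _ => by simp) (fun n u _ => rfl) (fun m u _ => by
      rw [hF μ1 0 hμ]
      simp [F])
  have hvan : ∀ m : Fin 3, (m = i ∨ m = j) → ∀ u : Pt, 0 ≤ u (some m) → μ u = 0 := by
    intro m hm
    refine (hneg κ a c q univ Unit Set.univ (fun _ => H48.hw w) (fun _ => 0)
      {u : Pt | 0 ≤ u (some m)} (Set.toFinite _) (fun u hu v _ => ?_)
      (fun _ _ v _ => hw.hw_nonneg v) (fun _ _ u _ h => h.ne)).2 μ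
      (fun n u _ => h2 n u (Set.mem_univ _)) (fun u hu h => ?_)
    · have : (0 : ℤ) ≤ u (some m) := hu
      change (0 : ℤ) ≤ u (some m) + a v m
      positivity
    · have hu' : (0 : ℤ) ≤ u (some m) := hu
      rcases (h () (Set.mem_univ _)).lt_or_eq with h | h
      · exact h3 u (Or.inl h)
      · rw [h1 u h.symm h.symm]
        simp only [F]
        split_ifs with hP
        · have e : u (some m) = u (some i) := by
            rcases hm with rfl | rfl
            · rfl
            · have := congrFun hP (some m)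
              simpa [hAj, hBj] using this
          rw [hμpos _ (e ▸ hu'), zero_mul]
        · rfl
  obtain ⟨ψ, h4, h5, h6⟩ := hsp κ a c q (H48.hw w) (H48.hw w) {A, B} hw.hw_nonneg hw.hw_nonneg hT'
    (fun n u => ((n ⬝ᵥ Ahq a A : ℚ) : ℂ) * μ u) (F l1) (fun n m u _ => by
      rw [Dn_mul, Dn_mul, h2 n u (Set.mem_univ _), h2 m u (Set.mem_univ _)]
      simp) (fun n u h => by rw [h3 u h, mul_zero]) (fun m u hu => by
      rw [hF l1 μ1 hl1, ← h1 u hu.1 hu.2])
  have h7 : ∀ m, Dn a c q univ m ψ = fun u => ((m ⬝ᵥ Ahq a A : ℚ) : ℂ) * μ u :=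
    fun m => funext (fun u => h5 m u (Set.mem_univ _))
  have key := hsv κ a c b hb q univ (fun k _ => hq1 k) ψ
    (fun n m u => by
      rw [h7, Dn_mul, h2 n u (Set.mem_univ _)]
      simp)
    (fun u hu hi => ⟨h6 u (Or.inl (by
      have h9 : 0 ≤ ∑ k, w k * (u (some k) : ℚ) := sum_nonneg (fun k _ =>
        mul_nonneg (hw.1 k) (by exact_mod_cast hi k (mem_univ k)))
      rw [hw_dot, hat_none, hq0, hu, dotProduct]
      simp only [hat_some, hq1, mul_add, mul_one, sum_add_distrib, ← hle]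
      push_cast
      linarith)), fun n => by rw [h7]; simp [hvan i (Or.inl rfl) u (hi i (mem_univ _))]⟩)
    (fun u _ m _ _ hm => by
      rw [h7]
      by_cases h : i = m
      · simp [hvan j (Or.inr rfl) u (hm j (mem_univ _) (fun h' => hij (h.trans h'.symm)))]
      · simp [hvan i (Or.inl rfl) u (hm i (mem_univ _) h)]) (by
      have e1 : H48.hw w ⬝ᵥ hat q 0 = 0 := by
        rw [hat_zero, hqe, hw_dot_qq, dot_one3, hle, sub_self]
      have e2 := hl1 0
      rw [h4 0 e1 e1]
      have e3 : l1 1 ≠ 0 := by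
        intro h
        simp [h, hμ0] at e2
      simp [F, P, hγ0, e3])
  rwa [hq0] at key

end Pool.Agent.MP_5d9b3c_ag.H48
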