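import Pool.Agent.MP_5d9b3c_ag.H48.Basic

/-!
Row SEG: the number of solutions modulo `p ^ m` is divisible by a high power of `p`.
-/

namespace Pool.Agent.MP_5d9b3c_ag.H48

open Finset MvPolynomial

namespace SegAux

lemma dvd_sub_aeval {R : Type} [CommRing R] {t : R} {y y' : Fin 3 → R} (h : ∀ j, t ∣ y j - y' j)
    (r : MvPolynomial (Fin 3) ℤ) : t ∣ aeval y r - aeval y' r := by
  induction r using MvPolynomial.induction_on with
  | C a => simp
  | add f g hf hg =>
    rw [map_add, map_add, add_sub_add_comm]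
    exact hf.add hg
  | mul_X f j hf =>
    rw [map_mul, map_mul, aeval_X, aeval_X, show aeval y f * y j - aeval y' f * y' j =
      (aeval y f - aeval y' f) * y j + aeval y' f * (y j - y' j) by ring]
    exact (hf.mul_right _).add ((h j).mul_left _)

lemma taylor (p : ℤ) (a : Fin 3 → ℤ) (f : MvPolynomial (Fin 3) ℤ) :
    ∃ (c : ℤ) (d : Fin 3 → ℤ) (r : MvPolynomial (Fin 3) ℤ), ∀ y : Fin 3 → ℤ,
      aeval (fun i => a i + p * y i) f = c + p * ∑ j, d j * y j + p ^ 2 * aeval y r := by
  induction f using MvPolynomial.induction_on with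
  | C c => exact ⟨c, 0, 0, fun y => by simp⟩
  | add f g hf hg =>
    obtain ⟨c, d, r, h⟩ := hf
    obtain ⟨c', d', r', h'⟩ := hg
    refine ⟨c + c', d + d', r + r', fun y => ?_⟩
    simp only [map_add, h, h', Pi.add_apply, add_mul, sum_add_distrib]
    ring
  | mul_X f i hf =>
    obtain ⟨c, d, r, h⟩ := hf
    refine ⟨c * a i, fun j => a i * d j + if j = i then c else 0,
      (∑ j, C (d j) * X j) * X i + r * (C (a i) + C p * X i), fun y => ?_⟩
    simp only [map_add, map_mul, map_sum, aeval_X, aeval_C, h, add_mul, sum_add_distrib, ite_mul,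
      zero_mul, sum_ite_eq', mem_univ, if_true, mul_assoc, ← mul_sum, Algebra.algebraMap_self,
      RingHom.id_apply]
    ring

/-- A linear polynomial plus a multiple of `r`. -/
noncomputable def lp (c : ℤ) (d : Fin 3 → ℤ) (t : ℤ) (r : MvPolynomial (Fin 3) ℤ) :
    MvPolynomial (Fin 3) ℤ := C c + ∑ j, C (d j) * X j + C t * r

lemma aeval_lp {R : Type} [CommRing R] (c : ℤ) (d : Fin 3 → ℤ) (t : ℤ)
    (r : MvPolynomial (Fin 3) ℤ) (y : Fin 3 → R) :
    aeval y (lp c d t r) = c + ∑ j, (d j : R) * y j + t * aeval y r := by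
  simp [lp]

/-- A smooth hypersurface. -/
lemma card_smooth {R : Type} [CommRing R] [Finite R] {c t : ℤ} {d : Fin 3 → ℤ} {i : Fin 3}
    (hd : IsUnit (d i : R)) (ht : IsNilpotent (t : R)) (r : MvPolynomial (Fin 3) ℤ) :
    Nat.card {x : Fin 3 → R // aeval x (lp c d t r) = 0} = Nat.card R ^ 2 := by
  have hi : Function.Injective fun y : Fin 3 → R =>
      Function.update y i (aeval y (lp c d t r)) := by
    intro y y' h
    have h1 : ∀ j, j ≠ i → y j = y' j := fun j hj => by simpa [hj] using congrFun h j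
    have h2 : aeval y (lp c d t r) = aeval y' (lp c d t r) := by simpa using congrFun h i
    obtain ⟨s, hs⟩ := dvd_sub_aeval (t := y i - y' i) (y := y) (y' := y') (fun j => by
      by_cases hj : j = i
      · rw [hj]
      · simp [h1 j hj]) r
    have h3 : ∑ j, (d j : R) * y j - ∑ j, (d j : R) * y' j = d i * (y i - y' i) := by
      rw [← sum_sub_distrib, sum_eq_single i, mul_sub]
      · intro j _ hj
        rw [h1 j hj, sub_self]
      · simp
    rw [aeval_lp, aeval_lp] at h2
    have h4 : (t * s + d i) * (y i - y' i) = 0 := by linear_combination h2 - h3 - t * hs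
    have h5 : IsUnit (t * s + d i : R) :=
      ((Commute.all _ _).isNilpotent_mul_right ht).isUnit_add_right_of_commute hd (Commute.all _ _)
    ext j
    by_cases hj : j = i
    · rw [hj]
      exact sub_eq_zero.1 (h5.mul_right_eq_zero.1 h4)
    · exact h1 j hj
  have e1 : {x : Fin 3 → R // aeval x (lp c d t r) = 0} ≃ {z : Fin 3 → R // z i = 0} :=
    (Equiv.ofBijective _ (Finite.injective_iff_bijective.1 hi)).subtypeEquiv fun x => by simp
  have e2 : {z : Fin 3 → R // z i = 0} ≃ (Fin 2 → R) :=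
    { toFun := fun z => i.removeNth z.1
      invFun := fun w => ⟨i.insertNth 0 w, by simp⟩
      left_inv := fun z => Subtype.ext (by
        conv_rhs => rw [← Fin.insertNth_self_removeNth i z.1, z.2])
      right_inv := fun w => by simp }
  rw [Nat.card_congr (e1.trans e2), Nat.card_fun, Nat.card_eq_fintype_card (α := Fin 2),
    Fintype.card_fin]

/-- The sum over a box. -/
def S (N : ℕ) (φ : (Fin 3 → ℤ) → ℕ) : ℕ := ∑ x : Fin 3 → Fin N, φ fun i => ((x i : ℕ) : ℤ)

lemma split (M n : ℕ) (φ : (Fin 3 → ℤ) → ℕ) :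
    S (M * n) φ = S n fun a => S M fun y => φ fun i => a i + n * y i := by
  unfold S
  rw [sum_comm, ← Fintype.sum_prod_type']
  refine (Fintype.sum_equiv ((Equiv.arrowProdEquivProdArrow _ _ _).symm.trans
    (Equiv.piCongrRight fun _ => finProdFinEquiv)) _ _ fun x => ?_).symm
  congr 1

/-- The indicator function of the solutions. -/
noncomputable def ind (N : ℕ) (f : MvPolynomial (Fin 3) ℤ) (y : Fin 3 → ℤ) : ℕ :=
  if (N : ℤ) ∣ aeval y f then 1 else 0

lemma card_eq (N : ℕ) [NeZero N] (f : MvPolynomial (Fin 3) ℤ) :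
    Nat.card {x : Fin 3 → ZMod N // aeval x f = 0} = S N (ind N f) := by
  classical
  rw [Nat.card_eq_fintype_card, Fintype.card_subtype, card_filter]
  refine (Fintype.sum_equiv (Equiv.piCongrRight fun _ => (ZMod.finEquiv N).toEquiv) _ _
    fun x => ?_).symm
  have h1 : ((aeval (fun i => ((x i : ℕ) : ℤ)) f : ℤ) : ZMod N) =
      aeval ((Equiv.piCongrRight fun _ => (ZMod.finEquiv N).toEquiv) x) f := by
    refine (comp_aeval_apply _ (Algebra.ofId ℤ (ZMod N)) f).trans ?_
    congr 2
    ext i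
    obtain ⟨n, rfl⟩ := Nat.exists_eq_succ_of_ne_zero (NeZero.ne N)
    simp only [eq_intCast, Int.cast_natCast]
    exact ZMod.natCast_zmod_val (n := n + 1) (x i)
  simp only [ind, ← ZMod.intCast_zmod_eq_zero_iff_dvd, h1]

lemma period (p N : ℕ) (g : MvPolynomial (Fin 3) ℤ) :
    S (p * N) (ind N g) = p ^ 3 * S N (ind N g) := by
  have h : ∀ z w : Fin 3 → ℤ, ind N g (fun i => z i + N * w i) = ind N g z := by
    intro z w
    have h1 := dvd_sub_aeval (t := (N : ℤ)) (y := fun i => z i + N * w i) (y' := z)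
      (fun j => by simp) g
    simp only [ind, dvd_iff_dvd_of_dvd_sub h1]
  rw [split]
  simp [h, S, mul_sum]

lemma main {p : ℕ} (hp : p.Prime) : ∀ (m : ℕ) (f : MvPolynomial (Fin 3) ℤ),
    p ^ ((3 * m - 2) / 2) ∣ S (p ^ m) (ind (p ^ m) f)
  | 0, _ => by simp
  | 1, _ => by simp
  | m + 2, f => by
    have p0 : (p : ℤ) ≠ 0 := by exact_mod_cast hp.ne_zero
    have hs := split (p ^ (m + 1)) p (ind (p ^ (m + 2)) f)
    rw [← pow_succ] at hs
    rw [hs]
    refine dvd_sum fun a _ => ?_
    beta_reduce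
    obtain ⟨c, d, r, h⟩ := taylor p (fun i => ((a i : ℕ) : ℤ)) f
    have zero : (∀ y : Fin 3 → ℤ, ¬((p ^ (m + 2) : ℕ) : ℤ) ∣
        c + p * ∑ j, d j * y j + p ^ 2 * aeval y r) → p ^ ((3 * (m + 2) - 2) / 2) ∣
        S (p ^ (m + 1)) fun y => ind (p ^ (m + 2)) f fun i => ((a i : ℕ) : ℤ) + p * y i := by
      intro h0
      simp only [S, ind, h, h0, if_false, sum_const_zero, dvd_zero]
    by_cases hd : ∀ j, (p : ℤ) ∣ d j
    · choose d' hd' using hd
      have e : ∀ y : Fin 3 → ℤ, ∑ j, d j * y j = p * ∑ j, d' j * y j := fun y => by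
        simp only [hd', mul_sum, mul_assoc]
      by_cases hc : (p : ℤ) ^ 2 ∣ c
      · obtain ⟨c', rfl⟩ := hc
        have e1 : (fun y => ind (p ^ (m + 2)) f fun i => ((a i : ℕ) : ℤ) + p * y i) =
            ind (p ^ m) (lp c' d' 1 r) := by
          ext y
          have e2 : (p : ℤ) ^ 2 * c' + p * (p * ∑ j, d' j * y j) + p ^ 2 * aeval y r =
              aeval y (lp c' d' 1 r) * p ^ 2 := by
            rw [aeval_lp]
            simp only [Int.cast_id]
            ring
          simp only [ind, h, e, e2, Nat.cast_pow, pow_add (p : ℤ) m 2,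
            mul_dvd_mul_iff_right (pow_ne_zero 2 p0)]
        rw [e1, pow_succ', period]
        refine (pow_dvd_pow p (show _ ≤ 3 + (3 * m - 2) / 2 by omega)).trans ?_
        rw [pow_add]
        exact mul_dvd_mul_left _ (main hp m _)
      · refine zero fun y h1 => hc ?_
        have h2 : (p : ℤ) ^ 2 ∣ c + p ^ 2 * (∑ j, d' j * y j + aeval y r) := by
          refine (pow_dvd_pow (p : ℤ) (show 2 ≤ m + 2 by omega)).trans ?_
          rw [e, Nat.cast_pow] at h1
          exact h1.trans (dvd_of_eq (by ring))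
        exact (dvd_add_left (dvd_mul_right _ _)).1 h2
    · obtain ⟨i, hi⟩ := not_forall.1 hd
      by_cases hc : (p : ℤ) ∣ c
      · obtain ⟨c', rfl⟩ := hc
        have e1 : (fun y => ind (p ^ (m + 2)) f fun i => ((a i : ℕ) : ℤ) + p * y i) =
            ind (p ^ (m + 1)) (lp c' d p r) := by
          ext y
          have e2 : (p : ℤ) * c' + p * ∑ j, d j * y j + p ^ 2 * aeval y r =
              aeval y (lp c' d p r) * p := by
            rw [aeval_lp]
            simp only [Int.cast_id]
            ring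
          simp only [ind, h, e2, Nat.cast_pow, pow_succ (p : ℤ) (m + 1), mul_dvd_mul_iff_right p0]
        have : NeZero (p ^ (m + 1)) := ⟨pow_ne_zero _ hp.ne_zero⟩
        have u : IsUnit ((d i : ℤ) : ZMod (p ^ (m + 1))) := by
          rw [ZMod.coe_int_isUnit_iff_isCoprime, Nat.cast_pow]
          exact ((Nat.prime_iff_prime_int.1 hp).irreducible.coprime_iff_not_dvd.2 hi).pow_left
        rw [e1, ← card_eq, card_smooth u ⟨m + 1, by
          rw [Int.cast_natCast, ← Nat.cast_pow, ZMod.natCast_self]⟩, Nat.card_zmod, ← pow_mul]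
        exact pow_dvd_pow p (by omega)
      · refine zero fun y h1 => hc ?_
        have h2 : (p : ℤ) ∣ c + p * (∑ j, d j * y j + p * aeval y r) := by
          refine (dvd_pow_self (p : ℤ) (show m + 2 ≠ 0 by omega)).trans ?_
          rw [Nat.cast_pow] at h1
          exact h1.trans (dvd_of_eq (by ring))
        exact (dvd_add_left (dvd_mul_right _ _)).1 h2

end SegAux

theorem seg : SegStmt := by
  intro f p hp m
  have : NeZero (p ^ m) := ⟨pow_ne_zero _ hp.ne_zero⟩
  refine ⟨(3 * m - 2) / 2, by omega, ?_⟩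
  rw [SegAux.card_eq]
  exact SegAux.main hp m f

end Pool.Agent.MP_5d9b3c_ag.H48
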