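import Pool.Agent.MP_5d9b3c_ag.H48.Basic

/-!
The local statement at a point of the torus.
-/

namespace Pool.Agent.MP_5d9b3c_ag.H48

open Finset Pool.Agent.MP_5d9b3c_ag.H22

namespace StarAux

variable {κ : Type} [Fintype κ] [DecidableEq κ] {a : κ → Fin 3 →₀ ℕ}

/-- Moving a supporting weight until it is rigid. -/
lemma exists_rigid (n : ℕ) : ∀ w : V3, Supp a w →
    (univ.filter (fun i => w i ≠ 0)).card + (univ.filter (fun j => j ∉ Tw a w)).card ≤ n →
    (∀ d : V3, (∀ i, w i = 0 → d i = 0) → (∀ j ∈ Tw a w, d ⬝ᵥ Aq a j = 0) → ∑ i, d i = 0) →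
    ∃ w' : V3, Supp a w' ∧ Rigid a w' ∧ (∀ i, w i = 0 → w' i = 0) ∧ Tw a w ⊆ Tw a w' := by
  induction n with
  | zero =>
    intro w hw hn _
    refine ⟨w, hw, fun d h1 _ => ?_, fun _ h => h, subset_rfl⟩
    have : (univ.filter (fun i => w i ≠ 0)) = ∅ := card_eq_zero.1 (by omega)
    ext i
    exact h1 i (by simpa using (filter_eq_empty_iff.1 this) (mem_univ i))
  | succ n ih =>
    intro w hw hn hs
    by_cases hr : Rigid a w
    · exact ⟨w, hw, hr, fun _ h => h, subset_rfl⟩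
    unfold Rigid at hr
    push Not at hr
    obtain ⟨d, h1, h2, h3⟩ := hr
    have hneg : ∃ i, d i < 0 := by
      by_contra h
      push Not at h
      exact h3 (funext fun i =>
        (sum_eq_zero_iff_of_nonneg (fun i _ => h i)).1 (hs d h1 h2) i (mem_univ i))
    obtain ⟨θ, -, h4, x, -, h5, h6⟩ := push (α := κ ⊕ Fin 3) univ
      (Sum.elim (fun j => w ⬝ᵥ Aq a j - 1) w) (Sum.elim (fun j => d ⬝ᵥ Aq a j) d) (by
        rintro (j | i) -
        · exact sub_nonneg.2 (hw.2 j)
        · exact hw.1 i) (by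
        obtain ⟨i, hi⟩ := hneg
        exact ⟨Sum.inr i, mem_univ _, hi⟩)
    have e1 : ∀ j, (w + θ • d) ⬝ᵥ Aq a j = w ⬝ᵥ Aq a j + θ * d ⬝ᵥ Aq a j := fun j => by
      rw [add_dotProduct, smul_dotProduct, smul_eq_mul]
    have e2 : ∀ i, (w + θ • d) i = w i + θ * d i := fun i => rfl
    have hz : ∀ i, w i = 0 → (w + θ • d) i = 0 := fun i hi => by
      rw [e2, hi, h1 i hi]
      ring
    have hT : Tw a w ⊆ Tw a (w + θ • d) := fun j hj => by
      rw [mem_Tw, e1, h2 j hj, mem_Tw.1 hj]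
      ring
    have s1 : univ.filter (fun i => (w + θ • d) i ≠ 0) ⊆ univ.filter (fun i => w i ≠ 0) :=
      fun i hi => mem_filter.2 ⟨mem_univ _, fun h => (mem_filter.1 hi).2 (hz i h)⟩
    have s2 : univ.filter (fun j => j ∉ Tw a (w + θ • d)) ⊆ univ.filter (fun j => j ∉ Tw a w) :=
      fun j hj => mem_filter.2 ⟨mem_univ _, fun h => (mem_filter.1 hj).2 (hT h)⟩
    have c1 := card_le_card s1
    have c2 := card_le_card s2
    obtain ⟨w', k1, k2, k3, k4⟩ := ih (w + θ • d) ⟨fun i => h4 (Sum.inr i) (mem_univ _), fun j => by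
        have := h4 (Sum.inl j) (mem_univ _)
        simp only [Sum.elim_inl] at this
        rw [e1]
        linarith⟩ (by
        rcases x with j | i
        · simp only [Sum.elim_inl] at h5 h6
          have := card_lt_card ((ssubset_iff_of_subset s2).2 ⟨j,
            mem_filter.2 ⟨mem_univ _, fun h => h5.ne (h2 j h)⟩,
            fun h => (mem_filter.1 h).2 (by rw [mem_Tw, e1]; linarith)⟩)
          omega
        · simp only [Sum.elim_inr] at h5 h6
          have := card_lt_card ((ssubset_iff_of_subset s1).2 ⟨i,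
            mem_filter.2 ⟨mem_univ _, fun h => h5.ne (h1 i h)⟩,
            fun h => (mem_filter.1 h).2 h6⟩)
          omega)
      (fun d' hd1 hd2 => hs d' (fun i hi => hd1 i (hz i hi)) (fun j hj => hd2 j (hT hj)))
    exact ⟨w', k1, k2, fun i hi => k3 i (hz i hi), hT.trans k4⟩

/-- The weights that belong to the point. -/
def PP (a : κ → Fin 3 →₀ ℕ) (I : Finset O) (J : Finset κ) (w : V3) : Prop :=
  Supp a w ∧ (∀ i, some i ∉ I → w i = 0) ∧ ∀ v ∉ J, v ∈ Tw a w

omit [DecidableEq κ] in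
lemma sum_dir {I : Finset O} {J : Finset κ} {β : κ → ℝ}
    (hβ : ∀ i ∈ I, ∑ v, (Aof a v i : ℝ) * β v = -1) (hJ : ∀ v ∈ J, β v = 0) {d : V3} {r : ℚ}
    (h1 : ∀ i, some i ∉ I → d i = 0) (h2 : ∀ v ∉ J, d ⬝ᵥ Aq a v = r) :
    ((∑ i, d i : ℚ) : ℝ) = -(r * ∑ v, β v) := by
  have e1 : (r : ℝ) * ∑ v, β v = ∑ v, ((d ⬝ᵥ Aq a v : ℚ) : ℝ) * β v := by
    rw [mul_sum]
    refine sum_congr rfl (fun v _ => ?_)
    by_cases hv : v ∈ J
    · rw [hJ v hv, mul_zero, mul_zero]
    · rw [h2 v hv]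
  have e2 : ∀ i, (d i : ℝ) = -(d i * ∑ v, (a v i : ℝ) * β v) := by
    intro i
    by_cases hi : some i ∈ I
    · have := hβ _ hi
      simp only [Aof, Option.elim_some] at this
      rw [this]
      ring
    · rw [h1 i hi]
      simp
  rw [e1, Rat.cast_sum, sum_congr rfl (fun i _ => e2 i), sum_neg_distrib]
  simp only [dotProduct, Aq, Rat.cast_sum, Rat.cast_mul, Rat.cast_natCast, mul_sum, sum_mul]
  rw [sum_comm]
  simp only [mul_assoc]

/-- Expanding the product. -/
lemma expand {W : Type} [CommRing W] (l : κ → W) (I : Finset O) (J : Finset κ) (ix : κ → O)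
    (R : Finset κ) : (∀ v ∈ R, v ∉ J ∧ ix v ∈ I ∧ Aof a v (ix v) = 1 ∧
      ∀ u ∉ J, u ≠ v → Aof a u (ix v) = 0) → ∀ x : W, x * ∏ v ∈ R, l v ≠ 0 →
    ∃ S ⊆ I, ∃ K ⊆ J, (∀ v ∈ R, ix v ∈ S ∨ ∃ u ∈ K, Aof a u (ix v) ≠ 0) ∧
      x * ((∏ i ∈ S, ∑ v, (Aof a v i : W) * l v) * ∏ u ∈ K, l u) ≠ 0 := by
  induction R using Finset.induction_on with
  | empty =>
    intro _ x hx
    exact ⟨∅, empty_subset _, ∅, empty_subset _, by simp, by simpa using hx⟩
  | insert v R hv ih =>
    intro h x hx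
    rw [prod_insert hv, ← mul_assoc] at hx
    obtain ⟨S, hS, K, hK, h1, h2⟩ := ih (fun u hu => h u (mem_insert_of_mem hu)) _ hx
    obtain ⟨k1, k2, k3, k4⟩ := h v (mem_insert_self _ _)
    have e : l v = ∑ u, (Aof a u (ix v) : W) * l u - ∑ u ∈ J, (Aof a u (ix v) : W) * l u := by
      rw [← sum_add_sum_compl J, add_sub_cancel_left, sum_eq_single v
        (fun u hu huv => by rw [k4 u (mem_compl.1 hu) huv]; simp)
        (fun hu => absurd (mem_compl.2 k1) hu), k3]
      simp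
    by_cases h3 : x * ((∏ i ∈ insert (ix v) S, ∑ v, (Aof a v i : W) * l v) * ∏ u ∈ K, l u) = 0
    · have h4 : x * (∑ u, (Aof a u (ix v) : W) * l u) *
          ((∏ i ∈ S, ∑ v, (Aof a v i : W) * l v) * ∏ u ∈ K, l u) = 0 := by
        by_cases hi : ix v ∈ S
        · rw [insert_eq_of_mem hi] at h3
          linear_combination (∑ u, (Aof a u (ix v) : W) * l u) * h3
        · rw [prod_insert hi] at h3
          linear_combination h3
      rw [e, mul_sub, sub_mul, h4, zero_sub, neg_ne_zero, mul_sum, sum_mul] at h2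
      obtain ⟨u, hu, h5⟩ := exists_ne_zero_of_sum_ne_zero h2
      refine ⟨S, hS, insert u K, insert_subset hu hK, fun y hy => ?_, fun h6 => h5 ?_⟩
      · rcases mem_insert.1 hy with rfl | hy
        · exact Or.inr ⟨u, mem_insert_self _ _, fun h7 => h5 (by rw [h7]; simp)⟩
        · rcases h1 y hy with h7 | ⟨u', h7, h8⟩
          · exact Or.inl h7
          · exact Or.inr ⟨u', mem_insert_of_mem h7, h8⟩
      · by_cases hi : u ∈ K
        · rw [insert_eq_of_mem hi] at h6
          linear_combination ((Aof a u (ix v) : W) * l u) * h6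
        · rw [prod_insert hi] at h6
          linear_combination (Aof a u (ix v) : W) * h6
    · refine ⟨insert (ix v) S, insert_subset k2 hS, K, hK, fun y hy => ?_, h3⟩
      rcases mem_insert.1 hy with rfl | hy
      · exact Or.inl (mem_insert_self _ _)
      · rcases h1 y hy with h7 | h7
        · exact Or.inl (mem_insert_of_mem h7)
        · exact Or.inr h7

/-- A term that survives the relations comes from a weight. -/
lemma weight {W : Type} [CommRing W] {l : κ → W} {I : Finset O} {J : Finset κ} (hI : none ∉ I)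
    (h : Rel (Aof a) I J l) {S : Finset O} {K : Finset κ}
    (hne : (∏ i ∈ S, ∑ v, (Aof a v i : W) * l v) * ∏ u ∈ K, l u ≠ 0) :
    ∃ w, PP a (I \ S) (J \ K) w := by
  rcases farkas ((I \ S).disjSum (J \ K)) (vec (Aof a)) (z0 κ) with ⟨c, hc1, hc2⟩ | ⟨N, hN, n, hn⟩
  · exfalso
    have h1 := h c hc1
    refine hne (eq_zero_of_zero_dvd (h1 ▸ mul_dvd_mul
      (prod_dvd_prod_of_subset _ _ _ (fun i hi => ?_))
      (prod_dvd_prod_of_subset _ _ _ (fun v hv => ?_))))
    · rw [mem_filter] at hi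
      by_contra h0
      exact not_lt.2 (hc2 (Sum.inl i) (inl_mem_disjSum.2 (mem_sdiff.2 ⟨hi.1, h0⟩))) hi.2
    · rw [mem_filter] at hv
      by_contra h0
      have := hc2 (Sum.inr v) (inr_mem_disjSum.2 (mem_sdiff.2 ⟨hv.1, h0⟩))
      simp only [vec, Sum.elim_inr, dotProduct_neg, dot_ee] at this
      omega
  · have hN' : (0 : ℚ) < N := by exact_mod_cast hN
    obtain ⟨w, hw⟩ : ∃ w : V3, ∀ i, w i =
        if some i ∈ I \ S then (n (Sum.inl (some i)) : ℚ) / N else 0 := ⟨_, fun _ => rfl⟩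
    have key : ∀ v, w ⬝ᵥ Aq a v = 1 + (if v ∈ J \ K then (n (Sum.inr v) : ℚ) else 0) / N := by
      intro v
      have h1 := congrFun hn v
      rw [sum_disjSum] at h1
      simp only [vec, Sum.elim_inl, Sum.elim_inr, Pi.add_apply, Finset.sum_apply, z0,
        yv, ee, Pi.neg_apply, Pi.single_apply, nsmul_eq_mul, mul_one, mul_neg, mul_ite, mul_zero,
        sum_neg_distrib, sum_ite_eq, Pi.mul_apply, Pi.natCast_apply] at h1
      have h2 : (N : ℚ) = ∑ x ∈ I \ S, (n (Sum.inl x) : ℚ) * (Aof a v x : ℚ) +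
          -(if v ∈ J \ K then (n (Sum.inr v) : ℚ) else 0) := by exact_mod_cast h1
      have h3 : ∑ x ∈ I \ S, (n (Sum.inl x) : ℚ) * (Aof a v x : ℚ) = N * w ⬝ᵥ Aq a v := by
        rw [← univ_inter (I \ S), ← sum_ite_mem, Fintype.sum_option,
          if_neg (fun h => hI (mem_sdiff.1 h).1), zero_add, dotProduct, mul_sum]
        refine sum_congr rfl (fun i _ => ?_)
        rw [hw]
        split_ifs
        · simp only [Aof, Option.elim_some, Aq]
          field_simp
        · simp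
      rw [h3] at h2
      field_simp
      linarith
    refine ⟨w, ⟨fun i => ?_, fun v => ?_⟩, fun i hi => by rw [hw, if_neg hi], fun v hv => ?_⟩
    · rw [hw]
      split_ifs
      · positivity
      · exact le_rfl
    · rw [key, le_add_iff_nonneg_right]
      split_ifs
      · positivity
      · simp
    · rw [mem_Tw, key, if_neg hv]
      simp

end StarAux

open StarAux in
theorem star (h1 : RootStmt) (h2 : RootTwoStmt) : StarStmt := by
  intro κ _ _ _ a c b ha hc hnd hb hb1 I J β hI hβ hJ hne hlt W _ l hrel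
  -- the sum of a weight
  have hsum : ∀ w, PP a I J w → ((∑ i, w i : ℚ) : ℝ) = -∑ v, β v := fun w hw => by
    rw [sum_dir hβ hJ hw.2.1 (fun v hv => mem_Tw.1 (hw.2.2 v hv))]
    simp
  have hroot : ∀ w, PP a I J w → b.eval (-((∑ i, w i : ℚ) : ℂ)) ≠ 0 := fun w hw => by
    have : -((∑ i, w i : ℚ) : ℂ) = ((∑ v, β v : ℝ) : ℂ) := by
      rw [← Complex.ofReal_ratCast, hsum w hw, Complex.ofReal_neg, neg_neg]
    rwa [this]
  have hlt2 : ∀ w, PP a I J w → ∑ i, w i < 2 := fun w hw => by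
    have h3 : ((∑ i, w i : ℚ) : ℝ) < 2 := by
      rw [hsum w hw]
      linarith
    exact_mod_cast h3
  -- the apex
  have hapex : ∀ w, PP a I J w → ∀ i A, 0 < w i → (∀ B ∈ Tw a w, B ≠ A → a B i = 0) →
      some i ∈ I ∧ A ∉ J ∧ (a A i : ℝ) * β A = -1 := by
    intro w hw i A hi hA
    have h3 : some i ∈ I := by
      by_contra h
      exact hi.ne' (hw.2.1 i h)
    have h4 := hβ _ h3
    rw [sum_eq_single A (fun B _ hB => by
      by_cases h5 : B ∈ J
      · rw [hJ B h5, mul_zero]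
      · have : Aof a B (some i) = 0 := hA B (hw.2.2 B h5) hB
        rw [this]
        simp) (by simp)] at h4
    refine ⟨h3, fun h5 => ?_, h4⟩
    rw [hJ A h5] at h4
    simp at h4
  -- the direction is determined by the apex
  have huniq : ∀ w w', PP a I J w → PP a I J w' → ∀ i j A, 0 < w i → a A i = 1 →
      (∀ B ∈ Tw a w, B ≠ A → a B i = 0) → a A j = 1 → (∀ B ∈ Tw a w', B ≠ A → a B j = 0) →
      i = j := by
    intro w w' hw hw' i j A hi hAi hA hAj hA'
    by_contra hij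
    obtain ⟨k, hik, hjk⟩ := exists_third hij
    obtain ⟨m, hm⟩ : ∃ m : V3, ∀ i, m i = (w i + w' i) / 2 := ⟨_, fun _ => rfl⟩
    have e : ∀ v, m ⬝ᵥ Aq a v = (w ⬝ᵥ Aq a v + w' ⬝ᵥ Aq a v) / 2 := fun v => by
      simp only [dotProduct, hm, Fin.sum_univ_three]
      ring
    have hT : ∀ v ∈ Tw a m, v ∈ Tw a w ∧ v ∈ Tw a w' := fun v hv => by
      rw [mem_Tw, e] at hv
      have := hw.1.2 v
      have := hw'.1.2 v
      rw [mem_Tw, mem_Tw]
      constructor <;> linarith
    have hP : PP a I J m := ⟨⟨fun i => by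
        rw [hm]
        have := hw.1.1 i
        have := hw'.1.1 i
        positivity, fun v => by
        rw [e]
        have := hw.1.2 v
        have := hw'.1.2 v
        linarith⟩, fun i hi => by rw [hm, hw.2.1 i hi, hw'.2.1 i hi]; simp, fun v hv => by
        rw [mem_Tw, e, mem_Tw.1 (hw.2.2 v hv), mem_Tw.1 (hw'.2.2 v hv)]
        norm_num⟩
    obtain ⟨-, hAJ, hβA⟩ := hapex w hw i A hi hA
    rw [hAi, Nat.cast_one, one_mul] at hβA
    by_cases hB : ∃ B ∉ J, B ≠ A
    · obtain ⟨B, hBJ, hBA⟩ := hB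
      have hz : ∀ v ∈ Tw a m, v ≠ A → a v i = 0 ∧ a v j = 0 ∧ m k * a v k = 1 := fun v hv hvA => by
        have h3 := hA v (hT v hv).1 hvA
        have h4 := hA' v (hT v hv).2 hvA
        refine ⟨h3, h4, ?_⟩
        rw [mem_Tw, dot_three hij hik hjk] at hv
        simpa [Aq, h3, h4] using hv
      obtain ⟨b1, b2, b3⟩ := hz B (hP.2.2 B hBJ) hBA
      refine hroot m hP (h2 κ a c b hb m i j A B hij hP.1 ?_ (hc A) (hc B) hAi hAj b1 b2 ?_)
      · ext v
        rw [mem_insert, mem_singleton]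
        constructor
        · intro hv
          by_cases hvA : v = A
          · exact Or.inl hvA
          · obtain ⟨v1, v2, v3⟩ := hz v hv hvA
            refine Or.inr (ha (Finsupp.ext fun x => ?_))
            rcases three hij hik hjk x with rfl | rfl | rfl
            · rw [v1, b1]
            · rw [v2, b2]
            · have h3 : m x ≠ 0 := left_ne_zero_of_mul_eq_one b3
              exact_mod_cast mul_left_cancel₀ h3 (v3.trans b3.symm)
        · rintro (rfl | rfl)
          · exact hP.2.2 _ hAJ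
          · exact hP.2.2 _ hBJ
      · intro z hz'
        have h3 := hlt2 m hP
        have h4 : 0 < ∑ x, m x := sum_pos' (fun x _ => hP.1.1 x) ⟨i, mem_univ _, by
          rw [hm]
          have := hw'.1.1 i
          positivity⟩
        rw [hz'] at h3 h4
        have h5 : z < 2 := by exact_mod_cast h3
        have h6 : 0 < z := by exact_mod_cast h4
        have h7 : z = 1 := by omega
        refine hroot m hP ?_
        rw [hz', h7]
        simpa using hb1
    · push Not at hB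
      refine hne ?_
      rw [sum_eq_single A (fun v _ hv => hJ v (by_contra fun h => hv (hB v h))) (by simp), hβA]
      simpa using hb1
  -- the choice of the directions
  have hch : ∀ v, ∃ i : O, (v ∈ TT (Aof a) I J → v ∉ J ∧ i ∈ I ∧ Aof a v i = 1 ∧
      ∀ u ∉ J, u ≠ v → Aof a u i = 0) ∧ ∀ w, PP a I J w → ∀ j, 0 < w j → a v j = 1 →
      (∀ B ∈ Tw a w, B ≠ v → a B j = 0) → i = some j := by
    intro v
    by_cases h : ∃ w, PP a I J w ∧ ∃ j, 0 < w j ∧ a v j = 1 ∧ ∀ B ∈ Tw a w, B ≠ v → a B j = 0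
    · obtain ⟨w, hw, j, hj, hv, hA⟩ := h
      obtain ⟨k1, k2, -⟩ := hapex w hw j v hj hA
      exact ⟨some j, fun _ => ⟨k2, k1, hv, fun u hu huv => hA u (hw.2.2 u hu) huv⟩,
        fun w' hw' j' _ hv' hA' => congrArg some (huniq w w' hw hw' j j' v hj hv hA hv' hA')⟩
    · by_cases hv : v ∈ TT (Aof a) I J
      · obtain ⟨k1, i, k2, k3, k4⟩ := mem_TT.1 hv
        exact ⟨i, fun _ => ⟨k1, k2, k3, k4⟩, fun w hw j k5 k6 k7 =>
          absurd ⟨w, hw, j, k5, k6, k7⟩ h⟩
      · exact ⟨none, fun h' => absurd h' hv, fun w hw j k5 k6 k7 =>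
          absurd ⟨w, hw, j, k5, k6, k7⟩ h⟩
  choose ix hix1 hix2 using hch
  by_contra hprod
  obtain ⟨S, -, K, hK, h3, h4⟩ := expand (a := a) l I J ix _ hix1 1 (by rwa [one_mul])
  rw [one_mul] at h4
  obtain ⟨w, hw1, hw2, hw3⟩ := weight hI hrel h4
  obtain ⟨w', k1, k2, k3, k4⟩ := exists_rigid _ w hw1 le_rfl (fun d d1 d2 => by
    have := sum_dir hβ hJ (d := d) (r := 0)
      (fun i hi => d1 i (hw2 i (fun h => hi (mem_sdiff.1 h).1)))
      (fun v hv => d2 v (hw3 v (fun h => hv (mem_sdiff.1 h).1)))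
    simp only [Rat.cast_zero, zero_mul, neg_zero] at this
    exact_mod_cast this)
  have hP : PP a I J w' := ⟨k1, fun i hi => k3 i (hw2 i (fun h => hi (mem_sdiff.1 h).1)),
    fun v hv => k4 (hw3 v (fun h => hv (mem_sdiff.1 h).1))⟩
  obtain ⟨i, hi, A, -, hA1, hA2⟩ : ∃ i, B1 a w' i := by
    by_contra h
    push Not at h
    exact hroot w' hP (h1 κ a c b ha hc hnd hb hb1 w' k1 k2 h (hlt2 w' hP))
  obtain ⟨k5, k6, -⟩ := hapex w' hP i A hi hA2
  have hx := hix2 A w' hP i hi hA1 hA2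
  rcases h3 A (mem_TT.2 ⟨k6, some i, k5, hA1, fun u hu huA => hA2 u (hP.2.2 u hu) huA⟩) with
    h5 | ⟨u, hu, h5⟩
  · rw [hx] at h5
    exact hi.ne' (k3 i (hw2 i (fun h => (mem_sdiff.1 h).2 h5)))
  · rw [hx] at h5
    exact h5 (hA2 u (k4 (hw3 u (fun h => (mem_sdiff.1 h).2 hu))) (fun h => k6 (h ▸ hK hu)))

end Pool.Agent.MP_5d9b3c_ag.H48
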