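import Pool.Agent.MP_5d9b3c_ag.H48.Basic

/-!
The choice of the shift, and two criteria for the class of the origin to survive.
-/

namespace Pool.Agent.MP_5d9b3c_ag.H48

open Finset Pool.Agent.MP_5d9b3c_ag.H22

namespace TExAux

variable {κ : Type} [DecidableEq κ] {a : κ → Fin 3 →₀ ℕ} {c : κ → ℂ} {T : Finset κ} {w : V3}

omit [DecidableEq κ] in
lemma e_dot (i : Fin 3) (j : κ) : (Pi.single i 1 : V3) ⬝ᵥ Aq a j = a j i := by
  simp [Aq]

lemma e_ne (i : Fin 3) : (Pi.single i 1 : V3) ≠ 0 := by simp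

omit [DecidableEq κ] in
/-- Two points of the plane with two equal coordinates are equal. -/
lemma two_eq (ha : Function.Injective a) (hw : ∀ i, 0 < w i) (hp : OnPl a T w) {A B : κ}
    (hA : A ∈ T) (hB : B ∈ T) {i k : Fin 3} (hik : i ≠ k) (h1 : a A i = a B i)
    (h2 : a A k = a B k) : A = B := by
  obtain ⟨m, him, hkm⟩ := exists_third hik
  have e1 := hp A hA
  have e2 := hp B hB
  rw [dot_three hik him hkm] at e1 e2
  simp only [Aq, h1, h2] at e1 e2
  have h3 : (a A m : ℚ) = a B m := mul_left_cancel₀ (hw m).ne' (by linarith)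
  refine ha (Finsupp.ext fun n => ?_)
  rcases three hik him hkm n with rfl | rfl | rfl
  exacts [h1, h2, by exact_mod_cast h3]

omit [DecidableEq κ] in
/-- A vector that kills two points of a coordinate plane is a multiple of the unit vector. -/
lemma kill (ha : Function.Injective a) (hp : OnPl a T w) {A B : κ} (hA : A ∈ T) (hB : B ∈ T)
    (hne : A ≠ B) {i : Fin 3} (h1 : a A i = 0) (h2 : a B i = 0) {d : V3}
    (h3 : d ⬝ᵥ Aq a A = 0) (h4 : d ⬝ᵥ Aq a B = 0) {k : Fin 3} (hk : k ≠ i) : d k = 0 := by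
  obtain ⟨r, rfl⟩ := perp (hp A hA) (hp B hB) (fun h => hne (Aq_inj ha h))
    (g := Pi.single i 1) (by rw [e_dot, h1]; simp) (by rw [e_dot, h2]; simp) h3 h4 (e_ne i)
  simp [hk]

lemma kill' (ha : Function.Injective a) (hp : OnPl a T w) {A : κ} {i : Fin 3}
    (hi : CoordWall a T i) (hA : a A i ≠ 0) {d : V3}
    (hd : ∀ j ∈ T.erase A, d ⬝ᵥ Aq a j = 0) {k : Fin 3} (hk : k ≠ i) : d k = 0 := by
  obtain ⟨P, hP, Q, hQ, hne, h1, h2⟩ := hi
  exact kill ha hp hP hQ hne h1 h2 (hd P (mem_erase.2 ⟨fun h => hA (h ▸ h1), hP⟩))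
    (hd Q (mem_erase.2 ⟨fun h => hA (h ▸ h2), hQ⟩)) hk

omit [DecidableEq κ] in
lemma big_or_two (hs : Span a T) {i : Fin 3} (hn : ¬ Apex a T i) : (∃ A ∈ T, 2 ≤ a A i) ∨
    ∃ A ∈ T, ∃ B ∈ T, A ≠ B ∧ a A i = 1 ∧ a B i = 1 := by
  by_contra h
  push Not at h
  obtain ⟨A, hA, h1⟩ : ∃ A ∈ T, a A i ≠ 0 := by
    by_contra h0
    push Not at h0
    exact e_ne i (hs _ fun j hj => by rw [e_dot, h0 j hj]; simp)
  have h2 := h.1 A hA
  refine hn ⟨A, hA, by omega, fun B hB hne => ?_⟩
  have := h.1 B hB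
  have := h.2 A hA B hB hne.symm (by omega)
  omega

lemma good_pt (ha : Function.Injective a) {A : κ} (hA : A ∈ T) (h : Span a (T.erase A)) :
    GoodT a T (Ahq a A) :=
  ⟨InCone.single hA, le_rfl, fun _ _ e => Ahq_inj ha e ▸ h⟩

lemma comb {A B : κ} (hA : A ∈ T) (hB : B ∈ T) {r s : ℚ} (hr : 0 ≤ r) (hs : 0 ≤ s) :
    InCone a T (r • Ahq a A + s • Ahq a B) :=
  ((InCone.single hA).smul hr).add ((InCone.single hB).smul hs)

omit [DecidableEq κ] in
lemma coeff_Fop (n : Vq) (e : RR O) (u : Pt) : (Fop a c T n * e).coeff u =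
    ∑ j ∈ T, c j * ((n ⬝ᵥ Ahq a j : ℚ) : ℂ) * e.coeff (u - Ah a j) := by
  rw [Fop, sum_mul, AddMonoidAlgebra.coeff_sum, Finsupp.finsetSum_apply]
  refine sum_congr rfl fun j _ => ?_
  rw [smul_mul_assoc, AddMonoidAlgebra.coeff_smul_apply, U,
    AddMonoidAlgebra.coeff_single_mul_eq_mul_coeff (u - Ah a j)
      fun m _ => by rw [eq_sub_iff_add_eq'], one_mul, smul_eq_mul]

omit [DecidableEq κ] in
lemma coeff_rel {e : Fin 3 → RR O} (h : ∑ i, F3 a c T i * e i = 1) (u : Pt) :
    ∑ j ∈ T, c j * ∑ k, (a j k : ℂ) * (e k).coeff (u - Ah a j) = if u = 0 then 1 else 0 := by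
  have := congrArg (fun x : RR O => x.coeff u) h
  simp only [AddMonoidAlgebra.coeff_sum, Finsupp.finsetSum_apply, F3, coeff_Fop, ei_dot, Ahq_some,
    Rat.cast_natCast, AddMonoidAlgebra.one_def, AddMonoidAlgebra.coeff_single_apply,
    eq_comm (a := (0 : Pt))] at this
  rw [← this, sum_comm]
  exact sum_congr rfl fun j _ => by simp only [mul_sum, mul_assoc]

omit [DecidableEq κ] in
lemma exists_term {e : Fin 3 → RR O} (h : ∑ i, F3 a c T i * e i = 1) :
    ∃ j ∈ T, ∃ k, a j k ≠ 0 ∧ (e k).coeff (-Ah a j) ≠ 0 := by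
  have h1 := coeff_rel h 0
  rw [if_pos rfl] at h1
  obtain ⟨j, hj, h2⟩ := exists_ne_zero_of_sum_ne_zero (h1.trans_ne one_ne_zero)
  obtain ⟨k, -, h3⟩ := exists_ne_zero_of_sum_ne_zero (right_ne_zero_of_mul h2)
  rw [zero_sub] at h3
  exact ⟨j, hj, k, by exact_mod_cast left_ne_zero_of_mul h3, right_ne_zero_of_mul h3⟩

lemma crit1 (ha : Function.Injective a) (hc : ∀ j, c j ≠ 0) (q t : Vq) (ht : GoodT a T t) :
    NotIn (F3 a c T) (CY a q T (q - t)) := by
  rintro ⟨e, he, h⟩
  have hs : ∀ k u, (e k).coeff u ≠ 0 → ∀ o, (u o : ℚ) = -t o := by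
    intro k u hu o
    obtain ⟨h1, h2⟩ := he k u hu
    have h3 := congrFun (InCone.eq_zero h1 (by
      have := ht.2.1
      simp only [Pi.sub_apply, hat, h2]
      push_cast
      linarith)) o
    simp only [Pi.sub_apply, hat, Pi.zero_apply] at h3
    linarith
  obtain ⟨A, hA, k, -, hk⟩ := exists_term h
  have h1 : t = Ahq a A := funext fun o => by
    have := hs k _ hk o
    rw [Pi.neg_apply, Int.cast_neg, Ah_cast] at this
    linarith
  have h2 : ∀ k u, (e k).coeff u ≠ 0 → u = -Ah a A := fun k u hu => funext fun o => by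
    have := hs k u hu o
    rw [h1, ← Ah_cast] at this
    exact_mod_cast this
  have h3 : ∀ j ∈ T.erase A, ∑ k, (a j k : ℂ) * (e k).coeff (-Ah a A) = 0 := by
    intro j hj
    obtain ⟨j1, j2⟩ := mem_erase.1 hj
    have h4 := coeff_rel h (Ah a j - Ah a A)
    rw [if_neg (sub_ne_zero.2 fun x => j1 (Ah_inj ha x)), sum_eq_single j (fun i _ hi => ?_)
      fun x => absurd j2 x, sub_sub_cancel_left] at h4
    · exact (mul_eq_zero.1 h4).resolve_left (hc j)
    · refine mul_eq_zero_of_right _ (sum_eq_zero fun k _ => mul_eq_zero_of_right _ ?_)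
      by_contra x
      have := h2 k _ x
      exact hi (Ah_inj ha (by linear_combination -this))
  refine hk ((Module.forall_dual_apply_eq_zero_iff ℚ _).1 fun φ => ?_)
  refine congrFun (ht.2.2 A hA h1 (fun k => φ ((e k).coeff (-Ah a A))) fun j hj => ?_) k
  have := congrArg φ (h3 j hj)
  rw [map_sum, map_zero] at this
  rw [← this, dotProduct]
  refine sum_congr rfl fun k _ => ?_
  rw [← nsmul_eq_mul, map_nsmul, nsmul_eq_mul, mul_comm]
  rfl

end TExAux

open TExAux

theorem tExist (h : WallStmt) : TExistStmt := by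
  intro κ _ _ a T w ha hw hp hs hn
  have cst : ∀ (A : κ) (i : Fin 3), (0 : ℚ) ≤ a A i := fun _ _ => Nat.cast_nonneg _
  by_cases h1 : ∃ i k, i ≠ k ∧ CoordWall a T i ∧ CoordWall a T k
  swap
  · left
    by_cases h2 : ∃ i, CoordWall a T i
    swap
    · exact ⟨0, ⟨InCone.zero, by simp, fun j _ e => absurd (congrFun e none) (by simp)⟩,
        fun i hi => absurd ⟨i, hi⟩ h2⟩
    obtain ⟨i, hi⟩ := h2
    have h3 : ∀ k, CoordWall a T k → k = i := fun k hk => by
      by_contra x
      exact h1 ⟨k, i, x, hk, hi⟩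
    rcases big_or_two hs (hn i) with ⟨A, hA, h4⟩ | ⟨A, hA, B, hB, hne, h4, h5⟩
    · have h5 : (2 : ℚ) ≤ a A i := by exact_mod_cast h4
      have h6 : ((a A i : ℚ))⁻¹ < 1 := inv_lt_one_of_one_lt₀ (by linarith)
      refine ⟨(a A i : ℚ)⁻¹ • Ahq a A, ⟨(InCone.single hA).smul (by positivity),
        by simpa using h6.le, fun j _ e => absurd (congrFun e none) (by simpa using h6.ne)⟩,
        fun k hk => ?_⟩
      rw [h3 k hk, Pi.smul_apply, Ahq_some, smul_eq_mul, inv_mul_cancel₀ (by linarith)]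
    · refine ⟨Ahq a A, good_pt ha hA fun d hd => ?_, fun k hk => by simp [h3 k hk, h4]⟩
      have h6 : ∀ k, k ≠ i → d k = 0 := fun k hk => kill' ha hp hi (by omega) hd hk
      obtain ⟨k, m, ik, im, km⟩ := exists_others i
      have h7 := hd B (mem_erase.2 ⟨hne.symm, hB⟩)
      rw [dot_three ik im km, h6 k ik.symm, h6 m im.symm] at h7
      funext n
      by_cases x : n = i
      · simpa [x, Aq, h5] using h7
      · exact h6 n x
  obtain ⟨i, k, ik, hi, hk⟩ := h1
  by_cases h2 : ∃ A ∈ T, ∀ m, CoordWall a T m → 1 ≤ a A m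
  · obtain ⟨A, hA, h2⟩ := h2
    refine Or.inl ⟨Ahq a A, good_pt ha hA fun d hd => funext fun n => ?_,
      fun m hm => by simpa using h2 m hm⟩
    by_cases x : n = i
    · exact kill' ha hp hk (by have := h2 k hk; omega) hd (x ▸ ik)
    · exact kill' ha hp hi (by have := h2 i hi; omega) hd x
  suffices H : (∃ t : Vq, InCone a T t ∧ t none ≤ 1 ∧ ∀ i, CoordWall a T i → 1 ≤ t (some i)) ∨
      ((∀ i, CoordWall a T i) ∧ InCone a T (qq (∑ k, w k) one3)) by
    refine H.imp_left fun ⟨t, t1, t2, t3⟩ => ⟨t, ⟨t1, t2, fun j hj e => absurd ⟨j, hj, fun m hm => ?_⟩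
      h2⟩, t3⟩
    simpa [e] using t3 m hm
  by_cases h3 : ∀ m, CoordWall a T m
  swap
  · left
    obtain ⟨m, im, km⟩ := exists_third ik
    have h4 : ∀ n, CoordWall a T n → n = i ∨ n = k := by
      intro n hn
      rcases three ik im km n with x | x | x
      · exact Or.inl x
      · exact Or.inr x
      · refine absurd (fun n' => ?_) h3
        rcases three ik im km n' with rfl | rfl | rfl
        exacts [hi, hk, x ▸ hn]
    have h5 : ∀ A ∈ T, a A i = 0 ∨ a A k = 0 := fun A hA => by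
      by_contra x
      refine h2 ⟨A, hA, fun n hn => ?_⟩
      rcases h4 n hn with rfl | rfl <;> omega
    obtain ⟨A, hA, a2⟩ : ∃ A ∈ T, 2 ≤ a A i := (big_or_two hs (hn i)).resolve_right
      fun ⟨A, hA, B, hB, hne, x, y⟩ => hne (two_eq ha hw hp hA hB ik (by omega)
        (by have := h5 A hA; have := h5 B hB; omega))
    obtain ⟨B, hB, b2⟩ : ∃ A ∈ T, 2 ≤ a A k := (big_or_two hs (hn k)).resolve_right
      fun ⟨A, hA, B, hB, hne, x, y⟩ => hne (two_eq ha hw hp hA hB ik
        (by have := h5 A hA; have := h5 B hB; omega) (by omega))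
    have a3 : (2 : ℚ) ≤ a A i := by exact_mod_cast a2
    have b3 : (2 : ℚ) ≤ a B k := by exact_mod_cast b2
    refine ⟨_, comb hA hB (r := 1 / 2) (s := 1 / 2) (by norm_num) (by norm_num), by norm_num,
      fun n hn => ?_⟩
    simp only [Pi.add_apply, Pi.smul_apply, Ahq_some, smul_eq_mul]
    rcases h4 n hn with rfl | rfl
    · linarith [cst B n]
    · linarith [cst A n]
  by_cases h4 : InCone a T (qq (∑ k, w k) one3)
  · exact Or.inr ⟨h3, h4⟩
  left
  clear ik hi hk i k
  have h5 : ∀ A ∈ T, ∃ m, a A m = 0 := fun A hA => by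
    by_contra x
    push Not at x
    exact h2 ⟨A, hA, fun m _ => Nat.one_le_iff_ne_zero.2 (x m)⟩
  obtain ⟨g, hg, g0⟩ : ∃ g, IsWall a T g ∧ ∑ k, g k < 0 := by
    by_contra x
    push Not at x
    exact h4 ((h κ a T w ha hp hs).2 _ (by rw [hw_dot_qq, dot_one3, sub_self])
      fun g hg => by rw [lin_dot_qq, dot_one3]; exact x g hg)
  obtain ⟨i, -, gi⟩ := exists_lt_of_sum_lt (g := fun _ => (0 : ℚ)) (by simpa using g0)
  have pos : ∀ k m, i ≠ k → i ≠ m → k ≠ m → 0 < g m := by
    intro k m ik im km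
    obtain ⟨P, hP, Q, hQ, hne, p, q⟩ := h3 k
    have key : ∀ P ∈ T, a P k = 0 → a P i ≠ 0 → 0 < g m := fun P hP p x => by
      have e := hg.1 P hP
      rw [dot_three ik im km] at e
      simp only [Aq, p, Nat.cast_zero, mul_zero, add_zero] at e
      have y : (0 : ℚ) < a P i := by positivity
      by_contra z
      nlinarith [mul_nonneg (cst P m) (neg_nonneg.2 (not_lt.1 z)), mul_pos y (neg_pos.2 gi)]
    by_cases x : a P i = 0
    · exact key Q hQ q fun y => hne (two_eq ha hw hp hP hQ ik (by omega) (by omega))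
    · exact key P hP p x
  have typ : ∀ k m, i ≠ k → i ≠ m → k ≠ m → ∀ P ∈ T, g ⬝ᵥ Aq a P = 0 →
      1 ≤ a P i ∧ (a P m = 0 → 2 ≤ a P k) := by
    intro k m ik im km P hP e
    have gk := pos m k im ik km.symm
    have gm := pos k m ik im km
    have e2 := hp P hP
    rw [dot_three ik im km] at e e2
    rw [sum_three ik im km] at g0
    simp only [Aq] at e e2
    have a1 : 1 ≤ a P i := by
      by_contra x
      have x0 : (a P i : ℚ) = 0 := by exact_mod_cast (by omega : a P i = 0)
      have y1 := mul_nonneg gk.le (cst P k)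
      have y2 := mul_nonneg gm.le (cst P m)
      rw [x0] at e e2
      rw [(mul_eq_zero.1 (by linarith : g k * a P k = 0)).resolve_left gk.ne',
        (mul_eq_zero.1 (by linarith : g m * a P m = 0)).resolve_left gm.ne'] at e2
      simp at e2
    refine ⟨a1, fun x => ?_⟩
    by_contra y
    have y1 : (a P k : ℚ) ≤ 1 := by exact_mod_cast (by omega : a P k ≤ 1)
    have y2 : (1 : ℚ) ≤ a P i := by exact_mod_cast a1
    rw [x] at e
    push_cast at e
    nlinarith
  obtain ⟨P, hP, Q, hQ, hne, p, q⟩ := hg.2.2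
  have fin : ∀ k m, i ≠ k → i ≠ m → k ≠ m → a P m = 0 →
      ∃ t : Vq, InCone a T t ∧ t none ≤ 1 ∧ ∀ i, CoordWall a T i → 1 ≤ t (some i) := by
    intro k m ik im km x
    obtain ⟨p1, p2⟩ := typ k m ik im km P hP p
    obtain ⟨q1, q2⟩ := typ m k im ik km.symm Q hQ q
    have y : a Q k = 0 := by
      obtain ⟨n, hn⟩ := h5 Q hQ
      rcases three ik im km n with rfl | rfl | rfl
      · omega
      · exact hn
      · exact absurd (kill ha hp hP hQ hne x hn p q im) gi.ne
    have p3 : (1 : ℚ) ≤ a P i := by exact_mod_cast p1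
    have q3 : (1 : ℚ) ≤ a Q i := by exact_mod_cast q1
    have p4 : (2 : ℚ) ≤ a P k := by exact_mod_cast p2 x
    have q4 : (2 : ℚ) ≤ a Q m := by exact_mod_cast q2 y
    refine ⟨_, comb hP hQ (r := 1 / 2) (s := 1 / 2) (by norm_num) (by norm_num), by norm_num,
      fun n _ => ?_⟩
    simp only [Pi.add_apply, Pi.smul_apply, Ahq_some, smul_eq_mul]
    rcases three ik im km n with rfl | rfl | rfl
    · linarith
    · linarith [cst Q n]
    · linarith [cst P n]
  obtain ⟨k, m, ik, im, km⟩ := exists_others i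
  obtain ⟨n, hn⟩ := h5 P hP
  rcases three ik im km n with rfl | rfl | rfl
  · have := (typ k m ik im km P hP p).1
    omega
  · exact fin m n im ik km.symm hn
  · exact fin k n ik im km hn

theorem crit (h1 : EdgeStmt) (h2 : Kosz2Stmt) : CritStmt := by
  intro κ _ _ a c T ha hc
  refine ⟨crit1 ha hc, fun w l hp hf hcw hx hl => ?_⟩
  rintro ⟨e, he, h⟩
  have lb : ∀ k u, (e k).coeff u ≠ 0 → ∀ i, -1 ≤ u (some i) := fun k u hu i => by
    have := InCone.nonneg (he k u hu).1 (some i)
    simp only [sub_zero, hat_some, qq_some, one3] at this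
    exact_mod_cast (by linarith : (-1 : ℚ) ≤ u (some i))
  have key : ∀ i k, i ≠ k → ∀ u : Pt, u (some i) = -1 → (e k).coeff u = 0 := by
    intro i k ik
    set E := Zr a T (ei (some i)) with hE
    have hn : ∀ j ∈ T, 0 ≤ ei (some i) ⬝ᵥ Ahq a j := fun j _ => by simp
    have mE : ∀ j, j ∈ E ↔ j ∈ T ∧ a j i = 0 := fun j => by simp [hE, mem_Zr]
    obtain ⟨v, v', s, s', hv⟩ := h1 κ a E w (Pi.single i 1) ha (fun j hj => hp j ((mE j).1 hj).1)
      (e_ne i) (fun j hj => by rw [e_dot, ((mE j).1 hj).2]; simp) (by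
        obtain ⟨P, hP, Q, hQ, hne, p, q⟩ := hcw i
        exact ⟨P, (mE P).2 ⟨hP, p⟩, Q, (mE Q).2 ⟨hQ, q⟩, hne⟩)
    set x : κ → RR O := fun z => ∑ k, (a z k : ℂ) •
      AddMonoidAlgebra.ofCoeff ((e k).coeff.filter fun u => u (some i) = -1) with hxd
    have cx : ∀ z u, (x z).coeff u =
        if u (some i) = -1 then ∑ k, (a z k : ℂ) * (e k).coeff u else 0 := fun z u => by
      simp only [hxd, AddMonoidAlgebra.coeff_sum, Finsupp.finsetSum_apply,
        AddMonoidAlgebra.coeff_smul_apply, Finsupp.filter_apply, smul_eq_mul]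
      split_ifs <;> simp
    have sx : ∀ z u, (x z).coeff u ≠ 0 → u ∈ CY a (qq l one3) E 0 ∧ u none = -1 := by
      intro z u hu
      rw [cx] at hu
      split_ifs at hu with y
      · obtain ⟨k, -, hk⟩ := exists_ne_zero_of_sum_ne_zero hu
        obtain ⟨y1, y2⟩ := he k u (right_ne_zero_of_mul hk)
        exact ⟨InCone.face y1 hn (by simp [hat_some, y, one3]), y2⟩
      · exact absurd rfl hu
    obtain ⟨g, g1, -, g3⟩ := h2 κ a c E v v' s s' hv (hf.face hn) (qq l one3) 0 ![x v, x v']
      (fun r u hu => by fin_cases r <;> exact (sx _ u hu).1) (by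
        ext u
        simp only [Fin.sum_univ_two, Matrix.cons_val_zero, Matrix.cons_val_one,
          AddMonoidAlgebra.coeff_add, Finsupp.add_apply, coeff_Fop, cx, ← sum_add_distrib,
          AddMonoidAlgebra.coeff_zero, Finsupp.zero_apply]
        by_cases y : u (some i) = -1
        · have h3 := coeff_rel h u
          rw [if_neg (by rintro rfl; simp at y), ← sum_subset (filter_subset _ _ : E ⊆ T)
            fun j hj hj' => mul_eq_zero_of_right _ (sum_eq_zero fun k _ =>
              mul_eq_zero_of_right _ (by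
                by_contra z
                have z1 := lb k _ z i
                have z2 : a j i ≠ 0 := fun z3 => hj' ((mE j).2 ⟨hj, z3⟩)
                simp only [Pi.sub_apply, Ah_some] at z1
                omega))] at h3
          rw [← h3]
          refine sum_congr rfl fun j hj => ?_
          have y2 : (u - Ah a j) (some i) = -1 := by simp [y, ((mE j).1 hj).2]
          rw [if_pos y2, if_pos y2, mul_assoc, mul_assoc, ← mul_add, mul_sum, mul_sum,
            ← sum_add_distrib]
          refine congrArg _ (sum_congr rfl fun k _ => ?_)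
          have z := congrArg (fun r : ℚ => (r : ℂ)) (congrFun (hv.rep j hj) (some k))
          simp only [Pi.add_apply, Pi.smul_apply, Ahq_some, smul_eq_mul, Rat.cast_add, Rat.cast_mul,
            Rat.cast_natCast] at z
          rw [z]
          ring
        · refine sum_eq_zero fun j hj => ?_
          have y2 : (u - Ah a j) (some i) ≠ -1 := by simpa [((mE j).1 hj).2] using y
          rw [if_neg y2, if_neg y2]
          simp)
    have x0 : ∀ r u, (![x v, x v'] r).coeff u = 0 := by
      intro r u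
      by_contra y
      have y1 : u none = -1 := by fin_cases r <;> exact (sx _ u y).2
      rw [g3 r, AddMonoidAlgebra.coeff_sum, Finsupp.finsetSum_apply] at y
      refine y (sum_eq_zero fun n _ => ?_)
      rw [coeff_Fop]
      refine sum_eq_zero fun j _ => mul_eq_zero_of_right _ ?_
      by_contra z
      have := InCone.nonneg (g1 r n _ z) none
      simp only [sub_zero, hat_none, qq_none, Pi.sub_apply, y1, Ah_none, Pi.zero_apply] at this
      push_cast at this
      linarith
    intro u hu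
    obtain ⟨m, im, km⟩ := exists_third ik
    have y1 := x0 0 u
    have y2 := x0 1 u
    obtain ⟨v1, v2⟩ := (mE v).1 hv.mem
    obtain ⟨v3, v4⟩ := (mE v').1 hv.mem'
    simp only [Matrix.cons_val_zero, Matrix.cons_val_one, cx, if_pos hu, sum_three ik im km, v2, v4,
      Nat.cast_zero, zero_mul, zero_add] at y1 y2
    have e1 := hp v v1
    have e2 := hp v' v3
    rw [dot_three ik im km] at e1 e2
    simp only [Aq, v2, v4, Nat.cast_zero, mul_zero, zero_add] at e1 e2
    have D : (a v k : ℚ) * a v' m - a v m * a v' k ≠ 0 := fun D => hv.ne (ha (Finsupp.ext fun n => by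
      rcases three ik im km n with rfl | rfl | rfl
      · rw [v2, v4]
      · exact_mod_cast (by linear_combination w m * D - a v n * e2 + a v' n * e1 :
          (a v n : ℚ) = a v' n)
      · exact_mod_cast (by linear_combination -w k * D - a v n * e2 + a v' n * e1 :
          (a v n : ℚ) = a v' n)))
    have D' : (a v k : ℂ) * a v' m - a v m * a v' k ≠ 0 := by exact_mod_cast D
    exact (mul_eq_zero.1 (by linear_combination a v' m * y1 - a v m * y2)).resolve_left D'
  obtain ⟨j, hj, k, a1, a2⟩ := exists_term h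
  refine hx j hj k (Finsupp.ext fun n => ?_)
  have a3 := lb k _ a2 n
  simp only [Pi.neg_apply, Ah_some] at a3
  by_cases y : n = k
  · subst y
    rw [Finsupp.single_eq_same]
    omega
  · have a4 : (-Ah a j) (some n) ≠ -1 := fun z => a2 (key n k y _ z)
    simp only [Pi.neg_apply, Ah_some] at a4
    rw [Finsupp.single_eq_of_ne y]
    omega

end Pool.Agent.MP_5d9b3c_ag.H48
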