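import Pool.Agent.MP_5d9b3c_ag.H48.Basic

/-!
Translating a variable: an unbounded facet of height one with several monomials at height one.
-/

namespace Pool.Agent.MP_5d9b3c_ag.H48

open Finset Pool.Agent.MP_5d9b3c_ag.H22

namespace TransAux

open MvPolynomial

/-- The translation of the variable `k` by `ξ`. -/
noncomputable def tr (k : Fin 3) (ξ : ℂ) :
    MvPolynomial (Fin 3) ℂ →ₐ[ℂ] MvPolynomial (Fin 3) ℂ :=
  aeval (fun m => X m + C ((Pi.single k ξ : Fin 3 → ℂ) m))

lemma tr_X (k : Fin 3) (ξ : ℂ) (m : Fin 3) :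
    tr k ξ (X m) = X m + C ((Pi.single k ξ : Fin 3 → ℂ) m) := aeval_X _ _

lemma pderiv_tr (k : Fin 3) (ξ : ℂ) (m : Fin 3) (p : MvPolynomial (Fin 3) ℂ) :
    pderiv m (tr k ξ p) = tr k ξ (pderiv m p) := by
  induction p using MvPolynomial.induction_on with
  | C r => simp [tr]
  | add p q h1 h2 => simp only [map_add, h1, h2]
  | mul_X p n h =>
    rw [map_mul, tr_X, Derivation.leibniz, Derivation.leibniz, h, map_add, pderiv_C, add_zero,
      smul_eq_mul, smul_eq_mul, smul_eq_mul, smul_eq_mul, map_add, map_mul, map_mul, tr_X]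
    congr 2
    by_cases e : n = m
    · subst e
      simp
    · simp [pderiv_X_of_ne e]

lemma ww_tr (k : Fin 3) (ξ : ℂ) (P : Module.End ℂ (MvPolynomial (Fin 3) ℂ)) (hP : P ∈ WW (Fin 3)) :
    ∃ P' ∈ WW (Fin 3), ∀ p, P' (tr k ξ p) = tr k ξ (P p) := by
  induction hP using Algebra.adjoin_induction with
  | mem P hP =>
    rcases hP with ⟨m, rfl⟩ | ⟨m, rfl⟩
    · refine ⟨LinearMap.mulLeft ℂ (X m) + algebraMap ℂ _ ((Pi.single k ξ : Fin 3 → ℂ) m),
        Subalgebra.add_mem _ (Algebra.subset_adjoin (Or.inl ⟨m, rfl⟩))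
          (Subalgebra.algebraMap_mem _ _), fun p => ?_⟩
      simp only [LinearMap.add_apply, LinearMap.mulLeft_apply, Module.algebraMap_end_apply,
        map_mul, tr_X, add_mul, smul_eq_C_mul]
    · exact ⟨_, Algebra.subset_adjoin (Or.inr ⟨m, rfl⟩), fun p => pderiv_tr k ξ m p⟩
  | algebraMap r =>
    exact ⟨_, Subalgebra.algebraMap_mem _ r, fun p => by
      simp only [Module.algebraMap_end_apply, map_smul]⟩
  | add P Q _ _ h1 h2 =>
    obtain ⟨P', h3, h4⟩ := h1
    obtain ⟨Q', h5, h6⟩ := h2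
    exact ⟨P' + Q', Subalgebra.add_mem _ h3 h5, fun p => by
      simp only [LinearMap.add_apply, map_add, h4, h6]⟩
  | mul P Q _ _ h1 h2 =>
    obtain ⟨P', h3, h4⟩ := h1
    obtain ⟨Q', h5, h6⟩ := h2
    exact ⟨P' * Q', Subalgebra.mul_mem _ h3 h5, fun p => by
      simp only [Module.End.mul_apply, h4, h6]⟩

variable {κ : Type} [Fintype κ] {a : κ → Fin 3 →₀ ℕ} {c : κ → ℂ}

lemma beq_tr {b : Polynomial ℂ} (h : BEq a c b) (k : Fin 3) (ξ : ℂ)
    (F : MvPolynomial (Fin 3) ℂ) (hF : F = tr k ξ (∑ j, monomial (a j) (c j))) :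
    BEq (fun n : F.support => n.1) (fun n : F.support => coeff n.1 F) b := by
  obtain ⟨d, P, hP, he⟩ := h
  choose P' hP' hc using fun t => ww_tr k ξ (P t) (hP t)
  refine ⟨d, P', hP', fun m => ?_⟩
  have e : ∑ n : F.support, monomial n.1 (coeff n.1 F) = F := by
    rw [Finset.sum_coe_sort F.support (fun n => monomial n (coeff n F))]
    exact (as_sum F).symm
  rw [e, hF, ← map_pow, ← map_pow, ← map_smul, ← he m, map_sum]
  exact Finset.sum_congr rfl fun t _ => by rw [hc, map_smul]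

lemma tr_monomial (k : Fin 3) (ξ : ℂ) (s : Fin 3 →₀ ℕ) (r : ℂ) :
    tr k ξ (monomial s r) = ∑ t ∈ range (s k + 1),
      monomial (s.erase k + Finsupp.single k t) (r * ξ ^ (s k - t) * (s k).choose t) := by
  have h1 : (monomial s r : MvPolynomial (Fin 3) ℂ) = monomial (s.erase k) r * X k ^ s k := by
    rw [X_pow_eq_monomial, monomial_mul, mul_one, Finsupp.erase_add_single]
  have h2 : tr k ξ (monomial (s.erase k) r) = monomial (s.erase k) r := by
    rw [tr, aeval_monomial, monomial_eq]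
    congr 1
    refine Finsupp.prod_congr fun m hm => ?_
    have : m ≠ k := by
      rintro rfl
      simp at hm
    simp [this]
  rw [h1, map_mul, h2, map_pow, tr_X, Pi.single_eq_same, add_pow, Finset.mul_sum]
  refine Finset.sum_congr rfl fun t _ => ?_
  rw [X_pow_eq_monomial, ← map_pow, ← map_natCast (C : ℂ →+* MvPolynomial (Fin 3) ℂ), mul_assoc,
    ← map_mul, C_apply, monomial_mul, monomial_mul, add_zero, one_mul, mul_assoc]

lemma coeff_tr {i j k : Fin 3} (h1 : i ≠ j) (h2 : i ≠ k) (h3 : j ≠ k) (ξ : ℂ)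
    (s n : Fin 3 →₀ ℕ) (r : ℂ) :
    coeff n (tr k ξ (monomial s r)) =
      if s i = n i ∧ s j = n j then r * ξ ^ (s k - n k) * (s k).choose (n k) else 0 := by
  rw [tr_monomial, coeff_sum]
  simp only [coeff_monomial]
  have key : ∀ t, s.erase k + Finsupp.single k t = n ↔ (s i = n i ∧ s j = n j) ∧ t = n k := by
    intro t
    constructor
    · rintro rfl
      simp [h2, h3]
    · rintro ⟨⟨e1, e2⟩, rfl⟩
      ext m
      rcases three h1 h2 h3 m with rfl | rfl | rfl <;> simp [*]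
  simp only [key]
  split_ifs with h
  · simp only [h, true_and, Finset.sum_ite_eq', Finset.mem_range]
    split_ifs with h'
    · rfl
    · rw [Nat.choose_eq_zero_of_lt (by omega)]
      simp
  · simp [h]

omit [Fintype κ] in
lemma exists_root (S : Finset κ) (e : κ → ℕ) (he : Set.InjOn e S) (hc : ∀ j, c j ≠ 0)
    {A A' : κ} (hA : A ∈ S) (hA' : A' ∈ S) (hne : A ≠ A') :
    ∃ ξ : ℂ, ξ ≠ 0 ∧ ∑ j ∈ S, c j * ξ ^ e j = 0 := by
  classical
  set g : Polynomial ℂ := ∑ j ∈ S, Polynomial.monomial (e j) (c j) with hg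
  have hco : ∀ B ∈ S, g.coeff (e B) = c B := by
    intro B hB
    rw [hg, Polynomial.finsetSum_coeff, Finset.sum_eq_single B]
    · simp
    · intro j hj hjB
      rw [Polynomial.coeff_monomial, if_neg (fun h => hjB (he hj hB h))]
    · exact fun h => absurd hB h
  have hg0 : g ≠ 0 := fun h => hc A (by rw [← hco A hA, h, Polynomial.coeff_zero])
  obtain ⟨g1, h1, h2⟩ := Polynomial.exists_eq_pow_rootMultiplicity_mul_and_not_dvd g hg0 0
  rw [map_zero, sub_zero] at h1 h2
  by_cases hd : g1.degree = 0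
  · exfalso
    rw [Polynomial.eq_C_of_degree_eq_zero hd, Polynomial.X_pow_mul_C,
      Polynomial.C_mul_X_pow_eq_monomial] at h1
    have h3 : ∀ B ∈ S, g.rootMultiplicity 0 = e B := by
      intro B hB
      by_contra h4
      have := hco B hB
      rw [h1, Polynomial.coeff_monomial, if_neg h4] at this
      exact hc B this.symm
    exact hne (he hA hA' ((h3 A hA).symm.trans (h3 A' hA')))
  · obtain ⟨ξ, hξ⟩ := IsAlgClosed.exists_root g1 hd
    refine ⟨ξ, ?_, ?_⟩
    · rintro rfl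
      exact h2 (Polynomial.X_dvd_iff.2 (by rw [Polynomial.coeff_zero_eq_eval_zero]; exact hξ))
    · have : g.eval ξ = 0 := by rw [h1, Polynomial.eval_mul, hξ.eq_zero, mul_zero]
      simpa [hg, Polynomial.eval_finsetSum] using this

omit [Fintype κ] in
/-- Nondegeneracy at the point with coordinates `1, t, ξ`. -/
lemma nd_at {i j k : Fin 3} (h1 : i ≠ j) (h2 : i ≠ k) (h3 : j ≠ k) {J : Finset κ}
    (h : ND (Aof a) c J) {t ξ : ℂ} (ht : t ≠ 0) (hξ : ξ ≠ 0)
    (e0 : ∑ A ∈ J, c A * (t ^ a A j * ξ ^ a A k) = 0)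
    (ei : ∑ A ∈ J, c A * a A i * (t ^ a A j * ξ ^ a A k) = 0)
    (ej : ∑ A ∈ J, c A * a A j * (t ^ a A j * ξ ^ a A k) = 0) :
    ∑ A ∈ J, c A * a A k * (t ^ a A j * ξ ^ a A k) ≠ 0 := by
  obtain ⟨o, ho⟩ := h (fun o => o.elim 1 (fun m => if m = j then t else if m = k then ξ else 1))
    (by
      rintro (_ | m)
      · simp
      · simp only [Option.elim]
        split_ifs <;> simp [*])
  have e : ∀ A, ∏ o : Option (Fin 3), (o.elim 1 (fun m => if m = j then t else
      if m = k then ξ else 1) : ℂ) ^ Aof a A o = t ^ a A j * ξ ^ a A k := by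
    intro A
    rw [Fintype.prod_option, ← Finset.prod_erase_mul _ _ (mem_univ j),
      ← Finset.prod_erase_mul _ _ (mem_erase.2 ⟨h3.symm, mem_univ k⟩), Finset.prod_eq_one]
    · simp [Aof, h3.symm, mul_comm]
    · intro m hm
      simp only [mem_erase] at hm
      simp [hm.1, hm.2.1]
  simp only [e] at ho
  rcases o with _ | m
  · exact absurd (by simpa [Aof] using e0) ho
  · rcases three h1 h2 h3 m with rfl | rfl | rfl
    · exact absurd ei ho
    · exact absurd ej ho
    · exact ho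

end TransAux

open TransAux MvPolynomial in
theorem rootTrans (h : RootTwoStmt) : RootTransStmt := by
  intro κ _ _ a c b ha hc hnd hb w i j k h1 h2 h3 hw hi hj hk hle ⟨A, hA, A', hA', hne, hA1, hA1'⟩
    ⟨B, hB, hB0⟩ hz
  have hT : ∀ D, D ∈ Tw a w ↔ w i * a D i + w j * a D j = 1 := by
    intro D
    rw [mem_Tw, dot_three h1 h2 h3, hk, zero_mul, add_zero]
    rfl
  have hsame : ∀ D E, E ∈ Tw a w → a D j = a E j → (D ∈ Tw a w ↔ a D i = a E i) := by
    intro D E hE e
    rw [hT] at hE ⊢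
    rw [e]
    constructor
    · intro hD
      have : w i * a D i = w i * a E i := by linarith
      exact_mod_cast mul_left_cancel₀ hi.ne' this
    · intro e'
      rw [e', hE]
  set T1 := univ.filter (fun D => a D i = a A i ∧ a D j = 1) with hT1
  set T0 := univ.filter (fun D => a D i = a B i ∧ a D j = 0) with hT0
  have m1 : ∀ D, D ∈ T1 ↔ D ∈ Tw a w ∧ a D j = 1 := by
    intro D
    simp only [hT1, mem_filter, mem_univ, true_and]
    exact and_congr_left fun e => (hsame D A hA (e.trans hA1.symm)).symm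
  have m0 : ∀ D, D ∈ T0 ↔ D ∈ Tw a w ∧ a D j = 0 := by
    intro D
    simp only [hT0, mem_filter, mem_univ, true_and]
    exact and_congr_left fun e => (hsame D B hB (e.trans hB0.symm)).symm
  have p1 : ∀ D ∈ T1, a D i = a A i ∧ a D j = 1 := fun D hD => (mem_filter.1 hD).2
  have p0 : ∀ D ∈ T0, a D i = a B i ∧ a D j = 0 := fun D hD => (mem_filter.1 hD).2
  have hzero : ∀ m, w m = 0 → m = k := by
    intro m hm
    rcases three h1 h2 h3 m with rfl | rfl | rfl
    · exact absurd hm hi.ne'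
    · exact absurd hm hj.ne'
    · rfl
  have nd1 : ND (Aof a) c T1 := by
    have e : ∀ D ∈ Tw a w, (w - Pi.single j 1) ⬝ᵥ Aq a D = 1 - a D j := by
      intro D hD
      rw [sub_dotProduct, mem_Tw.1 hD, single_dotProduct, one_mul]
      rfl
    obtain ⟨ε, -, s1, -, s2⟩ := hw.tilt (w - Pi.single j 1) (fun D hD => by
      rw [e D hD, sub_nonneg]
      exact_mod_cast hle D hD) (fun m hm => by
      obtain rfl := hzero m hm
      simp [hm, h3.symm])
    have e2 : T1 = Tw a (w + ε • (w - Pi.single j 1)) := by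
      ext D
      rw [m1, s2]
      refine and_congr_right fun hD => ?_
      rw [e D hD, sub_eq_zero, eq_comm (a := (1 : ℚ))]
      exact Nat.cast_eq_one.symm
    rw [e2]
    exact hnd _ s1 ⟨A, e2 ▸ (m1 A).2 ⟨hA, hA1⟩⟩
  have nd0 : ND (Aof a) c T0 := by
    have e : ∀ D, (Pi.single j 1 : V3) ⬝ᵥ Aq a D = a D j := by
      intro D
      rw [single_dotProduct, one_mul]
      rfl
    obtain ⟨ε, -, s1, -, s2⟩ := hw.tilt (Pi.single j 1) (fun D _ => by
      rw [e D]
      positivity) (fun m hm => by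
      obtain rfl := hzero m hm
      simp [h3.symm])
    have e2 : T0 = Tw a (w + ε • Pi.single j 1) := by
      ext D
      rw [m0, s2, e D, Nat.cast_eq_zero]
    rw [e2]
    exact hnd _ s1 ⟨B, e2 ▸ (m0 B).2 ⟨hB, hB0⟩⟩
  have hsplit : ∀ φ : κ → ℂ, ∑ D ∈ Tw a w, φ D = ∑ D ∈ T1, φ D + ∑ D ∈ T0, φ D := by
    intro φ
    rw [← Finset.sum_union (Finset.disjoint_left.2 fun D e1 e0 => by
      have := (p1 D e1).2
      have := (p0 D e0).2
      omega)]
    congr 1
    ext D
    rw [mem_union, m1, m0]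
    constructor
    · intro hD
      have := hle D hD
      by_cases e : a D j = 1
      · exact Or.inl ⟨hD, e⟩
      · exact Or.inr ⟨hD, by omega⟩
    · rintro (hD | hD) <;> exact hD.1
  obtain ⟨ξ, hξ, hG0⟩ := exists_root T1 (fun D => a D k) (fun D hD E hE e => ha (by
      ext m
      rcases three h1 h2 h3 m with rfl | rfl | rfl
      · exact (p1 D hD).1.trans (p1 E hE).1.symm
      · exact (p1 D hD).2.trans (p1 E hE).2.symm
      · exact e)) hc ((m1 A).2 ⟨hA, hA1⟩) ((m1 A').2 ⟨hA', hA1'⟩) hne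
  -- sums over the two layers
  have s1 : ∀ (t : ℂ) (φ : κ → ℂ) (r : ℂ), (∀ D ∈ T1, φ D = c D * r) →
      ∑ D ∈ T1, φ D * (t ^ a D j * ξ ^ a D k) = 0 := by
    intro t φ r hφ
    rw [← mul_zero (r * t), ← hG0, Finset.mul_sum]
    refine Finset.sum_congr rfl fun D hD => ?_
    rw [hφ D hD, (p1 D hD).2]
    ring
  have hG1 : ∑ D ∈ T1, c D * a D k * ξ ^ a D k ≠ 0 := by
    have := nd_at h1 h2 h3 nd1 one_ne_zero hξ (s1 1 c 1 fun D _ => (mul_one _).symm)
      (s1 1 _ (a A i) fun D hD => by rw [(p1 D hD).1])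
      (s1 1 _ (1 : ℕ) fun D hD => by rw [(p1 D hD).2])
    simpa using this
  have hH0 : ∑ D ∈ T0, c D * ξ ^ a D k ≠ 0 := by
    intro hH0
    have s0 : ∀ (t : ℂ) (φ : κ → ℂ) (r : ℂ), (∀ D ∈ T0, φ D = c D * r) →
        ∑ D ∈ T0, φ D * (t ^ a D j * ξ ^ a D k) = 0 := by
      intro t φ r hφ
      rw [← mul_zero r, ← hH0, Finset.mul_sum]
      refine Finset.sum_congr rfl fun D hD => ?_
      rw [hφ D hD, (p0 D hD).2]
      ring
    have hH1 : ∑ D ∈ T0, c D * a D k * ξ ^ a D k ≠ 0 := by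
      have := nd_at h1 h2 h3 nd0 one_ne_zero hξ (s0 1 c 1 fun D _ => (mul_one _).symm)
        (s0 1 _ (a B i) fun D hD => by rw [(p0 D hD).1])
        (s0 1 _ (0 : ℕ) fun D hD => by rw [(p0 D hD).2])
      simpa using this
    set t : ℂ := -(∑ D ∈ T0, c D * a D k * ξ ^ a D k) / ∑ D ∈ T1, c D * a D k * ξ ^ a D k with ht
    refine nd_at h1 h2 h3 (hnd w hw ⟨A, hA⟩) (t := t) (div_ne_zero (neg_ne_zero.2 hH1) hG1) hξ
      ?_ ?_ ?_ ?_
    · rw [hsplit, s1 t c 1 fun D _ => (mul_one _).symm, s0 t c 1 fun D _ => (mul_one _).symm,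
        add_zero]
    · rw [hsplit, s1 t _ (a A i) fun D hD => by rw [(p1 D hD).1],
        s0 t _ (a B i) fun D hD => by rw [(p0 D hD).1], add_zero]
    · rw [hsplit, s1 t _ (1 : ℕ) fun D hD => by rw [(p1 D hD).2],
        s0 t _ (0 : ℕ) fun D hD => by rw [(p0 D hD).2], add_zero]
    · have e1 : ∑ D ∈ T1, c D * a D k * (t ^ a D j * ξ ^ a D k) =
          t * ∑ D ∈ T1, c D * a D k * ξ ^ a D k := by
        rw [Finset.mul_sum]
        refine Finset.sum_congr rfl fun D hD => ?_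
        rw [(p1 D hD).2]
        ring
      have e0 : ∑ D ∈ T0, c D * a D k * (t ^ a D j * ξ ^ a D k) =
          ∑ D ∈ T0, c D * a D k * ξ ^ a D k := by
        refine Finset.sum_congr rfl fun D hD => ?_
        rw [(p0 D hD).2]
        ring
      rw [hsplit, e1, e0, ht, div_mul_cancel₀ _ hG1, neg_add_cancel]
  -- the translated polynomial
  obtain ⟨F, hF⟩ : ∃ F, F = tr k ξ (∑ D, monomial (a D) (c D)) := ⟨_, rfl⟩
  have hco : ∀ n : Fin 3 →₀ ℕ, coeff n F = ∑ D ∈ univ.filter (fun D => a D i = n i ∧ a D j = n j),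
      c D * ξ ^ (a D k - n k) * (a D k).choose (n k) := by
    intro n
    rw [hF, map_sum, coeff_sum, Finset.sum_filter]
    exact Finset.sum_congr rfl fun D _ => coeff_tr h1 h2 h3 ξ _ _ _
  have hsrc : ∀ n : F.support, ∃ D, a D i = n.1 i ∧ a D j = n.1 j := by
    intro n
    have := mem_support_iff.1 n.2
    rw [hco] at this
    obtain ⟨D, hD, -⟩ := Finset.exists_ne_zero_of_sum_ne_zero this
    exact ⟨D, (mem_filter.1 hD).2⟩
  have hdot : ∀ (n : F.support) D, a D i = n.1 i → a D j = n.1 j →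
      w ⬝ᵥ Aq (fun n : F.support => n.1) n = w ⬝ᵥ Aq a D := by
    intro n D e1 e2
    simp only [dot_three h1 h2 h3, hk, zero_mul, Aq, e1, e2]
  have hw' : Supp (fun n : F.support => n.1) w := ⟨hw.1, fun n => by
    obtain ⟨D, e1, e2⟩ := hsrc n
    rw [hdot n D e1 e2]
    exact hw.2 D⟩
  have hcase : ∀ n ∈ Tw (fun n : F.support => n.1) w,
      (n.1 i = a A i ∧ n.1 j = 1 ∧ 1 ≤ n.1 k) ∨ (n.1 i = a B i ∧ n.1 j = 0) := by
    intro n hn
    obtain ⟨D, e1, e2⟩ := hsrc n
    have hD : D ∈ Tw a w := by rw [mem_Tw, ← hdot n D e1 e2]; exact mem_Tw.1 hn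
    have := hle D hD
    by_cases e : a D j = 1
    · have e3 := (p1 D ((m1 D).2 ⟨hD, e⟩)).1
      refine Or.inl ⟨e1 ▸ e3, e2 ▸ e, Nat.pos_of_ne_zero fun e4 => mem_support_iff.1 n.2 ?_⟩
      rw [hco, ← e1, ← e2, e3, e, e4]
      simpa using hG0
    · have e0 : a D j = 0 := by omega
      exact Or.inr ⟨e1 ▸ (p0 D ((m0 D).2 ⟨hD, e0⟩)).1, e2 ▸ e0⟩
  have cA : coeff ((a A).update k 1) F ≠ 0 := by
    intro e
    apply hG1
    rw [hco] at e
    simp only [Finsupp.coe_update, Function.update_of_ne h2, Function.update_of_ne h3,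
      Function.update_self, hA1, Nat.choose_one_right] at e
    rw [← mul_zero ξ, ← e, Finset.mul_sum]
    refine Finset.sum_congr rfl fun D _ => ?_
    rcases a D k with _ | r
    · simp
    · rw [Nat.add_sub_cancel]
      ring
  have cB : coeff ((a B).update k 0) F ≠ 0 := by
    rw [hco]
    simpa only [Finsupp.coe_update, Function.update_of_ne h2, Function.update_of_ne h3,
      Function.update_self, hB0, Nat.choose_zero_right, Nat.sub_zero, Nat.cast_one, mul_one]
      using hH0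
  let nA : F.support := ⟨(a A).update k 1, mem_support_iff.2 cA⟩
  let nB : F.support := ⟨(a B).update k 0, mem_support_iff.2 cB⟩
  have Ai : nA.1 i = a A i := by simp [nA, h2]
  have Aj : nA.1 j = 1 := by simp [nA, h3, hA1]
  have Ak : nA.1 k = 1 := by simp [nA]
  have Bi : nB.1 i = a B i := by simp [nB, h2]
  have Bj : nB.1 j = 0 := by simp [nB, h3, hB0]
  have Bk : nB.1 k = 0 := by simp [nB]
  have e : ∀ n : F.support, (Pi.single k 1 - Pi.single j 1 : V3) ⬝ᵥ
      Aq (fun n : F.support => n.1) n = (n.1 k : ℚ) - n.1 j := by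
    intro n
    rw [sub_dotProduct, single_dotProduct, single_dotProduct, one_mul, one_mul]
    rfl
  obtain ⟨ε, -, t1, -, t2⟩ := hw'.tilt (Pi.single k 1 - Pi.single j 1) (fun n hn => by
    rw [e, sub_nonneg, Nat.cast_le]
    rcases hcase n hn with h4 | h4 <;> omega) (fun m hm => by
    obtain rfl := hzero m hm
    simp [h3.symm])
  have hsum : ∑ m, (w + ε • (Pi.single k 1 - Pi.single j 1 : V3)) m = ∑ m, w m := by
    simp [Finset.sum_add_distrib, ← Finset.mul_sum, Finset.sum_sub_distrib]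
  have hext : ∀ n n' : F.support, n.1 i = n'.1 i → n.1 j = n'.1 j → n.1 k = n'.1 k → n = n' := by
    intro n n' e1 e2 e3
    ext m
    rcases three h1 h2 h3 m with rfl | rfl | rfl <;> assumption
  rw [← hsum] at hz ⊢
  refine h F.support _ _ b (beq_tr hb k ξ F hF) _ j k nA nB h3 t1 ?_ cA cB Aj Ak Bj Bk hz
  ext n
  rw [t2, e, sub_eq_zero, Nat.cast_inj, mem_insert, mem_singleton]
  constructor
  · rintro ⟨hn, e1⟩
    rcases hcase n hn with h4 | h4
    · exact Or.inl (hext _ _ (by omega) (by omega) (by omega))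
    · exact Or.inr (hext _ _ (by omega) (by omega) (by omega))
  · rintro (rfl | rfl)
    · exact ⟨by rw [mem_Tw, hdot nA A Ai.symm (hA1.trans Aj.symm)]; exact mem_Tw.1 hA, by omega⟩
    · exact ⟨by rw [mem_Tw, hdot nB B Bi.symm (hB0.trans Bj.symm)]; exact mem_Tw.1 hB, by omega⟩

end Pool.Agent.MP_5d9b3c_ag.H48
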