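import Pool.Agent.MP_5d9b3c_ag.H48.Basic

/-!
Walls of the cone over a plane configuration in dimension three.
-/

namespace Pool.Agent.MP_5d9b3c_ag.H48

open Finset Pool.Agent.MP_5d9b3c_ag.H22

namespace WallAux

/-- Two linear equations in dimension three have a nonzero solution. -/
lemma two_eq (u v : V3) : ∃ d : V3, d ≠ 0 ∧ d ⬝ᵥ u = 0 ∧ d ⬝ᵥ v = 0 := by
  have h : LinearMap.ker (Matrix.mulVecLin (Matrix.of ![u, v])) ≠ ⊥ :=
    LinearMap.ker_ne_bot_of_finrank_lt (by simp)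
  obtain ⟨d, hd, h0⟩ := (Submodule.ne_bot_iff _).1 h
  rw [LinearMap.mem_ker, Matrix.mulVecLin_apply] at hd
  refine ⟨d, h0, ?_, ?_⟩
  · rw [dotProduct_comm]
    exact congrFun hd 0
  · rw [dotProduct_comm]
    exact congrFun hd 1

variable {κ : Type} {a : κ → Fin 3 →₀ ℕ} {T : Finset κ}

lemma sum_pos (hs : Span a T) {n : V3} (h0 : n ≠ 0) (hn : ∀ j ∈ T, 0 ≤ n ⬝ᵥ Aq a j) :
    0 < ∑ j ∈ T, n ⬝ᵥ Aq a j := by
  refine lt_of_le_of_ne (sum_nonneg hn) (fun h => h0 (hs n ?_))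
  exact (sum_eq_zero_iff_of_nonneg hn).1 h.symm

/-- One more zero. -/
lemma step (hs : Span a T) {g x : V3} (h1 : ∀ j ∈ T, 0 ≤ g ⬝ᵥ Aq a j)
    (h2 : ∑ j ∈ T, g ⬝ᵥ Aq a j = 1) (h3 : g ⬝ᵥ x < 0) (u : V3) :
    ∃ g' : V3, (∀ j ∈ T, 0 ≤ g' ⬝ᵥ Aq a j) ∧ ∑ j ∈ T, g' ⬝ᵥ Aq a j = 1 ∧ g' ⬝ᵥ x < 0 ∧
      g' ⬝ᵥ u = g ⬝ᵥ u ∧ ∃ j ∈ T, g' ⬝ᵥ Aq a j = 0 ∧ Aq a j ≠ u := by
  obtain ⟨d, hd0, hd1, hd2, hd3⟩ : ∃ d : V3, d ≠ 0 ∧ d ⬝ᵥ (∑ j ∈ T, Aq a j) = 0 ∧ d ⬝ᵥ u = 0 ∧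
      d ⬝ᵥ x ≤ 0 := by
    obtain ⟨d, h0, e1, e2⟩ := two_eq (∑ j ∈ T, Aq a j) u
    rcases le_total (d ⬝ᵥ x) 0 with h | h
    · exact ⟨d, h0, e1, e2, h⟩
    · exact ⟨-d, neg_ne_zero.2 h0, by rw [neg_dotProduct, e1, neg_zero],
        by rw [neg_dotProduct, e2, neg_zero], by rw [neg_dotProduct]; linarith⟩
  rw [dotProduct_sum] at hd1
  have hneg : ∃ j ∈ T, d ⬝ᵥ Aq a j < 0 := by
    by_contra hc
    push Not at hc
    exact (sum_pos hs hd0 hc).ne' hd1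
  obtain ⟨θ, t0, t1, j, hj, t2, t3⟩ := push T (fun j => g ⬝ᵥ Aq a j) (fun j => d ⬝ᵥ Aq a j) h1 hneg
  have e : ∀ z : V3, (g + θ • d) ⬝ᵥ z = g ⬝ᵥ z + θ * d ⬝ᵥ z := fun z => by
    rw [add_dotProduct, smul_dotProduct, smul_eq_mul]
  refine ⟨g + θ • d, fun k hk => by rw [e]; exact t1 k hk, ?_, ?_, ?_, j, hj, by rw [e]; exact t3, ?_⟩
  · simp only [e, sum_add_distrib, ← mul_sum, hd1, h2, mul_zero, add_zero]
  · rw [e]
    have := mul_nonpos_of_nonneg_of_nonpos t0 hd3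
    linarith
  · rw [e, hd2, mul_zero, add_zero]
  · intro h
    rw [h, hd2] at t2
    exact lt_irrefl _ t2

/-- A violated supporting functional gives a violated wall. -/
lemma exists_wall (hs : Span a T) {n x : V3} (h1 : ∀ j ∈ T, 0 ≤ n ⬝ᵥ Aq a j) (h3 : n ⬝ᵥ x < 0) :
    ∃ g : V3, IsWall a T g ∧ g ⬝ᵥ x < 0 := by
  have h0 : n ≠ 0 := by
    rintro rfl
    simp at h3
  have hp := sum_pos hs h0 h1
  obtain ⟨g1, a1, a2, a3, -, j, hj, a4, -⟩ := step hs (g := (∑ j ∈ T, n ⬝ᵥ Aq a j)⁻¹ • n) (x := x)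
    (fun j hj => by
      rw [smul_dotProduct, smul_eq_mul]
      exact mul_nonneg (inv_pos.2 hp).le (h1 j hj))
    (by simp only [smul_dotProduct, smul_eq_mul, ← mul_sum, inv_mul_cancel₀ hp.ne'])
    (by
      rw [smul_dotProduct, smul_eq_mul]
      exact mul_neg_of_pos_of_neg (inv_pos.2 hp) h3) 0
  obtain ⟨g2, b1, b2, b3, b4, k, hk, b5, b6⟩ := step hs a1 a2 a3 (Aq a j)
  exact ⟨g2, ⟨b1, b2, j, hj, k, hk, fun h => b6 (by rw [h]), b4.trans a4, b5⟩, b3⟩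

lemma finite_walls [Fintype κ] [DecidableEq κ] (ha : Function.Injective a) {w : V3}
    (hw : OnPl a T w) : {g | IsWall a T g}.Finite := by
  refine (Set.finite_iUnion (f := fun p : κ × κ => {g | IsWall a T g ∧ p.1 ∈ T ∧ p.2 ∈ T ∧
    p.1 ≠ p.2 ∧ g ⬝ᵥ Aq a p.1 = 0 ∧ g ⬝ᵥ Aq a p.2 = 0}) (fun p => ?_)).subset ?_
  · refine Set.Subsingleton.finite ?_
    rintro g ⟨h1, h2, h3, h4, h5, h6⟩ g' ⟨h1', -, -, -, h5', h6'⟩
    exact wall_eq ha hw h1 h1' h2 h3 h4 h5 h6 h5' h6'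
  · intro g hg
    obtain ⟨j, hj, j', hj', h1, h2, h3⟩ := hg.2.2
    exact Set.mem_iUnion.2 ⟨(j, j'), hg, hj, hj', h1, h2, h3⟩

/-- One pivot step. -/
lemma move (hs : Span a T) {g y e : V3} {v : κ} {Z : Finset κ} (hZ : Z ⊆ T) (hg : IsWall a T g)
    (hy : g ⬝ᵥ y < 0) (hv : v ∈ T) (hgv : g ⬝ᵥ Aq a v = 0) (e1 : e ⬝ᵥ Aq a v = 0)
    (e2 : e ⬝ᵥ y = 0) (e3 : ∀ j ∈ T, g ⬝ᵥ Aq a j = 0 → 0 ≤ e ⬝ᵥ Aq a j)
    (e4 : e ⬝ᵥ (∑ j ∈ Z, Aq a j) < 0) :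
    ∃ h : V3, IsWall a T h ∧ h ⬝ᵥ y < 0 ∧ h ⬝ᵥ Aq a v = 0 ∧
      h ⬝ᵥ (∑ j ∈ Z, Aq a j) / (-(h ⬝ᵥ y)) < g ⬝ᵥ (∑ j ∈ Z, Aq a j) / (-(g ⬝ᵥ y)) := by
  have hneg : ∃ j ∈ T, e ⬝ᵥ Aq a j < 0 := by
    by_contra hc
    push Not at hc
    rw [dotProduct_sum] at e4
    exact absurd (sum_nonneg (fun j hj => hc j (hZ hj))) (not_le.2 e4)
  obtain ⟨θ, t0, t1, j, hj, t2, t3⟩ :=
    push T (fun j => g ⬝ᵥ Aq a j) (fun j => e ⬝ᵥ Aq a j) hg.1 hneg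
  have t4 : 0 < θ := by
    refine lt_of_le_of_ne t0 (fun h => ?_)
    rw [← h, zero_mul, add_zero] at t3
    exact absurd (e3 j hj t3) (not_le.2 t2)
  have ee : ∀ z : V3, (g + θ • e) ⬝ᵥ z = g ⬝ᵥ z + θ * e ⬝ᵥ z := fun z => by
    rw [add_dotProduct, smul_dotProduct, smul_eq_mul]
  have ny : (g + θ • e) ⬝ᵥ y = g ⬝ᵥ y := by rw [ee, e2, mul_zero, add_zero]
  have n1 : ∀ k ∈ T, 0 ≤ (g + θ • e) ⬝ᵥ Aq a k := fun k hk => by
    rw [ee]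
    exact t1 k hk
  have n0 : g + θ • e ≠ 0 := fun h => by
    rw [h, zero_dotProduct] at ny
    exact hy.ne ny.symm
  have hp := sum_pos hs n0 n1
  obtain ⟨σ, hσ⟩ : ∃ σ, σ = ∑ k ∈ T, (g + θ • e) ⬝ᵥ Aq a k := ⟨_, rfl⟩
  rw [← hσ] at hp
  have hi := inv_pos.2 hp
  have ed : ∀ z : V3, (σ⁻¹ • (g + θ • e)) ⬝ᵥ z = σ⁻¹ * (g + θ • e) ⬝ᵥ z := fun z => by
    rw [smul_dotProduct, smul_eq_mul]
  have hv0 : (σ⁻¹ • (g + θ • e)) ⬝ᵥ Aq a v = 0 := by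
    rw [ed, ee, hgv, e1, mul_zero, add_zero, mul_zero]
  refine ⟨σ⁻¹ • (g + θ • e), ⟨fun k hk => ?_, ?_, v, hv, j, hj, ?_, hv0, ?_⟩, ?_, hv0, ?_⟩
  · rw [ed]
    exact mul_nonneg hi.le (n1 k hk)
  · simp only [ed, ← mul_sum, ← hσ, inv_mul_cancel₀ hp.ne']
  · rintro rfl
    exact t2.ne e1
  · rw [ed, ee, t3, mul_zero]
  · rw [ed, ny]
    exact mul_neg_of_pos_of_neg hi hy
  · rw [ed, ed, ny, ← mul_neg, mul_div_mul_left _ _ hi.ne', ee]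
    refine div_lt_div_of_pos_right ?_ (neg_pos.2 hy)
    have := mul_neg_of_pos_of_neg t4 e4
    linarith

lemma edge_rep {E : Finset κ} {v v' : κ} {s s' : Vq} (h : Edge a E v v' s s') {j : κ} (hj : j ∈ E)
    (e : V3) : e ⬝ᵥ Aq a j =
      (s ⬝ᵥ Ahq a j) * e ⬝ᵥ Aq a v + (s' ⬝ᵥ Ahq a j) * e ⬝ᵥ Aq a v' := by
  have h1 := congrArg (fun z => lin e ⬝ᵥ z) (h.rep j hj)
  simpa only [dotProduct_add, dotProduct_smul, smul_eq_mul, lin_Ahq] using h1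

end WallAux

open WallAux

theorem wall : WallStmt := by
  intro κ _ _ a T w ha hw hs
  refine ⟨finite_walls ha hw, fun x hx hg => ?_⟩
  rcases farkas_rat T (Ahq a) x with ⟨f, f1, f2⟩ | h
  · exfalso
    obtain ⟨n, hn⟩ : ∃ n : Vq, ∀ z : Vq, n ⬝ᵥ z = -f z := by
      refine ⟨fun i => -f (fun j => if i = j then 1 else 0), fun z => ?_⟩
      rw [LinearMap.pi_apply_eq_sum_univ f z, dotProduct, ← sum_neg_distrib]
      exact sum_congr rfl (fun i _ => by rw [smul_eq_mul]; ring)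
    have key : ∀ z : Vq, H48.hw w ⬝ᵥ z = 0 →
        lin (fun i => n (some i) + n none * w i) ⬝ᵥ z = -f z := by
      intro z hz
      rw [← hn]
      conv_rhs => rw [eq_lin n w, sub_dotProduct, smul_dotProduct, hz]
      simp
    obtain ⟨g, g1, g2⟩ := exists_wall hs (n := fun i => n (some i) + n none * w i)
      (x := fun i => x (some i))
      (fun j hj => by
        rw [← lin_Ahq, key _ (by rw [hw_Ahq, hw j hj, sub_self])]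
        linarith [f2 j hj])
      (by
        rw [← lin_dot, key _ hx]
        linarith)
    have := hg g g1
    rw [lin_dot] at this
    exact absurd this (not_le.2 g2)
  · exact h

theorem edge : EdgeStmt := by
  intro κ _ _ a E w g ha hw hg h0 hne
  obtain ⟨j0, hj0, j1, hj1, hne⟩ := hne
  obtain ⟨i, hi⟩ : ∃ i, a j0 i ≠ a j1 i := by
    by_contra hc
    push Not at hc
    exact hne (ha (Finsupp.ext hc))
  obtain ⟨v, hv, hmin⟩ := exists_min_image E (fun j => a j i) ⟨j0, hj0⟩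
  obtain ⟨v', hv', hmax⟩ := exists_max_image E (fun j => a j i) ⟨j0, hj0⟩
  have hlt : a v i < a v' i := by
    have := hmin j0 hj0
    have := hmin j1 hj1
    have := hmax j0 hj0
    have := hmax j1 hj1
    omega
  obtain ⟨δ, hδ⟩ : ∃ δ : ℚ, δ = (a v' i : ℚ) - a v i := ⟨_, rfl⟩
  have hp : 0 < δ := by
    rw [hδ, sub_pos]
    exact_mod_cast hlt
  obtain ⟨s', hs'⟩ : ∃ s' : Vq, ∀ j, s' ⬝ᵥ Ahq a j = ((a j i : ℚ) - a v i) / δ :=
    ⟨δ⁻¹ • (ei (some i) - (a v i : ℚ) • ei none), fun j => by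
      rw [smul_dotProduct, sub_dotProduct, smul_dotProduct, ei_dot, ei_dot, Ahq_some, Ahq_none,
        smul_eq_mul, smul_eq_mul, mul_one, div_eq_inv_mul]⟩
  have hs : ∀ j, (ei none - s') ⬝ᵥ Ahq a j = 1 - ((a j i : ℚ) - a v i) / δ := fun j => by
    rw [sub_dotProduct, ei_dot, Ahq_none, hs']
  have hvv : ((a v' i : ℚ) - a v i) / δ = 1 := by rw [← hδ, div_self hp.ne']
  refine ⟨v, v', ei none - s', s', hv, hv', by simp [hs], by rw [hs, hvv, sub_self], by simp [hs'],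
    by rw [hs', hvv], fun j hj => ?_, fun j hj => ?_, fun j hj => ?_⟩
  · obtain ⟨r, hr⟩ := perp_line (x := w) (y := g) (g := Aq a v' - Aq a v) (g' := Aq a j - Aq a v)
      (fun r s h => by
        have h1 := congrArg (fun z => z ⬝ᵥ Aq a v) h
        simp only [add_dotProduct, smul_dotProduct, smul_eq_mul, hw v hv, h0 v hv, mul_one,
          mul_zero, add_zero, zero_dotProduct] at h1
        rw [h1, zero_smul, zero_add, smul_eq_zero] at h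
        exact ⟨h1, h.resolve_right hg⟩)
      (by rw [dotProduct_comm, dotProduct_sub, hw v hv, hw v' hv', sub_self])
      (by rw [dotProduct_comm, dotProduct_sub, h0 v hv, h0 v' hv', sub_self])
      (by rw [dotProduct_comm, dotProduct_sub, hw v hv, hw j hj, sub_self])
      (by rw [dotProduct_comm, dotProduct_sub, h0 v hv, h0 j hj, sub_self])
      (fun h => by
        have h1 : (a v' i : ℚ) - a v i = 0 := congrFun h i
        rw [← hδ] at h1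
        exact hp.ne' h1)
    have hr' : ∀ m, (a j m : ℚ) - a v m = r * ((a v' m : ℚ) - a v m) := fun m => congrFun hr m
    have hr2 : ((a j i : ℚ) - a v i) / δ = r := by
      rw [hr', ← hδ, mul_div_cancel_right₀ _ hp.ne']
    rw [hs, hs', hr2]
    ext (_ | m)
    · simp
    · simp only [Pi.add_apply, Pi.smul_apply, Ahq_some, smul_eq_mul]
      linear_combination hr' m
  · rw [hs, sub_nonneg, div_le_one hp, hδ, sub_le_sub_iff_right]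
    exact_mod_cast hmax j hj
  · rw [hs']
    refine div_nonneg (sub_nonneg.2 ?_) hp.le
    exact_mod_cast hmin j hj

theorem nbr : NbrStmt := by
  intro κ _ _ a w g ha hpos hw hg hneg
  obtain ⟨θ, t0, t1, z, -, t2, t3⟩ := push (α := κ ⊕ Fin 3) univ
    (Sum.elim (fun j => w ⬝ᵥ Aq a j - 1) w) (Sum.elim (fun j => g ⬝ᵥ Aq a j) g)
    (by
      rintro (j | i) -
      · exact sub_nonneg.2 (hw.2 j)
      · exact hw.1 i)
    (by
      obtain ⟨i, hi⟩ := hneg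
      exact ⟨Sum.inr i, mem_univ _, hi⟩)
  have ee : ∀ z : V3, (w + θ • g) ⬝ᵥ z = w ⬝ᵥ z + θ * g ⬝ᵥ z := fun z => by
    rw [add_dotProduct, smul_dotProduct, smul_eq_mul]
  have hS : Supp a (w + θ • g) := by
    refine ⟨fun i => t1 (Sum.inr i) (mem_univ _), fun j => ?_⟩
    have := t1 (Sum.inl j) (mem_univ _)
    simp only [Sum.elim_inl] at this
    rw [ee]
    linarith
  refine ⟨θ, lt_of_le_of_ne t0 (fun h => ?_), hS, ?_⟩
  · rw [← h, zero_mul, add_zero] at t3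
    rcases z with j | i
    · exact absurd (hg.1 j (mem_Tw.2 (sub_eq_zero.1 t3))) (not_le.2 t2)
    · exact (hpos i).ne' t3
  · by_cases hz : ∃ i, (w + θ • g) i = 0
    · exact Or.inl hz
    push Not at hz
    refine Or.inr ⟨fun i => lt_of_le_of_ne (hS.1 i) (hz i).symm, fun d hd => ?_⟩
    rcases z with j | i
    · simp only [Sum.elim_inl] at t2 t3
      obtain ⟨k, hk, k', hk', hne, g1, g2⟩ := hg.2.2
      obtain ⟨r, rfl⟩ := perp (mem_Tw.1 hk) (mem_Tw.1 hk') (fun h => hne (Aq_inj ha h)) g1 g2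
        (hd k (mem_Tw.2 (by rw [ee, g1, mem_Tw.1 hk, mul_zero, add_zero])))
        (hd k' (mem_Tw.2 (by rw [ee, g2, mem_Tw.1 hk', mul_zero, add_zero]))) hg.ne_zero
      have h1 := hd j (mem_Tw.2 (by rw [ee]; linarith))
      rw [smul_dotProduct, smul_eq_mul, mul_eq_zero] at h1
      rw [h1.resolve_right t2.ne, zero_smul]
    · exact absurd t3 (hz i)

theorem con (h : EdgeStmt) : ConStmt := by
  intro κ _ _ a T w ha hw hs y g g' hg hg' hy hy'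
  obtain ⟨Z, hZ⟩ : ∃ Z, Z = T.filter (fun j => g' ⬝ᵥ Aq a j = 0) := ⟨_, rfl⟩
  have hZT : Z ⊆ T := hZ ▸ filter_subset _ _
  obtain ⟨ψ, hψ⟩ : ∃ ψ : V3 → ℚ, ∀ g, ψ g = g ⬝ᵥ (∑ j ∈ Z, Aq a j) / (-(g ⬝ᵥ y)) :=
    ⟨_, fun _ => rfl⟩
  have piv : ∀ g, IsWall a T g → g ⬝ᵥ y < 0 → g ≠ g' → ∃ g1, IsWall a T g1 ∧ g1 ⬝ᵥ y < 0 ∧
      (∃ j ∈ T, g ⬝ᵥ Aq a j = 0 ∧ g1 ⬝ᵥ Aq a j = 0) ∧ ψ g1 < ψ g := by
    intro g hg hy hne
    have hE : ∀ j, j ∈ Zr a T (lin g) ↔ j ∈ T ∧ g ⬝ᵥ Aq a j = 0 := fun j => by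
      rw [mem_Zr, lin_Ahq]
    obtain ⟨v, v', s, s', he⟩ := h κ a (Zr a T (lin g)) w g ha (fun j hj => hw j ((hE j).1 hj).1)
      hg.ne_zero (fun j hj => ((hE j).1 hj).2) (by
        obtain ⟨k, hk, k', hk', h1, h2, h3⟩ := hg.2.2
        exact ⟨k, (hE k).2 ⟨hk, h2⟩, k', (hE k').2 ⟨hk', h3⟩, h1⟩)
    obtain ⟨hv, gv⟩ := (hE v).1 he.mem
    obtain ⟨hv', gv'⟩ := (hE v').1 he.mem'
    have gZ : 0 < g ⬝ᵥ (∑ j ∈ Z, Aq a j) := by
      rw [dotProduct_sum]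
      refine lt_of_le_of_ne (sum_nonneg (fun j hj => hg.1 j (hZT hj))) (fun h0 => hne ?_)
      have h1 := (sum_eq_zero_iff_of_nonneg (fun j hj => hg.1 j (hZT hj))).1 h0.symm
      obtain ⟨k, hk, k', hk', h2, h3, h4⟩ := hg'.2.2
      exact wall_eq ha hw hg hg' hk hk' h2 (h1 k (hZ ▸ mem_filter.2 ⟨hk, h3⟩))
        (h1 k' (hZ ▸ mem_filter.2 ⟨hk', h4⟩)) h3 h4
    have g'Z : g' ⬝ᵥ (∑ j ∈ Z, Aq a j) = 0 := by
      rw [dotProduct_sum]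
      refine sum_eq_zero (fun j hj => ?_)
      rw [hZ] at hj
      exact (mem_filter.1 hj).2
    obtain ⟨d, hd⟩ : ∃ d : V3, ∀ z, d ⬝ᵥ z = (g' ⬝ᵥ y) * g ⬝ᵥ z - (g ⬝ᵥ y) * g' ⬝ᵥ z :=
      ⟨(g' ⬝ᵥ y) • g - (g ⬝ᵥ y) • g', fun z => by
        rw [sub_dotProduct, smul_dotProduct, smul_dotProduct, smul_eq_mul, smul_eq_mul]⟩
    have dy : d ⬝ᵥ y = 0 := by
      rw [hd]
      ring
    have dv : ∀ j ∈ T, g ⬝ᵥ Aq a j = 0 → 0 ≤ d ⬝ᵥ Aq a j := fun j hj h0 => by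
      rw [hd, h0]
      have := mul_nonneg (neg_pos.2 hy).le (hg'.1 j hj)
      linarith
    have dZ : d ⬝ᵥ (∑ j ∈ Z, Aq a j) < 0 := by
      rw [hd, g'Z]
      have := mul_neg_of_neg_of_pos hy' gZ
      linarith
    obtain ⟨e, e0, e1, e2⟩ := two_eq (Aq a v) y
    have e3 : e ⬝ᵥ Aq a v' ≠ 0 := fun h0 => by
      obtain ⟨r, rfl⟩ := perp (hw v hv) (hw v' hv') (fun h => he.ne (Aq_inj ha h)) gv gv' e1 h0
        hg.ne_zero
      rw [smul_dotProduct, smul_eq_mul, mul_eq_zero] at e2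
      exact e0 (by rw [e2.resolve_right hy.ne, zero_smul])
    obtain ⟨d1, a1, a2, a3⟩ : ∃ d1 : V3, d1 ⬝ᵥ Aq a v = 0 ∧ d1 ⬝ᵥ y = 0 ∧
        d1 ⬝ᵥ Aq a v' = d ⬝ᵥ Aq a v' :=
      ⟨(d ⬝ᵥ Aq a v' / e ⬝ᵥ Aq a v') • e, by rw [smul_dotProduct, e1, smul_zero],
        by rw [smul_dotProduct, e2, smul_zero],
        by rw [smul_dotProduct, smul_eq_mul, div_mul_cancel₀ _ e3]⟩
    by_cases hc : d1 ⬝ᵥ (∑ j ∈ Z, Aq a j) < 0
    · obtain ⟨g1, b1, b2, b3, b4⟩ := move hs hZT hg hy hv gv a1 a2 (fun j hj h0 => by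
        rw [edge_rep he ((hE j).2 ⟨hj, h0⟩), a1, a3, mul_zero, zero_add]
        exact mul_nonneg (he.pos' j ((hE j).2 ⟨hj, h0⟩)) (dv v' hv' gv')) hc
      exact ⟨g1, b1, b2, ⟨v, hv, gv, b3⟩, by rw [hψ, hψ]; exact b4⟩
    · obtain ⟨g1, b1, b2, b3, b4⟩ := move (e := d - d1) hs hZT hg hy hv' gv'
        (by rw [sub_dotProduct, a3, sub_self]) (by rw [sub_dotProduct, dy, a2, sub_self])
        (fun j hj h0 => by
          rw [edge_rep he ((hE j).2 ⟨hj, h0⟩), sub_dotProduct, sub_dotProduct, a1, a3, sub_self,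
            mul_zero, add_zero, sub_zero]
          exact mul_nonneg (he.pos j ((hE j).2 ⟨hj, h0⟩)) (dv v hv gv))
        (by
          rw [sub_dotProduct]
          linarith [not_lt.1 hc])
      exact ⟨g1, b1, b2, ⟨v', hv', gv', b3⟩, by rw [hψ, hψ]; exact b4⟩
  obtain ⟨W, hW⟩ : ∃ W : Finset V3, ∀ g, g ∈ W ↔ IsWall a T g :=
    ⟨(finite_walls ha hw).toFinset, fun g => Set.Finite.mem_toFinset _⟩
  induction hm : (W.filter (fun g1 => ψ g1 < ψ g)).card using Nat.strong_induction_on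
    generalizing g with
  | _ m ih =>
    by_cases hne : g = g'
    · rw [hne]
    obtain ⟨g1, b1, b2, b3, b4⟩ := piv g hg hy hne
    refine Relation.ReflTransGen.head ⟨hg, b1, hy, b2, b3⟩ (ih _ ?_ g1 b1 b2 rfl)
    rw [← hm]
    refine card_lt_card ⟨fun g2 h2 => ?_, fun h2 => ?_⟩
    · exact mem_filter.2 ⟨(mem_filter.1 h2).1, (mem_filter.1 h2).2.trans b4⟩
    · exact lt_irrefl _ (mem_filter.1 (h2 (mem_filter.2 ⟨(hW g1).2 b1, b4⟩))).2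

end Pool.Agent.MP_5d9b3c_ag.H48
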