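import Pool.Agent.MP_5d9b3c_ag.H48.Layer
import Pool.Agent.MP_5d9b3c_ag.H48.Rec
import Pool.Agent.MP_5d9b3c_ag.H48.Null
import Pool.Agent.MP_5d9b3c_ag.H48.Wall
import Pool.Agent.MP_5d9b3c_ag.H48.Kosz
import Pool.Agent.MP_5d9b3c_ag.H48.SV
import Pool.Agent.MP_5d9b3c_ag.H48.Trans
import Pool.Agent.MP_5d9b3c_ag.H48.REdge
import Pool.Agent.MP_5d9b3c_ag.H48.TEx
import Pool.Agent.MP_5d9b3c_ag.H48.Star
import Pool.Agent.MP_5d9b3c_ag.H48.Segers
import Pool.Agent.MP_5d9b3c_ag.H48.NoPole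
import Pool.Agent.MP_5d9b3c_ag.H48.Glob
import Pool.Agent.MP_5d9b3c_ag.H48.Cap
import Pool.Agent.MP_5d9b3c_ag.H48.Facet

/-!
Assembly of the steps.
-/

namespace Pool.Agent.MP_5d9b3c_ag.H48

theorem rootTwo_all : RootTwoStmt := rootTwo neg (spread neg) sv

theorem root_all : RootStmt :=
  root (rootFacet (kosz3 ns wall (con edge)) cone wall neg nbr (tExist wall) (crit edge (kosz2 ns))
      (rootCap (kosz3 ns wall (con edge)) (kosz2 ns) cone wall edge neg (spread neg)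
        (ext2 neg (spread neg)) sv))
    (rootEdge edge (kosz2 ns) cone (ext2 neg (spread neg)) sv) (rootTrans rootTwo_all)
    (rootLine (spread neg) sv)

theorem glob_all : GlobStmt := glob (star root_all rootTwo_all)

end Pool.Agent.MP_5d9b3c_ag.H48
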