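import Pool.Agent.MP_5d9b3c_ag.H48.Basic

/-!
Row LAYER: extension of solutions across non-resonant layers.
-/

namespace Pool.Agent.MP_5d9b3c_ag.H48

open Finset Pool.Agent.MP_5d9b3c_ag.H22

namespace LayerAux

/-- Recursion along a natural number valued measure. -/
lemma exists_fix {α β : Type} [Inhabited β] (m : α → ℕ) (F : α → (α → β) → β)
    (hF : ∀ u f g, (∀ v, m v < m u → f v = g v) → F u f = F u g) :
    ∃ ψ : α → β, ∀ u, ψ u = F u ψ := by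
  let s : ℕ → α → β := fun k => Nat.rec (fun _ => default) (fun _ f u => F u f) k
  have hs : ∀ k u, s (k + 1) u = F u (s k) := fun _ _ => rfl
  have key : ∀ N u, m u = N → ∀ k k', N < k → N < k' → s k u = s k' u := by
    intro N
    induction N using Nat.strong_induction_on with
    | _ N ih =>
      intro u hu k k' hk hk'
      obtain ⟨k, rfl⟩ : ∃ l, k = l + 1 := ⟨k - 1, by omega⟩
      obtain ⟨k', rfl⟩ : ∃ l, k' = l + 1 := ⟨k' - 1, by omega⟩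
      rw [hs, hs]
      exact hF u _ _ (fun v hv => ih (m v) (hu ▸ hv) v rfl k k' (by omega) (by omega))
  refine ⟨fun u => s (m u + 1) u, fun u => ?_⟩
  change s (m u + 1) u = _
  rw [hs]
  exact hF u _ _ (fun v hv => key (m v) v rfl _ _ hv (Nat.lt_succ_self _))

variable {κ : Type} {a : κ → Fin 3 →₀ ℕ} {c : κ → ℂ} {q : Vq} {T : Finset κ}

/-- A measure that drops along the monomials that move the functional. -/
lemma exists_meas (a : κ → Fin 3 →₀ ℕ) (q : Vq) (T : Finset κ) (n : Vq) (θ : ℚ)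
    (hn : ∀ j ∈ T, 0 ≤ n ⬝ᵥ Ahq a j) :
    ∃ m : Pt → ℕ, ∀ u, n ⬝ᵥ hat q u < θ → ∀ j ∈ T, n ⬝ᵥ Ahq a j ≠ 0 →
      m (u + Ah a j) < m u := by
  obtain ⟨η, h0, h1⟩ := small (T.filter (fun j => n ⬝ᵥ Ahq a j ≠ 0)) (fun j => n ⬝ᵥ Ahq a j)
    (fun _ => -1) (fun j hj => lt_of_le_of_ne (hn j (mem_filter.1 hj).1) (mem_filter.1 hj).2.symm)
  refine ⟨fun u => ⌈(θ - n ⬝ᵥ hat q u) / η⌉₊, fun u hu j hj hj' => ?_⟩
  have h2 := h1 j (mem_filter.2 ⟨hj, hj'⟩)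
  have h3 : 0 < (θ - n ⬝ᵥ hat q u) / η := div_pos (by linarith) h0
  have h4 : (θ - n ⬝ᵥ hat q (u + Ah a j)) / η ≤ (θ - n ⬝ᵥ hat q u) / η - 1 := by
    rw [dot_hat_add, div_sub_one h0.ne']
    exact div_le_div_of_nonneg_right (by linarith) h0.le
  have h5 := Nat.ceil_mono h4
  rw [Nat.ceil_sub_one] at h5
  have h6 := Nat.ceil_pos.2 h3
  change ⌈_⌉₊ < ⌈_⌉₊
  omega

/-- Uniqueness for one functional. -/
lemma uniq1 {n : Vq} {θ : ℚ} {Y : Set Pt} (hY : Stab a T Y) (hn : ∀ j ∈ T, 0 ≤ n ⬝ᵥ Ahq a j)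
    (hne : ∀ u ∈ Y, n ⬝ᵥ hat q u < θ → n ⬝ᵥ hat q u ≠ 0) {ψ : Pt → ℂ}
    (h1 : ∀ u ∈ Y, Dn a c q T n ψ u = 0) (h2 : ∀ u ∈ Y, θ ≤ n ⬝ᵥ hat q u → ψ u = 0) :
    ∀ u ∈ Y, ψ u = 0 := by
  obtain ⟨m, hm⟩ := exists_meas a q T n θ hn
  have key : ∀ N u, m u = N → u ∈ Y → ψ u = 0 := by
    intro N
    induction N using Nat.strong_induction_on with
    | _ N ih =>
      intro u hu huY
      rcases le_or_gt θ (n ⬝ᵥ hat q u) with h | h
      · exact h2 u huY h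
      have h3 := h1 u huY
      rw [Dn, sum_eq_zero (fun j hj => ?_), add_zero, mul_eq_zero] at h3
      · exact h3.resolve_left (by exact_mod_cast hne u huY h)
      · by_cases h4 : n ⬝ᵥ Ahq a j = 0
        · simp [h4]
        · rw [ih _ (hu ▸ hm u h j hj h4) _ rfl (hY u huY j hj), mul_zero]
  exact fun u hu => key _ u rfl hu

/-- Existence for one functional. -/
lemma ex1 {n : Vq} {θ : ℚ} {Y : Set Pt} (hY : Stab a T Y) (hn : ∀ j ∈ T, 0 ≤ n ⬝ᵥ Ahq a j)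
    (hne : ∀ u ∈ Y, n ⬝ᵥ hat q u < θ → n ⬝ᵥ hat q u ≠ 0) {ω : Vq → Pt → ℂ} {φ : Pt → ℂ}
    (hω : Clo a c q T Y ω) (hφ : Solves a c q T {u | u ∈ Y ∧ θ ≤ n ⬝ᵥ hat q u} φ ω) :
    ∃ ψ : Pt → ℂ, (∀ u, θ ≤ n ⬝ᵥ hat q u → ψ u = φ u) ∧ Solves a c q T Y ψ ω := by
  obtain ⟨m, hm⟩ := exists_meas a q T n θ hn
  obtain ⟨ψ, hψ⟩ := exists_fix m (fun u (f : Pt → ℂ) => if θ ≤ n ⬝ᵥ hat q u then φ u else
    (ω n u - ∑ j ∈ T, c j * ((n ⬝ᵥ Ahq a j : ℚ) : ℂ) * f (u + Ah a j)) /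
      ((n ⬝ᵥ hat q u : ℚ) : ℂ)) (by
    intro u f g hfg
    by_cases h : θ ≤ n ⬝ᵥ hat q u
    · simp only [h, if_true]
    · simp only [h, if_false]
      congr 2
      refine sum_congr rfl (fun j hj => ?_)
      by_cases h4 : n ⬝ᵥ Ahq a j = 0
      · simp [h4]
      · rw [hfg _ (hm u (not_le.1 h) j hj h4)])
  have h1 : ∀ u, θ ≤ n ⬝ᵥ hat q u → ψ u = φ u := fun u hu => by rw [hψ u, if_pos hu]
  have h2 : ∀ k, ∀ u ∈ Y, θ ≤ n ⬝ᵥ hat q u → Dn a c q T k ψ u = ω k u := fun k u hu h => by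
    rw [Dn_congr (ψ := φ) (h1 u h) (fun j hj => h1 _ (by
      rw [dot_hat_add]
      linarith [hn j hj]))]
    exact hφ k u ⟨hu, h⟩
  have h3 : ∀ u ∈ Y, Dn a c q T n ψ u = ω n u := fun u hu => by
    by_cases h : θ ≤ n ⬝ᵥ hat q u
    · exact h2 n u hu h
    · have h4 : ((n ⬝ᵥ hat q u : ℚ) : ℂ) ≠ 0 := by exact_mod_cast hne u hu (not_le.1 h)
      rw [Dn, hψ u, if_neg h, mul_div_cancel₀ _ h4, sub_add_cancel]
  refine ⟨ψ, h1, fun k u hu => sub_eq_zero.1 ?_⟩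
  refine uniq1 (c := c) (ψ := fun u => Dn a c q T k ψ u - ω k u) hY hn hne (fun u hu => ?_)
    (fun u hu h => sub_eq_zero.2 (h2 k u hu h)) u hu
  rw [Dn_sub, Dn_comm, hω n k u hu,
    Dn_congr (ψ := ω n) (h3 u hu) (fun j hj => h3 _ (hY u hu j hj)), sub_self]

/-- The statement for finitely many functionals. -/
lemma negS {E : Type} (n : E → Vq) (θ : E → ℚ) (S : Set E) (hS : S.Finite) :
    ∀ Y : Set Pt, Stab a T Y → (∀ e ∈ S, ∀ j ∈ T, 0 ≤ n e ⬝ᵥ Ahq a j) →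
    (∀ e ∈ S, ∀ u ∈ Y, n e ⬝ᵥ hat q u < θ e → n e ⬝ᵥ hat q u ≠ 0) →
    (∀ (ω : Vq → Pt → ℂ) (φ : Pt → ℂ), Clo a c q T Y ω →
      Solves a c q T {u | u ∈ Y ∧ ∀ e ∈ S, θ e ≤ n e ⬝ᵥ hat q u} φ ω →
      ∃ ψ : Pt → ℂ, (∀ u ∈ Y, (∀ e ∈ S, θ e ≤ n e ⬝ᵥ hat q u) → ψ u = φ u) ∧
        Solves a c q T Y ψ ω) ∧
    ∀ ψ : Pt → ℂ, Solves a c q T Y ψ 0 →
      (∀ u ∈ Y, (∀ e ∈ S, θ e ≤ n e ⬝ᵥ hat q u) → ψ u = 0) → ∀ u ∈ Y, ψ u = 0 := by
  induction S, hS using Set.Finite.induction_on with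
  | empty =>
    intro Y _ _ _
    exact ⟨fun ω φ _ h => ⟨φ, fun _ _ _ => rfl, fun k u hu => h k u ⟨hu, by simp⟩⟩,
      fun ψ _ h u hu => h u hu (by simp)⟩
  | @insert e S _ _ ih =>
    intro Y hY hn hne
    have he := hn e (Set.mem_insert _ _)
    have he' := hne e (Set.mem_insert _ _)
    have hY' : Stab a T {u | u ∈ Y ∧ θ e ≤ n e ⬝ᵥ hat q u} := fun u hu j hj =>
      ⟨hY u hu.1 j hj, by
        rw [dot_hat_add]
        linarith [he j hj, hu.2]⟩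
    obtain ⟨i1, i2⟩ := ih _ hY' (fun e' h => hn e' (Set.mem_insert_of_mem _ h))
      (fun e' h u hu => hne e' (Set.mem_insert_of_mem _ h) u hu.1)
    refine ⟨fun ω φ hω hφ => ?_, fun ψ h1 h2 => ?_⟩
    · obtain ⟨ψ', j1, j2⟩ := i1 ω φ (fun k m u hu => hω k m u hu.1) (fun k u hu =>
        hφ k u ⟨hu.1.1, Set.forall_mem_insert.2 ⟨hu.1.2, hu.2⟩⟩)
      obtain ⟨ψ, k1, k2⟩ := ex1 hY he he' hω j2
      refine ⟨ψ, fun u hu h => ?_, k2⟩
      obtain ⟨h3, h4⟩ := Set.forall_mem_insert.1 h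
      rw [k1 u h3, j1 u ⟨hu, h3⟩ h4]
    · refine uniq1 hY he he' (h1 (n e)) (fun u hu h => ?_)
      exact i2 ψ (fun k u hu => h1 k u hu.1) (fun u hu h =>
        h2 u hu.1 (Set.forall_mem_insert.2 ⟨hu.2, h⟩)) u ⟨hu, h⟩

/-- The plane spanned by the two ends of an edge. -/
def Pl (A A' s s' x : Vq) : Prop := x = (s ⬝ᵥ x) • A + (s' ⬝ᵥ x) • A'

lemma Pl.add {A A' s s' x y : Vq} (hx : Pl A A' s s' x) (hy : Pl A A' s s' y) :
    Pl A A' s s' (x + y) := by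
  rw [Pl, dotProduct_add, dotProduct_add, add_smul, add_smul, add_add_add_comm]
  exact congrArg₂ (· + ·) hx hy

lemma Pl.smul {A A' s s' x : Vq} (hx : Pl A A' s s' x) (r : ℚ) : Pl A A' s s' (r • x) := by
  rw [Pl, dotProduct_smul, dotProduct_smul, smul_eq_mul, smul_eq_mul, mul_smul, mul_smul,
    ← smul_add]
  exact congrArg (r • ·) hx

lemma Pl.sub {A A' s s' x y : Vq} (hx : Pl A A' s s' x) (hy : Pl A A' s s' y) :
    Pl A A' s s' (x - y) := by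
  have := hx.add (hy.smul (-1))
  rwa [neg_one_smul, ← sub_eq_add_neg] at this

lemma Pl.cone {E : Finset κ} {v v' : κ} {s s' x : Vq} (h : Edge a E v v' s s')
    (hx : InCone a E x) : Pl (Ahq a v) (Ahq a v') s s' x := by
  obtain ⟨t, _, rfl⟩ := hx
  exact sum_induction _ (Pl (Ahq a v) (Ahq a v') s s') (fun _ _ => Pl.add) (by simp [Pl])
    (fun j hj => Pl.smul (h.rep j hj) _)

end LayerAux

open LayerAux

theorem neg : NegStmt := fun _ _ _ _ _ _ _ _ S n θ Y hS hY hn hne => negS n θ S hS Y hY hn hne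

theorem spread (hneg : NegStmt) : SpreadStmt := by
  intro κ _ _ a c q h h' T hh hh' hT ω φ hω hz hφ
  classical
  set φ0 : Pt → ℂ := fun u => if h ⬝ᵥ hat q u = 0 ∧ h' ⬝ᵥ hat q u = 0 then φ u else 0 with hφ0
  have z0 : ∀ u, 0 < h ⬝ᵥ hat q u ∨ 0 < h' ⬝ᵥ hat q u → φ0 u = 0 := fun u hu =>
    if_neg (fun hc => by rcases hu with hu | hu <;> linarith [hc.1, hc.2])
  obtain ⟨ψ, h1, h2⟩ := (hneg κ a c q univ Bool Set.univ (fun b => cond b h h') (fun _ => 0)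
    Set.univ Set.finite_univ (fun _ _ _ _ => Set.mem_univ _)
    (fun e _ j _ => by cases e; exacts [hh' j, hh j]) (fun _ _ _ _ hlt => hlt.ne)).1 ω φ0 hω (by
      intro n u hu
      have a1 : 0 ≤ h ⬝ᵥ hat q u := hu.2 true (Set.mem_univ _)
      have a2 : 0 ≤ h' ⬝ᵥ hat q u := hu.2 false (Set.mem_univ _)
      by_cases hc : h ⬝ᵥ hat q u = 0 ∧ h' ⬝ᵥ hat q u = 0
      · rw [Dn_subset (subset_univ T) (fun j _ hj => if_neg (fun hd => hj ((hT j).2 (by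
          rwa [dot_hat_add, dot_hat_add, hc.1, hc.2, zero_add, zero_add] at hd)))),
          Dn_congr (ψ := φ) (if_pos hc) (fun j hj => if_pos (by
            rw [dot_hat_add, dot_hat_add, hc.1, hc.2, zero_add, zero_add]
            exact (hT j).1 hj))]
        exact hφ n u hc
      · have a3 : 0 < h ⬝ᵥ hat q u ∨ 0 < h' ⬝ᵥ hat q u := by
          by_contra hd
          push Not at hd
          exact hc ⟨le_antisymm hd.1 a1, le_antisymm hd.2 a2⟩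
        rw [hz n u a3]
        refine Dn_eq_zero (z0 u a3) (fun j _ => z0 _ ?_)
        rw [dot_hat_add, dot_hat_add]
        rcases a3 with a3 | a3
        · exact Or.inl (by linarith [hh j])
        · exact Or.inr (by linarith [hh' j]))
  have h3 : ∀ u, 0 ≤ h ⬝ᵥ hat q u → 0 ≤ h' ⬝ᵥ hat q u → ψ u = φ0 u := fun u a1 a2 =>
    h1 u (Set.mem_univ _) (fun e _ => by cases e; exacts [a2, a1])
  refine ⟨ψ, fun u a1 a2 => ?_, h2, fun u hu => ?_⟩
  · rw [h3 u a1.ge a2.ge]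
    exact if_pos ⟨a1, a2⟩
  rcases hu with hu | hu
  · refine uniq1 (a := a) (c := c) (q := q) (T := univ) (n := h') (θ := 0)
      (Y := {u | 0 < h ⬝ᵥ hat q u}) (fun u hu j _ => ?_) (fun j _ => hh' j)
      (fun _ _ hlt => hlt.ne) (fun u hu => ?_) (fun u hu a2 => ?_) u hu
    · change 0 < h ⬝ᵥ hat q u at hu
      change 0 < h ⬝ᵥ hat q _
      rw [dot_hat_add]
      linarith [hh j]
    · rw [h2 h' u (Set.mem_univ _), hz h' u (Or.inl hu)]
    · rw [h3 u (le_of_lt hu) a2, z0 u (Or.inl hu)]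
  · refine uniq1 (a := a) (c := c) (q := q) (T := univ) (n := h) (θ := 0)
      (Y := {u | 0 < h' ⬝ᵥ hat q u}) (fun u hu j _ => ?_) (fun j _ => hh j)
      (fun _ _ hlt => hlt.ne) (fun u hu => ?_) (fun u hu a1 => ?_) u hu
    · change 0 < h' ⬝ᵥ hat q u at hu
      change 0 < h' ⬝ᵥ hat q _
      rw [dot_hat_add]
      linarith [hh' j]
    · rw [h2 h u (Set.mem_univ _), hz h u (Or.inr hu)]
    · rw [h3 u a1 (le_of_lt hu), z0 u (Or.inr hu)]

theorem ext2 (hneg : NegStmt) (hsp : SpreadStmt) : Ext2Stmt := by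
  intro κ _ _ a c q h h' E v v' s s' β β' hE hβ hβ' hh hh' hT μ hμ
  classical
  have py : Pl (Ahq a v) (Ahq a v') s s' (β • Ahq a v + β' • Ahq a v') :=
    Pl.add (Pl.smul (hE.rep v hE.mem) β) (Pl.smul (hE.rep v' hE.mem') β')
  have sy : s ⬝ᵥ (β • Ahq a v + β' • Ahq a v') = β := by
    simp [dotProduct_add, dotProduct_smul, hE.sv, hE.sv']
  have sy' : s' ⬝ᵥ (β • Ahq a v + β' • Ahq a v') = β' := by
    simp [dotProduct_add, dotProduct_smul, hE.s'v, hE.s'v']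
  have hCY : ∀ u, u ∈ CY a q E (β • Ahq a v + β' • Ahq a v') ↔
      Pl (Ahq a v) (Ahq a v') s s' (hat q u) ∧ β ≤ s ⬝ᵥ hat q u ∧ β' ≤ s' ⬝ᵥ hat q u := by
    intro u
    change InCone a E _ ↔ _
    refine ⟨fun hu => ⟨?_, ?_, ?_⟩, fun hu => ?_⟩
    · simpa using (Pl.cone hE hu).add py
    · have := hu.dot_nonneg hE.pos
      rw [dotProduct_sub, sy] at this
      linarith
    · have := hu.dot_nonneg hE.pos'
      rw [dotProduct_sub, sy'] at this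
      linarith
    · have e := hu.1.sub py
      rw [Pl, dotProduct_sub, dotProduct_sub, sy, sy'] at e
      rw [e]
      exact ((InCone.single hE.mem).smul (sub_nonneg.2 hu.2.1)).add
        ((InCone.single hE.mem').smul (sub_nonneg.2 hu.2.2))
  have hst : Stab a E {u | Pl (Ahq a v) (Ahq a v') s s' (hat q u)} := fun u hu j hj => by
    change Pl _ _ _ _ _
    rw [hat_add]
    exact Pl.add hu (hE.rep j hj)
  obtain ⟨μ', m1, m2⟩ := (hneg κ a c q E Bool Set.univ (fun b => cond b s s')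
    (fun b => cond b β β') {u | Pl (Ahq a v) (Ahq a v') s s' (hat q u)} Set.finite_univ hst
    (fun e _ j hj => by cases e; exacts [hE.pos' j hj, hE.pos j hj])
    (fun e _ u _ hlt => by
      cases e
      exacts [(lt_of_lt_of_le hlt hβ').ne, (lt_of_lt_of_le hlt hβ).ne])).1 0 μ
    (fun n m u _ => by simp)
    (fun n u hu => hμ n u ((hCY u).2 ⟨hu.1, hu.2 true (Set.mem_univ _),
      hu.2 false (Set.mem_univ _)⟩))
  obtain ⟨ψ, p1, p2, p3⟩ := hsp κ a c q h h' E hh hh' hT 0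
    (fun u => if Pl (Ahq a v) (Ahq a v') s s' (hat q u) then μ' u else 0) (fun n m u _ => by simp)
    (fun _ _ _ => rfl) (by
      intro n u _
      by_cases hu : Pl (Ahq a v) (Ahq a v') s s' (hat q u)
      · rw [Dn_congr (ψ := μ') (if_pos hu) (fun j hj => if_pos (hst u hu j hj))]
        exact m2 n u hu
      · refine Dn_eq_zero (if_neg hu) (fun j hj => if_neg (fun hc => hu ?_))
        rw [hat_add] at hc
        simpa using hc.sub (hE.rep j hj))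
  refine ⟨ψ, fun u hu => ?_, p2, p3⟩
  obtain ⟨b1, b2, b3⟩ := (hCY u).1 hu
  have z : ∀ k : Vq, k ⬝ᵥ Ahq a v = 0 → k ⬝ᵥ Ahq a v' = 0 → k ⬝ᵥ hat q u = 0 := fun k k1 k2 => by
    rw [show hat q u = _ from b1]
    simp [dotProduct_add, dotProduct_smul, k1, k2]
  rw [p1 u (z h ((hT v).1 hE.mem).1 ((hT v').1 hE.mem').1)
    (z h' ((hT v).1 hE.mem).2 ((hT v').1 hE.mem').2)]
  rw [if_pos b1]
  exact m1 u b1 (fun e _ => by cases e; exacts [b3, b2])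

end Pool.Agent.MP_5d9b3c_ag.H48
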