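import Pool.Agent.MP_5d9b3c_ag.H48.Basic

/-!
A rational series whose coefficients grow slowly in the `p`-adic norm has no pole inside the
`p`-adic disc of convergence.
-/

namespace Pool.Agent.MP_5d9b3c_ag.H48

open Finset

namespace NoPoleAux

/-- The tail identity: minus the value of the numerator is a power times a short sum. -/
lemma tail (a : ℕ → ℚ) (A B : Polynomial ℚ)
    (h : (B : PowerSeries ℚ) * PowerSeries.mk a = (A : PowerSeries ℚ)) (T : ℂ)
    (hT : Polynomial.aeval T B = 0) (M : ℕ) (hM : A.natDegree < M) :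
    -Polynomial.aeval T A = T ^ M * ∑ k ∈ range (B.natDegree + 1),
      (∑ x ∈ antidiagonal (M + k), B.coeff x.1 * (if x.2 < M then a x.2 else 0)) • T ^ k := by
  set D : Polynomial ℚ := B * PowerSeries.trunc M (PowerSeries.mk a) - A with hD
  have hdeg : D.natDegree < M + (B.natDegree + 1) := by
    obtain ⟨M', rfl⟩ : ∃ M', M = M' + 1 := ⟨M - 1, by omega⟩
    have h1 := PowerSeries.natDegree_trunc_lt (PowerSeries.mk a) M'
    have h2 := Polynomial.natDegree_mul_le (p := B)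
      (q := PowerSeries.trunc (M' + 1) (PowerSeries.mk a))
    have h3 := Polynomial.natDegree_sub_le (B * PowerSeries.trunc (M' + 1) (PowerSeries.mk a)) A
    rw [← hD] at h3
    have h4 := le_max_iff.1 h3
    omega
  have hc : ∀ n, D.coeff n =
      (∑ x ∈ antidiagonal n, B.coeff x.1 * (if x.2 < M then a x.2 else 0)) - A.coeff n := by
    intro n
    rw [hD, Polynomial.coeff_sub, Polynomial.coeff_mul]
    simp only [PowerSeries.coeff_trunc, PowerSeries.coeff_mk]
  have hlow : ∀ n ∈ range M, D.coeff n • T ^ n = 0 := by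
    intro n hn
    have hn' := mem_range.1 hn
    have h1 := congrArg (PowerSeries.coeff n) h
    rw [PowerSeries.coeff_mul, Polynomial.coeff_coe] at h1
    simp only [Polynomial.coeff_coe, PowerSeries.coeff_mk] at h1
    rw [hc, ← h1, sum_congr rfl (fun x hx => by
      rw [if_pos (by have := mem_antidiagonal.1 hx; omega)]), sub_self, zero_smul]
  have e1 : Polynomial.aeval T D = -Polynomial.aeval T A := by
    rw [hD, map_sub, map_mul, hT, zero_mul, zero_sub]
  rw [← e1, Polynomial.aeval_eq_sum_range' hdeg, sum_range_add, sum_eq_zero hlow, zero_add,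
    mul_sum]
  refine sum_congr rfl (fun k _ => ?_)
  rw [hc, Polynomial.coeff_eq_zero_of_natDegree_lt (p := A) (by omega), sub_zero, pow_add,
    mul_smul_comm]

variable {p : ℕ} [Fact p.Prime]

/-- The norm of one coefficient of the series. -/
lemma coeff_le {s j k L : ℕ} (hk : 3 * j ≤ 2 * k + 3) (hs : p ^ k ∣ s) (hj : j < 2 * L) :
    ‖(((s : ℚ) * (((p : ℚ) ^ 3)⁻¹) ^ j : ℚ) : ℚ_[p])‖ ≤ (p : ℝ) ^ (3 * L : ℤ) := by
  obtain ⟨t, rfl⟩ := hs
  have hp : (1 : ℝ) ≤ p := by exact_mod_cast (Fact.out : p.Prime).one_le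
  have hp0 : (p : ℝ) ≠ 0 := by positivity
  push_cast
  rw [norm_mul, norm_mul, norm_pow _ j, norm_inv, Padic.norm_p_pow, Padic.norm_p_pow]
  have h1 : ‖(t : ℚ_[p])‖ ≤ 1 := IsUltrametricDist.norm_natCast_le_one _ t
  have h2 : (((p : ℝ) ^ (-((3 : ℕ) : ℤ)))⁻¹) ^ j = (p : ℝ) ^ (3 * j : ℤ) := by
    rw [← zpow_neg, neg_neg, ← zpow_natCast, ← zpow_mul]
    norm_num
  rw [h2]
  calc (p : ℝ) ^ (-(k : ℤ)) * ‖(t : ℚ_[p])‖ * (p : ℝ) ^ (3 * j : ℤ)
      ≤ (p : ℝ) ^ (-(k : ℤ)) * 1 * (p : ℝ) ^ (3 * j : ℤ) := by gcongr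
    _ = (p : ℝ) ^ (-(k : ℤ) + 3 * j) := by rw [mul_one, zpow_add₀ hp0]
    _ ≤ _ := zpow_le_zpow_right₀ hp (by omega)

end NoPoleAux

open NoPoleAux in
theorem noPole : NoPoleStmt := by
  intro p hp s hs A B hAB h T N ν hT hN hTN
  have : Fact p.Prime := ⟨hp⟩
  by_contra hlt
  push Not at hlt
  have hA : Polynomial.aeval T A ≠ 0 := by
    obtain ⟨u, v, huv⟩ := hAB
    intro h0
    have := congrArg (Polynomial.aeval T) huv
    simp [h0, hT] at this
  obtain ⟨φ, hφ⟩ := Module.Projective.exists_dual_eq_one ℚ hA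
  have hp1 : (1 : ℝ) < p := by exact_mod_cast hp.one_lt
  have hp0 : (p : ℝ) ≠ 0 := by positivity
  set Cb : ℝ := ∑ i ∈ range (B.natDegree + 1), ‖((B.coeff i : ℚ) : ℚ_[p])‖ with hCb
  have hCb0 : 0 ≤ Cb := sum_nonneg (fun _ _ => norm_nonneg _)
  have hb : ∀ i, ‖((B.coeff i : ℚ) : ℚ_[p])‖ ≤ Cb := by
    intro i
    by_cases hi : i < B.natDegree + 1
    · exact single_le_sum (f := fun i => ‖((B.coeff i : ℚ) : ℚ_[p])‖)
        (fun _ _ => norm_nonneg _) (mem_range.2 hi)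
    · rw [Polynomial.coeff_eq_zero_of_natDegree_lt (by omega)]
      simpa using hCb0
  set C : ℝ := ∑ k ∈ range (B.natDegree + 1), Cb * ‖((φ (T ^ k) : ℚ) : ℚ_[p])‖ with hC
  have key : ∀ r : ℕ, A.natDegree < r → (p : ℝ) ^ r ≤ C := by
    intro r hr
    have hM : A.natDegree < 2 * (N * r) := by nlinarith
    have h1 := tail _ A B h T hT _ hM
    have h2 : T ^ (2 * (N * r)) = (((p : ℚ) ^ (ν * (2 * r)) : ℚ) : ℂ) := by
      rw [show 2 * (N * r) = N * (2 * r) by ring, pow_mul, hTN, ← zpow_natCast, ← zpow_mul]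
      push_cast
      rfl
    rw [h2, ← Rat.smul_def] at h1
    have h3 := congrArg φ h1
    rw [map_neg, hφ, map_smul, map_sum] at h3
    simp only [map_smul, smul_eq_mul] at h3
    have h4 := congrArg (fun x : ℚ => ‖(x : ℚ_[p])‖) h3
    simp only [Rat.cast_neg, Rat.cast_one, norm_neg, norm_one, Rat.cast_mul, norm_mul,
      Rat.cast_zpow, Rat.cast_natCast, Padic.norm_p_zpow] at h4
    have h5 : ‖((∑ k ∈ range (B.natDegree + 1), (∑ x ∈ antidiagonal (2 * (N * r) + k),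
        B.coeff x.1 * (if x.2 < 2 * (N * r) then (s x.2 : ℚ) * (((p : ℚ) ^ 3)⁻¹) ^ x.2 else 0)) *
        φ (T ^ k) : ℚ) : ℚ_[p])‖ ≤ (p : ℝ) ^ (3 * (N * r : ℕ) : ℤ) * C := by
      rw [Rat.cast_sum, hC, mul_sum]
      refine (norm_sum_le _ _).trans (sum_le_sum (fun k _ => ?_))
      rw [Rat.cast_mul, norm_mul, ← mul_assoc _ Cb]
      refine mul_le_mul_of_nonneg_right ?_ (norm_nonneg _)
      rw [Rat.cast_sum]
      refine IsUltrametricDist.norm_sum_le_of_forall_le_of_nonneg (by positivity) (fun x _ => ?_)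
      rw [Rat.cast_mul, norm_mul, mul_comm]
      refine mul_le_mul ?_ (hb _) (norm_nonneg _) (by positivity)
      split_ifs with hx
      · obtain ⟨k, hk, hk'⟩ := hs x.2
        exact coeff_le hk hk' hx
      · simp only [Rat.cast_zero, norm_zero]
        positivity
    have h6 : (1 : ℝ) ≤ (p : ℝ) ^ (-(ν * (2 * r))) * ((p : ℝ) ^ (3 * (N * r : ℕ) : ℤ) * C) := by
      rw [h4]
      gcongr
    rw [← mul_assoc, ← zpow_add₀ hp0] at h6
    have hC0 : 0 ≤ C := sum_nonneg (fun _ _ => by positivity)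
    have h7 : (p : ℝ) ^ (-(ν * (2 * r)) + 3 * (N * r : ℕ) : ℤ) ≤ (p : ℝ) ^ (-(r : ℤ)) := by
      refine zpow_le_zpow_right₀ hp1.le ?_
      push_cast
      nlinarith [Int.natCast_nonneg r]
    have h8 : (1 : ℝ) ≤ (p : ℝ) ^ (-(r : ℤ)) * C := h6.trans (by gcongr)
    rw [zpow_neg, zpow_natCast, ← div_eq_inv_mul, le_div_iff₀ (by positivity), one_mul] at h8
    exact h8
  obtain ⟨r, hr⟩ := ((tendsto_pow_atTop_atTop_of_one_lt hp1).eventually_gt_atTop C).and
    (Filter.eventually_gt_atTop A.natDegree) |>.exists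
  exact absurd (key r hr.2) (not_le.2 hr.1)

end Pool.Agent.MP_5d9b3c_ag.H48
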