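import Pool.Agent.MP_5d9b3c_ag.H48.Basic

/-!
Solutions on the cone over a facet and on its layer.
-/

namespace Pool.Agent.MP_5d9b3c_ag.H48

open Finset Pool.Agent.MP_5d9b3c_ag.H22

variable {κ : Type} [Fintype κ] [DecidableEq κ] {a : κ → Fin 3 →₀ ℕ} {c : κ → ℂ} {q : Vq}
  {T : Finset κ} {w : V3}

omit [Fintype κ] [DecidableEq κ] in
lemma OnPl.hw_zero (h : OnPl a T w) {j : κ} (hj : j ∈ T) : hw w ⬝ᵥ Ahq a j = 0 := by
  rw [hw_Ahq, h j hj, sub_self]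

omit [Fintype κ] [DecidableEq κ] in
lemma OnPl.cone_zero (h : OnPl a T w) {x : Vq} (hx : InCone a T x) : hw w ⬝ᵥ x = 0 :=
  hx.dot_zero (fun _ hj => h.hw_zero hj)

omit [Fintype κ] [DecidableEq κ] in
lemma OnPl.CY_zero (h : OnPl a T w) {y : Vq} (hy : hw w ⬝ᵥ y = 0) {u : Pt}
    (hu : u ∈ CY a q T y) : hw w ⬝ᵥ hat q u = 0 := by
  have := h.cone_zero hu
  rwa [dotProduct_sub, hy, sub_zero] at this

omit [Fintype κ] [DecidableEq κ] in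
lemma Span.ann (h : Span a T) (hw' : OnPl a T w) {m : Vq} (hm : ∀ j ∈ T, m ⬝ᵥ Ahq a j = 0) :
    m = (-m none) • hw w := by
  have h1 := h (fun i => m (some i) + m none * w i) (fun j hj => by
    have := hm j hj
    rw [eq_lin m w, sub_dotProduct, smul_dotProduct, hw'.hw_zero hj, lin_Ahq] at this
    simpa using this)
  have h2 := eq_lin m w
  rw [h1] at h2
  rw [h2]
  ext (_ | i) <;> simp [lin, hw]

lemma plane_rep (w : V3) {x : Vq} (hx : hw w ⬝ᵥ x = 0) :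
    x = ∑ i : Fin 3, (ei (some i) ⬝ᵥ x) • (ei (some i) + w i • ei none) := by
  rw [hw_dot, sub_eq_zero] at hx
  ext (_ | k)
  · rw [← hx]
    simp [ei, Finset.sum_apply, dotProduct, mul_comm, Pi.single_apply]
  · simp [ei, Finset.sum_apply, Pi.single_apply]

lemma cone3 (hK : Kosz3Stmt) (hC : ConeStmt) (ha : Function.Injective a) (hw' : OnPl a T w)
    (hs : Span a T) (hf : FaceND a c T) {y : Vq} (hy : hw w ⬝ᵥ y = 0) :
    (∀ ω : Vq → Pt → ℂ, IsLin ω → Clo a c q T (CY a q T y) ω →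
      (∀ u ∈ CY a q T y, ω (hw w) u = 0) → ∃ φ : Pt → ℂ, Solves a c q T (CY a q T y) φ ω) ∧
    (NotIn (F3 a c T) (CY a q T y) →
      ∃ φ : Pt → ℂ, Solves a c q T (CY a q T y) φ 0 ∧ φ 0 ≠ 0) := by
  obtain ⟨h1, h2⟩ := hC κ a c q y T (Fin 3) (fun i => ei (some i))
    (fun i => ei (some i) + w i • ei none) (fun j hj => plane_rep w (hw'.hw_zero hj))
    (plane_rep w hy) (hK κ a c T w ha hw' hs hf q y)
  refine ⟨fun ω hl hc h0 => h1 ω hl hc (fun m hm _ u hu => ?_), h2⟩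
  rw [hs.ann hw' hm, hl.2, h0 u hu, mul_zero]

lemma cone2 (hK : Kosz2Stmt) (hC : ConeStmt) {E : Finset κ} {v v' : κ} {s s' : Vq}
    (he : Edge a E v v' s s') (hf : FaceND a c E) {ω : Vq → Pt → ℂ} (hl : IsLin ω)
    (hc : Clo a c q E (CY a q E 0) ω)
    (h0 : ∀ m : Vq, (∀ j ∈ E, m ⬝ᵥ Ahq a j = 0) → ∀ u ∈ CY a q E 0, ω m u = 0) :
    ∃ φ : Pt → ℂ, Solves a c q E (CY a q E 0) φ ω :=
  (hC κ a c q 0 E (Fin 2) ![s, s'] ![Ahq a v, Ahq a v']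
    (fun j hj => by simpa [Fin.sum_univ_two] using he.rep j hj) (by simp)
    (hK κ a c E v v' s s' he hf q 0)).1 ω hl hc (fun m hm _ => h0 m hm)

lemma mem_CY_iff (hW : WallStmt) (ha : Function.Injective a) (hw' : OnPl a T w) (hs : Span a T)
    {y : Vq} (hy : hw w ⬝ᵥ y = 0) {u : Pt} (hu : hw w ⬝ᵥ hat q u = 0) :
    u ∈ CY a q T y ↔ ∀ g ∈ {g | IsWall a T g}, lin g ⬝ᵥ y ≤ lin g ⬝ᵥ hat q u := by
  refine ⟨fun h g hg => ?_, fun h => (hW κ a T w ha hw' hs).2 _ ?_ (fun g hg => ?_)⟩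
  · have := InCone.dot_nonneg h (n := lin g) (fun j hj => by rw [lin_Ahq]; exact hg.1 j hj)
    rwa [dotProduct_sub, sub_nonneg] at this
  · rw [dotProduct_sub, hy, hu, sub_self]
  · rw [dotProduct_sub, sub_nonneg]
    exact h g hg

/-- Extension and uniqueness across the walls. -/
lemma neg3 (hW : WallStmt) (hN : NegStmt) (ha : Function.Injective a) (hw' : OnPl a T w)
    (hs : Span a T) {y : Vq} (hy : hw w ⬝ᵥ y = 0) {Y : Set Pt} (hY : Stab a T Y)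
    (hY0 : ∀ u ∈ Y, hw w ⬝ᵥ hat q u = 0)
    (hne : ∀ g, IsWall a T g → ∀ u ∈ Y, lin g ⬝ᵥ hat q u < lin g ⬝ᵥ y → lin g ⬝ᵥ hat q u ≠ 0) :
    (∀ (ω : Vq → Pt → ℂ) (φ : Pt → ℂ), Clo a c q T Y ω → Solves a c q T (CY a q T y) φ ω →
      ∃ ψ : Pt → ℂ, (∀ u ∈ Y, u ∈ CY a q T y → ψ u = φ u) ∧ Solves a c q T Y ψ ω) ∧
    ∀ ψ : Pt → ℂ, Solves a c q T Y ψ 0 → (∀ u ∈ Y, u ∈ CY a q T y → ψ u = 0) →
      ∀ u ∈ Y, ψ u = 0 := by
  obtain ⟨h1, h2⟩ := hN κ a c q T V3 {g | IsWall a T g} lin (fun g => lin g ⬝ᵥ y) Y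
    (hW κ a T w ha hw' hs).1 hY (fun g hg j hj => by rw [lin_Ahq]; exact hg.1 j hj) hne
  refine ⟨fun ω φ hc hφ => ?_, fun ψ hψ h0 => h2 ψ hψ (fun u hu h =>
    h0 u hu ((mem_CY_iff hW ha hw' hs hy (hY0 u hu)).2 h))⟩
  obtain ⟨ψ, h3, h4⟩ := h1 ω φ hc (fun n u hu =>
    hφ n u ((mem_CY_iff hW ha hw' hs hy (hY0 u hu.1)).2 hu.2))
  exact ⟨ψ, fun u hu h => h3 u hu ((mem_CY_iff hW ha hw' hs hy (hY0 u hu)).1 h), h4⟩

omit [Fintype κ] [DecidableEq κ] in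
lemma stab_layer (hw' : OnPl a T w) : Stab a T {u | hw w ⬝ᵥ hat q u = 0} := fun u hu j hj => by
  change hw w ⬝ᵥ _ = 0
  rw [dot_hat_add, hw'.hw_zero hj, add_zero]
  exact hu

omit [DecidableEq κ] in
/-- On the layer only the monomials of the facet act on functions supported below it. -/
lemma Dn_layer (hw' : Supp a w) {φ : Pt → ℂ} (hφ : ∀ u, 0 < hw w ⬝ᵥ hat q u → φ u = 0) {u : Pt}
    (hu : hw w ⬝ᵥ hat q u = 0) (n : Vq) :
    Dn a c q univ n φ u = Dn a c q (Tw a w) n φ u := by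
  refine Dn_subset (subset_univ _) (fun j _ hj => hφ _ ?_)
  rw [dot_hat_add, hu, zero_add]
  exact lt_of_le_of_ne (hw'.hw_nonneg j) (fun h => hj (mem_Tw'.2 h.symm))

/-- Spreading from the layer of one weight. -/
lemma spread1 (hS : SpreadStmt) (hw' : Supp a w) {ω : Vq → Pt → ℂ} {φ : Pt → ℂ}
    (hc : Clo a c q univ Set.univ ω) (h0 : ∀ n u, 0 < hw w ⬝ᵥ hat q u → ω n u = 0)
    (hφ : Solves a c q (Tw a w) {u | hw w ⬝ᵥ hat q u = 0} φ ω) :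
    ∃ ψ : Pt → ℂ, (∀ u, hw w ⬝ᵥ hat q u = 0 → ψ u = φ u) ∧ Solves a c q univ Set.univ ψ ω ∧
      ∀ u, 0 < hw w ⬝ᵥ hat q u → ψ u = 0 := by
  obtain ⟨ψ, h1, h2, h3⟩ := hS κ a c q (hw w) (hw w) (Tw a w) hw'.hw_nonneg hw'.hw_nonneg
    (fun j => by rw [and_self, mem_Tw']) ω φ hc (fun n u h => h0 n u (h.elim id id))
    (fun n u hu => hφ n u hu.1)
  exact ⟨ψ, fun u hu => h1 u hu hu, h2, fun u hu => h3 u (Or.inl hu)⟩

theorem sol3 (hK : Kosz3Stmt) (hC : ConeStmt) (hW : WallStmt) (hN : NegStmt) (hS : SpreadStmt) :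
    Sol3Stmt := by
  intro κ _ _ a c w q ha hnd hpos hw' hs ω hl hc h0 h1
  have hpl := onPl_Tw (a := a) w
  have hz : hw w ⬝ᵥ (0 : Vq) = 0 := dotProduct_zero _
  have hc' : Clo a c q (Tw a w) {u | hw w ⬝ᵥ hat q u = 0} ω := fun n m u hu => by
    rw [← Dn_layer hw' (h0 m) hu, ← Dn_layer hw' (h0 n) hu]
    exact hc n m u trivial
  obtain ⟨φ, hφ⟩ := (cone3 (q := q) hK hC ha hpl hs (hnd.faceND hw' hpos) hz).1 ω hl
    (fun n m u hu => hc' n m u (hpl.CY_zero hz hu)) (fun u hu => h1 u (hpl.CY_zero hz hu))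
  obtain ⟨ψ, _, hψ⟩ := (neg3 (c := c) hW hN ha hpl hs hz (stab_layer hpl) (fun u hu => hu)
    (fun g _ u _ h => by rw [dotProduct_zero] at h; exact h.ne)).1 ω φ hc' hφ
  obtain ⟨χ, _, h2, h3⟩ := spread1 hS hw' hc h0 hψ
  exact ⟨χ, h2, h3⟩

end Pool.Agent.MP_5d9b3c_ag.H48
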