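import Pool.Agent.MP_5d9b3c_ag.H22.Geom

/-!
Nondegenerate polynomials in three variables: definitions and the statements of the steps.
-/

namespace Pool.Agent.MP_5d9b3c_ag.H48

open Finset Pool.Agent.MP_5d9b3c_ag.H22

/-- The four coordinates: `none` is the degree, `some i` the exponent of `x_i`. -/
abbrev O : Type := Option (Fin 3)

/-- Lattice points. -/
abbrev Pt : Type := O → ℤ

/-- Rational vectors and functionals in dimension four. -/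
abbrev Vq : Type := O → ℚ

/-- Rational vectors and functionals in dimension three. -/
abbrev V3 : Type := Fin 3 → ℚ

section Defs

variable {κ : Type} [Fintype κ] [DecidableEq κ]

/-- The exponent with a leading one, as a lattice point. -/
def Ah (a : κ → Fin 3 →₀ ℕ) (j : κ) : Pt := fun i => (Aof a j i : ℤ)

/-- The exponent with a leading one, as a rational vector. -/
def Ahq (a : κ → Fin 3 →₀ ℕ) (j : κ) : Vq := fun i => (Aof a j i : ℚ)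

/-- The exponent as a rational vector. -/
def Aq (a : κ → Fin 3 →₀ ℕ) (j : κ) : V3 := fun i => (a j i : ℚ)

/-- The shifted lattice point. -/
def hat (q : Vq) (u : Pt) : Vq := fun i => (u i : ℚ) + q i

/-- The coordinate functional. -/
def ei (i : O) : Vq := Pi.single i 1

/-- The vector with degree `l` and exponent `x`. -/
def qq (l : ℚ) (x : V3) : Vq := fun o => o.elim l x

/-- The functional `w · x - degree`. -/
def hw (w : V3) : Vq := qq (-1) w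

/-- The functional `g · x`. -/
def lin (g : V3) : Vq := qq 0 g

/-- The vector `(1, 1, 1)`. -/
def one3 : V3 := fun _ => 1

/-- The twisted difference operator in the direction `n`, for the monomials in `T`. -/
noncomputable def Dn (a : κ → Fin 3 →₀ ℕ) (c : κ → ℂ) (q : Vq) (T : Finset κ) (n : Vq)
    (φ : Pt → ℂ) (u : Pt) : ℂ :=
  ((n ⬝ᵥ hat q u : ℚ) : ℂ) * φ u + ∑ j ∈ T, c j * ((n ⬝ᵥ Ahq a j : ℚ) : ℂ) * φ (u + Ah a j)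

/-- The set is stable under the monomials in `T`. -/
def Stab (a : κ → Fin 3 →₀ ℕ) (T : Finset κ) (Y : Set Pt) : Prop :=
  ∀ u ∈ Y, ∀ j ∈ T, u + Ah a j ∈ Y

/-- `φ` is a primitive of `ω` on `Y`. -/
def Solves (a : κ → Fin 3 →₀ ℕ) (c : κ → ℂ) (q : Vq) (T : Finset κ) (Y : Set Pt) (φ : Pt → ℂ)
    (ω : Vq → Pt → ℂ) : Prop :=
  ∀ n, ∀ u ∈ Y, Dn a c q T n φ u = ω n u

/-- `ω` is closed on `Y`. -/
def Clo (a : κ → Fin 3 →₀ ℕ) (c : κ → ℂ) (q : Vq) (T : Finset κ) (Y : Set Pt)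
    (ω : Vq → Pt → ℂ) : Prop :=
  ∀ n m, ∀ u ∈ Y, Dn a c q T n (ω m) u = Dn a c q T m (ω n) u

/-- `ω` is linear in the direction. -/
def IsLin (ω : Vq → Pt → ℂ) : Prop :=
  (∀ n m u, ω (n + m) u = ω n u + ω m u) ∧ ∀ (r : ℚ) n u, ω (r • n) u = (r : ℂ) * ω n u

/-- A supporting weight of the Newton polyhedron at level one. -/
def Supp (a : κ → Fin 3 →₀ ℕ) (w : V3) : Prop := (∀ i, 0 ≤ w i) ∧ ∀ j, 1 ≤ w ⬝ᵥ Aq a j

/-- The monomials of weight one. -/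
def Tw (a : κ → Fin 3 →₀ ℕ) (w : V3) : Finset κ := univ.filter (fun j => w ⬝ᵥ Aq a j = 1)

/-- Nondegeneracy along the faces of positive level. -/
def NDeg (a : κ → Fin 3 →₀ ℕ) (c : κ → ℂ) : Prop :=
  ∀ w, Supp a w → (Tw a w).Nonempty → ND (Aof a) c (Tw a w)

/-- The monomials of `T` on which `n` vanishes. -/
def Zr (a : κ → Fin 3 →₀ ℕ) (T : Finset κ) (n : Vq) : Finset κ :=
  T.filter (fun j => n ⬝ᵥ Ahq a j = 0)

/-- Nondegeneracy along all faces of the convex hull of `T`. -/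
def FaceND (a : κ → Fin 3 →₀ ℕ) (c : κ → ℂ) (T : Finset κ) : Prop :=
  ∀ n : Vq, (∀ j ∈ T, 0 ≤ n ⬝ᵥ Ahq a j) → (Zr a T n).Nonempty → ND (Aof a) c (Zr a T n)

/-- The functional equation. -/
def BEq (a : κ → Fin 3 →₀ ℕ) (c : κ → ℂ) (b : Polynomial ℂ) : Prop :=
  ∃ (d : ℕ) (P : ℕ → Module.End ℂ (MvPolynomial (Fin 3) ℂ)), (∀ t, P t ∈ WW (Fin 3)) ∧
    ∀ m : ℕ, ∑ t ∈ range d, (m : ℂ) ^ t •
      P t ((∑ j, MvPolynomial.monomial (a j) (c j)) ^ (m + 1)) =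
      b.eval (m : ℂ) • (∑ j, MvPolynomial.monomial (a j) (c j)) ^ m

/-- The cone over `T`. -/
def InCone (a : κ → Fin 3 →₀ ℕ) (T : Finset κ) (x : Vq) : Prop :=
  ∃ s : κ → ℚ, (∀ j, 0 ≤ s j) ∧ x = ∑ j ∈ T, s j • Ahq a j

/-- The lattice points of the shifted cone. -/
def CY (a : κ → Fin 3 →₀ ℕ) (q : Vq) (T : Finset κ) (y : Vq) : Set Pt :=
  {u | InCone a T (hat q u - y)}

/-- The monoid generated by `T`. -/
def Mon (a : κ → Fin 3 →₀ ℕ) (T : Finset κ) : Set Pt :=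
  {u | ∃ k : κ → ℕ, u = ∑ j ∈ T, k j • Ah a j}

/-- The logarithmic derivative in the direction `n`, in the group algebra. -/
noncomputable def Fop (a : κ → Fin 3 →₀ ℕ) (c : κ → ℂ) (T : Finset κ) (n : Vq) : RR O :=
  ∑ j ∈ T, (c j * ((n ⬝ᵥ Ahq a j : ℚ) : ℂ)) • U (Ah a j)

/-- The element is supported in `Y`. -/
def SuppIn (Y : Set Pt) (e : RR O) : Prop := ∀ u, e.coeff u ≠ 0 → u ∈ Y

/-- Relations with coefficients supported in `Y` are trivial. -/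
def KoszOn {ι : Type} [Fintype ι] (F : ι → RR O) (Y : Set Pt) : Prop :=
  ∀ e : ι → RR O, (∀ i, SuppIn Y (e i)) → ∑ i, F i * e i = 0 →
    ∃ h : ι → ι → RR O, (∀ i k, SuppIn Y (h i k)) ∧ (∀ i k, h i k = -h k i) ∧
      ∀ i, e i = ∑ k, F k * h i k

/-- The origin is not a combination of the `F i` with coefficients one level below. -/
def NotIn {ι : Type} [Fintype ι] (F : ι → RR O) (Y : Set Pt) : Prop :=
  ¬ ∃ e : ι → RR O, (∀ i, SuppIn {u | u ∈ Y ∧ u none = -1} (e i)) ∧ ∑ i, F i * e i = 1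

/-- The three operators of a facet. -/
noncomputable def F3 (a : κ → Fin 3 →₀ ℕ) (c : κ → ℂ) (T : Finset κ) : Fin 3 → RR O :=
  fun i => Fop a c T (ei (some i))

/-- The exponents in `T` span the space. -/
def Span (a : κ → Fin 3 →₀ ℕ) (T : Finset κ) : Prop :=
  ∀ d : V3, (∀ j ∈ T, d ⬝ᵥ Aq a j = 0) → d = 0

/-- The exponents in `T` lie in the plane of weight one. -/
def OnPl (a : κ → Fin 3 →₀ ℕ) (T : Finset κ) (w : V3) : Prop := ∀ j ∈ T, w ⬝ᵥ Aq a j = 1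

/-- A normalised wall of the cone over `T`. -/
def IsWall (a : κ → Fin 3 →₀ ℕ) (T : Finset κ) (g : V3) : Prop :=
  (∀ j ∈ T, 0 ≤ g ⬝ᵥ Aq a j) ∧ ∑ j ∈ T, g ⬝ᵥ Aq a j = 1 ∧
    ∃ j ∈ T, ∃ j' ∈ T, j ≠ j' ∧ g ⬝ᵥ Aq a j = 0 ∧ g ⬝ᵥ Aq a j' = 0

/-- `E` lies on the segment from `v` to `v'`, with barycentric coordinates `s`, `s'`. -/
structure Edge (a : κ → Fin 3 →₀ ℕ) (E : Finset κ) (v v' : κ) (s s' : Vq) : Prop where
  mem : v ∈ E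
  mem' : v' ∈ E
  sv : s ⬝ᵥ Ahq a v = 1
  sv' : s ⬝ᵥ Ahq a v' = 0
  s'v : s' ⬝ᵥ Ahq a v = 0
  s'v' : s' ⬝ᵥ Ahq a v' = 1
  rep : ∀ j ∈ E, Ahq a j = (s ⬝ᵥ Ahq a j) • Ahq a v + (s' ⬝ᵥ Ahq a j) • Ahq a v'
  pos : ∀ j ∈ E, 0 ≤ s ⬝ᵥ Ahq a j
  pos' : ∀ j ∈ E, 0 ≤ s' ⬝ᵥ Ahq a j

/-- Exactly one monomial of `T` contains `x_i`, and it does so linearly. -/
def Apex (a : κ → Fin 3 →₀ ℕ) (T : Finset κ) (i : Fin 3) : Prop :=
  ∃ A ∈ T, a A i = 1 ∧ ∀ B ∈ T, B ≠ A → a B i = 0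

/-- The face of `w` is a pyramid of height one over the coordinate plane `x_i = 0`. -/
def B1 (a : κ → Fin 3 →₀ ℕ) (w : V3) (i : Fin 3) : Prop := 0 < w i ∧ Apex a (Tw a w) i

/-- The face of `w` is a facet. -/
def Rigid (a : κ → Fin 3 →₀ ℕ) (w : V3) : Prop :=
  ∀ d : V3, (∀ i, w i = 0 → d i = 0) → (∀ j ∈ Tw a w, d ⬝ᵥ Aq a j = 0) → d = 0

/-- Two monomials of `T` do not contain `x_i`. -/
def CoordWall (a : κ → Fin 3 →₀ ℕ) (T : Finset κ) (i : Fin 3) : Prop :=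
  ∃ j ∈ T, ∃ j' ∈ T, j ≠ j' ∧ a j i = 0 ∧ a j' i = 0

/-- A point of the cone of degree at most one that is not a logarithmic derivative. -/
def GoodT (a : κ → Fin 3 →₀ ℕ) (T : Finset κ) (t : Vq) : Prop :=
  InCone a T t ∧ t none ≤ 1 ∧ ∀ j ∈ T, t = Ahq a j → Span a (T.erase j)

/-- `w` is the normal of a neighbouring facet: unbounded, or bounded. -/
def Nbr (a : κ → Fin 3 →₀ ℕ) (w : V3) : Prop :=
  Supp a w ∧ ((∃ i, w i = 0) ∨ ((∀ i, 0 < w i) ∧ Span a (Tw a w)))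

end Defs

/-- Extension and uniqueness across non-resonant layers. -/
def NegStmt : Prop :=
  ∀ (κ : Type) [Fintype κ] [DecidableEq κ] (a : κ → Fin 3 →₀ ℕ) (c : κ → ℂ) (q : Vq)
    (T : Finset κ) (E : Type) (S : Set E) (n : E → Vq) (θ : E → ℚ) (Y : Set Pt),
    S.Finite → Stab a T Y → (∀ e ∈ S, ∀ j ∈ T, 0 ≤ n e ⬝ᵥ Ahq a j) →
    (∀ e ∈ S, ∀ u ∈ Y, n e ⬝ᵥ hat q u < θ e → n e ⬝ᵥ hat q u ≠ 0) →
    (∀ (ω : Vq → Pt → ℂ) (φ : Pt → ℂ), Clo a c q T Y ω →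
      Solves a c q T {u | u ∈ Y ∧ ∀ e ∈ S, θ e ≤ n e ⬝ᵥ hat q u} φ ω →
      ∃ ψ : Pt → ℂ, (∀ u ∈ Y, (∀ e ∈ S, θ e ≤ n e ⬝ᵥ hat q u) → ψ u = φ u) ∧
        Solves a c q T Y ψ ω) ∧
    ∀ ψ : Pt → ℂ, Solves a c q T Y ψ 0 →
      (∀ u ∈ Y, (∀ e ∈ S, θ e ≤ n e ⬝ᵥ hat q u) → ψ u = 0) → ∀ u ∈ Y, ψ u = 0

/-- From the layer of a face to the whole lattice. -/
def SpreadStmt : Prop :=
  ∀ (κ : Type) [Fintype κ] [DecidableEq κ] (a : κ → Fin 3 →₀ ℕ) (c : κ → ℂ) (q h h' : Vq)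
    (T : Finset κ), (∀ j, 0 ≤ h ⬝ᵥ Ahq a j) → (∀ j, 0 ≤ h' ⬝ᵥ Ahq a j) →
    (∀ j, j ∈ T ↔ h ⬝ᵥ Ahq a j = 0 ∧ h' ⬝ᵥ Ahq a j = 0) →
    ∀ (ω : Vq → Pt → ℂ) (φ : Pt → ℂ), Clo a c q univ Set.univ ω →
    (∀ n u, 0 < h ⬝ᵥ hat q u ∨ 0 < h' ⬝ᵥ hat q u → ω n u = 0) →
    Solves a c q T {u | h ⬝ᵥ hat q u = 0 ∧ h' ⬝ᵥ hat q u = 0} φ ω →
    ∃ ψ : Pt → ℂ, (∀ u, h ⬝ᵥ hat q u = 0 → h' ⬝ᵥ hat q u = 0 → ψ u = φ u) ∧
      Solves a c q univ Set.univ ψ ω ∧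
      ∀ u, 0 < h ⬝ᵥ hat q u ∨ 0 < h' ⬝ᵥ hat q u → ψ u = 0

/-- From the cone over an edge to the whole lattice. -/
def Ext2Stmt : Prop :=
  ∀ (κ : Type) [Fintype κ] [DecidableEq κ] (a : κ → Fin 3 →₀ ℕ) (c : κ → ℂ) (q h h' : Vq)
    (E : Finset κ) (v v' : κ) (s s' : Vq) (β β' : ℚ), Edge a E v v' s s' → β ≤ 0 → β' ≤ 0 →
    (∀ j, 0 ≤ h ⬝ᵥ Ahq a j) → (∀ j, 0 ≤ h' ⬝ᵥ Ahq a j) →
    (∀ j, j ∈ E ↔ h ⬝ᵥ Ahq a j = 0 ∧ h' ⬝ᵥ Ahq a j = 0) →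
    ∀ μ : Pt → ℂ, Solves a c q E (CY a q E (β • Ahq a v + β' • Ahq a v')) μ 0 →
    ∃ ψ : Pt → ℂ, (∀ u ∈ CY a q E (β • Ahq a v + β' • Ahq a v'), ψ u = μ u) ∧
      Solves a c q univ Set.univ ψ 0 ∧
      ∀ u, 0 < h ⬝ᵥ hat q u ∨ 0 < h' ⬝ᵥ hat q u → ψ u = 0

/-- Solutions on a shifted cone. -/
def ConeStmt : Prop :=
  ∀ (κ : Type) [Fintype κ] [DecidableEq κ] (a : κ → Fin 3 →₀ ℕ) (c : κ → ℂ) (q y : Vq)
    (T : Finset κ) (ι : Type) [Fintype ι] [DecidableEq ι] (n d : ι → Vq),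
    (∀ j ∈ T, Ahq a j = ∑ i, (n i ⬝ᵥ Ahq a j) • d i) → y = ∑ i, (n i ⬝ᵥ y) • d i →
    KoszOn (fun i => Fop a c T (n i)) (CY a q T y) →
    (∀ ω : Vq → Pt → ℂ, IsLin ω → Clo a c q T (CY a q T y) ω →
      (∀ m : Vq, (∀ j ∈ T, m ⬝ᵥ Ahq a j = 0) → m ⬝ᵥ y = 0 → ∀ u ∈ CY a q T y, ω m u = 0) →
      ∃ φ : Pt → ℂ, Solves a c q T (CY a q T y) φ ω) ∧
    (NotIn (fun i => Fop a c T (n i)) (CY a q T y) →
      ∃ φ : Pt → ℂ, Solves a c q T (CY a q T y) φ 0 ∧ φ 0 ≠ 0)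

/-- The Nullstellensatz in the monoid algebra. -/
def NSStmt : Prop :=
  ∀ (κ : Type) [Fintype κ] [DecidableEq κ] (a : κ → Fin 3 →₀ ℕ) (c : κ → ℂ) (T : Finset κ),
    FaceND a c T → ∀ v ∈ T, ∃ (K : ℕ) (G : O → RR O), (∀ i, SuppIn (Mon a T) (G i)) ∧
      U (K • Ah a v) = ∑ i, Fop a c T (ei i) * G i

/-- The walls: finiteness and description of the cone by its walls. -/
def WallStmt : Prop :=
  ∀ (κ : Type) [Fintype κ] [DecidableEq κ] (a : κ → Fin 3 →₀ ℕ) (T : Finset κ) (w : V3),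
    Function.Injective a → OnPl a T w → Span a T →
    {g | IsWall a T g}.Finite ∧
    ∀ x : Vq, hw w ⬝ᵥ x = 0 → (∀ g, IsWall a T g → 0 ≤ lin g ⬝ᵥ x) → InCone a T x

/-- The walls violated by a point are connected. -/
def ConStmt : Prop :=
  ∀ (κ : Type) [Fintype κ] [DecidableEq κ] (a : κ → Fin 3 →₀ ℕ) (T : Finset κ) (w : V3),
    Function.Injective a → OnPl a T w → Span a T → ∀ (y g g' : V3),
    IsWall a T g → IsWall a T g' → g ⬝ᵥ y < 0 → g' ⬝ᵥ y < 0 →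
    Relation.ReflTransGen (fun g1 g2 : V3 => IsWall a T g1 ∧ IsWall a T g2 ∧ g1 ⬝ᵥ y < 0 ∧
      g2 ⬝ᵥ y < 0 ∧ ∃ j ∈ T, g1 ⬝ᵥ Aq a j = 0 ∧ g2 ⬝ᵥ Aq a j = 0) g g'

/-- Collinear points form an edge. -/
def EdgeStmt : Prop :=
  ∀ (κ : Type) [Fintype κ] [DecidableEq κ] (a : κ → Fin 3 →₀ ℕ) (E : Finset κ) (w g : V3),
    Function.Injective a → OnPl a E w → g ≠ 0 → (∀ j ∈ E, g ⬝ᵥ Aq a j = 0) →
    (∃ j ∈ E, ∃ j' ∈ E, j ≠ j') → ∃ v v' s s', Edge a E v v' s s'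

/-- The neighbour across a wall that is not a coordinate plane. -/
def NbrStmt : Prop :=
  ∀ (κ : Type) [Fintype κ] [DecidableEq κ] (a : κ → Fin 3 →₀ ℕ) (w g : V3),
    Function.Injective a → (∀ i, 0 < w i) → Supp a w → IsWall a (Tw a w) g → (∃ i, g i < 0) →
    ∃ θ : ℚ, 0 < θ ∧ Nbr a (w + θ • g)

/-- Syzygies on the cone over a facet. -/
def Kosz3Stmt : Prop :=
  ∀ (κ : Type) [Fintype κ] [DecidableEq κ] (a : κ → Fin 3 →₀ ℕ) (c : κ → ℂ) (T : Finset κ)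
    (w : V3), Function.Injective a → OnPl a T w → Span a T → FaceND a c T →
    ∀ q y : Vq, KoszOn (F3 a c T) (CY a q T y)

/-- Syzygies on the cone over an edge. -/
def Kosz2Stmt : Prop :=
  ∀ (κ : Type) [Fintype κ] [DecidableEq κ] (a : κ → Fin 3 →₀ ℕ) (c : κ → ℂ) (E : Finset κ)
    (v v' : κ) (s s' : Vq), Edge a E v v' s s' → FaceND a c E →
    ∀ q y : Vq, KoszOn (fun i : Fin 2 => Fop a c E (![s, s'] i)) (CY a q E y)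

/-- Primitives supported below a bounded facet. -/
def Sol3Stmt : Prop :=
  ∀ (κ : Type) [Fintype κ] [DecidableEq κ] (a : κ → Fin 3 →₀ ℕ) (c : κ → ℂ) (w : V3) (q : Vq),
    Function.Injective a → NDeg a c → (∀ i, 0 < w i) → Supp a w → Span a (Tw a w) →
    ∀ ω : Vq → Pt → ℂ, IsLin ω → Clo a c q univ Set.univ ω →
    (∀ n u, 0 < hw w ⬝ᵥ hat q u → ω n u = 0) → (∀ u, hw w ⬝ᵥ hat q u = 0 → ω (hw w) u = 0) →
    ∃ ψ : Pt → ℂ, Solves a c q univ Set.univ ψ ω ∧ ∀ u, 0 < hw w ⬝ᵥ hat q u → ψ u = 0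

/-- A second order solution that vanishes one level below gives a root. -/
def SVStmt : Prop :=
  ∀ (κ : Type) [Fintype κ] [DecidableEq κ] (a : κ → Fin 3 →₀ ℕ) (c : κ → ℂ) (b : Polynomial ℂ),
    BEq a c b → ∀ (q : Vq) (I : Finset (Fin 3)), (∀ i ∈ I, q (some i) = 1) → ∀ ψ : Pt → ℂ,
    (∀ n m u, Dn a c q univ n (Dn a c q univ m ψ) u = 0) →
    (∀ u : Pt, u none = -1 → (∀ i ∈ I, 0 ≤ u (some i)) →
      ψ u = 0 ∧ ∀ n, Dn a c q univ n ψ u = 0) →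
    (∀ u : Pt, u none = -1 → ∀ i ∈ I, u (some i) < 0 → (∀ k ∈ I, k ≠ i → 0 ≤ u (some k)) →
      Dn a c q univ (ei (some i)) ψ u = 0) →
    ψ 0 ≠ 0 → b.eval (-((q none : ℚ) : ℂ)) = 0

/-- A power of a variable divides the polynomial. -/
def RootLineStmt : Prop :=
  ∀ (κ : Type) [Fintype κ] [DecidableEq κ] (a : κ → Fin 3 →₀ ℕ) (c : κ → ℂ) (b : Polynomial ℂ),
    Function.Injective a → (∀ j, c j ≠ 0) → BEq a c b → ∀ (w : V3) (i : Fin 3), Supp a w →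
    (∀ k, k ≠ i → w k = 0) → (Tw a w).Nonempty → (∀ z : ℤ, ∑ k, w k ≠ z) →
    b.eval (-((∑ k, w k : ℚ) : ℂ)) = 0

/-- A face with two monomials `x_i x_j x_k ^ r` and `x_k ^ m`. -/
def RootTwoStmt : Prop :=
  ∀ (κ : Type) [Fintype κ] [DecidableEq κ] (a : κ → Fin 3 →₀ ℕ) (c : κ → ℂ) (b : Polynomial ℂ),
    BEq a c b → ∀ (w : V3) (i j : Fin 3) (A B : κ), i ≠ j → Supp a w → Tw a w = {A, B} →
    c A ≠ 0 → c B ≠ 0 → a A i = 1 → a A j = 1 → a B i = 0 → a B j = 0 →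
    (∀ z : ℤ, ∑ k, w k ≠ z) → b.eval (-((∑ k, w k : ℚ) : ℂ)) = 0

/-- An unbounded facet of height one with several monomials at height one. -/
def RootTransStmt : Prop :=
  ∀ (κ : Type) [Fintype κ] [DecidableEq κ] (a : κ → Fin 3 →₀ ℕ) (c : κ → ℂ) (b : Polynomial ℂ),
    Function.Injective a → (∀ j, c j ≠ 0) → NDeg a c → BEq a c b →
    ∀ (w : V3) (i j k : Fin 3), i ≠ j → i ≠ k → j ≠ k → Supp a w → 0 < w i → 0 < w j →
    w k = 0 → (∀ A ∈ Tw a w, a A j ≤ 1) →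
    (∃ A ∈ Tw a w, ∃ A' ∈ Tw a w, A ≠ A' ∧ a A j = 1 ∧ a A' j = 1) →
    (∃ B ∈ Tw a w, a B j = 0) → (∀ z : ℤ, ∑ k, w k ≠ z) →
    b.eval (-((∑ k, w k : ℚ) : ℂ)) = 0

/-- An unbounded facet that is not of height one. -/
def RootEdgeStmt : Prop :=
  ∀ (κ : Type) [Fintype κ] [DecidableEq κ] (a : κ → Fin 3 →₀ ℕ) (c : κ → ℂ) (b : Polynomial ℂ),
    Function.Injective a → NDeg a c → BEq a c b →
    ∀ (w : V3) (i j k : Fin 3), i ≠ j → i ≠ k → j ≠ k → Supp a w → 0 < w i → 0 < w j →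
    w k = 0 → (∃ A ∈ Tw a w, 2 ≤ a A i) → (∃ A ∈ Tw a w, 2 ≤ a A j) →
    (∃ A ∈ Tw a w, ∃ B ∈ Tw a w, a A i ≠ a B i) → ∑ k, w k ≠ 1 →
    b.eval (-((∑ k, w k : ℚ) : ℂ)) = 0

/-- A solution on a bounded facet, capped along some walls. -/
def RootCapStmt : Prop :=
  ∀ (κ : Type) [Fintype κ] [DecidableEq κ] (a : κ → Fin 3 →₀ ℕ) (c : κ → ℂ) (b : Polynomial ℂ),
    Function.Injective a → NDeg a c → BEq a c b →
    ∀ (w : V3) (q : Vq), (∀ i, 0 < w i) → Supp a w → Span a (Tw a w) → q = qq (∑ k, w k) one3 →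
    ∀ (C : Finset V3) (θ : V3 → ℚ),
    (∀ g ∈ C, IsWall a (Tw a w) g ∧ 0 < g ⬝ᵥ one3 ∧ 0 < θ g ∧ Nbr a (w + θ g • g)) →
    (∀ g ∈ C, ∀ g' ∈ C, g ≠ g' → ∀ u : Pt, InCone a (Tw a w) (hat q u) →
      lin g ⬝ᵥ hat q u = 0 → lin g' ⬝ᵥ hat q u ≠ 0) →
    ∀ φ : Pt → ℂ, Solves a c q (Tw a w)
      {u | hw w ⬝ᵥ hat q u = 0 ∧ ∀ g ∈ C, 0 < lin g ⬝ᵥ hat q u} φ 0 → φ 0 ≠ 0 →
    b.eval (-((∑ k, w k : ℚ) : ℂ)) = 0

/-- The choice of the shift. -/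
def TExistStmt : Prop :=
  ∀ (κ : Type) [Fintype κ] [DecidableEq κ] (a : κ → Fin 3 →₀ ℕ) (T : Finset κ) (w : V3),
    Function.Injective a → (∀ i, 0 < w i) → OnPl a T w → Span a T → (∀ i, ¬ Apex a T i) →
    (∃ t : Vq, GoodT a T t ∧ ∀ i, CoordWall a T i → 1 ≤ t (some i)) ∨
      ((∀ i, CoordWall a T i) ∧ InCone a T (qq (∑ k, w k) one3))

/-- The two criteria for the class of the origin to survive. -/
def CritStmt : Prop :=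
  ∀ (κ : Type) [Fintype κ] [DecidableEq κ] (a : κ → Fin 3 →₀ ℕ) (c : κ → ℂ) (T : Finset κ),
    Function.Injective a → (∀ j, c j ≠ 0) →
    (∀ q t : Vq, GoodT a T t → NotIn (F3 a c T) (CY a q T (q - t))) ∧
    ∀ (w : V3) (l : ℚ), OnPl a T w → FaceND a c T → (∀ i, CoordWall a T i) →
      (∀ j ∈ T, ∀ i, a j ≠ Finsupp.single i 1) → l < 2 →
      NotIn (F3 a c T) (CY a (qq l one3) T 0)

/-- A bounded facet that is not a pyramid of height one. -/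
def RootFacetStmt : Prop :=
  ∀ (κ : Type) [Fintype κ] [DecidableEq κ] (a : κ → Fin 3 →₀ ℕ) (c : κ → ℂ) (b : Polynomial ℂ),
    Function.Injective a → (∀ j, c j ≠ 0) → NDeg a c → BEq a c b →
    ∀ w : V3, (∀ i, 0 < w i) → Supp a w → Span a (Tw a w) → (∀ i, ¬ Apex a (Tw a w) i) →
    (∀ z : ℤ, ∑ k, w k ≠ z) → ∑ k, w k < 2 → b.eval (-((∑ k, w k : ℚ) : ℂ)) = 0

/-- Every facet that is not a pyramid of height one gives a root. -/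
def RootStmt : Prop :=
  ∀ (κ : Type) [Fintype κ] [DecidableEq κ] [Nonempty κ] (a : κ → Fin 3 →₀ ℕ) (c : κ → ℂ)
    (b : Polynomial ℂ), Function.Injective a → (∀ j, c j ≠ 0) → NDeg a c → BEq a c b →
    b.eval (-1) = 0 → ∀ w : V3, Supp a w → Rigid a w → (∀ i, ¬ B1 a w i) → ∑ k, w k < 2 →
    b.eval (-((∑ k, w k : ℚ) : ℂ)) = 0

/-- The local statement at a point of the torus. -/
def StarStmt : Prop :=
  ∀ (κ : Type) [Fintype κ] [DecidableEq κ] [Nonempty κ] (a : κ → Fin 3 →₀ ℕ) (c : κ → ℂ)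
    (b : Polynomial ℂ), Function.Injective a → (∀ j, c j ≠ 0) → NDeg a c → BEq a c b →
    b.eval (-1) = 0 → ∀ (I : Finset O) (J : Finset κ) (β : κ → ℝ), none ∉ I →
    (∀ i ∈ I, ∑ v, (Aof a v i : ℝ) * β v = -1) → (∀ v ∈ J, β v = 0) →
    b.eval ((∑ v, β v : ℝ) : ℂ) ≠ 0 → -2 < ∑ v, β v →
    ∀ (W : Type) [CommRing W] (l : κ → W), Rel (Aof a) I J l → ∏ v ∈ TT (Aof a) I J, l v = 0

/-- Divisibility of the number of solutions. -/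
def SegStmt : Prop :=
  ∀ (f : MvPolynomial (Fin 3) ℤ) (p : ℕ), p.Prime → ∀ m : ℕ, ∃ k : ℕ, 3 * m ≤ 2 * k + 3 ∧
    p ^ k ∣ Nat.card {x : Fin 3 → ZMod (p ^ m) // MvPolynomial.aeval x f = 0}

/-- No pole far out. -/
def NoPoleStmt : Prop :=
  ∀ (p : ℕ), p.Prime → ∀ s : ℕ → ℕ, (∀ m, ∃ k : ℕ, 3 * m ≤ 2 * k + 3 ∧ p ^ k ∣ s m) →
    ∀ A B : Polynomial ℚ, IsCoprime A B →
    (B : PowerSeries ℚ) * PowerSeries.mk (fun m : ℕ => (s m : ℚ) * (((p : ℚ) ^ 3)⁻¹) ^ m) =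
      (A : PowerSeries ℚ) →
    ∀ (T : ℂ) (N : ℕ) (ν : ℤ), Polynomial.aeval T B = 0 → 0 < N → T ^ N = (p : ℂ) ^ ν →
    2 * ν ≤ 3 * N

/-- The recurrence for the point counts. -/
def GlobStmt : Prop :=
  ∀ (κ : Type) [Fintype κ] [DecidableEq κ] (a : κ → Fin 3 →₀ ℕ) (c : κ → ℤ) (b : Polynomial ℂ)
    (p : ℕ), p.Prime → Function.Injective a → (∀ j, c j ≠ 0) →
    (∀ w : Fin 3 → ℕ, Nond (fac (fun i => w i) (∑ j, MvPolynomial.monomial (a j) (c j : ℂ)))) →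
    (∑ j, MvPolynomial.monomial (a j) (c j : ℂ)).totalDegree ≠ 0 →
    BEq a (fun j => (c j : ℂ)) b →
    ∃ R C : Polynomial ℂ, (R : PowerSeries ℂ) * PowerSeries.mk (fun m : ℕ =>
      (Nat.card {x : Fin 3 → ZMod (p ^ m) //
        MvPolynomial.aeval x (∑ j, MvPolynomial.monomial (a j) (c j)) = 0} : ℂ) *
        (((p : ℂ) ^ 3)⁻¹) ^ m) = (C : PowerSeries ℂ) ∧
      ∀ T : ℂ, R.eval T = 0 →
        (b.eval ((-(Real.log ‖T‖ / Real.log p) : ℝ) : ℂ) = 0 ∨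
          -(Real.log ‖T‖ / Real.log p) ≤ -2) ∧
        ∃ (N : ℕ) (ν : ℤ), 0 < N ∧ T ^ N = (p : ℂ) ^ ν

end Pool.Agent.MP_5d9b3c_ag.H48
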